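import Mathlib

/-!
# RV15W: the walk part of the Rodriguez-Villegas conjecture (five variables, discriminant -15)

Goal (file Main): with `m5 = log Mahler measure of 1+x1+x2+x3+x4`,
`m5 = 7 ζ(3) / (2 π²) + 96 ∫_{√15/6}^∞ y Ps(y) lr(y) dy`.

Here (`τ = -1/2 + i y`, `q = exp (2 π i τ) = - exp (-2 π y)`)
`lr y = log w(τ)`, `w(τ) = -64 (η(2τ) η(6τ) / (η(τ) η(3τ)))^6 = x(τ)²`,
`Ps y = Ψ(τ)`, `Ψ(τ) = (E4(τ) - E4(2τ) - 9 E4(3τ) + 9 E4(6τ)) / 480`.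
-/

set_option autoImplicit false

open MeasureTheory Set

namespace RV15W

noncomputable section

/-- `e a = exp (2 π i a)` -/
def e (a : ℝ) : ℂ := Complex.exp (2 * Real.pi * a * Complex.I)

/-- the logarithmic Mahler measure of `1+x1+x2+x3+x4` -/
def m5 : ℝ :=
  ∫ a in (0:ℝ)..1, ∫ b in (0:ℝ)..1, ∫ c in (0:ℝ)..1, ∫ d in (0:ℝ)..1,
    Real.log ‖1 + e a + e b + e c + e d‖

/-- Euler product `∏ (1 - q^n)` -/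
def Eu (q : ℂ) : ℂ := ∏' n : ℕ, (1 - q ^ (n + 1))

/-- cubic theta series `a(q) = Σ q^(m²+mn+n²)` -/
def ca (q : ℂ) : ℂ := ∑' v : ℤ × ℤ, q ^ (v.1 ^ 2 + v.1 * v.2 + v.2 ^ 2)

/-- the companion `c̃(q) = Σ q^(m²+mn+n²-m-n)` (`= q^(-1/3) c(q)`) -/
def ct (q : ℂ) : ℂ := ∑' v : ℤ × ℤ, q ^ (v.1 ^ 2 + v.1 * v.2 + v.2 ^ 2 - v.1 - v.2)

/-- `θ(z;q) = Σ (-1)^n z^n q^(n(n-1)/2)` -/
def th (z q : ℂ) : ℂ := ∑' n : ℤ, (-1 : ℂ) ^ n * z ^ n * q ^ (n * (n - 1) / 2)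

/-- the four weight one eta quotients of level 6 -/
def al (q : ℂ) : ℂ := Eu q ^ 6 * Eu (q ^ 6) / (Eu (q ^ 2) ^ 3 * Eu (q ^ 3) ^ 2)
def be (q : ℂ) : ℂ := 3 * Eu (q ^ 3) ^ 6 * Eu (q ^ 2) / (Eu q ^ 2 * Eu (q ^ 6) ^ 3)
def ga (q : ℂ) : ℂ := Eu (q ^ 2) ^ 6 * Eu (q ^ 3) / (Eu q ^ 3 * Eu (q ^ 6) ^ 2)
def de (q : ℂ) : ℂ := 3 * q * Eu (q ^ 6) ^ 6 * Eu q / (Eu (q ^ 2) ^ 2 * Eu (q ^ 3) ^ 3)

/-- `f(q) = ((E2 E6) / (E1 E3))^6`, so that `w(τ) = -64 q f(q)` and `T = q f(q)` -/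
def ff (q : ℂ) : ℂ := ((Eu (q ^ 2) * Eu (q ^ 6)) / (Eu q * Eu (q ^ 3))) ^ 6

/-- `w = -64 q f(q)` as a function of `q` -/
def wq (q : ℂ) : ℂ := -64 * q * ff q

/-- `q = exp (2 π i τ)` -/
def qq (τ : ℂ) : ℂ := Complex.exp (2 * Real.pi * Complex.I * τ)

/-- `w(τ)` -/
def wt (τ : ℂ) : ℂ := wq (qq τ)

/-- the weight 4 Eisenstein series as a function of `q` -/
def e4 (q : ℂ) : ℂ := 1 + 240 * ∑' n : ℕ, (ArithmeticFunction.sigma 3 (n + 1) : ℂ) * q ^ (n + 1)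

/-- the weight 4 form `Ψ` as a function of `q` -/
def psi (q : ℂ) : ℂ := (e4 q - e4 (q ^ 2) - 9 * e4 (q ^ 3) + 9 * e4 (q ^ 6)) / 480

/-- `q = - exp (-2 π y)` as a complex number -/
def qm (y : ℝ) : ℂ := -(Real.exp (-(2 * Real.pi * y)) : ℂ)

/-- `lr y = log w(-1/2 + i y)` -/
def lr (y : ℝ) : ℝ := Real.log ‖wq (qm y)‖

/-- `Ps y = Ψ(-1/2 + i y)` -/
def Ps (y : ℝ) : ℝ := (psi (qm y)).re

/-- the Domb numbers -/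
def Dn (n : ℕ) : ℕ :=
  ∑ k ∈ Finset.range (n + 1),
    (n.choose k) ^ 2 * ((2 * k).choose k) * ((2 * (n - k)).choose (n - k))

/-- `Σ (-1)^n D(n) T^n` -/
def hD (T : ℝ) : ℝ := ∑' n : ℕ, (-1) ^ n * (Dn n : ℝ) * T ^ n

/-- `2F1(1/3,2/3;1;x) = Σ (3n)! / (n!³ 27^n) x^n` -/
def hF (x : ℝ) : ℝ :=
  ∑' n : ℕ, (((3 * n).factorial : ℝ) / ((n.factorial : ℝ) ^ 3 * 27 ^ n)) * x ^ n

/-- real Euler product -/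
def rE (q : ℝ) : ℝ := ∏' n : ℕ, (1 - q ^ (n + 1))

/-- real cubic theta series -/
def ra (q : ℝ) : ℝ := ∑' v : ℤ × ℤ, q ^ (v.1 ^ 2 + v.1 * v.2 + v.2 ^ 2)

/-- `T(q) = q ((E2 E6)/(E1 E3))^6`, real -/
def rT (q : ℝ) : ℝ := q * ((rE (q ^ 2) * rE (q ^ 6)) / (rE q * rE (q ^ 3))) ^ 6

/-- `c³/a³ = 27 q E3^9 / (E1^3 a^3)` -/
def rX (q : ℝ) : ℝ := 27 * q * rE (q ^ 3) ^ 9 / (rE q ^ 3 * ra q ^ 3)

/-- nome on the imaginary axis -/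
def nm (y : ℝ) : ℝ := Real.exp (-(2 * Real.pi * y))

/-- `q d/dq` -/
def qd (f : ℂ → ℂ) (q : ℂ) : ℂ := q * deriv f q

/-- the quasimodular Eisenstein series of weight 2 (`= 1 - 24 Σ σ₁(n) q^n`) as a logarithmic derivative -/
def PP (q : ℂ) : ℂ := 1 + 24 * (qd Eu q / Eu q)

/-- `QQ = PP² - 12 q d/dq PP` (which is `e4`, see RV15W/Ram) -/
def QQ (q : ℂ) : ℂ := PP q ^ 2 - 12 * qd PP q

/-- `b(q)³ = E1^9/E3^3` -/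
def bb (q : ℂ) : ℂ := Eu q ^ 9 / Eu (q ^ 3) ^ 3

/-- `T(q) = q ((E2 E6)/(E1 E3))^6` -/
def TT (q : ℂ) : ℂ := q * ff q

/-- `Z(q) = (4 a(q²)² - a(q)²)/3` -/
def ZZ (q : ℂ) : ℂ := (4 * ca (q ^ 2) ^ 2 - ca q ^ 2) / 3

/-- real version of `ZZ` -/
def rZ (q : ℝ) : ℝ := (4 * ra (q ^ 2) ^ 2 - ra q ^ 2) / 3

/-- `Σ (-1)^n D(n) T^n`, complex -/
def hC (T : ℂ) : ℂ := ∑' n : ℕ, (-1) ^ n * (Dn n : ℂ) * T ^ n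

/-- a probability measure on `[0,16]` whose moments are the Domb numbers -/
def IsWalk (ν : Measure ℝ) : Prop :=
  IsProbabilityMeasure ν ∧ ν (Icc 0 16)ᶜ = 0 ∧ ∀ n : ℕ, ∫ x, x ^ n ∂ν = (Dn n : ℝ)

/-- the four step walk, written as `(1 + e a) + e b (1 + e c)` -/
def YY (v : ℝ × ℝ × ℝ) : ℂ := (1 + e v.1) + e v.2.1 * (1 + e v.2.2)

/-- Lebesgue measure on the cube -/
def mu : Measure (ℝ × ℝ × ℝ) := volume.restrict (Ioc 0 1 ×ˢ (Ioc 0 1 ×ˢ Ioc 0 1))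

/-- law of the squared length of the four step walk -/
def nu : Measure ℝ := mu.map fun v => ‖YY v‖ ^ 2

/-- `ζ(3)` -/
def z3 : ℝ := ∑' n : ℕ, 1 / ((n : ℝ) + 1) ^ 3

end

end RV15W
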