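import Mathlib
import Pool.Agent.RV15W.Defs

/-!
# RV15W/BasE: basic facts on the Euler product

Proof: `Eu` is `ModularForm.differentiableOn_tprod_one_sub_pow`, nonvanishing as in
`Pool/Agent/UFC/A/Th1.lean` (`eulP_ne`; copy privately); reality by pushing the cast through `tprod`
(multipliable), positivity: the product of positive factors with summable logarithms is positive
(nonzero real, limit of positive numbers).
-/

set_option autoImplicit false

namespace RV15W

theorem Eu_mult {q : ℂ} (hq : ‖q‖ < 1) : Multipliable fun n : ℕ => (1 - q ^ (n + 1)) :=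
  ModularForm.multipliable_one_sub_pow hq

theorem Eu_diff : DifferentiableOn ℂ Eu (Metric.ball 0 1) :=
  ModularForm.differentiableOn_tprod_one_sub_pow

theorem Eu_zero : Eu 0 = 1 := by
  unfold Eu
  simp

theorem Eu_ne {q : ℂ} (hq : ‖q‖ < 1) : Eu q ≠ 0 := by
  have h := tprod_one_add_ne_zero_of_summable (f := fun n : ℕ => -q ^ (n + 1)) ?_ ?_
  · unfold Eu
    simpa only [← sub_eq_add_neg] using h
  · intro n h0
    have h1 : q ^ (n + 1) = 1 := by
      have : 1 - q ^ (n + 1) = 0 := by rw [sub_eq_add_neg]; exact h0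
      exact (sub_eq_zero.mp this).symm
    have h2 : ‖q‖ ^ (n + 1) = 1 := by rw [← norm_pow, h1, norm_one]
    have h3 : ‖q‖ ^ (n + 1) < 1 := pow_lt_one₀ (norm_nonneg _) hq (Nat.succ_ne_zero n)
    linarith
  · simpa using (summable_nat_add_iff 1).mpr (summable_geometric_of_lt_one (norm_nonneg q) hq)

private theorem BasE_mult {q : ℝ} (hq : |q| < 1) :
    Multipliable fun n : ℕ => (1 - q ^ (n + 1)) := by
  have h : Summable fun n : ℕ => ‖-q ^ (n + 1)‖ := by
    simpa using (summable_nat_add_iff 1).mpr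
      (summable_geometric_of_lt_one (abs_nonneg q) hq)
  simpa only [← sub_eq_add_neg] using multipliable_one_add_of_summable h

theorem Eu_ofReal {q : ℝ} (hq : |q| < 1) : Eu (q : ℂ) = (rE q : ℂ) := by
  have h := (BasE_mult hq).hasProd.map Complex.ofRealHom Complex.continuous_ofReal
  have h2 := h.tprod_eq
  rw [Complex.ofRealHom_eq_coe] at h2
  unfold Eu rE
  rw [← h2]
  congr 1
  funext n
  simp

theorem rE_pos {q : ℝ} (hq : |q| < 1) : 0 < rE q := by
  have h0 : 0 ≤ rE q := by
    have h := (BasE_mult hq).hasProd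
    refine ge_of_tendsto' h fun s => ?_
    refine Finset.prod_nonneg fun n _ => ?_
    have h1 : |q ^ (n + 1)| ≤ 1 := by
      rw [abs_pow]
      exact pow_le_one₀ (abs_nonneg q) hq.le
    have h2 := (abs_le.mp h1).2
    linarith
  have h1 : rE q ≠ 0 := by
    intro h
    have h2 : Eu (q : ℂ) ≠ 0 := Eu_ne (by simpa using hq)
    rw [Eu_ofReal hq, h] at h2
    simp at h2
  exact lt_of_le_of_ne h0 (Ne.symm h1)

theorem rE_zero : rE 0 = 1 := by
  unfold rE
  simp

theorem rE_diff {q : ℝ} (hq : |q| < 1) : DifferentiableAt ℝ rE q := by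
  have hm : (q : ℂ) ∈ Metric.ball (0 : ℂ) 1 := by simpa using hq
  have h1 : DifferentiableAt ℂ Eu (q : ℂ) :=
    Eu_diff.differentiableAt (Metric.isOpen_ball.mem_nhds hm)
  have h2 := h1.hasDerivAt.real_of_complex
  have h3 : (fun x : ℝ => (Eu (x : ℂ)).re) =ᶠ[nhds q] rE := by
    have h4 : {x : ℝ | |x| < 1} ∈ nhds q :=
      (isOpen_lt continuous_abs continuous_const).mem_nhds hq
    filter_upwards [h4] with x hx
    rw [Eu_ofReal hx]
    simp
  exact (h2.congr_of_eventuallyEq h3.symm).differentiableAt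

end RV15W
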