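import Mathlib
import Pool.Agent.RV15W.Defs

/-!
# RV15W/BasA: basic facts on the cubic theta series

The quadratic form `m²+mn+n²` is `≥ (m²+n²)/2`, and `m²+mn+n²-m-n ≥ (m²+n²)/4 - 4`, so the double series converge
absolutely, locally uniformly (exponents are natural numbers: `m²+mn+n²-m-n ≥ 0` for integers).
At `q = 0` only the terms with exponent `0` survive (`0^0 = 1`).
-/

set_option autoImplicit false

namespace RV15W

/-- geometric summability over `ℤ` -/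
private theorem BasA_sumZ {s : ℝ} (h0 : 0 ≤ s) (h1 : s < 1) :
    Summable fun m : ℤ => s ^ m.natAbs := by
  apply Summable.of_nat_of_neg
  · simpa using summable_geometric_of_lt_one h0 h1
  · simpa using summable_geometric_of_lt_one h0 h1

private theorem BasA_sumZZ {s : ℝ} (h0 : 0 ≤ s) (h1 : s < 1) :
    Summable fun v : ℤ × ℤ => s ^ v.1.natAbs * s ^ v.2.natAbs :=
  (BasA_sumZ h0 h1).mul_of_nonneg (BasA_sumZ h0 h1) (fun _ => by positivity)
    (fun _ => by positivity)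

private theorem BasA_abs_le (m : ℤ) : (m.natAbs : ℤ) ≤ m ^ 2 := by
  rw [Int.natCast_natAbs]
  rcases eq_or_ne m 0 with rfl | h
  · simp
  · have h1 : 1 ≤ |m| := Int.one_le_abs h
    nlinarith [sq_abs m]

/-- the general summability statement: an exponent with `|m| + |n| ≤ 4 k + 8` -/
private theorem BasA_sum {r : ℝ} (h0 : 0 < r) (h1 : r < 1) (k : ℤ × ℤ → ℤ)
    (hk0 : ∀ v, 0 ≤ k v) (hk : ∀ v, (v.1.natAbs : ℤ) + v.2.natAbs ≤ 4 * k v + 8) :
    Summable fun v : ℤ × ℤ => r ^ (k v).toNat := by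
  set s : ℝ := r ^ (1 / 4 : ℝ) with hs
  have hs0 : 0 < s := Real.rpow_pos_of_pos h0 _
  have hs1 : s < 1 := Real.rpow_lt_one h0.le h1 (by norm_num)
  have hs4 : s ^ 4 = r := by
    rw [hs, ← Real.rpow_natCast, ← Real.rpow_mul h0.le]
    norm_num
  refine Summable.of_nonneg_of_le (fun v => by positivity) (fun v => ?_)
    ((BasA_sumZZ hs0.le hs1).mul_left (s ^ 8)⁻¹)
  have h2 : v.1.natAbs + v.2.natAbs ≤ 4 * (k v).toNat + 8 := by
    have := hk v
    have := hk0 v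
    omega
  have h3 : s ^ (4 * (k v).toNat + 8) ≤ s ^ (v.1.natAbs + v.2.natAbs) :=
    pow_le_pow_of_le_one hs0.le hs1.le h2
  rw [pow_add, pow_mul, hs4, pow_add] at h3
  rw [inv_mul_eq_div, le_div_iff₀ (by positivity)]
  exact h3

private theorem BasA_fa0 (v : ℤ × ℤ) : 0 ≤ v.1 ^ 2 + v.1 * v.2 + v.2 ^ 2 := by
  nlinarith [sq_nonneg (v.1 + v.2), sq_nonneg v.1, sq_nonneg v.2]

private theorem BasA_fa1 (v : ℤ × ℤ) :
    (v.1.natAbs : ℤ) + v.2.natAbs ≤ 4 * (v.1 ^ 2 + v.1 * v.2 + v.2 ^ 2) + 8 := by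
  nlinarith [sq_nonneg (v.1 + v.2), BasA_abs_le v.1, BasA_abs_le v.2, sq_nonneg v.1,
    sq_nonneg v.2]

private theorem BasA_ft0 (v : ℤ × ℤ) : 0 ≤ v.1 ^ 2 + v.1 * v.2 + v.2 ^ 2 - v.1 - v.2 := by
  obtain ⟨m, n⟩ := v
  show 0 ≤ m ^ 2 + m * n + n ^ 2 - m - n
  by_contra h
  push Not at h
  have h1 : m ^ 2 + m * n + n ^ 2 - m - n ≤ -1 := by omega
  have h2 : -1 ≤ m := by nlinarith [sq_nonneg (m + 2 * n - 1), sq_nonneg (m - 1)]
  have h3 : m ≤ 2 := by nlinarith [sq_nonneg (m + 2 * n - 1), sq_nonneg (m - 1)]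
  have h4 : -1 ≤ n := by nlinarith [sq_nonneg (n + 2 * m - 1), sq_nonneg (n - 1)]
  have h5 : n ≤ 2 := by nlinarith [sq_nonneg (n + 2 * m - 1), sq_nonneg (n - 1)]
  interval_cases m <;> interval_cases n <;> omega

private theorem BasA_ft1 (v : ℤ × ℤ) :
    (v.1.natAbs : ℤ) + v.2.natAbs ≤ 4 * (v.1 ^ 2 + v.1 * v.2 + v.2 ^ 2 - v.1 - v.2) + 8 := by
  nlinarith [sq_nonneg (v.1 + v.2), BasA_abs_le v.1, BasA_abs_le v.2, sq_nonneg (v.1 - 2),
    sq_nonneg (v.2 - 2)]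

private theorem BasA_pow (q : ℂ) {k : ℤ} (hk : 0 ≤ k) : q ^ k = q ^ k.toNat := by
  conv_lhs => rw [← Int.toNat_of_nonneg hk]
  rw [zpow_natCast]

private theorem BasA_max {q : ℂ} (hq : ‖q‖ < 1) :
    0 < max ‖q‖ (1 / 2) ∧ max ‖q‖ (1 / 2) < 1 :=
  ⟨lt_max_of_lt_right (by norm_num), max_lt hq (by norm_num)⟩

theorem ca_summable {q : ℂ} (hq : ‖q‖ < 1) :
    Summable fun v : ℤ × ℤ => ‖q ^ (v.1 ^ 2 + v.1 * v.2 + v.2 ^ 2)‖ := by
  obtain ⟨h0, h1⟩ := BasA_max hq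
  refine Summable.of_nonneg_of_le (fun v => norm_nonneg _) (fun v => ?_)
    (BasA_sum h0 h1 _ BasA_fa0 BasA_fa1)
  rw [BasA_pow q (BasA_fa0 v), norm_pow]
  exact pow_le_pow_left₀ (norm_nonneg _) (le_max_left _ _) _

theorem ct_summable {q : ℂ} (hq : ‖q‖ < 1) :
    Summable fun v : ℤ × ℤ => ‖q ^ (v.1 ^ 2 + v.1 * v.2 + v.2 ^ 2 - v.1 - v.2)‖ := by
  obtain ⟨h0, h1⟩ := BasA_max hq
  refine Summable.of_nonneg_of_le (fun v => norm_nonneg _) (fun v => ?_)
    (BasA_sum h0 h1 _ BasA_ft0 BasA_ft1)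
  rw [BasA_pow q (BasA_ft0 v), norm_pow]
  exact pow_le_pow_left₀ (norm_nonneg _) (le_max_left _ _) _

theorem ca_ofReal (q : ℝ) : ca (q : ℂ) = (ra q : ℂ) := by
  unfold ca ra
  rw [Complex.ofReal_tsum]
  refine tsum_congr fun v => ?_
  rw [Complex.ofReal_zpow]

theorem ca_diff : DifferentiableOn ℂ ca (Metric.ball 0 1) := by
  intro q hq
  rw [Metric.mem_ball, dist_zero_right] at hq
  obtain ⟨ρ, hρ1, hρ2⟩ := exists_between hq
  have hρ0 : 0 < ρ := lt_of_le_of_lt (norm_nonneg _) hρ1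
  have hU : DifferentiableOn ℂ ca (Metric.ball 0 ρ) := by
    unfold ca
    refine Complex.differentiableOn_tsum_of_summable_norm
      (BasA_sum hρ0 hρ2 _ BasA_fa0 BasA_fa1) (fun v => ?_) Metric.isOpen_ball
      (fun v w hw => ?_)
    · have : (fun w : ℂ => w ^ (v.1 ^ 2 + v.1 * v.2 + v.2 ^ 2)) =
          fun w : ℂ => w ^ (v.1 ^ 2 + v.1 * v.2 + v.2 ^ 2).toNat := by
        funext w
        exact BasA_pow w (BasA_fa0 v)
      rw [this]
      exact (differentiable_id.pow _).differentiableOn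
    · rw [Metric.mem_ball, dist_zero_right] at hw
      rw [BasA_pow w (BasA_fa0 v), norm_pow]
      exact pow_le_pow_left₀ (norm_nonneg _) hw.le _
  exact ((hU.differentiableAt (Metric.isOpen_ball.mem_nhds (by
    rw [Metric.mem_ball, dist_zero_right]; exact hρ1))).differentiableWithinAt)

theorem ca_zero : ca 0 = 1 := by
  unfold ca
  rw [tsum_eq_single ((0, 0) : ℤ × ℤ)]
  · simp
  · rintro ⟨m, n⟩ hv
    apply zero_zpow
    intro h
    apply hv
    have h' : m ^ 2 + m * n + n ^ 2 = 0 := h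
    have h1 : m = 0 := by
      have : m ^ 2 ≤ 0 := by nlinarith [sq_nonneg (m + n), sq_nonneg n]
      exact pow_eq_zero_iff (two_ne_zero) |>.1 (le_antisymm this (sq_nonneg m))
    have h2 : n = 0 := by
      have : n ^ 2 ≤ 0 := by nlinarith [sq_nonneg (m + n), sq_nonneg m]
      exact pow_eq_zero_iff (two_ne_zero) |>.1 (le_antisymm this (sq_nonneg n))
    rw [h1, h2]

private theorem BasA_ra_eq : ra = fun x : ℝ => (ca (x : ℂ)).re := by
  funext x
  rw [ca_ofReal, Complex.ofReal_re]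

theorem ra_diff {q : ℝ} (hq : |q| < 1) : DifferentiableAt ℝ ra q := by
  have h1 : DifferentiableAt ℂ ca (q : ℂ) := by
    refine ca_diff.differentiableAt (Metric.isOpen_ball.mem_nhds ?_)
    rw [Metric.mem_ball, dist_zero_right, Complex.norm_real]
    exact hq
  rw [BasA_ra_eq]
  exact (h1.hasDerivAt.real_of_complex).differentiableAt

/-- `a(q) → 1` as `q → 0` -/
theorem ra_tendsto : Filter.Tendsto ra (nhds 0) (nhds 1) := by
  have h1 : ra 0 = 1 := by
    have h := ca_ofReal 0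
    rw [Complex.ofReal_zero, ca_zero] at h
    exact_mod_cast h.symm
  have h2 := (ra_diff (q := 0) (by norm_num)).continuousAt
  have h3 : Filter.Tendsto ra (nhds 0) (nhds (ra 0)) := h2
  rwa [h1] at h3

theorem ra_pos {q : ℝ} (h0 : 0 ≤ q) (h1 : q < 1) : 1 ≤ ra q := by
  have hs : Summable fun v : ℤ × ℤ => q ^ (v.1 ^ 2 + v.1 * v.2 + v.2 ^ 2) := by
    have h := ca_summable (q := (q : ℂ)) (by
      rw [Complex.norm_real, Real.norm_of_nonneg h0]; exact h1)
    refine h.congr fun v => ?_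
    rw [norm_zpow, Complex.norm_real, Real.norm_of_nonneg h0]
  have h := hs.le_tsum ((0, 0) : ℤ × ℤ) (fun v _ => zpow_nonneg h0 _)
  unfold ra
  simpa using h

end RV15W
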