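import Mathlib
import Pool.Agent.RV15W.Defs

/-!
# RV15W/BasP: basic facts on `e4`, `psi`, `Ps`

`σ₃(n) ≤ n^4`, so the series converge locally uniformly on the disc.  `psi q = q · (power series)`.
-/

set_option autoImplicit false

open MeasureTheory Set Filter

namespace RV15W

private theorem sig_le (n : ℕ) :
    ‖(ArithmeticFunction.sigma 3 (n + 1) : ℂ)‖ ≤ ((n : ℝ) + 1) ^ 4 := by
  rw [Complex.norm_natCast, ArithmeticFunction.sigma_apply]
  have h1 : ∀ d ∈ (n + 1).divisors, d ^ 3 ≤ (n + 1) ^ 3 := fun d hd =>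
    Nat.pow_le_pow_left (Nat.divisor_le hd) 3
  have h2 : ∑ d ∈ (n + 1).divisors, d ^ 3 ≤ (n + 1).divisors.card • (n + 1) ^ 3 :=
    Finset.sum_le_card_nsmul _ _ _ h1
  have h3 : (n + 1).divisors.card ≤ n + 1 := Nat.card_divisors_le_self _
  have h4 : ∑ d ∈ (n + 1).divisors, d ^ 3 ≤ (n + 1) ^ 4 := by
    calc ∑ d ∈ (n + 1).divisors, d ^ 3 ≤ (n + 1).divisors.card • (n + 1) ^ 3 := h2
      _ = (n + 1).divisors.card * (n + 1) ^ 3 := by rw [smul_eq_mul]
      _ ≤ (n + 1) * (n + 1) ^ 3 := Nat.mul_le_mul_right _ h3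
      _ = (n + 1) ^ 4 := by ring
  exact_mod_cast h4

private theorem sumR {r : ℝ} (h0 : 0 ≤ r) (h1 : r < 1) :
    Summable fun n : ℕ => ((n : ℝ) + 1) ^ 4 * r ^ n := by
  rcases eq_or_lt_of_le h0 with h | h
  · subst h
    refine summable_of_ne_finset_zero (s := {0}) ?_
    intro n hn
    have : n ≠ 0 := by simpa using hn
    simp [zero_pow this]
  · have hs := summable_pow_mul_geometric_of_norm_lt_one (R := ℝ) 4
      (r := r) (by rw [Real.norm_of_nonneg h0]; exact h1)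
    have hs2 := (summable_nat_add_iff 1).mpr hs
    have := hs2.mul_left (r⁻¹)
    refine this.congr ?_
    intro n
    push_cast
    rw [pow_succ r n]
    field_simp

private theorem sumR1 {r : ℝ} (h0 : 0 ≤ r) (h1 : r < 1) :
    Summable fun n : ℕ => ((n : ℝ) + 1) ^ 4 * r ^ (n + 1) := by
  refine ((sumR h0 h1).mul_left r).congr ?_
  intro n
  ring

theorem e4_summable {q : ℂ} (hq : ‖q‖ < 1) :
    Summable fun n : ℕ => ‖(ArithmeticFunction.sigma 3 (n + 1) : ℂ) * q ^ (n + 1)‖ := by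
  refine Summable.of_nonneg_of_le (fun n => norm_nonneg _) ?_ (sumR1 (norm_nonneg q) hq)
  intro n
  rw [norm_mul, norm_pow]
  exact mul_le_mul_of_nonneg_right (sig_le n) (by positivity)

theorem e4_diff : DifferentiableOn ℂ e4 (Metric.ball 0 1) := by
  intro z hz
  have hz1 : ‖z‖ < 1 := by simpa using hz
  obtain ⟨r, hr1, hr2⟩ := exists_between hz1
  have h0 : 0 ≤ r := (norm_nonneg z).trans hr1.le
  have hd : DifferentiableOn ℂ
      (fun w : ℂ => ∑' n : ℕ, (ArithmeticFunction.sigma 3 (n + 1) : ℂ) * w ^ (n + 1))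
      (Metric.ball 0 r) := by
    refine Complex.differentiableOn_tsum_of_summable_norm (sumR1 h0 hr2) ?_ Metric.isOpen_ball ?_
    · intro n
      exact (((differentiable_id.pow (n + 1)).const_mul _).differentiableOn)
    · intro n w hw
      have hw1 : ‖w‖ ≤ r := by
        have : ‖w‖ < r := by simpa using hw
        exact this.le
      rw [norm_mul, norm_pow]
      exact mul_le_mul (sig_le n) (pow_le_pow_left₀ (norm_nonneg _) hw1 _) (by positivity)
        (by positivity)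
  have hzr : z ∈ Metric.ball (0 : ℂ) r := by simpa using hr1
  have hda := (hd z hzr).differentiableAt (Metric.isOpen_ball.mem_nhds hzr)
  exact ((hda.const_mul 240).const_add 1).differentiableWithinAt

private theorem pow_ball {q : ℂ} (k : ℕ) (hk : k ≠ 0) (hq : q ∈ Metric.ball (0 : ℂ) 1) :
    q ^ k ∈ Metric.ball (0 : ℂ) 1 := by
  have h1 : ‖q‖ < 1 := by simpa using hq
  have : ‖q ^ k‖ < 1 := by
    rw [norm_pow]
    exact pow_lt_one₀ (norm_nonneg _) h1 hk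
  simpa using this

theorem psi_diff : DifferentiableOn ℂ psi (Metric.ball 0 1) := by
  have h : ∀ k : ℕ, k ≠ 0 → DifferentiableOn ℂ (fun q : ℂ => e4 (q ^ k)) (Metric.ball 0 1) := by
    intro k hk
    exact e4_diff.comp ((differentiable_id.pow k).differentiableOn)
      (fun q hq => pow_ball k hk hq)
  have h2 := h 2 (by norm_num)
  have h3 := h 3 (by norm_num)
  have h6 := h 6 (by norm_num)
  unfold psi
  exact ((((e4_diff.sub h2).sub (h3.const_mul 9)).add (h6.const_mul 9)).div_const 480)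

private theorem e4_ofReal (q : ℝ) : (((e4 (q : ℂ)).re : ℝ) : ℂ) = e4 (q : ℂ) := by
  have h : e4 (q : ℂ) = ((1 + 240 * ∑' n : ℕ, (ArithmeticFunction.sigma 3 (n + 1) : ℝ)
      * q ^ (n + 1) : ℝ) : ℂ) := by
    unfold e4
    push_cast
    rfl
  rw [h, Complex.ofReal_re]

theorem psi_ofReal (q : ℝ) : ((psi (q : ℂ)).re : ℂ) = psi (q : ℂ) := by
  have h1 := e4_ofReal q
  have h2 := e4_ofReal (q ^ 2)
  have h3 := e4_ofReal (q ^ 3)
  have h6 := e4_ofReal (q ^ 6)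
  push_cast at h2 h3 h6
  have h : psi (q : ℂ) = ((((e4 (q : ℂ)).re - (e4 ((q : ℂ) ^ 2)).re - 9 * (e4 ((q : ℂ) ^ 3)).re
      + 9 * (e4 ((q : ℂ) ^ 6)).re) / 480 : ℝ) : ℂ) := by
    unfold psi
    push_cast
    rw [h1, h2, h3, h6]
  rw [h, Complex.ofReal_re]

theorem psi_zero : psi 0 = 0 := by
  have h : e4 0 = 1 := by
    unfold e4
    simp
  unfold psi
  simp only [ne_eq, OfNat.ofNat_ne_zero, not_false_eq_true, zero_pow, h]
  norm_num

private theorem qm_norm (y : ℝ) : ‖qm y‖ = Real.exp (-(2 * Real.pi * y)) := by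
  unfold qm
  rw [norm_neg, Complex.norm_real, Real.norm_of_nonneg (Real.exp_pos _).le]

theorem Ps_cont : ContinuousOn Ps (Ioi 0) := by
  have h1 : ContinuousOn qm (Ioi 0) := by
    unfold qm
    fun_prop
  have h2 : MapsTo qm (Ioi 0) (Metric.ball 0 1) := by
    intro y hy
    have hy0 : (0 : ℝ) < y := hy
    have : ‖qm y‖ < 1 := by
      rw [qm_norm]
      apply Real.exp_lt_one_iff.mpr
      have := Real.pi_pos
      nlinarith [mul_pos Real.pi_pos hy0]
    simpa using this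
  exact Complex.continuous_re.comp_continuousOn (psi_diff.continuousOn.comp h1 h2)

private theorem e4_lin {r : ℝ} (h0 : 0 ≤ r) (h1 : r < 1) :
    ∃ C : ℝ, 0 ≤ C ∧ ∀ q : ℂ, ‖q‖ ≤ r → ‖e4 q - 1‖ ≤ C * ‖q‖ := by
  refine ⟨240 * ∑' n : ℕ, ((n : ℝ) + 1) ^ 4 * r ^ n, ?_, ?_⟩
  · exact mul_nonneg (by norm_num) (tsum_nonneg fun n => by positivity)
  · intro q hq
    have hs := sumR h0 h1
    have hb : ∀ n : ℕ, ‖(ArithmeticFunction.sigma 3 (n + 1) : ℂ) * q ^ (n + 1)‖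
        ≤ (((n : ℝ) + 1) ^ 4 * r ^ n) * ‖q‖ := by
      intro n
      rw [norm_mul, norm_pow, pow_succ ‖q‖ n, ← mul_assoc]
      refine mul_le_mul_of_nonneg_right ?_ (norm_nonneg _)
      exact mul_le_mul (sig_le n) (pow_le_pow_left₀ (norm_nonneg _) hq _) (by positivity)
        (by positivity)
    have ht : ‖∑' n : ℕ, (ArithmeticFunction.sigma 3 (n + 1) : ℂ) * q ^ (n + 1)‖
        ≤ (∑' n : ℕ, ((n : ℝ) + 1) ^ 4 * r ^ n) * ‖q‖ := by
      have := tsum_of_norm_bounded (hs.mul_right ‖q‖).hasSum hb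
      rwa [tsum_mul_right] at this
    have he : e4 q - 1 = 240 * ∑' n : ℕ, (ArithmeticFunction.sigma 3 (n + 1) : ℂ)
        * q ^ (n + 1) := by
      unfold e4
      ring
    rw [he, norm_mul]
    have h240 : ‖(240 : ℂ)‖ = 240 := by norm_num
    rw [h240, mul_assoc]
    exact mul_le_mul_of_nonneg_left ht (by norm_num)

/-- exponential decay: for every `y1 > 0` there is `C` with `|Ps s| ≤ C exp(-2πs)` for `s ≥ y1` -/
theorem Ps_le {y1 : ℝ} (hy : 0 < y1) :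
    ∃ C : ℝ, ∀ s : ℝ, y1 ≤ s → |Ps s| ≤ C * Real.exp (-(2 * Real.pi * s)) := by
  have hr1 : Real.exp (-(2 * Real.pi * y1)) < 1 := by
    apply Real.exp_lt_one_iff.mpr
    nlinarith [mul_pos Real.pi_pos hy]
  obtain ⟨C, hC0, hC⟩ := e4_lin (Real.exp_pos (-(2 * Real.pi * y1))).le hr1
  refine ⟨C, ?_⟩
  intro s hs
  have hqn : ‖qm s‖ = Real.exp (-(2 * Real.pi * s)) := qm_norm s
  have hqr : ‖qm s‖ ≤ Real.exp (-(2 * Real.pi * y1)) := by
    rw [hqn]
    apply Real.exp_le_exp.mpr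
    have := mul_le_mul_of_nonneg_left hs (mul_pos two_pos Real.pi_pos).le
    linarith
  have hq1 : ‖qm s‖ ≤ 1 := hqr.trans hr1.le
  have hpow : ∀ k : ℕ, k ≠ 0 → ‖e4 (qm s ^ k) - 1‖ ≤ C * ‖qm s‖ := by
    intro k hk
    have h1 : ‖qm s ^ k‖ ≤ ‖qm s‖ := by
      rw [norm_pow]
      exact pow_le_of_le_one (norm_nonneg _) hq1 hk
    exact (hC _ (h1.trans hqr)).trans (mul_le_mul_of_nonneg_left h1 hC0)
  have h1 := hC _ hqr
  have h2 := hpow 2 (by norm_num)
  have h3 := hpow 3 (by norm_num)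
  have h6 := hpow 6 (by norm_num)
  have hpsi : psi (qm s) = ((e4 (qm s) - 1) - (e4 (qm s ^ 2) - 1) - 9 * (e4 (qm s ^ 3) - 1)
      + 9 * (e4 (qm s ^ 6) - 1)) / 480 := by
    unfold psi
    ring
  have h9 : ‖(9 : ℂ)‖ = 9 := by norm_num
  have h480 : ‖(480 : ℂ)‖ = 480 := by norm_num
  have hn : ‖psi (qm s)‖ ≤ C * ‖qm s‖ := by
    rw [hpsi, norm_div, h480]
    have hsum : ‖(e4 (qm s) - 1) - (e4 (qm s ^ 2) - 1) - 9 * (e4 (qm s ^ 3) - 1)
        + 9 * (e4 (qm s ^ 6) - 1)‖ ≤ 20 * (C * ‖qm s‖) := by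
      calc ‖(e4 (qm s) - 1) - (e4 (qm s ^ 2) - 1) - 9 * (e4 (qm s ^ 3) - 1)
          + 9 * (e4 (qm s ^ 6) - 1)‖
          ≤ ‖(e4 (qm s) - 1) - (e4 (qm s ^ 2) - 1) - 9 * (e4 (qm s ^ 3) - 1)‖
            + ‖9 * (e4 (qm s ^ 6) - 1)‖ := norm_add_le _ _
        _ ≤ (‖(e4 (qm s) - 1) - (e4 (qm s ^ 2) - 1)‖ + ‖9 * (e4 (qm s ^ 3) - 1)‖)
            + ‖9 * (e4 (qm s ^ 6) - 1)‖ := by gcongr; exact norm_sub_le _ _
        _ ≤ ((‖e4 (qm s) - 1‖ + ‖e4 (qm s ^ 2) - 1‖) + ‖9 * (e4 (qm s ^ 3) - 1)‖)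
            + ‖9 * (e4 (qm s ^ 6) - 1)‖ := by gcongr; exact norm_sub_le _ _
        _ ≤ 20 * (C * ‖qm s‖) := by
            rw [norm_mul, norm_mul, h9]
            linarith
    have hnn : 0 ≤ C * ‖qm s‖ := mul_nonneg hC0 (norm_nonneg _)
    rw [div_le_iff₀ (by norm_num)]
    linarith
  unfold Ps
  rw [hqn] at hn
  exact (Complex.abs_re_le_norm _).trans hn

end RV15W
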