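import Mathlib
import Pool.Agent.RV15W.Defs
import Pool.Agent.RV15W.BasE
import Pool.Agent.RV15W.BasA
import Pool.Agent.RV15W.BasP

/-!
# RV15W/Bas: collects BasE, BasA, BasP
-/
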