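import Mathlib
import Pool.Agent.RV15W.Defs

/-!
# RV15W/JT: the Jacobi triple product

`Σ_{n∈ℤ} (-1)^n z^n q^(n(n-1)/2) = Π_{n≥0} (1 - z q^n)(1 - q^(n+1)/z)(1 - q^(n+1))`.

Proof (finite version + Tannery).  With `(q)_m = Π_{k=1}^m (1-q^k)` (nonzero as `‖q‖ < 1`) one has, for every `N`,
`Π_{n=0}^{N-1} (1 - z q^n)(1 - q^(n+1)/z) = Σ_{n=-N}^{N} (-1)^n z^n q^(n(n-1)/2) (q)_{2N} / ((q)_{N+n} (q)_{N-n})`
(induction on `N`: multiply the formula for `N` by `(1 - z q^N)(1 - q^(N+1)/z)` and compare the coefficients of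
`z^n`).  Multiply by `(q)_N` and let `N → ∞`: `(q)_N (q)_{2N} / ((q)_{N+n} (q)_{N-n}) → 1`, is bounded by a constant
(`‖(q)_m‖` is between two positive constants), and `Σ |z|^n |q|^(n(n-1)/2)` converges: dominated convergence.
-/

set_option autoImplicit false

namespace RV15W

open Filter Topology

theorem JT_two_mul (n : ℤ) : 2 * (n * (n - 1) / 2) = n * (n - 1) := by
  have h : Even (n * (n - 1)) := by
    have := Int.even_mul_pred_self n
    exact this
  exact Int.mul_ediv_cancel' h.two_dvd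

theorem JT_succ (n : ℤ) : (n + 1) * (n + 1 - 1) / 2 = n * (n - 1) / 2 + n := by
  have h1 := JT_two_mul n
  have h2 := JT_two_mul (n + 1)
  have h3 : (n + 1) * (n + 1 - 1) = n * (n - 1) + 2 * n := by ring
  linarith

theorem JT_pred (n : ℤ) : (n - 1) * (n - 1 - 1) / 2 = n * (n - 1) / 2 - (n - 1) := by
  have h1 := JT_two_mul n
  have h2 := JT_two_mul (n - 1)
  have h3 : (n - 1) * (n - 1 - 1) = n * (n - 1) - 2 * (n - 1) := by ring
  linarith

theorem JT_nat (n : ℕ) : (n : ℤ) * ((n : ℤ) - 1) / 2 = ((n.choose 2 : ℕ) : ℤ) := by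
  induction n with
  | zero => simp
  | succ n ih =>
    have h := JT_succ (n : ℤ)
    push_cast
    rw [h, ih, Nat.choose_succ_succ' n 1]
    push_cast
    simp
    ring

theorem JT_neg (n : ℕ) : (-(n : ℤ)) * (-(n : ℤ) - 1) / 2 = (((n + 1).choose 2 : ℕ) : ℤ) := by
  rw [← JT_nat (n + 1)]
  congr 1
  push_cast
  ring

theorem JT_sum_aux {r K : ℝ} (hr0 : 0 < r) (hr1 : r < 1) (hK : 1 ≤ K) :
    Summable fun n : ℕ => K ^ n * r ^ (n.choose 2) := by
  have hK0 : 0 < K := lt_of_lt_of_le one_pos hK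
  refine summable_of_ratio_test_tendsto_lt_one (l := 0) (by norm_num) ?_ ?_
  · refine Eventually.of_forall fun n => ?_
    positivity
  · have h1 : ∀ n : ℕ, ‖K ^ (n + 1) * r ^ ((n + 1).choose 2)‖ / ‖K ^ n * r ^ (n.choose 2)‖ =
        K * r ^ n := by
      intro n
      have e1 : (n + 1).choose 2 = n + n.choose 2 := by
        rw [Nat.choose_succ_succ' n 1]; simp
      rw [Real.norm_of_nonneg (by positivity), Real.norm_of_nonneg (by positivity), e1, pow_add,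
        pow_succ]
      have h2 : K ^ n * r ^ (n.choose 2) ≠ 0 := by positivity
      rw [div_eq_iff h2]
      ring
    simp_rw [h1]
    have := (tendsto_pow_atTop_nhds_zero_of_lt_one hr0.le hr1).const_mul K
    simpa using this

theorem JT_sum_aux' {r K : ℝ} (hr0 : 0 < r) (hr1 : r < 1) (hK : 1 ≤ K) :
    Summable fun n : ℕ => K ^ n * r ^ ((n + 1).choose 2) := by
  have h := (summable_nat_add_iff 1).mpr (JT_sum_aux hr0 hr1 hK)
  have hK0 : 0 < K := lt_of_lt_of_le one_pos hK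
  refine Summable.of_nonneg_of_le (fun n => by positivity) (fun n => ?_) h
  have : K ^ n ≤ K ^ (n + 1) := pow_le_pow_right₀ hK (Nat.le_succ n)
  exact mul_le_mul_of_nonneg_right this (by positivity)

/-- absolute convergence with polynomial or exponential weights -/
theorem th_summable {q : ℂ} (hq : ‖q‖ < 1) (hq0 : q ≠ 0) (φ : ℤ → ℂ) (C K : ℝ) (hK : 1 ≤ K)
    (hφ : ∀ n, ‖φ n‖ ≤ C * K ^ n.natAbs) :
    Summable fun n : ℤ => ‖(-1 : ℂ) ^ n * φ n * q ^ (n * (n - 1) / 2)‖ := by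
  have hr0 : 0 < ‖q‖ := norm_pos_iff.mpr hq0
  have hb : Summable fun n : ℤ => C * (K ^ n.natAbs * ‖q‖ ^ (n * (n - 1) / 2)) := by
    refine Summable.mul_left C ?_
    refine Summable.of_nat_of_neg ?_ ?_
    · refine (JT_sum_aux hr0 hq hK).congr fun n => ?_
      rw [JT_nat, zpow_natCast, Int.natAbs_natCast]
    · refine (JT_sum_aux' hr0 hq hK).congr fun n => ?_
      rw [JT_neg, zpow_natCast, Int.natAbs_neg, Int.natAbs_natCast]
  refine Summable.of_nonneg_of_le (fun n => norm_nonneg _) (fun n => ?_) hb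
  rw [norm_mul, norm_mul, norm_zpow, norm_zpow, norm_neg, norm_one, one_zpow, one_mul, ← mul_assoc]
  exact mul_le_mul_of_nonneg_right (hφ n) (zpow_nonneg hr0.le _)

set_option linter.unusedVariables false in
theorem jtp_mult {q z : ℂ} (hq : ‖q‖ < 1) (hz : z ≠ 0) :
    Multipliable fun n : ℕ => (1 - z * q ^ n) * (1 - q ^ (n + 1) / z) * (1 - q ^ (n + 1)) := by
  have hg : Summable fun n : ℕ => ‖q‖ ^ n := summable_geometric_of_lt_one (norm_nonneg _) hq
  have hg1 : Summable fun n : ℕ => ‖q‖ ^ (n + 1) := (summable_nat_add_iff 1).mpr hg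
  have h1 : Multipliable fun n : ℕ => (1 - z * q ^ n) := by
    apply multipliable_one_add_of_summable (f := fun n => -(z * q ^ n))
    simpa [norm_mul, norm_pow] using hg.mul_left ‖z‖
  have h2 : Multipliable fun n : ℕ => (1 - q ^ (n + 1) / z) := by
    apply multipliable_one_add_of_summable (f := fun n => -(q ^ (n + 1) / z))
    simpa [norm_div, norm_pow] using hg1.div_const ‖z‖
  have h3 : Multipliable fun n : ℕ => (1 - q ^ (n + 1)) := by
    apply multipliable_one_add_of_summable (f := fun n => -(q ^ (n + 1)))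
    simpa [norm_pow] using hg1
  exact (h1.mul h2).mul h3

/-- `(q)_m` -/
noncomputable def JT_P (q : ℂ) (m : ℕ) : ℂ := ∏ k ∈ Finset.range m, (1 - q ^ (k + 1))

/-- `1/(q)_k`, zero for negative `k` -/
noncomputable def JT_R (q : ℂ) (k : ℤ) : ℂ := if k < 0 then 0 else (JT_P q k.toNat)⁻¹

theorem JT_one_sub_ne {q : ℂ} (hq : ‖q‖ < 1) (k : ℕ) : 1 - q ^ (k + 1) ≠ 0 := by
  intro h
  have h1 : q ^ (k + 1) = 1 := (sub_eq_zero.mp h).symm
  have h2 : ‖q‖ ^ (k + 1) = 1 := by rw [← norm_pow, h1, norm_one]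
  have h3 : ‖q‖ ^ (k + 1) < 1 := pow_lt_one₀ (norm_nonneg _) hq (Nat.succ_ne_zero k)
  linarith

theorem JT_P_ne {q : ℂ} (hq : ‖q‖ < 1) (m : ℕ) : JT_P q m ≠ 0 :=
  Finset.prod_ne_zero_iff.mpr fun k _ => JT_one_sub_ne hq k

theorem JT_P_succ (q : ℂ) (m : ℕ) : JT_P q (m + 1) = JT_P q m * (1 - q ^ (m + 1)) :=
  Finset.prod_range_succ _ _

theorem JT_R_rec {q : ℂ} (hq : ‖q‖ < 1) (k : ℤ) : JT_R q (k - 1) = JT_R q k * (1 - q ^ k) := by
  unfold JT_R
  rcases lt_trichotomy k 0 with h | h | h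
  · rw [if_pos (by linarith), if_pos h, zero_mul]
  · subst h
    simp
  · obtain ⟨m, rfl⟩ : ∃ m : ℕ, k = (m : ℤ) + 1 := ⟨(k - 1).toNat, by
      rw [Int.toNat_of_nonneg (by linarith)]; ring⟩
    have e1 : ((m : ℤ) + 1 - 1).toNat = m := by simp
    have e2 : ((m : ℤ) + 1).toNat = m + 1 := by
      have : ((m : ℤ) + 1) = ((m + 1 : ℕ) : ℤ) := by push_cast; rfl
      rw [this, Int.toNat_natCast]
    rw [if_neg (by simp), if_neg (by linarith), e1, e2, JT_P_succ]
    have h1 := JT_P_ne hq m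
    have h2 := JT_one_sub_ne hq m
    have h3 : q ^ ((m : ℤ) + 1) = q ^ (m + 1) := by
      have : ((m : ℤ) + 1) = ((m + 1 : ℕ) : ℤ) := by push_cast; rfl
      rw [this, zpow_natCast]
    rw [h3]
    field_simp

/-- the terms of the finite version -/
noncomputable def JT_f (z q : ℂ) (N : ℕ) (n : ℤ) : ℂ :=
  (-1 : ℂ) ^ n * z ^ n * q ^ (n * (n - 1) / 2) *
    (JT_P q (2 * N) * JT_R q ((N : ℤ) + n) * JT_R q ((N : ℤ) - n))

theorem JT_f_rec {q z : ℂ} (hq : ‖q‖ < 1) (hq0 : q ≠ 0) (hz : z ≠ 0) (N : ℕ) (n : ℤ) :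
    JT_f z q (N + 1) n = (1 + q ^ (2 * N + 1)) * JT_f z q N n - z * q ^ N * JT_f z q N (n - 1)
      - q ^ (N + 1) / z * JT_f z q N (n + 1) := by
  unfold JT_f
  set X := JT_R q ((N : ℤ) + n + 1) with hX
  set Y := JT_R q ((N : ℤ) - n + 1) with hY
  have a1 : JT_R q ((N : ℤ) + n) = X * (1 - q ^ ((N : ℤ) + n + 1)) := by
    have := JT_R_rec hq ((N : ℤ) + n + 1)
    rwa [add_sub_cancel_right] at this
  have a0 : JT_R q ((N : ℤ) + n - 1) = X * (1 - q ^ ((N : ℤ) + n + 1)) * (1 - q ^ ((N : ℤ) + n)) := by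
    rw [JT_R_rec hq ((N : ℤ) + n), a1]
  have b1 : JT_R q ((N : ℤ) - n) = Y * (1 - q ^ ((N : ℤ) - n + 1)) := by
    have := JT_R_rec hq ((N : ℤ) - n + 1)
    rwa [add_sub_cancel_right] at this
  have b0 : JT_R q ((N : ℤ) - n - 1) = Y * (1 - q ^ ((N : ℤ) - n + 1)) * (1 - q ^ ((N : ℤ) - n)) := by
    rw [JT_R_rec hq ((N : ℤ) - n), b1]
  have c1 : JT_P q (2 * (N + 1)) = JT_P q (2 * N) * (1 - q ^ (2 * N + 1)) * (1 - q ^ (2 * N + 2)) := by
    rw [show 2 * (N + 1) = 2 * N + 1 + 1 by ring, JT_P_succ, JT_P_succ]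
  have d1 : ((N + 1 : ℕ) : ℤ) + n = (N : ℤ) + n + 1 := by push_cast; ring
  have d2 : ((N + 1 : ℕ) : ℤ) - n = (N : ℤ) - n + 1 := by push_cast; ring
  have d3 : (N : ℤ) + (n - 1) = (N : ℤ) + n - 1 := by ring
  have d4 : (N : ℤ) - (n - 1) = (N : ℤ) - n + 1 := by ring
  have d5 : (N : ℤ) + (n + 1) = (N : ℤ) + n + 1 := by ring
  have d6 : (N : ℤ) - (n + 1) = (N : ℤ) - n - 1 := by ring
  rw [d1, d2, d3, d4, d5, d6, a0, a1, b0, b1, c1, ← hX, ← hY]
  have hm1 : (-1 : ℂ) ≠ 0 := by norm_num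
  have e1 : (-1 : ℂ) ^ (n - 1) = -(-1 : ℂ) ^ n := by
    rw [zpow_sub_one₀ hm1]; norm_num
  have e2 : (-1 : ℂ) ^ (n + 1) = -(-1 : ℂ) ^ n := by
    rw [zpow_add_one₀ hm1]; ring
  have e3 : z ^ (n - 1) = z ^ n / z := by
    rw [zpow_sub_one₀ hz]; rfl
  have e4 : z ^ (n + 1) = z ^ n * z := zpow_add_one₀ hz n
  have e5 : q ^ ((n - 1) * (n - 1 - 1) / 2) = q ^ (n * (n - 1) / 2) * q / q ^ n := by
    rw [JT_pred, show n * (n - 1) / 2 - (n - 1) = n * (n - 1) / 2 + 1 - n by ring,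
      zpow_sub₀ hq0, zpow_add_one₀ hq0]
  have e6 : q ^ ((n + 1) * (n + 1 - 1) / 2) = q ^ (n * (n - 1) / 2) * q ^ n := by
    rw [JT_succ, zpow_add₀ hq0]
  have e7 : q ^ ((N : ℤ) + n + 1) = q ^ N * q ^ n * q := by
    rw [zpow_add_one₀ hq0, zpow_add₀ hq0, zpow_natCast]
  have e8 : q ^ ((N : ℤ) + n) = q ^ N * q ^ n := by
    rw [zpow_add₀ hq0, zpow_natCast]
  have e9 : q ^ ((N : ℤ) - n + 1) = q ^ N / q ^ n * q := by
    rw [zpow_add_one₀ hq0, zpow_sub₀ hq0, zpow_natCast]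
  have e10 : q ^ ((N : ℤ) - n) = q ^ N / q ^ n := by
    rw [zpow_sub₀ hq0, zpow_natCast]
  have e11 : q ^ (2 * N + 1) = q ^ N * q ^ N * q := by
    rw [pow_succ, two_mul, pow_add]
  have e12 : q ^ (2 * N + 2) = q ^ N * q ^ N * q ^ 2 := by
    rw [pow_add, two_mul, pow_add]
  have e13 : q ^ (N + 1) = q ^ N * q := pow_succ q N
  rw [e1, e2, e3, e4, e5, e6, e7, e8, e9, e10, e11, e12, e13]
  have hqn : q ^ n ≠ 0 := zpow_ne_zero n hq0
  generalize q ^ n = u at *
  generalize q ^ N = v at *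
  generalize q ^ (n * (n - 1) / 2) = w at *
  generalize z ^ n = s at *
  generalize (-1 : ℂ) ^ n = t at *
  field_simp
  ring

theorem JT_hasSum {q z : ℂ} (hq : ‖q‖ < 1) (hq0 : q ≠ 0) (hz : z ≠ 0) (N : ℕ) :
    HasSum (JT_f z q N) (∏ n ∈ Finset.range N, ((1 - z * q ^ n) * (1 - q ^ (n + 1) / z))) := by
  induction N with
  | zero =>
    rw [Finset.prod_range_zero]
    have h0 : JT_f z q 0 0 = 1 := by
      unfold JT_f JT_R JT_P
      simp
    rw [← h0]
    refine hasSum_single 0 fun n hn => ?_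
    unfold JT_f JT_R
    rcases lt_or_gt_of_ne hn with h | h
    · rw [if_pos (by simpa using h)]; ring
    · rw [if_pos (show ((0 : ℕ) : ℤ) - n < 0 by simpa using h)]; ring
  | succ N ih =>
    rw [Finset.prod_range_succ]
    have h1 : HasSum (fun n : ℤ => JT_f z q N (n - 1))
        (∏ n ∈ Finset.range N, ((1 - z * q ^ n) * (1 - q ^ (n + 1) / z))) :=
      (Equiv.subRight (1 : ℤ)).hasSum_iff.mpr ih
    have h2 : HasSum (fun n : ℤ => JT_f z q N (n + 1))
        (∏ n ∈ Finset.range N, ((1 - z * q ^ n) * (1 - q ^ (n + 1) / z))) :=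
      (Equiv.addRight (1 : ℤ)).hasSum_iff.mpr ih
    have h3 := ((ih.mul_left (1 + q ^ (2 * N + 1))).sub (h1.mul_left (z * q ^ N))).sub
      (h2.mul_left (q ^ (N + 1) / z))
    have h4 : (fun n : ℤ => (1 + q ^ (2 * N + 1)) * JT_f z q N n - z * q ^ N * JT_f z q N (n - 1)
      - q ^ (N + 1) / z * JT_f z q N (n + 1)) = JT_f z q (N + 1) := by
      funext n
      exact (JT_f_rec hq hq0 hz N n).symm
    rw [h4] at h3
    have e11 : q ^ (2 * N + 1) = q ^ N * q ^ N * q := by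
      rw [pow_succ, two_mul, pow_add]
    have e13 : q ^ (N + 1) = q ^ N * q := pow_succ q N
    have e14 : (∏ n ∈ Finset.range N, ((1 - z * q ^ n) * (1 - q ^ (n + 1) / z))) *
        ((1 - z * q ^ N) * (1 - q ^ (N + 1) / z)) =
        (1 + q ^ (2 * N + 1)) * (∏ n ∈ Finset.range N, ((1 - z * q ^ n) * (1 - q ^ (n + 1) / z)))
        - z * q ^ N * (∏ n ∈ Finset.range N, ((1 - z * q ^ n) * (1 - q ^ (n + 1) / z)))
        - q ^ (N + 1) / z * (∏ n ∈ Finset.range N, ((1 - z * q ^ n) * (1 - q ^ (n + 1) / z))) := by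
      generalize (∏ n ∈ Finset.range N, ((1 - z * q ^ n) * (1 - q ^ (n + 1) / z))) = S
      rw [e11, e13]
      field_simp
      ring
    rw [e14]
    exact h3

theorem jtp {q z : ℂ} (hq : ‖q‖ < 1) (hq0 : q ≠ 0) (hz : z ≠ 0) :
    th z q = ∏' n : ℕ, ((1 - z * q ^ n) * (1 - q ^ (n + 1) / z) * (1 - q ^ (n + 1))) := by
  have hg : Summable fun n : ℕ => ‖q‖ ^ n := summable_geometric_of_lt_one (norm_nonneg _) hq
  have hg1 : Summable fun n : ℕ => ‖q‖ ^ (n + 1) := (summable_nat_add_iff 1).mpr hg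
  have hmP : Multipliable fun n : ℕ => (1 - q ^ (n + 1)) := by
    apply multipliable_one_add_of_summable (f := fun n => -(q ^ (n + 1)))
    simpa [norm_pow] using hg1
  set L := ∏' n : ℕ, (1 - q ^ (n + 1)) with hL
  have hL0 : L ≠ 0 := by
    refine tprod_one_add_ne_zero_of_summable (f := fun n => -(q ^ (n + 1))) ?_ ?_
    · intro i
      have := JT_one_sub_ne hq i
      simpa [sub_eq_add_neg] using this
    · simpa [norm_pow] using hg1
  have hP : Tendsto (JT_P q) atTop (𝓝 L) := hmP.hasProd.tendsto_prod_nat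
  have hPi : Tendsto (fun m => (JT_P q m)⁻¹) atTop (𝓝 L⁻¹) := hP.inv₀ hL0
  obtain ⟨A, hA⟩ := (Metric.isBounded_range_of_tendsto _ hP).exists_norm_le
  obtain ⟨B, hB⟩ := (Metric.isBounded_range_of_tendsto _ hPi).exists_norm_le
  have hA' : ∀ m, ‖JT_P q m‖ ≤ A := fun m => hA _ ⟨m, rfl⟩
  have hB' : ∀ m, ‖(JT_P q m)⁻¹‖ ≤ B := fun m => hB _ ⟨m, rfl⟩
  have hA0 : 0 ≤ A := (norm_nonneg _).trans (hA' 0)
  have hB0 : 0 ≤ B := (norm_nonneg _).trans (hB' 0)
  have hR : ∀ k, ‖JT_R q k‖ ≤ B := by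
    intro k
    unfold JT_R
    split_ifs
    · simpa using hB0
    · exact hB' _
  -- the limit of `1/(q)_(N+a)`
  have hRlim : ∀ a : ℤ, Tendsto (fun N : ℕ => JT_R q ((N : ℤ) + a)) atTop (𝓝 L⁻¹) := by
    intro a
    have h1 : Tendsto (fun N : ℕ => ((N : ℤ) + a).toNat) atTop atTop := by
      rw [tendsto_atTop_atTop]
      intro b
      refine ⟨b + a.natAbs, fun N hN => ?_⟩
      omega
    refine (hPi.comp h1).congr' ?_
    filter_upwards [eventually_ge_atTop a.natAbs] with N hN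
    unfold JT_R
    rw [if_neg (by omega)]
    rfl
  -- finite version times `(q)_N`
  have hfin : ∀ N : ℕ, ∑' n : ℤ, JT_P q N * JT_f z q N n =
      ∏ n ∈ Finset.range N, ((1 - z * q ^ n) * (1 - q ^ (n + 1) / z) * (1 - q ^ (n + 1))) := by
    intro N
    rw [((JT_hasSum hq hq0 hz N).mul_left (JT_P q N)).tsum_eq]
    unfold JT_P
    rw [← Finset.prod_mul_distrib]
    refine Finset.prod_congr rfl fun n _ => ?_
    ring
  have hlimR : Tendsto (fun N : ℕ => ∏ n ∈ Finset.range N,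
      ((1 - z * q ^ n) * (1 - q ^ (n + 1) / z) * (1 - q ^ (n + 1)))) atTop
      (𝓝 (∏' n : ℕ, ((1 - z * q ^ n) * (1 - q ^ (n + 1) / z) * (1 - q ^ (n + 1))))) :=
    (jtp_mult hq hz).hasProd.tendsto_prod_nat
  have hlimL : Tendsto (fun N : ℕ => ∑' n : ℤ, JT_P q N * JT_f z q N n) atTop (𝓝 (th z q)) := by
    unfold th
    set K : ℝ := max (max ‖z‖ ‖z⁻¹‖) 1 with hK
    have hK1 : 1 ≤ K := le_max_right _ _
    have hzn : ∀ n : ℤ, ‖z ^ n‖ ≤ 1 * K ^ n.natAbs := by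
      intro n
      rw [one_mul]
      rcases Int.natAbs_eq n with h | h
      · rw [h, zpow_natCast, norm_pow, Int.natAbs_natCast]
        exact pow_le_pow_left₀ (norm_nonneg _) ((le_max_left _ _).trans (le_max_left _ _)) _
      · rw [h, zpow_neg, zpow_natCast, ← inv_pow, norm_pow, Int.natAbs_neg, Int.natAbs_natCast]
        exact pow_le_pow_left₀ (norm_nonneg _) ((le_max_right _ _).trans (le_max_left _ _)) _
    have hsum := th_summable hq hq0 (fun n => z ^ n) 1 K hK1 hzn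
    refine tendsto_tsum_of_dominated_convergence
      (bound := fun n : ℤ => A * A * B * B * ‖(-1 : ℂ) ^ n * z ^ n * q ^ (n * (n - 1) / 2)‖)
      (hsum.mul_left _) ?_ ?_
    · intro n
      have e : ∀ N : ℕ, JT_P q N * JT_f z q N n =
          (-1 : ℂ) ^ n * z ^ n * q ^ (n * (n - 1) / 2) *
            (JT_P q N * JT_P q (2 * N) * JT_R q ((N : ℤ) + n) * JT_R q ((N : ℤ) + -n)) := by
        intro N
        unfold JT_f
        rw [sub_eq_add_neg (N : ℤ) n]
        ring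
      simp_rw [e]
      have h2N : Tendsto (fun N : ℕ => JT_P q (2 * N)) atTop (𝓝 L) :=
        hP.comp (tendsto_id.const_mul_atTop' (by norm_num : 0 < 2))
      have h3 := (((hP.mul h2N).mul (hRlim n)).mul (hRlim (-n))).const_mul
        ((-1 : ℂ) ^ n * z ^ n * q ^ (n * (n - 1) / 2))
      have h4 : L * L * L⁻¹ * L⁻¹ = 1 := by field_simp
      rw [h4, mul_one] at h3
      exact h3
    · refine Eventually.of_forall fun N n => ?_
      unfold JT_f
      have e : JT_P q N * ((-1 : ℂ) ^ n * z ^ n * q ^ (n * (n - 1) / 2) *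
          (JT_P q (2 * N) * JT_R q ((N : ℤ) + n) * JT_R q ((N : ℤ) - n))) =
          (JT_P q N * JT_P q (2 * N) * JT_R q ((N : ℤ) + n) * JT_R q ((N : ℤ) - n)) *
            ((-1 : ℂ) ^ n * z ^ n * q ^ (n * (n - 1) / 2)) := by ring
      rw [e, norm_mul]
      refine mul_le_mul_of_nonneg_right ?_ (norm_nonneg _)
      rw [norm_mul, norm_mul, norm_mul]
      gcongr
      · exact hA' _
      · exact hA' _
      · exact hR _
      · exact hR _
  have := hlimL.congr hfin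
  exact tendsto_nhds_unique this hlimR

end RV15W
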