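import Mathlib
import Pool.Agent.RV15W.Defs
import Pool.Agent.RV15W.JT

/-!
# RV15W/Cu: the cube of the theta series

Group the absolutely convergent triple sum over `(i,j,k)` by `n = i+j+k`.  For `n = 3m` put `i = m+i'` etc.
with `i'+j'+k' = 0`: the exponent `Σ i(i-1)/2` is `3 m(m-1)/2 + (i'²+j'²+k'²)/2` and
`(i'²+j'²+(i'+j')²)/2 = i'²+i'j'+j'²`.  For `n = 3m+1`: `i'+j'+k' = 1`, exponent
`m(3m-1)/2 + (i'²+j'²+k'²-1)/2` and with `k' = 1-i'-j'` the last term is `i'²+i'j'+j'²-i'-j'`.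
For `n = 3m+2 = 3(m+1)-1`: `i'+j'+k' = -1` (negate: the same sum `ct`), exponent `m(3m+1)/2 + ...`.
Signs: `(-1)^(3m) = (-1)^m`, `(-1)^(3m+1) = -(-1)^m`, `(-1)^(3m+2) = (-1)^m`.
-/

set_option autoImplicit false

namespace RV15W

private theorem Cu_T_nonneg (i : ℤ) : 0 ≤ i * (i - 1) / 2 := by
  apply Int.ediv_nonneg _ (by norm_num)
  rcases le_or_gt i 0 with h | h
  · nlinarith
  · have : 1 ≤ i := h
    nlinarith

/-- the triple sum converges absolutely -/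
theorem cube_summable {q : ℂ} (hq : ‖q‖ < 1) (hq0 : q ≠ 0) (φ : ℤ → ℂ) (C K : ℝ) (hK : 1 ≤ K)
    (hφ : ∀ n, ‖φ n‖ ≤ C * K ^ n.natAbs) :
    Summable fun v : ℤ × ℤ × ℤ => ‖(-1 : ℂ) ^ (v.1 + v.2.1 + v.2.2) * φ (v.1 + v.2.1 + v.2.2) *
      q ^ (v.1 * (v.1 - 1) / 2 + v.2.1 * (v.2.1 - 1) / 2 + v.2.2 * (v.2.2 - 1) / 2)‖ := by
  have hK0 : (0:ℝ) < K := by linarith
  have hC : 0 ≤ C := by
    have h := hφ 0
    simp only [Int.natAbs_zero, pow_zero, mul_one] at h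
    exact (norm_nonneg _).trans h
  have h1 : Summable fun n : ℤ => K ^ n.natAbs * ‖q‖ ^ (n * (n - 1) / 2) := by
    have h := th_summable hq hq0 (fun n => ((K ^ n.natAbs : ℝ) : ℂ)) 1 K hK (fun n => by
      rw [Complex.norm_real, Real.norm_eq_abs, abs_of_nonneg (by positivity), one_mul])
    refine h.congr (fun n => ?_)
    rw [norm_mul, norm_mul, norm_zpow, norm_neg, norm_one, one_zpow, one_mul, norm_zpow,
      Complex.norm_real, Real.norm_eq_abs, abs_of_nonneg (by positivity)]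
  have h0 : ∀ n : ℤ, 0 ≤ K ^ n.natAbs * ‖q‖ ^ (n * (n - 1) / 2) := fun n => by positivity
  have h2 := h1.mul_of_nonneg h1 h0 h0
  have h3 := h1.mul_of_nonneg h2 h0 (fun x => mul_nonneg (h0 _) (h0 _))
  refine Summable.of_nonneg_of_le (fun _ => norm_nonneg _) (fun v => ?_) (h3.mul_left C)
  rw [norm_mul, norm_mul, norm_zpow, norm_neg, norm_one, one_zpow, one_mul, norm_zpow]
  have hq1 : ‖q‖ ≠ 0 := by simpa using hq0
  rw [zpow_add₀ hq1, zpow_add₀ hq1]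
  have hb : ‖φ (v.1 + v.2.1 + v.2.2)‖ ≤ C * (K ^ v.1.natAbs * (K ^ v.2.1.natAbs * K ^ v.2.2.natAbs)) := by
    refine (hφ _).trans ?_
    apply mul_le_mul_of_nonneg_left _ hC
    rw [← pow_add, ← pow_add]
    apply pow_le_pow_right₀ hK
    omega
  calc ‖φ (v.1 + v.2.1 + v.2.2)‖ * (‖q‖ ^ (v.1 * (v.1 - 1) / 2) * ‖q‖ ^ (v.2.1 * (v.2.1 - 1) / 2) *
        ‖q‖ ^ (v.2.2 * (v.2.2 - 1) / 2))
      ≤ (C * (K ^ v.1.natAbs * (K ^ v.2.1.natAbs * K ^ v.2.2.natAbs))) *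
        (‖q‖ ^ (v.1 * (v.1 - 1) / 2) * ‖q‖ ^ (v.2.1 * (v.2.1 - 1) / 2) *
        ‖q‖ ^ (v.2.2 * (v.2.2 - 1) / 2)) := by
        apply mul_le_mul_of_nonneg_right hb (by positivity)
    _ = _ := by ring

private def CuE (r : Fin 3) (p : ℤ × ℤ × ℤ) : ℤ × ℤ × ℤ :=
  if r = 0 then (p.1 + p.2.1, p.1 + p.2.2, p.1 - p.2.1 - p.2.2)
  else if r = 1 then (p.1 + p.2.1, p.1 + p.2.2, p.1 + 1 - p.2.1 - p.2.2)
  else (p.1 + 1 - p.2.1, p.1 + 1 - p.2.2, p.1 + p.2.1 + p.2.2)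

private theorem Cu_inj (r : Fin 3) : Function.Injective (CuE r) := by
  rintro ⟨m, a, b⟩ ⟨m', a', b'⟩ h
  fin_cases r <;> simp [CuE, Prod.ext_iff] at h ⊢ <;> omega

private theorem Cu_bij : Function.Bijective (fun x : (ℤ × ℤ × ℤ) × Fin 3 => CuE x.2 x.1) := by
  constructor
  · rintro ⟨⟨m, a, b⟩, r⟩ ⟨⟨m', a', b'⟩, r'⟩ h
    fin_cases r <;> fin_cases r' <;> simp [CuE, Prod.ext_iff] at h ⊢ <;> omega
  · rintro ⟨i, j, k⟩
    have h3 : (i + j + k) % 3 = 0 ∨ (i + j + k) % 3 = 1 ∨ (i + j + k) % 3 = 2 := by omega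
    rcases h3 with h | h | h
    · refine ⟨⟨⟨(i + j + k) / 3, i - (i + j + k) / 3, j - (i + j + k) / 3⟩, 0⟩, ?_⟩
      simp [CuE]; omega
    · refine ⟨⟨⟨(i + j + k) / 3, i - (i + j + k) / 3, j - (i + j + k) / 3⟩, 1⟩, ?_⟩
      simp [CuE]; omega
    · refine ⟨⟨⟨(i + j + k) / 3, (i + j + k) / 3 + 1 - i, (i + j + k) / 3 + 1 - j⟩, 2⟩, ?_⟩
      simp [CuE]; omega

private theorem Cu_even (i : ℤ) : ∃ t : ℤ, i * (i - 1) = 2 * t := by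
  obtain ⟨t, ht⟩ := Int.even_mul_pred_self i
  exact ⟨t, by rw [ht]; ring⟩

private theorem Cu_exp0 (m a b : ℤ) :
    (m + a) * (m + a - 1) / 2 + (m + b) * (m + b - 1) / 2 + (m - a - b) * (m - a - b - 1) / 2 =
      3 * (m * (m - 1) / 2) + (a ^ 2 + a * b + b ^ 2) := by
  obtain ⟨t1, h1⟩ := Cu_even (m + a)
  obtain ⟨t2, h2⟩ := Cu_even (m + b)
  obtain ⟨t3, h3⟩ := Cu_even (m - a - b)
  obtain ⟨t4, h4⟩ := Cu_even m
  rw [h1, h2, h3, h4]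
  simp only [Int.mul_ediv_cancel_left _ (by norm_num : (2:ℤ) ≠ 0)]
  nlinarith [h1, h2, h3, h4]

private theorem Cu_exp1 (m a b : ℤ) :
    (m + a) * (m + a - 1) / 2 + (m + b) * (m + b - 1) / 2 + (m + 1 - a - b) * (m + 1 - a - b - 1) / 2 =
      m * (3 * m - 1) / 2 + (a ^ 2 + a * b + b ^ 2 - a - b) := by
  obtain ⟨t1, h1⟩ := Cu_even (m + a)
  obtain ⟨t2, h2⟩ := Cu_even (m + b)
  obtain ⟨t3, h3⟩ := Cu_even (m + 1 - a - b)
  have h4 : m * (3 * m - 1) = 2 * (t1 + t2 + t3 - (a ^ 2 + a * b + b ^ 2 - a - b)) := by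
    nlinarith [h1, h2, h3]
  rw [h1, h2, h3, h4]
  simp only [Int.mul_ediv_cancel_left _ (by norm_num : (2:ℤ) ≠ 0)]
  ring

private theorem Cu_exp2 (m a b : ℤ) :
    (m + 1 - a) * (m + 1 - a - 1) / 2 + (m + 1 - b) * (m + 1 - b - 1) / 2 +
      (m + a + b) * (m + a + b - 1) / 2 =
      m * (3 * m + 1) / 2 + (a ^ 2 + a * b + b ^ 2 - a - b) := by
  obtain ⟨t1, h1⟩ := Cu_even (m + 1 - a)
  obtain ⟨t2, h2⟩ := Cu_even (m + 1 - b)
  obtain ⟨t3, h3⟩ := Cu_even (m + a + b)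
  have h4 : m * (3 * m + 1) = 2 * (t1 + t2 + t3 - (a ^ 2 + a * b + b ^ 2 - a - b)) := by
    nlinarith [h1, h2, h3]
  rw [h1, h2, h3, h4]
  simp only [Int.mul_ediv_cancel_left _ (by norm_num : (2:ℤ) ≠ 0)]
  ring

theorem cube {q : ℂ} (hq : ‖q‖ < 1) (hq0 : q ≠ 0) (φ : ℤ → ℂ) (C K : ℝ) (hK : 1 ≤ K)
    (hφ : ∀ n, ‖φ n‖ ≤ C * K ^ n.natAbs) :
    (∑' v : ℤ × ℤ × ℤ, (-1 : ℂ) ^ (v.1 + v.2.1 + v.2.2) * φ (v.1 + v.2.1 + v.2.2) *
      q ^ (v.1 * (v.1 - 1) / 2 + v.2.1 * (v.2.1 - 1) / 2 + v.2.2 * (v.2.2 - 1) / 2)) =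
    ca q * (∑' m : ℤ, (-1 : ℂ) ^ m * φ (3 * m) * (q ^ 3) ^ (m * (m - 1) / 2)) -
    ct q * (∑' m : ℤ, (-1 : ℂ) ^ m *
      (φ (3 * m + 1) * q ^ (m * (3 * m - 1) / 2) - φ (3 * m + 2) * q ^ (m * (3 * m + 1) / 2))) := by
  set F : ℤ × ℤ × ℤ → ℂ := fun v => (-1 : ℂ) ^ (v.1 + v.2.1 + v.2.2) * φ (v.1 + v.2.1 + v.2.2) *
      q ^ (v.1 * (v.1 - 1) / 2 + v.2.1 * (v.2.1 - 1) / 2 + v.2.2 * (v.2.2 - 1) / 2) with hF
  have hFs : Summable F := (cube_summable hq hq0 φ C K hK hφ).of_norm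
  have hneg : ((-1 : ℂ)) ≠ 0 := by norm_num
  have hm3 : ∀ m : ℤ, (-1 : ℂ) ^ (3 * m) = (-1 : ℂ) ^ m := fun m => by
    rw [zpow_mul]; norm_num
  -- the three families
  have e0 : ∀ x : ℤ × ℤ × ℤ, F (CuE 0 x) =
      ((-1 : ℂ) ^ x.1 * φ (3 * x.1) * (q ^ 3) ^ (x.1 * (x.1 - 1) / 2)) *
        q ^ (x.2.1 ^ 2 + x.2.1 * x.2.2 + x.2.2 ^ 2) := by
    rintro ⟨m, a, b⟩
    have hs : m + a + (m + b) + (m - a - b) = 3 * m := by ring
    simp only [hF, CuE, if_true]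
    rw [hs, Cu_exp0, hm3, zpow_add₀ hq0, zpow_mul]
    have : q ^ (3:ℤ) = q ^ 3 := by norm_cast
    rw [this]; ring
  have e1 : ∀ x : ℤ × ℤ × ℤ, F (CuE 1 x) =
      (-((-1 : ℂ) ^ x.1 * (φ (3 * x.1 + 1) * q ^ (x.1 * (3 * x.1 - 1) / 2)))) *
        q ^ (x.2.1 ^ 2 + x.2.1 * x.2.2 + x.2.2 ^ 2 - x.2.1 - x.2.2) := by
    rintro ⟨m, a, b⟩
    have hs : m + a + (m + b) + (m + 1 - a - b) = 3 * m + 1 := by ring
    have h10 : ((1 : Fin 3) = 0) = False := by simp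
    simp only [hF, CuE, h10, if_false, if_true]
    rw [hs, Cu_exp1, zpow_add₀ hneg, hm3, zpow_add₀ hq0]
    simp only [zpow_one]
    ring
  have e2 : ∀ x : ℤ × ℤ × ℤ, F (CuE 2 x) =
      ((-1 : ℂ) ^ x.1 * (φ (3 * x.1 + 2) * q ^ (x.1 * (3 * x.1 + 1) / 2))) *
        q ^ (x.2.1 ^ 2 + x.2.1 * x.2.2 + x.2.2 ^ 2 - x.2.1 - x.2.2) := by
    rintro ⟨m, a, b⟩
    have hs : m + 1 - a + (m + 1 - b) + (m + a + b) = 3 * m + 2 := by ring
    have h20 : ((2 : Fin 3) = 0) = False := by simp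
    have h21 : ((2 : Fin 3) = 1) = False := by simp
    simp only [hF, CuE, h20, h21, if_false]
    rw [hs, Cu_exp2, zpow_add₀ hneg, hm3, zpow_add₀ hq0]
    have : (-1 : ℂ) ^ (2:ℤ) = 1 := by norm_num
    rw [this]
    ring
  have s0 : Summable (fun x => F (CuE 0 x)) := hFs.comp_injective (Cu_inj 0)
  have s1 : Summable (fun x => F (CuE 1 x)) := hFs.comp_injective (Cu_inj 1)
  have s2 : Summable (fun x => F (CuE 2 x)) := hFs.comp_injective (Cu_inj 2)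
  have hsplit : ∑' v, F v = (∑' x, F (CuE 0 x)) + (∑' x, F (CuE 1 x)) + ∑' x, F (CuE 2 x) := by
    rw [← (Equiv.ofBijective _ Cu_bij).tsum_eq F]
    have hs : Summable (fun x : (ℤ × ℤ × ℤ) × Fin 3 => F ((Equiv.ofBijective _ Cu_bij) x)) :=
      (Equiv.ofBijective _ Cu_bij).summable_iff.mpr hFs
    rw [hs.tsum_prod]
    have : ∀ x : ℤ × ℤ × ℤ, (∑' r : Fin 3, F ((Equiv.ofBijective _ Cu_bij) (x, r))) =
        F (CuE 0 x) + F (CuE 1 x) + F (CuE 2 x) := by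
      intro x
      rw [tsum_fintype, Fin.sum_univ_three]
      rfl
    simp_rw [this]
    rw [(s0.add s1).tsum_add s2, s0.tsum_add s1]
  have inj0 : Function.Injective (fun m : ℤ => ((m, ((0:ℤ), (0:ℤ))) : ℤ × ℤ × ℤ)) := by
    intro a b h
    simpa using h
  -- the product forms
  have p0 : ∑' x, F (CuE 0 x) =
      ca q * (∑' m : ℤ, (-1 : ℂ) ^ m * φ (3 * m) * (q ^ 3) ^ (m * (m - 1) / 2)) := by
    rw [s0.tsum_prod, ca, mul_comm, ← tsum_mul_right]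
    refine tsum_congr (fun m => ?_)
    rw [← tsum_mul_left]
    exact tsum_congr (fun v => e0 (m, v))
  have p1 : ∑' x, F (CuE 1 x) =
      ct q * (∑' m : ℤ, -((-1 : ℂ) ^ m * (φ (3 * m + 1) * q ^ (m * (3 * m - 1) / 2)))) := by
    rw [s1.tsum_prod, ct, mul_comm, ← tsum_mul_right]
    refine tsum_congr (fun m => ?_)
    rw [← tsum_mul_left]
    exact tsum_congr (fun v => e1 (m, v))
  have p2 : ∑' x, F (CuE 2 x) =
      ct q * (∑' m : ℤ, ((-1 : ℂ) ^ m * (φ (3 * m + 2) * q ^ (m * (3 * m + 1) / 2)))) := by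
    rw [s2.tsum_prod, ct, mul_comm, ← tsum_mul_right]
    refine tsum_congr (fun m => ?_)
    rw [← tsum_mul_left]
    exact tsum_congr (fun v => e2 (m, v))
  have t1 : Summable (fun m : ℤ => -((-1 : ℂ) ^ m * (φ (3 * m + 1) * q ^ (m * (3 * m - 1) / 2)))) := by
    refine (s1.comp_injective inj0).congr (fun m => ?_)
    simp only [Function.comp_apply, e1]
    norm_num
  have t2 : Summable (fun m : ℤ => ((-1 : ℂ) ^ m * (φ (3 * m + 2) * q ^ (m * (3 * m + 1) / 2)))) := by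
    refine (s2.comp_injective inj0).congr (fun m => ?_)
    simp only [Function.comp_apply, e2]
    norm_num
  have hF' : (∑' v : ℤ × ℤ × ℤ, (-1 : ℂ) ^ (v.1 + v.2.1 + v.2.2) * φ (v.1 + v.2.1 + v.2.2) *
      q ^ (v.1 * (v.1 - 1) / 2 + v.2.1 * (v.2.1 - 1) / 2 + v.2.2 * (v.2.2 - 1) / 2)) = ∑' v, F v := rfl
  rw [hsplit, p0, p1, p2, add_assoc, ← mul_add, ← t1.tsum_add t2, sub_eq_add_neg, ← mul_neg,
    ← tsum_neg]
  congr 2
  refine tsum_congr (fun m => ?_)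
  ring

/-- the case `φ n = z^n` -/
theorem cube_z {q z : ℂ} (hq : ‖q‖ < 1) (hq0 : q ≠ 0) (hz : z ≠ 0) :
    th z q ^ 3 = ca q * th (z ^ 3) (q ^ 3) - ct q * (∑' m : ℤ, (-1 : ℂ) ^ m *
      (z ^ (3 * m + 1) * q ^ (m * (3 * m - 1) / 2) - z ^ (3 * m + 2) * q ^ (m * (3 * m + 1) / 2))) := by
  set K : ℝ := max ‖z‖ ‖z‖⁻¹ with hKd
  have hz1 : 0 < ‖z‖ := norm_pos_iff.mpr hz
  have hK : 1 ≤ K := by
    rcases le_or_gt 1 ‖z‖ with h | h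
    · exact h.trans (le_max_left _ _)
    · exact (one_le_inv₀ hz1 |>.mpr h.le).trans (le_max_right _ _)
  have hφ : ∀ n : ℤ, ‖z ^ n‖ ≤ 1 * K ^ n.natAbs := by
    intro n
    rw [norm_zpow, one_mul]
    rcases Int.natAbs_eq n with h | h
    · conv_lhs => rw [h]
      rw [zpow_natCast]
      exact pow_le_pow_left₀ hz1.le (le_max_left _ _) _
    · conv_lhs => rw [h]
      rw [zpow_neg, zpow_natCast, ← inv_pow]
      exact pow_le_pow_left₀ (by positivity) (le_max_right _ _) _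
  have hs := th_summable hq hq0 (fun n => z ^ n) 1 K hK hφ
  have hc := cube hq hq0 (fun n => z ^ n) 1 K hK hφ
  have h1 : th z q ^ 3 = ∑' v : ℤ × ℤ × ℤ, (-1 : ℂ) ^ (v.1 + v.2.1 + v.2.2) *
      z ^ (v.1 + v.2.1 + v.2.2) *
      q ^ (v.1 * (v.1 - 1) / 2 + v.2.1 * (v.2.1 - 1) / 2 + v.2.2 * (v.2.2 - 1) / 2) := by
    have ht : th z q = ∑' n : ℤ, (-1 : ℂ) ^ n * z ^ n * q ^ (n * (n - 1) / 2) := rfl
    rw [pow_succ, pow_two, mul_assoc, ht, tsum_mul_tsum_of_summable_norm hs hs]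
    have hs2 := Summable.mul_norm hs hs
    rw [tsum_mul_tsum_of_summable_norm hs hs2]
    refine tsum_congr (fun v => ?_)
    have hneg : ((-1 : ℂ)) ≠ 0 := by norm_num
    rw [zpow_add₀ hneg, zpow_add₀ hneg, zpow_add₀ hz, zpow_add₀ hz, zpow_add₀ hq0, zpow_add₀ hq0]
    ring
  rw [h1]
  refine hc.trans ?_
  have h2 : th (z ^ 3) (q ^ 3) =
      ∑' m : ℤ, (-1 : ℂ) ^ m * z ^ (3 * m) * (q ^ 3) ^ (m * (m - 1) / 2) := by
    rw [th]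
    refine tsum_congr (fun m => ?_)
    have : (z ^ 3) ^ m = z ^ (3 * m) := by
      rw [zpow_mul]; norm_cast
    rw [this]
  rw [h2]

end RV15W
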