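import Mathlib
import Pool.Agent.RV15W.Defs
import Pool.Agent.RV15W.Bas
import Pool.Agent.RV15W.JT

/-!
# RV15W/JSa: four special values of `θ(z;q)` (from the triple product, by rearranging Euler products)

All by `jtp`; write `E_k = Eu (q^k)`.  Elementary product facts (for `‖q‖ < 1`, `w² + w + 1 = 0`), all products over
`n ≥ 1`:  `Π (1 + q^n) = E2/E1`, `(1 - w x)(1 - w² x)(1 - x) = 1 - x³`,
`(1 + w x)(1 + w² x) = (1 + x³)/(1 + x)`, `Π_{n≥0} (1 - q^(3n+1))(1 - q^(3n+2))(1 - q^(3n+3)) = E1`.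
-/

set_option autoImplicit false

namespace RV15W

variable {q w : ℂ}

/-- `Π (1 - z q^(n+1))` -/
private noncomputable def JSa_A (z q : ℂ) : ℂ := ∏' n : ℕ, (1 - z * q ^ (n + 1))

private theorem JSa_mult (z : ℂ) (hq : ‖q‖ < 1) :
    Multipliable fun n : ℕ => (1 - z * q ^ (n + 1)) := by
  have h : Summable fun n : ℕ => ‖-(z * q ^ (n + 1))‖ := by
    simp only [norm_neg, norm_mul, norm_pow]
    exact ((summable_nat_add_iff 1).mpr
      (summable_geometric_of_lt_one (norm_nonneg q) hq)).mul_left _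
  simpa only [← sub_eq_add_neg] using multipliable_one_add_of_summable h

private theorem JSa_one (q : ℂ) : JSa_A 1 q = Eu q := by
  unfold JSa_A Eu
  simp only [one_mul]

private theorem JSa_mul (y z : ℂ) (hq : ‖q‖ < 1) :
    JSa_A y q * JSa_A z q = ∏' n : ℕ, ((1 - y * q ^ (n + 1)) * (1 - z * q ^ (n + 1))) :=
  ((JSa_mult y hq).tprod_mul (JSa_mult z hq)).symm

private theorem JSa_th (hq : ‖q‖ < 1) (hq0 : q ≠ 0) {z : ℂ} (hz : z ≠ 0) :
    th z q = (1 - z) * JSa_A z q * JSa_A z⁻¹ q * Eu q := by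
  rw [jtp hq hq0 hz]
  have h1 : Multipliable fun n : ℕ => (1 - z * q ^ n) := by
    have h : Summable fun n : ℕ => ‖-(z * q ^ n)‖ := by
      simp only [norm_neg, norm_mul, norm_pow]
      exact (summable_geometric_of_lt_one (norm_nonneg q) hq).mul_left _
    simpa only [← sub_eq_add_neg] using multipliable_one_add_of_summable h
  have h2 : Multipliable fun n : ℕ => (1 - q ^ (n + 1) / z) := by
    have := JSa_mult (q := q) z⁻¹ hq
    refine this.congr fun n => ?_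
    rw [div_eq_inv_mul]
  have h3 := Eu_mult hq
  rw [(h1.mul h2).tprod_mul h3, h1.tprod_mul h2]
  have h4 : ∏' n : ℕ, (1 - z * q ^ n) = (1 - z) * JSa_A z q := by
    rw [tprod_eq_zero_mul' (JSa_mult (q := q) z hq)]
    simp [JSa_A]
  have h5 : ∏' n : ℕ, (1 - q ^ (n + 1) / z) = JSa_A z⁻¹ q := by
    unfold JSa_A
    refine tprod_congr fun n => ?_
    rw [div_eq_inv_mul]
  rw [h4, h5]
  rfl

private theorem JSa_lt (hq : ‖q‖ < 1) {k : ℕ} (hk : k ≠ 0) : ‖q ^ k‖ < 1 := by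
  rw [norm_pow]
  exact pow_lt_one₀ (norm_nonneg _) hq hk

/-- `Π (1 + q^n) = E2 / E1` -/
private theorem JSa_neg (hq : ‖q‖ < 1) : JSa_A (-1) q * Eu q = Eu (q ^ 2) := by
  rw [← JSa_one, JSa_mul _ _ hq]
  unfold Eu
  refine tprod_congr fun n => ?_
  rw [← pow_mul, mul_comm 2, pow_mul]
  ring

private theorem JSa_w (hw : w ^ 2 + w + 1 = 0) : w ≠ 0 ∧ w⁻¹ = w ^ 2 ∧ w ^ 3 = 1 := by
  have h0 : w ≠ 0 := by
    rintro rfl
    norm_num at hw
  have h3 : w ^ 3 = 1 := by linear_combination (w - 1) * hw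
  refine ⟨h0, ?_, h3⟩
  rw [inv_eq_iff_eq_inv, eq_comm]
  rw [inv_eq_iff_eq_inv, ← one_div, eq_div_iff h0]
  linear_combination h3

/-- `Π (1 - c w q^n)(1 - c w² q^n)(1 - c q^n) = Π (1 - c³ q^(3n))` -/
private theorem JSa_cube (c : ℂ) (hq : ‖q‖ < 1) (hw : w ^ 2 + w + 1 = 0) :
    JSa_A (c * w) q * JSa_A (c * w ^ 2) q * JSa_A c q = JSa_A (c ^ 3) (q ^ 3) := by
  have h1 := JSa_mult (q := q) (c * w) hq
  have h2 := JSa_mult (q := q) (c * w ^ 2) hq
  have h3 := JSa_mult (q := q) c hq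
  unfold JSa_A
  rw [← h1.tprod_mul h2, ← (h1.mul h2).tprod_mul h3]
  refine tprod_congr fun n => ?_
  rw [← pow_mul, mul_comm 3, pow_mul]
  obtain ⟨-, -, hw3⟩ := JSa_w hw
  generalize q ^ (n + 1) = x
  linear_combination (-c ^ 3 * x ^ 3) * hw3 + (c ^ 2 * x ^ 2 * w - c * x) * hw

theorem js1 (hq : ‖q‖ < 1) (hq0 : q ≠ 0) (hw : w ^ 2 + w + 1 = 0) :
    th w q = (1 - w) * Eu (q ^ 3) := by
  obtain ⟨hw0, hwi, hw3⟩ := JSa_w hw
  rw [JSa_th hq hq0 hw0, hwi]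
  have h := JSa_cube 1 hq hw
  rw [one_mul, one_mul, one_pow, JSa_one, JSa_one] at h
  linear_combination (1 - w) * h

theorem js2 (hq : ‖q‖ < 1) (hq0 : q ≠ 0) : th (-1) q = 2 * Eu (q ^ 2) ^ 2 / Eu q := by
  rw [JSa_th hq hq0 (by norm_num : (-1 : ℂ) ≠ 0), eq_div_iff (Eu_ne hq), ← JSa_neg hq]
  have : ((-1 : ℂ))⁻¹ = -1 := by norm_num
  rw [this]
  ring

theorem js3 (hq : ‖q‖ < 1) (hq0 : q ≠ 0) (hw : w ^ 2 + w + 1 = 0) :
    th (-w) q = (1 + w) * Eu q ^ 2 * Eu (q ^ 6) / (Eu (q ^ 2) * Eu (q ^ 3)) := by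
  obtain ⟨hw0, hwi, hw3⟩ := JSa_w hw
  rw [JSa_th hq hq0 (neg_ne_zero.2 hw0), inv_neg, hwi]
  have h := JSa_cube (-1) hq hw
  have h3 := JSa_neg (JSa_lt hq (k := 3) (by norm_num))
  have h1 := JSa_neg hq
  have e1 : (-1 : ℂ) * w = -w := by ring
  have e2 : (-1 : ℂ) * w ^ 2 = -w ^ 2 := by ring
  have e3 : (-1 : ℂ) ^ 3 = -1 := by norm_num
  have e4 : (q ^ 3) ^ 2 = q ^ 6 := by ring
  rw [e1, e2, e3] at h
  rw [e4] at h3
  rw [eq_div_iff (mul_ne_zero (Eu_ne (JSa_lt hq (by norm_num))) (Eu_ne (JSa_lt hq (by norm_num)))),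
    ← h1, ← h3, ← h]
  ring

/-- pentagonal numbers -/
theorem js4 (hq : ‖q‖ < 1) (hq0 : q ≠ 0) : th q (q ^ 3) = Eu q := by
  have hq3 : ‖q ^ 3‖ < 1 := JSa_lt hq (by norm_num)
  have hq30 : q ^ 3 ≠ 0 := pow_ne_zero 3 hq0
  rw [jtp hq3 hq30 hq0]
  have hm := jtp_mult (z := q) hq3 hq0
  have h1 := hm.hasProd.tendsto_prod_nat
  have h2 := (Eu_mult hq).hasProd.tendsto_prod_nat
  have h3 : Filter.Tendsto (fun N : ℕ => 3 * N) Filter.atTop Filter.atTop :=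
    Filter.tendsto_atTop_mono (fun N => by simp only [id]; omega) Filter.tendsto_id
  have h4 := h2.comp h3
  have h5 : ∀ N : ℕ, ∏ i ∈ Finset.range N, ((1 - q * (q ^ 3) ^ i) *
      (1 - (q ^ 3) ^ (i + 1) / q) * (1 - (q ^ 3) ^ (i + 1))) =
      ∏ i ∈ Finset.range (3 * N), (1 - q ^ (i + 1)) := by
    intro N
    induction N with
    | zero => simp
    | succ N ih =>
      rw [Finset.prod_range_succ, ih, show 3 * (N + 1) = 3 * N + 1 + 1 + 1 by ring,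
        Finset.prod_range_succ, Finset.prod_range_succ, Finset.prod_range_succ]
      have e1 : q * (q ^ 3) ^ N = q ^ (3 * N + 1) := by
        rw [← pow_mul, pow_succ, mul_comm]
      have e2 : (q ^ 3) ^ (N + 1) / q = q ^ (3 * N + 1 + 1) := by
        rw [div_eq_iff hq0, ← pow_mul, ← pow_succ]
        congr 1
      have e3 : (q ^ 3) ^ (N + 1) = q ^ (3 * N + 1 + 1 + 1) := by
        rw [← pow_mul]
        congr 1
      rw [e1, e2, e3]
      ring
  refine tendsto_nhds_unique h1 ?_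
  have h6 : (fun N : ℕ => ∏ i ∈ Finset.range N, ((1 - q * (q ^ 3) ^ i) *
      (1 - (q ^ 3) ^ (i + 1) / q) * (1 - (q ^ 3) ^ (i + 1)))) =
      (fun N : ℕ => ∏ i ∈ Finset.range N, (1 - q ^ (i + 1))) ∘ fun N => 3 * N := by
    funext N
    exact h5 N
  rw [h6]
  exact h4

end RV15W
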