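import Mathlib
import Pool.Agent.RV15W.Defs
import Pool.Agent.RV15W.Bas
import Pool.Agent.RV15W.JT

/-!
# RV15W/JSb: four special values of `θ(z;q)` (from the triple product, by rearranging Euler products)

All by `jtp`; write `E_k = Eu (q^k)`.  Elementary product facts (for `‖q‖ < 1`, `w² + w + 1 = 0`), all products over
`n ≥ 0`:  `Π (1 + q^(n+1)) = E2/E1`, `Π (1 - q^(2n+1)) = E1/E2`, `(1 - w x)(1 - w² x)(1 - x) = 1 - x³`,
`Π (1 + q^(3n+1))(1 + q^(3n+2))(1 + q^(3n+3)) = E2/E1`,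
`Π_{n ≡ ±1 mod 6} (1 - q^n) = E1 E6 / (E2 E3)`.  Split the products by residue classes.
-/

set_option autoImplicit false

namespace RV15W

open Filter Topology

/-- q-Pochhammer symbol -/
private noncomputable def JSbP (z q : ℂ) : ℂ := ∏' n : ℕ, (1 - z * q ^ n)

private theorem JSb_mult (z : ℂ) {q : ℂ} (hq : ‖q‖ < 1) :
    Multipliable fun n : ℕ => (1 - z * q ^ n) := by
  have h : Summable fun n : ℕ => ‖-(z * q ^ n)‖ := by
    have h1 : Summable fun n : ℕ => ‖z‖ * ‖q‖ ^ n :=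
      (summable_geometric_of_lt_one (norm_nonneg q) hq).mul_left _
    refine h1.congr ?_
    intro n
    rw [norm_neg, norm_mul, norm_pow]
  have h2 := multipliable_one_add_of_summable (f := fun n : ℕ => -(z * q ^ n)) h
  refine h2.congr ?_
  intro n
  ring

private theorem JSb_pow {q : ℂ} (hq : ‖q‖ < 1) {k : ℕ} (hk : k ≠ 0) : ‖q ^ k‖ < 1 := by
  rw [norm_pow]
  exact pow_lt_one₀ (norm_nonneg q) hq hk

private theorem JSb_two (z : ℂ) {q : ℂ} (hq : ‖q‖ < 1) :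
    JSbP z q = JSbP z (q ^ 2) * JSbP (z * q) (q ^ 2) := by
  have hq2 := JSb_pow hq (k := 2) (by norm_num)
  have he : (fun k : ℕ => 1 - z * q ^ (2 * k)) = fun k : ℕ => 1 - z * (q ^ 2) ^ k := by
    funext k
    rw [pow_mul]
  have ho : (fun k : ℕ => 1 - z * q ^ (2 * k + 1)) = fun k : ℕ => 1 - z * q * (q ^ 2) ^ k := by
    funext k
    rw [pow_succ, pow_mul]
    ring
  have h := tprod_even_mul_odd (f := fun n : ℕ => 1 - z * q ^ n)
    (by rw [he]; exact JSb_mult z hq2) (by rw [ho]; exact JSb_mult (z * q) hq2)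
  unfold JSbP
  rw [← h, he, ho]

private theorem JSb_three (z : ℂ) {q : ℂ} (hq : ‖q‖ < 1) :
    JSbP z q = JSbP z (q ^ 3) * JSbP (z * q) (q ^ 3) * JSbP (z * q ^ 2) (q ^ 3) := by
  have hq3 := JSb_pow hq (k := 3) (by norm_num)
  have h0 := (JSb_mult z hq).hasProd.tendsto_prod_nat
  have h1 := (JSb_mult z hq3).hasProd.tendsto_prod_nat
  have h2 := (JSb_mult (z * q) hq3).hasProd.tendsto_prod_nat
  have h3 := (JSb_mult (z * q ^ 2) hq3).hasProd.tendsto_prod_nat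
  have h4 := (h1.mul h2).mul h3
  have hsub : Tendsto (fun n : ℕ => 3 * n) atTop atTop :=
    tendsto_id.const_mul_atTop' (by norm_num)
  have h5 := h0.comp hsub
  refine tendsto_nhds_unique h5 (h4.congr ?_)
  intro n
  induction n with
  | zero => simp
  | succ n ih =>
    have e : 3 * (n + 1) = 3 * n + 1 + 1 + 1 := by ring
    simp only [Function.comp_apply] at ih ⊢
    rw [e, Finset.prod_range_succ _ (3 * n + 1 + 1), Finset.prod_range_succ _ (3 * n + 1),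
      Finset.prod_range_succ _ (3 * n), ← ih]
    simp only [Finset.prod_range_succ]
    ring

private theorem JSb_Eu (q : ℂ) : Eu q = JSbP q q := by
  unfold Eu JSbP
  congr 1
  funext n
  rw [pow_succ]
  ring

private theorem JSb_neg (z : ℂ) {q : ℂ} (hq : ‖q‖ < 1) :
    JSbP z q * JSbP (-z) q = JSbP (z ^ 2) (q ^ 2) := by
  unfold JSbP
  rw [← (JSb_mult z hq).tprod_mul (JSb_mult (-z) hq)]
  congr 1
  funext n
  ring

private theorem JSb_cub (z : ℂ) {q w : ℂ} (hq : ‖q‖ < 1) (hw : w ^ 2 + w + 1 = 0) :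
    JSbP z q * JSbP (w * z) q * JSbP (w ^ 2 * z) q = JSbP (z ^ 3) (q ^ 3) := by
  unfold JSbP
  rw [← (JSb_mult z hq).tprod_mul (JSb_mult (w * z) hq),
    ← ((JSb_mult z hq).mul (JSb_mult (w * z) hq)).tprod_mul (JSb_mult (w ^ 2 * z) hq)]
  congr 1
  funext n
  have e : (q ^ 3) ^ n = (q ^ n) ^ 3 := by rw [← pow_mul, ← pow_mul, mul_comm]
  rw [e]
  generalize q ^ n = x
  have hw3 : w ^ 3 = 1 := by linear_combination (w - 1) * hw
  have : (1 - z * x) * (1 - w * z * x) * (1 - w ^ 2 * z * x)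
      = 1 - z * x * (w ^ 2 + w + 1) + z ^ 2 * x ^ 2 * w * (w ^ 2 + w + 1) - w ^ 3 * z ^ 3 * x ^ 3 := by
    ring
  rw [this, hw, hw3]
  ring

/-- the triple product in terms of Pochhammer symbols -/
private theorem JSb_th {q z z' : ℂ} (hq : ‖q‖ < 1) (hq0 : q ≠ 0) (hz : z ≠ 0) (hz' : q = z' * z) :
    th z q = JSbP z q * JSbP z' q * JSbP q q := by
  rw [jtp hq hq0 hz]
  unfold JSbP
  rw [← (JSb_mult z hq).tprod_mul (JSb_mult z' hq),
    ← ((JSb_mult z hq).mul (JSb_mult z' hq)).tprod_mul (JSb_mult q hq)]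
  congr 1
  funext n
  have e : q ^ (n + 1) / z = z' * q ^ n := by
    rw [pow_succ]
    nth_rewrite 2 [hz']
    field_simp
  rw [e, pow_succ]
  ring

variable {q w : ℂ}

private theorem JSb_odd (hq : ‖q‖ < 1) : JSbP q (q ^ 2) * Eu (q ^ 2) = Eu q := by
  rw [JSb_Eu q, JSb_Eu (q ^ 2), JSb_two q hq]
  have : q * q = q ^ 2 := by ring
  rw [this]

private theorem JSb_plus (hq : ‖q‖ < 1) : Eu q * JSbP (-q) q = Eu (q ^ 2) := by
  rw [JSb_Eu q, JSb_Eu (q ^ 2), JSb_neg q hq]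

theorem js5 (hq : ‖q‖ < 1) (hq0 : q ≠ 0) :
    th (-q) (q ^ 3) = Eu (q ^ 2) * Eu (q ^ 3) ^ 2 / (Eu q * Eu (q ^ 6)) := by
  have hq3 := JSb_pow hq (k := 3) (by norm_num)
  have n1 := Eu_ne hq
  have n6 := Eu_ne (JSb_pow hq (k := 6) (by norm_num))
  rw [JSb_th (z' := -q ^ 2) hq3 (pow_ne_zero 3 hq0) (neg_ne_zero.mpr hq0) (by ring)]
  have h1 := JSb_plus hq
  have h3 := JSb_plus hq3
  have e6 : (q ^ 3) ^ 2 = q ^ 6 := by ring
  rw [e6] at h3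
  have hs := JSb_three (-q) hq
  have e2 : -q * q = -q ^ 2 := by ring
  have e3 : -q * q ^ 2 = -q ^ 3 := by ring
  rw [e2, e3] at hs
  rw [← JSb_Eu (q ^ 3), eq_div_iff (mul_ne_zero n1 n6)]
  rw [hs] at h1
  calc JSbP (-q) (q ^ 3) * JSbP (-q ^ 2) (q ^ 3) * Eu (q ^ 3) * (Eu q * Eu (q ^ 6))
      = (Eu q * (JSbP (-q) (q ^ 3) * JSbP (-q ^ 2) (q ^ 3))) * Eu (q ^ 3) * Eu (q ^ 6) := by ring
    _ = (Eu q * (JSbP (-q) (q ^ 3) * JSbP (-q ^ 2) (q ^ 3))) * Eu (q ^ 3)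
          * (Eu (q ^ 3) * JSbP (-q ^ 3) (q ^ 3)) := by rw [h3]
    _ = (Eu q * (JSbP (-q) (q ^ 3) * JSbP (-q ^ 2) (q ^ 3) * JSbP (-q ^ 3) (q ^ 3)))
          * Eu (q ^ 3) ^ 2 := by ring
    _ = Eu (q ^ 2) * Eu (q ^ 3) ^ 2 := by rw [h1]

theorem js6 (hq : ‖q‖ < 1) (hq0 : q ≠ 0) : th q (q ^ 2) = Eu q ^ 2 / Eu (q ^ 2) := by
  have hq2 := JSb_pow hq (k := 2) (by norm_num)
  have n2 := Eu_ne hq2
  rw [JSb_th (z' := q) hq2 (pow_ne_zero 2 hq0) hq0 (by ring), ← JSb_Eu (q ^ 2),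
    eq_div_iff n2, ← JSb_odd hq]
  ring

theorem js7 (hq : ‖q‖ < 1) (hq0 : q ≠ 0) (hw : w ^ 2 + w + 1 = 0) :
    th (w * q) (q ^ 2) = Eu (q ^ 2) ^ 2 * Eu (q ^ 3) / (Eu q * Eu (q ^ 6)) := by
  have hq2 := JSb_pow hq (k := 2) (by norm_num)
  have hq3 := JSb_pow hq (k := 3) (by norm_num)
  have n1 := Eu_ne hq
  have n2 := Eu_ne hq2
  have n6 := Eu_ne (JSb_pow hq (k := 6) (by norm_num))
  have hw3 : w ^ 3 = 1 := by linear_combination (w - 1) * hw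
  have hw0 : w ≠ 0 := by
    intro h
    rw [h] at hw3
    norm_num at hw3
  rw [JSb_th (z' := w ^ 2 * q) hq2 (pow_ne_zero 2 hq0) (mul_ne_zero hw0 hq0)
    (by linear_combination (-q ^ 2) * hw3), ← JSb_Eu (q ^ 2)]
  have h1 := JSb_cub q hq2 hw
  have h2 := JSb_odd hq
  have h3 := JSb_odd hq3
  have e6 : (q ^ 3) ^ 2 = q ^ 6 := by ring
  have e6' : (q ^ 2) ^ 3 = q ^ 6 := by ring
  rw [e6] at h3
  rw [e6'] at h1
  rw [eq_div_iff (mul_ne_zero n1 n6), ← h3, ← h1]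
  calc JSbP (w * q) (q ^ 2) * JSbP (w ^ 2 * q) (q ^ 2) * Eu (q ^ 2) * (Eu q * Eu (q ^ 6))
      = JSbP (w * q) (q ^ 2) * JSbP (w ^ 2 * q) (q ^ 2) * Eu (q ^ 2)
          * ((JSbP q (q ^ 2) * Eu (q ^ 2)) * Eu (q ^ 6)) := by rw [h2]
    _ = _ := by ring

theorem js8 (hq : ‖q‖ < 1) (hq0 : q ≠ 0) :
    th (q ^ 5) (q ^ 6) = Eu q * Eu (q ^ 6) ^ 2 / (Eu (q ^ 2) * Eu (q ^ 3)) := by
  have hq2 := JSb_pow hq (k := 2) (by norm_num)
  have hq3 := JSb_pow hq (k := 3) (by norm_num)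
  have hq6 := JSb_pow hq (k := 6) (by norm_num)
  have n2 := Eu_ne hq2
  have n3 := Eu_ne hq3
  rw [JSb_th (z' := q) hq6 (pow_ne_zero 6 hq0) (pow_ne_zero 5 hq0) (by ring), ← JSb_Eu (q ^ 6),
    eq_div_iff (mul_ne_zero n2 n3)]
  have h2 := JSb_odd hq
  have h3 := JSb_odd hq3
  have e6 : (q ^ 3) ^ 2 = q ^ 6 := by ring
  have e6' : (q ^ 2) ^ 3 = q ^ 6 := by ring
  rw [e6] at h3
  have hs := JSb_three q hq2
  have a1 : q * q ^ 2 = q ^ 3 := by ring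
  have a2 : q * (q ^ 2) ^ 2 = q ^ 5 := by ring
  rw [e6', a1, a2] at hs
  rw [hs] at h2
  rw [← h2, ← h3]
  ring

end RV15W
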