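import Mathlib
import Pool.Agent.RV15W.JSa
import Pool.Agent.RV15W.JSb

/-!
# RV15W/JS: collects JSa, JSb
-/
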