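import Mathlib
import Pool.Agent.RV15W.Defs
import Pool.Agent.RV15W.Bas
import Pool.Agent.RV15W.JS
import Pool.Agent.RV15W.Cu

/-!
# RV15W/Rel: the linear relations between the cubic theta series and the four eta quotients

`E_k = Eu(q^k)`.  Put `Q(z;q) = Σ (-1)^m (z^(3m+1) q^(m(3m-1)/2) - z^(3m+2) q^(m(3m+1)/2))`, so `cube_z` is
`θ(z;q)³ = a(q) θ(z³;q³) - c̃(q) Q(z;q)`.
* `z = w` (`w²+w+1=0`): `θ(1;q³) = 0` (the terms `n` and `1-n` cancel), `Q = (w - w²) E1` (js4, `m → -m`),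
  `(1-w)³ = -3(w-w²)`, so `c̃ = 3 E3³/E1`.
* `z = -1`: `Q = -2 R`, `R = Σ q^(m(3m-1)/2) = θ(-q;q³) = E2 E3²/(E1 E6)`; gives `a1 = 4 ga - be`.
* `z = -w`: `Q = R`, `(1+w)³ = -1`; gives `2 a1 = be - al`.
* base `q²`, `z = q`: `Q(q;q²) = 2 q Q0`, `Q0 = Σ (-1)^m q^(3m²+2m) = θ(q^5;q^6)` (second term with `m → -m-1`),
  `c̃(q²) = 3 E6³/E2`; gives `a2 = al + 2 de`.
* base `q²`, `z = w q`: `Q = (w+w²) q Q0 = - q Q0`; gives `a2 = ga - de`.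
Hence `be = 3 al + 8 de`, `ga = al + 3 de`, `a1 = al + 4 de`.  Use `w = exp(2πi/3)`.
-/

set_option autoImplicit false

namespace RV15W

variable {q : ℂ}

private lemma Rel_T (n : ℤ) : 2 * (n * (n - 1) / 2) = n * (n - 1) :=
  Int.mul_ediv_cancel' (Int.even_mul_pred_self n).two_dvd

private lemma Rel_exp1 (n : ℤ) : n * (3 * n - 1) / 2 = 3 * (n * (n - 1) / 2) + n := by
  have h := Rel_T n
  have h2 : n * (3 * n - 1) = 2 * (3 * (n * (n - 1) / 2) + n) := by linarith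
  rw [h2, Int.mul_ediv_cancel_left _ two_ne_zero]

private lemma Rel_exp2 (n : ℤ) : (-n) * (3 * (-n) + 1) / 2 = 3 * (n * (n - 1) / 2) + n := by
  rw [← Rel_exp1]
  congr 1
  ring

private lemma Rel_exp3 (n : ℤ) : (n + 1) * (n + 1 - 1) / 2 = n * (n - 1) / 2 + n := by
  have h := Rel_T n
  have h2 : (n + 1) * (n + 1 - 1) = 2 * (n * (n - 1) / 2 + n) := by linarith
  rw [h2, Int.mul_ediv_cancel_left _ two_ne_zero]

private lemma Rel_exp4 (n : ℤ) : (1 - n) * (1 - n - 1) / 2 = n * (n - 1) / 2 := by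
  congr 1
  ring

private lemma Rel_sum {p z : ℂ} (hp : ‖p‖ < 1) (hp0 : p ≠ 0) (hz : z ≠ 0) :
    Summable fun n : ℤ => (-1 : ℂ) ^ n * z ^ n * p ^ (n * (n - 1) / 2) := by
  have hz1 : 0 < ‖z‖ := norm_pos_iff.mpr hz
  have h := th_summable hp hp0 (fun n => z ^ n) 1 (max 1 (max ‖z‖ ‖z‖⁻¹)) (le_max_left _ _)
    (fun n => by
      rw [one_mul, norm_zpow]
      rcases le_total 0 n with hn | hn
      · obtain ⟨k, rfl⟩ := Int.eq_ofNat_of_zero_le hn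
        rw [zpow_natCast, Int.natAbs_natCast]
        exact pow_le_pow_left₀ hz1.le ((le_max_left _ _).trans (le_max_right _ _)) k
      · obtain ⟨k, hk⟩ := Int.eq_ofNat_of_zero_le (Int.neg_nonneg_of_nonpos hn)
        have hn' : n = -(k : ℤ) := by omega
        subst hn'
        rw [zpow_neg, zpow_natCast, Int.natAbs_neg, Int.natAbs_natCast, ← inv_pow]
        exact pow_le_pow_left₀ (inv_nonneg.mpr hz1.le)
          ((le_max_right _ _).trans (le_max_right _ _)) k)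
  exact h.of_norm

/-- the two halves of `Q` -/
private lemma Rel_Q {p z : ℂ} (hp : ‖p‖ < 1) (hp0 : p ≠ 0) (hz : z ≠ 0) :
    (∑' m : ℤ, (-1 : ℂ) ^ m *
      (z ^ (3 * m + 1) * p ^ (m * (3 * m - 1) / 2) - z ^ (3 * m + 2) * p ^ (m * (3 * m + 1) / 2)))
    = z * th (z ^ 3 * p) (p ^ 3) - z ^ 2 * th ((z ^ 3)⁻¹ * p) (p ^ 3) := by
  have hp3 : ‖p ^ 3‖ < 1 := by
    rw [norm_pow]
    exact pow_lt_one₀ (norm_nonneg _) hp (by norm_num)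
  have hp30 : p ^ 3 ≠ 0 := pow_ne_zero 3 hp0
  have hz3 : z ^ 3 ≠ 0 := pow_ne_zero 3 hz
  have s1 := Rel_sum hp3 hp30 (mul_ne_zero hz3 hp0)
  have s2 := Rel_sum hp3 hp30 (mul_ne_zero (inv_ne_zero hz3) hp0)
  have t1 : ∀ m : ℤ, (-1 : ℂ) ^ m * (z ^ (3 * m + 1) * p ^ (m * (3 * m - 1) / 2)) =
      z * ((-1 : ℂ) ^ m * (z ^ 3 * p) ^ m * (p ^ 3) ^ (m * (m - 1) / 2)) := by
    intro m
    rw [Rel_exp1, zpow_add₀ hp0, zpow_add₀ hz, zpow_one, mul_zpow]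
    have e1 : (z ^ 3) ^ m = z ^ (3 * m) := by
      rw [zpow_mul]; norm_cast
    have e2 : (p ^ 3) ^ (m * (m - 1) / 2) = p ^ (3 * (m * (m - 1) / 2)) := by
      rw [zpow_mul]; norm_cast
    rw [e1, e2]
    ring
  have t2 : ∀ m : ℤ, (-1 : ℂ) ^ (-m) * (z ^ (3 * (-m) + 2) * p ^ ((-m) * (3 * (-m) + 1) / 2)) =
      z ^ 2 * ((-1 : ℂ) ^ m * ((z ^ 3)⁻¹ * p) ^ m * (p ^ 3) ^ (m * (m - 1) / 2)) := by
    intro m
    rw [Rel_exp2, zpow_add₀ hp0, zpow_add₀ hz, mul_zpow]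
    have e1 : ((z ^ 3)⁻¹) ^ m = z ^ (3 * (-m)) := by
      rw [zpow_mul, inv_zpow', zpow_ofNat]
    have e2 : (p ^ 3) ^ (m * (m - 1) / 2) = p ^ (3 * (m * (m - 1) / 2)) := by
      rw [zpow_mul]; norm_cast
    have e3 : (-1 : ℂ) ^ (-m) = (-1 : ℂ) ^ m := by
      rw [zpow_neg, ← inv_zpow]; norm_num
    have e4 : z ^ (2 : ℤ) = z ^ 2 := zpow_ofNat z 2
    rw [e1, e2, e3, e4]
    ring
  have u1 : Summable fun m : ℤ => (-1 : ℂ) ^ m * (z ^ (3 * m + 1) * p ^ (m * (3 * m - 1) / 2)) := by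
    refine (s1.mul_left z).congr fun m => ?_
    exact (t1 m).symm
  have u2' : Summable fun m : ℤ =>
      (-1 : ℂ) ^ (-m) * (z ^ (3 * (-m) + 2) * p ^ ((-m) * (3 * (-m) + 1) / 2)) := by
    refine (s2.mul_left (z ^ 2)).congr fun m => ?_
    exact (t2 m).symm
  have u2 : Summable fun m : ℤ => (-1 : ℂ) ^ m * (z ^ (3 * m + 2) * p ^ (m * (3 * m + 1) / 2)) :=
    (Equiv.neg ℤ).summable_iff.mp u2'
  have v1 : ∑' m : ℤ, (-1 : ℂ) ^ m * (z ^ (3 * m + 1) * p ^ (m * (3 * m - 1) / 2)) =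
      z * th (z ^ 3 * p) (p ^ 3) := by
    unfold th
    rw [← tsum_mul_left]
    exact tsum_congr t1
  have v2 : ∑' m : ℤ, (-1 : ℂ) ^ m * (z ^ (3 * m + 2) * p ^ (m * (3 * m + 1) / 2)) =
      z ^ 2 * th ((z ^ 3)⁻¹ * p) (p ^ 3) := by
    rw [← (Equiv.neg ℤ).tsum_eq]
    unfold th
    rw [← tsum_mul_left]
    exact tsum_congr t2
  rw [← v1, ← v2, ← u1.tsum_sub u2]
  exact tsum_congr fun m => by ring

private lemma Rel_th_one {p : ℂ} : th 1 p = 0 := by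
  have h : th 1 p = -th 1 p := by
    conv_lhs => unfold th
    rw [← (Equiv.subLeft (1 : ℤ)).tsum_eq]
    unfold th
    rw [← tsum_neg]
    refine tsum_congr fun n => ?_
    simp only [Equiv.subLeft_apply]
    rw [Rel_exp4, one_zpow, one_zpow, zpow_sub₀ (by norm_num : (-1 : ℂ) ≠ 0), zpow_one]
    have e3 : ((-1 : ℂ) ^ n)⁻¹ = (-1 : ℂ) ^ n := by
      rw [← inv_zpow]; norm_num
    rw [div_eq_mul_inv, e3]
    ring
  have h2 : (2 : ℂ) * th 1 p = 0 := by linear_combination h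
  exact (mul_eq_zero.mp h2).resolve_left two_ne_zero

/-- quasi-periodicity -/
private lemma Rel_quasi {p z : ℂ} (hp0 : p ≠ 0) (hz : z ≠ 0) :
    th (z * p) p = -(z⁻¹ * th z p) := by
  have h : z⁻¹ * th z p = -th (z * p) p := by
    unfold th
    rw [← (Equiv.addRight (1 : ℤ)).tsum_eq, ← tsum_mul_left, ← tsum_neg]
    refine tsum_congr fun n => ?_
    simp only [Equiv.coe_addRight]
    rw [Rel_exp3, zpow_add₀ hp0, zpow_add₀ (by norm_num : (-1 : ℂ) ≠ 0), zpow_one,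
      zpow_add₀ hz, zpow_one, mul_zpow]
    field_simp
  rw [h, neg_neg]

private lemma Rel_Eu_ne (hq : ‖q‖ < 1) {k : ℕ} (hk : k ≠ 0) : Eu (q ^ k) ≠ 0 := by
  apply Eu_ne
  rw [norm_pow]
  exact pow_lt_one₀ (norm_nonneg _) hq hk

private lemma Rel_lt (hq : ‖q‖ < 1) {k : ℕ} (hk : k ≠ 0) : ‖q ^ k‖ < 1 := by
  rw [norm_pow]
  exact pow_lt_one₀ (norm_nonneg _) hq hk

private lemma Rel_w : ∃ w : ℂ, w ^ 2 + w + 1 = 0 := by
  obtain ⟨w, hw⟩ := IsAlgClosed.exists_root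
    (Polynomial.X ^ 2 + Polynomial.X + 1 : Polynomial ℂ) (by
      have : (Polynomial.X ^ 2 + Polynomial.X + 1 : Polynomial ℂ).degree = 2 := by
        compute_degree!
      rw [this]; norm_num)
  refine ⟨w, ?_⟩
  simpa [Polynomial.IsRoot.def] using hw

theorem rel_ct (hq : ‖q‖ < 1) (hq0 : q ≠ 0) : ct q = 3 * Eu (q ^ 3) ^ 3 / Eu q := by
  obtain ⟨w, hw⟩ := Rel_w
  have hw3 : w ^ 3 = 1 := by linear_combination (w - 1) * hw
  have hw0 : w ≠ 0 := by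
    intro h; rw [h] at hw; norm_num at hw
  have hE : Eu q ≠ 0 := Eu_ne hq
  have hww : w - w ^ 2 ≠ 0 := by
    intro h
    have h1 : w * (1 - w) = 0 := by linear_combination h
    rcases mul_eq_zero.mp h1 with h2 | h2
    · exact hw0 h2
    · have h3 : w = 1 := by linear_combination -h2
      rw [h3] at hw; norm_num at hw
  have h := cube_z hq hq0 hw0
  rw [Rel_Q hq hq0 hw0, hw3, inv_one, one_mul, js4 hq hq0, Rel_th_one, js1 hq hq0 hw] at h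
  rw [eq_div_iff hE]
  have h2 : (w - w ^ 2) * (ct q * Eu q) = (w - w ^ 2) * (3 * Eu (q ^ 3) ^ 3) := by
    linear_combination h + Eu (q ^ 3) ^ 3 * hw3
  exact mul_left_cancel₀ hww h2

theorem relA (hq : ‖q‖ < 1) (hq0 : q ≠ 0) : ca q = 4 * ga q - be q := by
  have hE1 : Eu q ≠ 0 := Eu_ne hq
  have hE2 : Eu (q ^ 2) ≠ 0 := Rel_Eu_ne hq (by norm_num)
  have hE3 : Eu (q ^ 3) ≠ 0 := Rel_Eu_ne hq (by norm_num)
  have hE6 : Eu (q ^ 6) ≠ 0 := Rel_Eu_ne hq (by norm_num)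
  have h := cube_z hq hq0 (z := -1) (by norm_num)
  have e6 : (q ^ 3) ^ 2 = q ^ 6 := by ring
  have h2 := js2 (q := q ^ 3) (Rel_lt hq (by norm_num)) (pow_ne_zero 3 hq0)
  rw [e6] at h2
  have e1 : (-1 : ℂ) ^ 3 = -1 := by norm_num
  have e2 : ((-1 : ℂ))⁻¹ = -1 := by norm_num
  rw [Rel_Q hq hq0 (by norm_num), e1, e2, neg_one_mul q, js5 hq hq0, js2 hq hq0, h2,
    rel_ct hq hq0] at h
  unfold ga be
  field_simp at h ⊢
  linear_combination -h / 2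

theorem relD (hq : ‖q‖ < 1) (hq0 : q ≠ 0) : 2 * ca q = be q - al q := by
  obtain ⟨w, hw⟩ := Rel_w
  have hw3 : w ^ 3 = 1 := by linear_combination (w - 1) * hw
  have hw0 : w ≠ 0 := by
    intro h; rw [h] at hw; norm_num at hw
  have hE1 : Eu q ≠ 0 := Eu_ne hq
  have hE2 : Eu (q ^ 2) ≠ 0 := Rel_Eu_ne hq (by norm_num)
  have hE3 : Eu (q ^ 3) ≠ 0 := Rel_Eu_ne hq (by norm_num)
  have hE6 : Eu (q ^ 6) ≠ 0 := Rel_Eu_ne hq (by norm_num)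
  have h := cube_z hq hq0 (z := -w) (neg_ne_zero.mpr hw0)
  have e6 : (q ^ 3) ^ 2 = q ^ 6 := by ring
  have h2 := js2 (q := q ^ 3) (Rel_lt hq (by norm_num)) (pow_ne_zero 3 hq0)
  rw [e6] at h2
  have e1 : (-w) ^ 3 = -1 := by linear_combination -hw3
  have e2 : ((-1 : ℂ))⁻¹ = -1 := by norm_num
  rw [Rel_Q hq hq0 (neg_ne_zero.mpr hw0), e1, e2, neg_one_mul q, js5 hq hq0, js3 hq hq0 hw, h2,
    rel_ct hq hq0] at h
  have e3 : (1 + w) ^ 3 = -1 := by linear_combination (w + 2) * hw + hw3 * 0 + 0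
  have e4 : -w * (Eu (q ^ 2) * Eu (q ^ 3) ^ 2 / (Eu q * Eu (q ^ 6))) -
      (-w) ^ 2 * (Eu (q ^ 2) * Eu (q ^ 3) ^ 2 / (Eu q * Eu (q ^ 6))) =
      Eu (q ^ 2) * Eu (q ^ 3) ^ 2 / (Eu q * Eu (q ^ 6)) := by
    linear_combination (-(Eu (q ^ 2) * Eu (q ^ 3) ^ 2 / (Eu q * Eu (q ^ 6)))) * hw
  rw [e4] at h
  have e5 : ((1 + w) * Eu q ^ 2 * Eu (q ^ 6) / (Eu (q ^ 2) * Eu (q ^ 3))) ^ 3 =
      -(Eu q ^ 2 * Eu (q ^ 6) / (Eu (q ^ 2) * Eu (q ^ 3))) ^ 3 := by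
    rw [mul_assoc, mul_div_assoc, mul_pow, e3]
    ring
  rw [e5] at h
  unfold be al
  field_simp at h ⊢
  linear_combination -h

private lemma Rel_Q0 (hq : ‖q‖ < 1) (hq0 : q ≠ 0) (w : ℂ) (hw3 : w ^ 3 = 1) (hw0 : w ≠ 0) :
    (∑' m : ℤ, (-1 : ℂ) ^ m *
      ((w * q) ^ (3 * m + 1) * (q ^ 2) ^ (m * (3 * m - 1) / 2)
        - (w * q) ^ (3 * m + 2) * (q ^ 2) ^ (m * (3 * m + 1) / 2)))
    = (w + w ^ 2) * q * (Eu q * Eu (q ^ 6) ^ 2 / (Eu (q ^ 2) * Eu (q ^ 3))) := by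
  rw [Rel_Q (Rel_lt hq (by norm_num)) (pow_ne_zero 2 hq0) (mul_ne_zero hw0 hq0)]
  have e1 : (w * q) ^ 3 * q ^ 2 = q ^ 5 := by
    rw [mul_pow, hw3]; ring
  have e2 : (q ^ 2) ^ 3 = q ^ 6 := by ring
  have e3 : ((w * q) ^ 3)⁻¹ * q ^ 2 = q⁻¹ := by
    rw [mul_pow, hw3, one_mul]
    field_simp
  rw [e1, e2, e3]
  have e4 : q⁻¹ * q ^ 6 = q ^ 5 := by field_simp
  have h := Rel_quasi (p := q ^ 6) (z := q⁻¹) (pow_ne_zero 6 hq0) (inv_ne_zero hq0)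
  rw [e4, inv_inv] at h
  have h2 : th q⁻¹ (q ^ 6) = -(q⁻¹ * th (q ^ 5) (q ^ 6)) := by
    rw [h]
    field_simp
  rw [h2, js8 hq hq0]
  have e5 : q ^ 2 * q⁻¹ = q := by field_simp
  linear_combination (w ^ 2 * (Eu q * Eu (q ^ 6) ^ 2 / (Eu (q ^ 2) * Eu (q ^ 3)))) * e5

theorem relB (hq : ‖q‖ < 1) (hq0 : q ≠ 0) : ca (q ^ 2) = al q + 2 * de q := by
  have hE1 : Eu q ≠ 0 := Eu_ne hq
  have hE2 : Eu (q ^ 2) ≠ 0 := Rel_Eu_ne hq (by norm_num)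
  have hE3 : Eu (q ^ 3) ≠ 0 := Rel_Eu_ne hq (by norm_num)
  have hE6 : Eu (q ^ 6) ≠ 0 := Rel_Eu_ne hq (by norm_num)
  have h := cube_z (q := q ^ 2) (Rel_lt hq (by norm_num)) (pow_ne_zero 2 hq0) hq0
  have hQ := Rel_Q0 hq hq0 1 (by norm_num) one_ne_zero
  rw [one_mul] at hQ
  have e23 : (q ^ 2) ^ 3 = q ^ 6 := by ring
  have e32 : (q ^ 3) ^ 2 = q ^ 6 := by ring
  have h6 := js6 (q := q ^ 3) (Rel_lt hq (by norm_num)) (pow_ne_zero 3 hq0)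
  rw [e32] at h6
  have hct := rel_ct (q := q ^ 2) (Rel_lt hq (by norm_num)) (pow_ne_zero 2 hq0)
  rw [e23] at hct
  rw [hQ, e23, h6, js6 hq hq0, hct] at h
  unfold al de
  field_simp at h ⊢
  linear_combination -h

theorem relE (hq : ‖q‖ < 1) (hq0 : q ≠ 0) : ca (q ^ 2) = ga q - de q := by
  obtain ⟨w, hw⟩ := Rel_w
  have hw3 : w ^ 3 = 1 := by linear_combination (w - 1) * hw
  have hw0 : w ≠ 0 := by
    intro h; rw [h] at hw; norm_num at hw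
  have hE1 : Eu q ≠ 0 := Eu_ne hq
  have hE2 : Eu (q ^ 2) ≠ 0 := Rel_Eu_ne hq (by norm_num)
  have hE3 : Eu (q ^ 3) ≠ 0 := Rel_Eu_ne hq (by norm_num)
  have hE6 : Eu (q ^ 6) ≠ 0 := Rel_Eu_ne hq (by norm_num)
  have h := cube_z (q := q ^ 2) (Rel_lt hq (by norm_num)) (pow_ne_zero 2 hq0)
    (mul_ne_zero hw0 hq0)
  have hQ := Rel_Q0 hq hq0 w hw3 hw0
  have hww : w + w ^ 2 = -1 := by linear_combination hw
  rw [hww] at hQ
  have e23 : (q ^ 2) ^ 3 = q ^ 6 := by ring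
  have e32 : (q ^ 3) ^ 2 = q ^ 6 := by ring
  have ez : (w * q) ^ 3 = q ^ 3 := by rw [mul_pow, hw3, one_mul]
  have h6 := js6 (q := q ^ 3) (Rel_lt hq (by norm_num)) (pow_ne_zero 3 hq0)
  rw [e32] at h6
  have hct := rel_ct (q := q ^ 2) (Rel_lt hq (by norm_num)) (pow_ne_zero 2 hq0)
  rw [e23] at hct
  rw [hQ, ez, e23, h6, js7 hq hq0 hw, hct] at h
  unfold ga de
  field_simp at h ⊢
  linear_combination -h

theorem rel_be (hq : ‖q‖ < 1) (hq0 : q ≠ 0) : be q = 3 * al q + 8 * de q := by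
  linear_combination (2/3 : ℂ) * relA hq hq0 - (1/3 : ℂ) * relD hq hq0 + (8/3 : ℂ) * relB hq hq0
    - (8/3 : ℂ) * relE hq hq0

theorem rel_ga (hq : ‖q‖ < 1) (hq0 : q ≠ 0) : ga q = al q + 3 * de q := by
  linear_combination relB hq hq0 - relE hq hq0

theorem rel_a1 (hq : ‖q‖ < 1) (hq0 : q ≠ 0) : ca q = al q + 4 * de q := by
  linear_combination relA hq hq0 + 4 * rel_ga hq hq0 - rel_be hq hq0

end RV15W
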