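import Mathlib
import Pool.Agent.RV15W.Defs
import Pool.Agent.RV15W.Bas
import Pool.Agent.RV15W.JT

/-!
# RV15W/Jac: Jacobi's identity and the heat equations

`J1 q = Σ (-1)^n (n - 1/2) q^(n(n-1)/2)`, `J3 q = Σ (-1)^n (n-1/2)³ q^(n(n-1)/2)`.
* `jac0`: the terms `n` and `1-n` cancel.
* `jac1`: from `jtp`: `th z q = (1 - z) G(z)`, `G(z) = Π (1 - z q^(n+1)) (1 - q^(n+1)/z) (1 - q^(n+1))`, continuous at
  `z = 1` with `G(1) = E1³`; divide by `1 - z` and let `z → 1`; on the series side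
  `(z^n - 1)/(z - 1) → n`, dominated (`th_summable`), using `jac0`.
* `heatJ`: `(n-1/2)² = n(n-1) + 1/4`; differentiate termwise in `q` (the exponents `n(n-1)/2` are
  natural numbers; `hasDerivAt_tsum_of_isPreconnected` or the analogous statement on a ball).
* `heatK`: `K1 q = Σ (-1)^m (6m-1) q^(m(3m-1)/2)`, `K3` with `(6m-1)³`; `(6m-1)² = 24 m(3m-1)/2 + 1`.
-/

set_option autoImplicit false

namespace RV15W

noncomputable section

def J1 (q : ℂ) : ℂ := ∑' n : ℤ, (-1 : ℂ) ^ n * ((n : ℂ) - 1 / 2) * q ^ (n * (n - 1) / 2)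
def J3 (q : ℂ) : ℂ := ∑' n : ℤ, (-1 : ℂ) ^ n * ((n : ℂ) - 1 / 2) ^ 3 * q ^ (n * (n - 1) / 2)
def K1 (q : ℂ) : ℂ := ∑' m : ℤ, (-1 : ℂ) ^ m * (6 * (m : ℂ) - 1) * q ^ (m * (3 * m - 1) / 2)
def K3 (q : ℂ) : ℂ := ∑' m : ℤ, (-1 : ℂ) ^ m * (6 * (m : ℂ) - 1) ^ 3 * q ^ (m * (3 * m - 1) / 2)

end

variable {q : ℂ}

/-! ### elementary facts on the exponents -/

private theorem Jac_two_dvd (n : ℤ) : 2 * (n * (n - 1) / 2) = n * (n - 1) := by
  have h : (2 : ℤ) ∣ n * (n - 1) := by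
    rcases Int.even_or_odd n with ⟨k, hk⟩ | ⟨k, hk⟩
    · exact ⟨k * (n - 1), by rw [hk]; ring⟩
    · exact ⟨n * k, by rw [hk]; ring⟩
  exact Int.mul_ediv_cancel' h

private theorem Jac_two_dvd' (m : ℤ) : 2 * (m * (3 * m - 1) / 2) = m * (3 * m - 1) := by
  have h : (2 : ℤ) ∣ m * (3 * m - 1) := by
    rcases Int.even_or_odd m with ⟨k, hk⟩ | ⟨k, hk⟩
    · exact ⟨k * (3 * m - 1), by rw [hk]; ring⟩
    · exact ⟨m * (3 * k + 1), by rw [hk]; ring⟩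
  exact Int.mul_ediv_cancel' h

private theorem Jac_N_nonneg (n : ℤ) : 0 ≤ n * (n - 1) / 2 := by
  have h : 0 ≤ n * (n - 1) := by
    rcases le_or_gt n 0 with h | h
    · nlinarith
    · have : 1 ≤ n := h
      nlinarith
  have := Jac_two_dvd n
  omega

private theorem Jac_M_ge (m : ℤ) : m * (m - 1) / 2 ≤ m * (3 * m - 1) / 2 := by
  have h1 := Jac_two_dvd m
  have h2 := Jac_two_dvd' m
  have h3 : m * (m - 1) ≤ m * (3 * m - 1) := by nlinarith [sq_nonneg m]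
  linarith

private theorem Jac_natAbs_le (n : ℤ) : (|(n : ℝ)|) ≤ 2 ^ n.natAbs := by
  have h : (|(n : ℝ)|) = (n.natAbs : ℝ) := by
    rw [Nat.cast_natAbs, Int.cast_abs]
  rw [h]
  exact_mod_cast (Nat.lt_two_pow_self (n := n.natAbs)).le

private theorem Jac_one_le (n : ℤ) : (1 : ℝ) ≤ 2 ^ n.natAbs :=
  one_le_pow₀ (by norm_num)

/-! ### `jac0` -/

theorem jac0 (hq : ‖q‖ < 1) (hq0 : q ≠ 0) :
    ∑' n : ℤ, (-1 : ℂ) ^ n * q ^ (n * (n - 1) / 2) = 0 := by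
  have h := (Equiv.subLeft (1 : ℤ)).tsum_eq (fun n : ℤ => (-1 : ℂ) ^ n * q ^ (n * (n - 1) / 2))
  have h2 : ∀ n : ℤ, (-1 : ℂ) ^ ((Equiv.subLeft (1 : ℤ)) n) *
      q ^ (((Equiv.subLeft (1 : ℤ)) n) * (((Equiv.subLeft (1 : ℤ)) n) - 1) / 2) =
      -((-1 : ℂ) ^ n * q ^ (n * (n - 1) / 2)) := by
    intro n
    rw [Equiv.subLeft_apply]
    have e1 : (1 - n) * (1 - n - 1) = n * (n - 1) := by ring
    rw [e1, zpow_sub₀ (by norm_num : (-1 : ℂ) ≠ 0), zpow_one]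
    have e2 : (-1 : ℂ) / (-1) ^ n = -(-1) ^ n := by
      rcases Int.even_or_odd n with hn | hn
      · rw [hn.neg_one_zpow]; norm_num
      · rw [hn.neg_one_zpow]; norm_num
    rw [e2]; ring
  have h3 : (∑' n : ℤ, -((-1 : ℂ) ^ n * q ^ (n * (n - 1) / 2))) =
      ∑' n : ℤ, (-1 : ℂ) ^ n * q ^ (n * (n - 1) / 2) := by
    rw [← h]
    exact tsum_congr fun n => (h2 n).symm
  rw [tsum_neg] at h3
  have h4 : (2 : ℂ) * ∑' n : ℤ, (-1 : ℂ) ^ n * q ^ (n * (n - 1) / 2) = 0 := by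
    linear_combination (-1 : ℂ) * h3
  simpa using h4

/-! ### `jac1` -/

private theorem Jac_geo (hq : ‖q‖ < 1) (w : ℂ) : Summable fun n : ℕ => ‖-(w * q ^ (n + 1))‖ := by
  have h : Summable fun n : ℕ => ‖q‖ ^ (n + 1) :=
    (summable_nat_add_iff 1).mpr (summable_geometric_of_lt_one (norm_nonneg _) hq)
  refine (h.mul_left ‖w‖).congr fun n => ?_
  rw [norm_neg, norm_mul, norm_pow]

private theorem Jac_multA (hq : ‖q‖ < 1) (w : ℂ) :
    Multipliable fun n : ℕ => (1 - w * q ^ (n + 1)) := by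
  have := multipliable_one_add_of_summable (Jac_geo hq w)
  simpa [sub_eq_add_neg] using this

private theorem Jac_contA (hq : ‖q‖ < 1) :
    Filter.Tendsto (fun w : ℂ => ∏' n : ℕ, (1 - w * q ^ (n + 1))) (nhds 1) (nhds (Eu q)) := by
  have h : Summable fun n : ℕ => 2 * ‖q‖ ^ (n + 1) :=
    ((summable_nat_add_iff 1).mpr (summable_geometric_of_lt_one (norm_nonneg _) hq)).mul_left 2
  have := tendsto_tprod_one_add_of_dominated_convergence (𝓕 := nhds (1 : ℂ))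
    (f := fun (w : ℂ) (n : ℕ) => -(w * q ^ (n + 1))) (g := fun n : ℕ => -(q ^ (n + 1)))
    (bound := fun n : ℕ => 2 * ‖q‖ ^ (n + 1)) h ?_ ?_
  · simpa [sub_eq_add_neg, Eu] using this
  · intro k
    have hc : Continuous fun w : ℂ => -(w * q ^ (k + 1)) := by fun_prop
    have := hc.tendsto 1
    simpa using this
  · have hb : ∀ᶠ w : ℂ in nhds 1, ‖w‖ < 2 := by
      have hc : Continuous fun w : ℂ => ‖w‖ := by fun_prop
      exact (hc.tendsto 1).eventually (gt_mem_nhds (by simp))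
    refine hb.mono fun w hw k => ?_
    rw [norm_neg, norm_mul, norm_pow]
    exact mul_le_mul_of_nonneg_right hw.le (by positivity)

private theorem Jac_fact (hq : ‖q‖ < 1) (hq0 : q ≠ 0) {z : ℂ} (hz : z ≠ 0) :
    th z q = (1 - z) * ((∏' n : ℕ, (1 - z * q ^ (n + 1))) * (∏' n : ℕ, (1 - z⁻¹ * q ^ (n + 1))) *
      Eu q) := by
  rw [jtp hq hq0 hz]
  have hA := Jac_multA hq z
  have hB := Jac_multA hq z⁻¹
  have hC := Jac_multA hq 1
  have hA' : Multipliable fun n : ℕ => (1 - z * q ^ n) := by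
    have h1 : Summable fun n : ℕ => ‖-(z * q ^ n)‖ := by
      have h : Summable fun n : ℕ => ‖q‖ ^ n := summable_geometric_of_lt_one (norm_nonneg _) hq
      refine (h.mul_left ‖z‖).congr fun n => ?_
      rw [norm_neg, norm_mul, norm_pow]
    have := multipliable_one_add_of_summable h1
    simpa [sub_eq_add_neg] using this
  have hC' : Multipliable fun n : ℕ => (1 - q ^ (n + 1)) := by simpa using hC
  have e0 : ∀ n : ℕ, (1 - z * q ^ n) * (1 - q ^ (n + 1) / z) * (1 - q ^ (n + 1)) =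
      ((1 - z * q ^ n) * (1 - z⁻¹ * q ^ (n + 1))) * (1 - q ^ (n + 1)) := by
    intro n; rw [div_eq_inv_mul]
  have e1 : (∏' n : ℕ, (1 - z * q ^ n)) = (1 - z) * ∏' n : ℕ, (1 - z * q ^ (n + 1)) := by
    have := tprod_eq_zero_mul' (f := fun n : ℕ => (1 - z * q ^ n)) hA
    rw [this, pow_zero, mul_one]
  have e2 : (∏' n : ℕ, (1 - q ^ (n + 1))) = Eu q := rfl
  rw [tprod_congr e0, (hA'.mul hB).tprod_mul hC', hA'.tprod_mul hB, e1, e2]
  generalize (∏' n : ℕ, (1 - z * q ^ (n + 1))) = P1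
  generalize (∏' n : ℕ, (1 - z⁻¹ * q ^ (n + 1))) = P2
  ring

private theorem Jac_zpow_le {y : ℂ} (h1 : 1 / 2 ≤ ‖y‖) (h2 : ‖y‖ ≤ 2) (n : ℤ) :
    ‖y ^ n‖ ≤ 2 ^ n.natAbs := by
  have h0 : 0 < ‖y‖ := by linarith
  rw [norm_zpow]
  rcases Int.natAbs_eq n with h | h
  · rw [h]
    simp only [zpow_natCast, Int.natAbs_natCast]
    exact pow_le_pow_left₀ h0.le h2 _
  · rw [h]
    simp only [zpow_neg, zpow_natCast, Int.natAbs_neg, Int.natAbs_natCast]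
    rw [← inv_pow]
    refine pow_le_pow_left₀ (inv_nonneg.mpr h0.le) ?_ _
    rw [inv_le_comm₀ h0 (by norm_num)]
    linarith

private theorem Jac_thderiv (hq : ‖q‖ < 1) (hq0 : q ≠ 0) :
    HasDerivAt (fun z => th z q) (∑' n : ℤ, (-1 : ℂ) ^ n * (n : ℂ) * q ^ (n * (n - 1) / 2)) 1 := by
  have hsum : Summable fun n : ℤ => ‖(-1 : ℂ) ^ n * ((2 * 4 ^ n.natAbs : ℝ) : ℂ) *
      q ^ (n * (n - 1) / 2)‖ := by
    refine th_summable hq hq0 (fun n => ((2 * 4 ^ n.natAbs : ℝ) : ℂ)) 2 4 (by norm_num) fun n => ?_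
    rw [Complex.norm_real, Real.norm_of_nonneg (by positivity)]
  have hball : ∀ y ∈ Metric.ball (1 : ℂ) (1 / 2), 1 / 2 ≤ ‖y‖ ∧ ‖y‖ ≤ 2 := by
    intro y hy
    rw [Metric.mem_ball, dist_eq_norm] at hy
    have a1 : ‖y‖ ≤ ‖y - 1‖ + ‖(1 : ℂ)‖ := by
      have := norm_add_le (y - 1) 1
      simpa using this
    have a2 : ‖(1 : ℂ)‖ ≤ ‖y - 1‖ + ‖y‖ := by
      have := norm_sub_le y (y - 1)
      have e : y - (y - 1) = 1 := by ring
      rw [e] at this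
      linarith
    rw [norm_one] at a1 a2
    constructor <;> linarith
  have key := hasDerivAt_tsum_of_isPreconnected (𝕜 := ℂ) (F := ℂ) (t := Metric.ball (1 : ℂ) (1 / 2))
    (g := fun (n : ℤ) (z : ℂ) => (-1 : ℂ) ^ n * z ^ n * q ^ (n * (n - 1) / 2))
    (g' := fun (n : ℤ) (z : ℂ) => (-1 : ℂ) ^ n * ((n : ℂ) * z ^ (n - 1)) * q ^ (n * (n - 1) / 2))
    (y₀ := 1) (y := 1) hsum Metric.isOpen_ball (convex_ball _ _).isPreconnected ?_ ?_
    (Metric.mem_ball_self (by norm_num)) ?_ (Metric.mem_ball_self (by norm_num))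
  · simpa [th] using key
  · intro n y hy
    have hy0 : y ≠ 0 := by
      intro h; have := (hball y hy).1; rw [h, norm_zero] at this; norm_num at this
    exact ((hasDerivAt_zpow n y (Or.inl hy0)).const_mul _).mul_const _
  · intro n y hy
    obtain ⟨b1, b2⟩ := hball y hy
    have hy0 : y ≠ 0 := by
      intro h; rw [h, norm_zero] at b1; norm_num at b1
    have hpos : 0 < ‖y‖ := norm_pos_iff.mpr hy0
    simp only [norm_mul]
    refine mul_le_mul_of_nonneg_right ?_ (norm_nonneg _)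
    refine mul_le_mul_of_nonneg_left ?_ (norm_nonneg _)
    rw [Complex.norm_real, Real.norm_of_nonneg (by positivity : (0:ℝ) ≤ 2 * 4 ^ n.natAbs)]
    rw [zpow_sub₀ hy0, zpow_one, norm_div]
    have c1 := Jac_zpow_le b1 b2 n
    have c2 := Jac_natAbs_le n
    have c3 : ‖(n : ℂ)‖ = |(n : ℝ)| := by
      rw [← Complex.ofReal_intCast, Complex.norm_real, Real.norm_eq_abs]
    rw [c3]
    have c4 : ‖y ^ n‖ / ‖y‖ ≤ 2 ^ n.natAbs * 2 := by
      rw [div_le_iff₀ hpos]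
      have : (0 : ℝ) < 2 ^ n.natAbs := by positivity
      nlinarith
    calc |(n : ℝ)| * (‖y ^ n‖ / ‖y‖) ≤ 2 ^ n.natAbs * (2 ^ n.natAbs * 2) :=
          mul_le_mul c2 c4 (by positivity) (by positivity)
      _ = 2 * (2 * 2) ^ n.natAbs := by rw [mul_pow]; ring
      _ = 2 * 4 ^ n.natAbs := by norm_num
  · refine Summable.of_norm ?_
    refine Summable.of_nonneg_of_le (fun _ => norm_nonneg _) (fun n => ?_) hsum
    simp only [norm_mul]
    refine mul_le_mul_of_nonneg_right ?_ (norm_nonneg _)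
    refine mul_le_mul_of_nonneg_left ?_ (norm_nonneg _)
    rw [one_zpow, norm_one, Complex.norm_real,
      Real.norm_of_nonneg (by positivity : (0:ℝ) ≤ 2 * 4 ^ n.natAbs)]
    have : (1 : ℝ) ≤ 4 ^ n.natAbs := one_le_pow₀ (by norm_num)
    linarith

private theorem Jac_summ (hq : ‖q‖ < 1) (hq0 : q ≠ 0) (φ : ℤ → ℂ) (C K : ℝ) (hK : 1 ≤ K)
    (hφ : ∀ n, ‖φ n‖ ≤ C * K ^ n.natAbs) :
    Summable fun n : ℤ => (-1 : ℂ) ^ n * φ n * q ^ (n * (n - 1) / 2) :=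
  (th_summable hq hq0 φ C K hK hφ).of_norm

private theorem Jac_norm_int (n : ℤ) : ‖(n : ℂ)‖ ≤ 1 * 2 ^ n.natAbs := by
  have c3 : ‖(n : ℂ)‖ = |(n : ℝ)| := by
    rw [← Complex.ofReal_intCast, Complex.norm_real, Real.norm_eq_abs]
  rw [c3, one_mul]
  exact Jac_natAbs_le n

theorem jac1 (hq : ‖q‖ < 1) (hq0 : q ≠ 0) : J1 q = -Eu q ^ 3 := by
  -- the derivative of `th` at `1`, computed in two ways
  have hd := Jac_thderiv hq hq0
  have hth1 : th 1 q = 0 := by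
    rw [Jac_fact hq hq0 one_ne_zero]; simp
  have hslope := hasDerivAt_iff_tendsto_slope.mp hd
  have hlim : Filter.Tendsto (slope (fun z => th z q) 1) (nhdsWithin 1 {1}ᶜ)
      (nhds (-(Eu q * Eu q * Eu q))) := by
    have hA := Jac_contA hq
    have hB : Filter.Tendsto (fun w : ℂ => ∏' n : ℕ, (1 - w⁻¹ * q ^ (n + 1))) (nhds 1)
        (nhds (Eu q)) := by
      have hi : Filter.Tendsto (fun w : ℂ => w⁻¹) (nhds 1) (nhds 1) := by
        have := (continuousAt_inv₀ (one_ne_zero (α := ℂ))).tendsto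
        simpa using this
      exact hA.comp hi
    have h1 : Filter.Tendsto (fun z : ℂ => -((∏' n : ℕ, (1 - z * q ^ (n + 1))) *
        (∏' n : ℕ, (1 - z⁻¹ * q ^ (n + 1))) * Eu q)) (nhdsWithin 1 {1}ᶜ)
        (nhds (-(Eu q * Eu q * Eu q))) :=
      (((hA.mul hB).mul_const _).neg).mono_left nhdsWithin_le_nhds
    refine h1.congr' ?_
    have hne : ∀ᶠ z : ℂ in nhdsWithin 1 {1}ᶜ, z ≠ 0 :=
      (eventually_ne_nhds (one_ne_zero (α := ℂ))).filter_mono nhdsWithin_le_nhds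
    have hne1 : ∀ᶠ z : ℂ in nhdsWithin 1 {1}ᶜ, z ≠ 1 := by
      exact eventually_mem_nhdsWithin
    filter_upwards [hne, hne1] with z hz hz1
    rw [slope_def_field]
    simp only [hth1]
    rw [Jac_fact hq hq0 hz]
    have : z - 1 ≠ 0 := sub_ne_zero.mpr hz1
    field_simp
    ring
  have huniq := tendsto_nhds_unique hslope hlim
  have hs1 : Summable fun n : ℤ => (-1 : ℂ) ^ n * (n : ℂ) * q ^ (n * (n - 1) / 2) :=
    Jac_summ hq hq0 (fun n => (n : ℂ)) 1 2 (by norm_num) Jac_norm_int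
  have hs2 : Summable fun n : ℤ => (-1 : ℂ) ^ n * q ^ (n * (n - 1) / 2) := by
    have := Jac_summ hq hq0 (fun _ => (1 : ℂ)) 1 1 (by norm_num) (by intro n; simp)
    simpa using this
  have e : J1 q = (∑' n : ℤ, (-1 : ℂ) ^ n * (n : ℂ) * q ^ (n * (n - 1) / 2)) -
      1 / 2 * ∑' n : ℤ, (-1 : ℂ) ^ n * q ^ (n * (n - 1) / 2) := by
    rw [← tsum_mul_left, ← hs1.tsum_sub (hs2.mul_left _)]
    unfold J1
    refine tsum_congr fun n => ?_
    ring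
  rw [e, jac0 hq hq0, huniq]
  ring

/-! ### termwise differentiation in `q` -/

/-- bound for the series with weights and exponents `N n ≥ n(n-1)/2` -/
private theorem Jac_sumN {r : ℝ} (hr0 : 0 < r) (hr1 : r < 1) (c : ℤ → ℂ) (C K : ℝ) (hK : 1 ≤ K)
    (hc : ∀ n, ‖c n‖ ≤ C * K ^ n.natAbs) (N : ℤ → ℤ) (hN : ∀ n, n * (n - 1) / 2 ≤ N n) :
    Summable fun n : ℤ => ‖c n‖ * r ^ (N n) := by
  have h := th_summable (q := (r : ℂ)) (by rw [Complex.norm_real, Real.norm_of_nonneg hr0.le]; exact hr1)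
    (by exact_mod_cast hr0.ne') c C K hK hc
  refine Summable.of_nonneg_of_le (fun n => by positivity) (fun n => ?_) h
  have e1 : ‖(-1 : ℂ) ^ n‖ = 1 := by rw [norm_zpow]; simp
  rw [norm_mul, norm_mul, e1, one_mul, norm_zpow, Complex.norm_real, Real.norm_of_nonneg hr0.le]
  refine mul_le_mul_of_nonneg_left ?_ (norm_nonneg _)
  exact zpow_le_zpow_right_of_le_one₀ hr0 hr1.le (hN n)

private theorem Jac_qderiv (hq : ‖q‖ < 1) (hq0 : q ≠ 0) (c : ℤ → ℂ) (C K : ℝ) (hK : 1 ≤ K)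
    (hc : ∀ n, ‖c n‖ ≤ C * K ^ n.natAbs) (N : ℤ → ℤ) (hN : ∀ n, n * (n - 1) / 2 ≤ N n)
    (C' K' : ℝ) (hK' : 1 ≤ K') (hNb : ∀ n, ‖((N n : ℤ) : ℂ)‖ ≤ C' * K' ^ n.natAbs) :
    HasDerivAt (fun y : ℂ => ∑' n : ℤ, c n * y ^ (N n))
      (∑' n : ℤ, c n * ((N n : ℂ) * q ^ (N n - 1))) q ∧
    (Summable fun n : ℤ => c n * q ^ (N n)) ∧
    (Summable fun n : ℤ => c n * (N n : ℂ) * q ^ (N n)) := by
  have hqp : 0 < ‖q‖ := norm_pos_iff.mpr hq0
  have hC' : 0 ≤ C' := by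
    have := hNb 0
    simp only [Int.natAbs_zero, pow_zero, mul_one] at this
    exact (norm_nonneg _).trans this
  have hcN : ∀ n, ‖c n * (N n : ℂ)‖ ≤ (C * C') * (K * K') ^ n.natAbs := by
    intro n
    rw [norm_mul, mul_pow]
    calc ‖c n‖ * ‖((N n : ℤ) : ℂ)‖ ≤ (C * K ^ n.natAbs) * (C' * K' ^ n.natAbs) :=
          mul_le_mul (hc n) (hNb n) (norm_nonneg _) ((norm_nonneg _).trans (hc n))
      _ = _ := by ring
  have hKK : 1 ≤ K * K' := by nlinarith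
  obtain ⟨δ, hδ0, hδ1, hδ2⟩ : ∃ δ : ℝ, 0 < δ ∧ δ ≤ ‖q‖ / 2 ∧ ‖q‖ + δ < 1 := by
    refine ⟨min (‖q‖ / 2) ((1 - ‖q‖) / 2), ?_, min_le_left _ _, ?_⟩
    · exact lt_min (by linarith) (by linarith)
    · have := min_le_right (‖q‖ / 2) ((1 - ‖q‖) / 2)
      linarith
  have hr0 : 0 < ‖q‖ + δ := by linarith
  have hS1 := Jac_sumN hr0 hδ2 c C K hK hc N hN
  have hS2 := Jac_sumN hr0 hδ2 (fun n => c n * (N n : ℂ)) (C * C') (K * K') hKK hcN N hN
  have hN0 : ∀ n, 0 ≤ N n := fun n => (Jac_N_nonneg n).trans (hN n)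
  have hle : ∀ y : ℂ, y ≠ 0 → ‖y‖ ≤ ‖q‖ + δ → ∀ n, ‖y ^ (N n)‖ ≤ (‖q‖ + δ) ^ (N n) := by
    intro y hy0 hy n
    rw [norm_zpow]
    obtain ⟨k, hk⟩ := Int.eq_ofNat_of_zero_le (hN0 n)
    rw [hk, zpow_natCast, zpow_natCast]
    exact pow_le_pow_left₀ (norm_nonneg _) hy _
  have hball : ∀ y ∈ Metric.ball q δ, ‖q‖ / 2 ≤ ‖y‖ ∧ ‖y‖ ≤ ‖q‖ + δ := by
    intro y hy
    rw [Metric.mem_ball, dist_eq_norm] at hy
    have a1 : ‖y‖ ≤ ‖y - q‖ + ‖q‖ := by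
      have := norm_add_le (y - q) q
      simpa using this
    have a2 : ‖q‖ ≤ ‖y - q‖ + ‖y‖ := by
      have := norm_sub_le y (y - q)
      have e : y - (y - q) = q := by ring
      rw [e] at this
      linarith
    constructor <;> linarith
  have hs1 : Summable fun n : ℤ => c n * q ^ (N n) := by
    refine Summable.of_norm (Summable.of_nonneg_of_le (fun _ => norm_nonneg _) (fun n => ?_) hS1)
    rw [norm_mul]
    exact mul_le_mul_of_nonneg_left (hle q hq0 (by linarith) n) (norm_nonneg _)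
  refine ⟨?_, hs1, ?_⟩
  · have key := hasDerivAt_tsum_of_isPreconnected (𝕜 := ℂ) (F := ℂ) (t := Metric.ball q δ)
      (g := fun (n : ℤ) (y : ℂ) => c n * y ^ (N n))
      (g' := fun (n : ℤ) (y : ℂ) => c n * ((N n : ℂ) * y ^ (N n - 1)))
      (y₀ := q) (y := q) (hS2.mul_right (2 / ‖q‖)) Metric.isOpen_ball
      (convex_ball _ _).isPreconnected ?_ ?_ (Metric.mem_ball_self hδ0) hs1
      (Metric.mem_ball_self hδ0)
    · exact key
    · intro n y hy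
      have hy0 : y ≠ 0 := by
        intro h; have := (hball y hy).1; rw [h, norm_zero] at this; linarith
      exact (hasDerivAt_zpow (N n) y (Or.inl hy0)).const_mul _
    · intro n y hy
      obtain ⟨b1, b2⟩ := hball y hy
      have hy0 : y ≠ 0 := by
        intro h; rw [h, norm_zero] at b1; linarith
      have hpos : 0 < ‖y‖ := norm_pos_iff.mpr hy0
      have c1 := hle y hy0 b2 n
      rw [zpow_sub₀ hy0, zpow_one, ← mul_assoc, norm_mul, norm_div, mul_assoc]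
      refine mul_le_mul_of_nonneg_left ?_ (norm_nonneg _)
      have hr : (0 : ℝ) < (‖q‖ + δ) ^ (N n) := zpow_pos hr0 _
      rw [div_le_iff₀ hpos]
      have d1 : 1 ≤ 2 / ‖q‖ * ‖y‖ := by
        rw [div_mul_eq_mul_div, le_div_iff₀ hqp]; linarith
      calc ‖y ^ (N n)‖ ≤ (‖q‖ + δ) ^ (N n) := c1
        _ = (‖q‖ + δ) ^ (N n) * 1 := (mul_one _).symm
        _ ≤ (‖q‖ + δ) ^ (N n) * (2 / ‖q‖ * ‖y‖) := mul_le_mul_of_nonneg_left d1 hr.le
        _ = _ := by ring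
  · refine Summable.of_norm (Summable.of_nonneg_of_le (fun _ => norm_nonneg _) (fun n => ?_) hS2)
    rw [norm_mul]
    exact mul_le_mul_of_nonneg_left (hle q hq0 (by linarith) n) (norm_nonneg _)

private theorem Jac_neg_one (n : ℤ) : ‖(-1 : ℂ) ^ n‖ = 1 := by rw [norm_zpow]; simp

private theorem Jac_natAbs_two (n : ℤ) : ‖(n : ℂ)‖ ≤ 2 ^ n.natAbs := by
  simpa using Jac_norm_int n

private theorem Jac_Nb (n : ℤ) : ‖((n * (n - 1) / 2 : ℤ) : ℂ)‖ ≤ 1 * 4 ^ n.natAbs := by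
  have h1 : (2 : ℂ) * ((n * (n - 1) / 2 : ℤ) : ℂ) = (n : ℂ) * ((n : ℂ) - 1) := by
    exact_mod_cast congrArg (fun k : ℤ => (k : ℂ)) (Jac_two_dvd n)
  have h2 : ((n * (n - 1) / 2 : ℤ) : ℂ) = (n : ℂ) * ((n : ℂ) - 1) / 2 := by
    rw [← h1]; ring
  rw [h2, norm_div, norm_mul]
  have c := Jac_natAbs_two n
  have d := Jac_one_le n
  have c' : ‖(n : ℂ) - 1‖ ≤ 2 * 2 ^ n.natAbs := by
    refine (norm_sub_le _ _).trans ?_
    rw [norm_one]; linarith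
  have e : ‖(2 : ℂ)‖ = 2 := by simp
  rw [e, div_le_iff₀ (by norm_num)]
  calc ‖(n : ℂ)‖ * ‖(n : ℂ) - 1‖ ≤ 2 ^ n.natAbs * (2 * 2 ^ n.natAbs) :=
        mul_le_mul c c' (norm_nonneg _) (by positivity)
    _ = (2 * 2) ^ n.natAbs * 2 := by rw [mul_pow]; ring
    _ = 1 * 4 ^ n.natAbs * 2 := by norm_num

private theorem Jac_Mb (n : ℤ) : ‖((n * (3 * n - 1) / 2 : ℤ) : ℂ)‖ ≤ 2 * 4 ^ n.natAbs := by
  have h1 : (2 : ℂ) * ((n * (3 * n - 1) / 2 : ℤ) : ℂ) = (n : ℂ) * (3 * (n : ℂ) - 1) := by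
    exact_mod_cast congrArg (fun k : ℤ => (k : ℂ)) (Jac_two_dvd' n)
  have h2 : ((n * (3 * n - 1) / 2 : ℤ) : ℂ) = (n : ℂ) * (3 * (n : ℂ) - 1) / 2 := by
    rw [← h1]; ring
  rw [h2, norm_div, norm_mul]
  have c := Jac_natAbs_two n
  have d := Jac_one_le n
  have c' : ‖3 * (n : ℂ) - 1‖ ≤ 4 * 2 ^ n.natAbs := by
    refine (norm_sub_le _ _).trans ?_
    rw [norm_one, norm_mul]
    have e3 : ‖(3 : ℂ)‖ = 3 := by simp
    rw [e3]; linarith
  have e : ‖(2 : ℂ)‖ = 2 := by simp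
  rw [e, div_le_iff₀ (by norm_num)]
  calc ‖(n : ℂ)‖ * ‖3 * (n : ℂ) - 1‖ ≤ 2 ^ n.natAbs * (4 * 2 ^ n.natAbs) :=
        mul_le_mul c c' (norm_nonneg _) (by positivity)
    _ = 2 * (2 * 2) ^ n.natAbs * 2 := by rw [mul_pow]; ring
    _ = 2 * 4 ^ n.natAbs * 2 := by norm_num

theorem heatJ (hq : ‖q‖ < 1) (hq0 : q ≠ 0) : J3 q = 2 * qd J1 q + 1 / 4 * J1 q := by
  have hc : ∀ n : ℤ, ‖(-1 : ℂ) ^ n * ((n : ℂ) - 1 / 2)‖ ≤ 2 * 2 ^ n.natAbs := by
    intro n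
    rw [norm_mul, Jac_neg_one, one_mul]
    refine (norm_sub_le _ _).trans ?_
    have c := Jac_natAbs_two n
    have d := Jac_one_le n
    have e : ‖(1 / 2 : ℂ)‖ = 1 / 2 := by simp
    rw [e]; linarith
  obtain ⟨h1, h2, h3⟩ := Jac_qderiv hq hq0 (fun n : ℤ => (-1 : ℂ) ^ n * ((n : ℂ) - 1 / 2)) 2 2
    (by norm_num) hc (fun n => n * (n - 1) / 2) (fun n => le_refl _) 1 4 (by norm_num) Jac_Nb
  have hd : qd J1 q = ∑' n : ℤ, (-1 : ℂ) ^ n * ((n : ℂ) - 1 / 2) * ((n * (n - 1) / 2 : ℤ) : ℂ) *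
      q ^ (n * (n - 1) / 2) := by
    have e : deriv J1 q = ∑' n : ℤ, (-1 : ℂ) ^ n * ((n : ℂ) - 1 / 2) *
        (((n * (n - 1) / 2 : ℤ) : ℂ) * q ^ (n * (n - 1) / 2 - 1)) := h1.deriv
    unfold qd
    rw [e, ← tsum_mul_left]
    refine tsum_congr fun n => ?_
    rw [zpow_sub₀ hq0, zpow_one]
    field_simp
  rw [hd, J3, J1, ← tsum_mul_left, ← tsum_mul_left, ← (h3.mul_left 2).tsum_add (h2.mul_left (1 / 4))]
  refine tsum_congr fun n => ?_
  have e1 : (2 : ℂ) * ((n * (n - 1) / 2 : ℤ) : ℂ) = (n : ℂ) * ((n : ℂ) - 1) := by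
    exact_mod_cast congrArg (fun k : ℤ => (k : ℂ)) (Jac_two_dvd n)
  linear_combination (-1 : ℂ) * ((-1 : ℂ) ^ n * ((n : ℂ) - 1 / 2) * q ^ (n * (n - 1) / 2)) * e1

theorem heatK (hq : ‖q‖ < 1) (hq0 : q ≠ 0) : K3 q = 24 * qd K1 q + K1 q := by
  have hc : ∀ n : ℤ, ‖(-1 : ℂ) ^ n * (6 * (n : ℂ) - 1)‖ ≤ 7 * 2 ^ n.natAbs := by
    intro n
    rw [norm_mul, Jac_neg_one, one_mul]
    refine (norm_sub_le _ _).trans ?_
    have c := Jac_natAbs_two n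
    have d := Jac_one_le n
    have e : ‖(6 : ℂ)‖ = 6 := by simp
    rw [norm_one, norm_mul, e]; linarith
  obtain ⟨h1, h2, h3⟩ := Jac_qderiv hq hq0 (fun n : ℤ => (-1 : ℂ) ^ n * (6 * (n : ℂ) - 1)) 7 2
    (by norm_num) hc (fun n => n * (3 * n - 1) / 2) Jac_M_ge 2 4 (by norm_num) Jac_Mb
  have hd : qd K1 q = ∑' n : ℤ, (-1 : ℂ) ^ n * (6 * (n : ℂ) - 1) *
      ((n * (3 * n - 1) / 2 : ℤ) : ℂ) * q ^ (n * (3 * n - 1) / 2) := by
    have e : deriv K1 q = ∑' n : ℤ, (-1 : ℂ) ^ n * (6 * (n : ℂ) - 1) *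
        (((n * (3 * n - 1) / 2 : ℤ) : ℂ) * q ^ (n * (3 * n - 1) / 2 - 1)) := h1.deriv
    unfold qd
    rw [e, ← tsum_mul_left]
    refine tsum_congr fun n => ?_
    rw [zpow_sub₀ hq0, zpow_one]
    field_simp
  rw [hd, K3, K1, ← tsum_mul_left, ← (h3.mul_left 24).tsum_add h2]
  refine tsum_congr fun n => ?_
  have e1 : (2 : ℂ) * ((n * (3 * n - 1) / 2 : ℤ) : ℂ) = (n : ℂ) * (3 * (n : ℂ) - 1) := by
    exact_mod_cast congrArg (fun k : ℤ => (k : ℂ)) (Jac_two_dvd' n)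
  linear_combination (-12 : ℂ) * ((-1 : ℂ) ^ n * (6 * (n : ℂ) - 1) * q ^ (n * (3 * n - 1) / 2)) * e1

end RV15W
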