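import Mathlib
import Pool.Agent.RV15W.Defs
import Pool.Agent.RV15W.Bas
import Pool.Agent.RV15W.JT
import Pool.Agent.RV15W.Cu
import Pool.Agent.RV15W.Rel
import Pool.Agent.RV15W.Jac

/-!
# RV15W/Star: `3 q a' = a (9 PP(q³) - PP(q))/8 - E1^9/E3^3`

Use `cube` with `φ n = n - 3/2` and with `φ n = (n - 3/2)³`.
Left side: with `i + j + k - 3/2 = (i-1/2) + (j-1/2) + (k-1/2) = x + y + z`, the triple sum factors; only odd powers of
each of `x, y, z` survive (the sum with an even power vanishes, `n ↔ 1-n`), so the left side is `0` for `φ = n - 3/2` and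
`6 J1³` (from `6 x y z`) for the cube.
Right side: `φ(3m) = 3^k (m - 1/2)^k` gives `3^k J_k(q³)`; `φ(3m+1) = (3m - 1/2)^k = ((6m-1)/2)^k` and, after `m → -m`,
`φ(3m+2)` gives `-((6m-1)/2)^k`, so the last sum is `2^(1-k) K_k(q)`.
* `cubeK1`: `0 = a · 3 J1(q³) - ct · K1`, with `J1(q³) = -E3³` and `ct = 3 E3³/E1`: `K1 = - a E1`.
* `cubeK3`: `6 J1³ = 27 a J3(q³) - (1/4) ct K3`.
* `star`: insert `J3(q³) = (2 qd J1 + J1/4)(q³)` with `J1 = -Eu³` (so `qd J1 = -3 Eu² qd Eu`) and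
  `K3 = 24 qd K1 + K1` with `K1 = - a Eu` on the punctured disc. With `l1 = qd Eu q/Eu q = (PP q - 1)/24` and
  `l3 = 3 (qd Eu/Eu)(q³) = (PP(q³) - 1)/8` one gets `3 qd a = a (1 + 9 l3 - 3 l1) - E1^9/E3^3`.
-/

set_option autoImplicit false

namespace RV15W

variable {q : ℂ}

private noncomputable def StarA (q : ℂ) (a : ℕ) (n : ℤ) : ℂ :=
  (-1 : ℂ) ^ n * ((n : ℂ) - 1 / 2) ^ a * q ^ (n * (n - 1) / 2)

private theorem Star_nat (n : ℤ) : (n.natAbs : ℝ) + 1 ≤ 2 ^ n.natAbs := by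
  have h := Nat.lt_two_pow_self (n := n.natAbs)
  exact_mod_cast h

private theorem Star_norm (n : ℤ) : ‖(n : ℂ)‖ = (n.natAbs : ℝ) := by
  rw [Complex.norm_intCast, Nat.cast_natAbs, Int.cast_abs]

private theorem Star_pow_bd (n : ℤ) (s : ℂ) (c : ℝ) (h : ‖s‖ ≤ c * 2 ^ n.natAbs) (a : ℕ) :
    ‖s ^ a‖ ≤ c ^ a * (2 ^ a) ^ n.natAbs := by
  rw [norm_pow]
  calc ‖s‖ ^ a ≤ (c * 2 ^ n.natAbs) ^ a := pow_le_pow_left₀ (norm_nonneg _) h a
    _ = c ^ a * (2 ^ a) ^ n.natAbs := by rw [mul_pow, ← pow_mul, ← pow_mul, mul_comm n.natAbs a]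

private theorem Star_half (n : ℤ) : ‖(n : ℂ) - 1 / 2‖ ≤ 1 * 2 ^ n.natAbs := by
  have h1 := norm_sub_le (n : ℂ) (1 / 2)
  have h2 : ‖(1 / 2 : ℂ)‖ = 1 / 2 := by norm_num
  rw [Star_norm, h2] at h1
  have := Star_nat n
  linarith

private theorem Star_threeHalf (n : ℤ) : ‖(n : ℂ) - 3 / 2‖ ≤ 2 * 2 ^ n.natAbs := by
  have h1 := norm_sub_le (n : ℂ) (3 / 2)
  have h2 : ‖(3 / 2 : ℂ)‖ = 3 / 2 := by norm_num
  rw [Star_norm, h2] at h1
  have := Star_nat n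
  have h3 : (1 : ℝ) ≤ 2 ^ n.natAbs := one_le_pow₀ (by norm_num)
  linarith

private theorem Star_six (n : ℤ) : ‖6 * (n : ℂ) - 1‖ ≤ 6 * 2 ^ n.natAbs := by
  have h1 := norm_sub_le (6 * (n : ℂ)) 1
  rw [norm_mul, Star_norm, norm_one] at h1
  have h2 : ‖(6 : ℂ)‖ = 6 := by norm_num
  rw [h2] at h1
  have := Star_nat n
  linarith

private theorem StarA_norm (hq : ‖q‖ < 1) (hq0 : q ≠ 0) (a : ℕ) :
    Summable fun n : ℤ => ‖StarA q a n‖ :=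
  th_summable hq hq0 (fun n => ((n : ℂ) - 1 / 2) ^ a) (1 ^ a) (2 ^ a) (one_le_pow₀ (by norm_num))
    (fun n => Star_pow_bd n _ 1 (Star_half n) a)

private theorem StarA_has (hq : ‖q‖ < 1) (hq0 : q ≠ 0) (a b c : ℕ) :
    HasSum (fun v : ℤ × ℤ × ℤ => StarA q a v.1 * (StarA q b v.2.1 * StarA q c v.2.2))
      ((∑' n, StarA q a n) * ((∑' n, StarA q b n) * ∑' n, StarA q c n)) := by
  have ha := StarA_norm hq hq0 a
  have hb := StarA_norm hq hq0 b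
  have hc := StarA_norm hq hq0 c
  have hbc := Summable.mul_norm hb hc
  rw [tsum_mul_tsum_of_summable_norm hb hc, tsum_mul_tsum_of_summable_norm ha hbc]
  exact (Summable.mul_norm ha hbc).of_norm.hasSum

private theorem StarA_zero (hq : ‖q‖ < 1) (hq0 : q ≠ 0) : ∑' n, StarA q 0 n = 0 := by
  rw [← jac0 hq hq0]
  refine tsum_congr fun n => ?_
  unfold StarA
  ring

private theorem StarA_one : ∑' n, StarA q 1 n = J1 q := by
  unfold J1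
  refine tsum_congr fun n => ?_
  unfold StarA
  ring

private theorem Star_lhs1 (hq : ‖q‖ < 1) (hq0 : q ≠ 0) :
    (∑' v : ℤ × ℤ × ℤ, (-1 : ℂ) ^ (v.1 + v.2.1 + v.2.2) *
      ((fun n : ℤ => (n : ℂ) - 3 / 2) (v.1 + v.2.1 + v.2.2)) *
      q ^ (v.1 * (v.1 - 1) / 2 + v.2.1 * (v.2.1 - 1) / 2 + v.2.2 * (v.2.2 - 1) / 2)) = 0 := by
  have h := ((StarA_has hq hq0 1 0 0).add (StarA_has hq hq0 0 1 0)).add (StarA_has hq hq0 0 0 1)
  simp only [StarA_zero hq hq0, mul_zero, zero_mul, add_zero] at h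
  rw [← h.tsum_eq]
  refine tsum_congr fun v => ?_
  have hneg : ((-1 : ℂ)) ≠ 0 := by norm_num
  rw [zpow_add₀ hneg, zpow_add₀ hneg, zpow_add₀ hq0, zpow_add₀ hq0]
  unfold StarA
  push_cast
  ring

private theorem Star_lhs3 (hq : ‖q‖ < 1) (hq0 : q ≠ 0) :
    (∑' v : ℤ × ℤ × ℤ, (-1 : ℂ) ^ (v.1 + v.2.1 + v.2.2) *
      ((fun n : ℤ => ((n : ℂ) - 3 / 2) ^ 3) (v.1 + v.2.1 + v.2.2)) *
      q ^ (v.1 * (v.1 - 1) / 2 + v.2.1 * (v.2.1 - 1) / 2 + v.2.2 * (v.2.2 - 1) / 2)) =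
      6 * J1 q ^ 3 := by
  have h1 := ((StarA_has hq hq0 3 0 0).add (StarA_has hq hq0 0 3 0)).add (StarA_has hq hq0 0 0 3)
  have h2 := (((((StarA_has hq hq0 2 1 0).add (StarA_has hq hq0 2 0 1)).add
    (StarA_has hq hq0 1 2 0)).add (StarA_has hq hq0 0 2 1)).add
    (StarA_has hq hq0 1 0 2)).add (StarA_has hq hq0 0 1 2)
  have h3 := (StarA_has hq hq0 1 1 1).mul_left 6
  have h := (h1.add (h2.mul_left 3)).add h3
  simp only [StarA_zero hq hq0, mul_zero, zero_mul, add_zero, zero_add, StarA_one] at h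
  have e : 6 * J1 q ^ 3 = 6 * (J1 q * (J1 q * J1 q)) := by ring
  rw [e, ← h.tsum_eq]
  refine tsum_congr fun v => ?_
  have hneg : ((-1 : ℂ)) ≠ 0 := by norm_num
  rw [zpow_add₀ hneg, zpow_add₀ hneg, zpow_add₀ hq0, zpow_add₀ hq0]
  unfold StarA
  push_cast
  ring

private theorem Star_exp (m : ℤ) : m * (3 * m - 1) / 2 = 3 * (m * (m - 1) / 2) + m := by
  have h : 2 * (m * (m - 1) / 2) = m * (m - 1) :=
    Int.mul_ediv_cancel' (Int.even_mul_pred_self m).two_dvd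
  have h2 : m * (3 * m - 1) = 2 * (3 * (m * (m - 1) / 2) + m) := by linarith
  rw [h2, Int.mul_ediv_cancel_left _ two_ne_zero]

private theorem Star_Ksum (hq : ‖q‖ < 1) (hq0 : q ≠ 0) (k : ℕ) :
    Summable fun m : ℤ => (-1 : ℂ) ^ m * ((6 * (m : ℂ) - 1) ^ k * q ^ (m * (3 * m - 1) / 2)) := by
  have hq1 : 0 < ‖q‖ := norm_pos_iff.mpr hq0
  have hq3 : ‖q ^ 3‖ < 1 := by
    rw [norm_pow]; exact pow_lt_one₀ (norm_nonneg _) hq (by norm_num)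
  have hi : 1 ≤ ‖q‖⁻¹ := (one_le_inv₀ hq1).mpr hq.le
  have h := th_summable hq3 (pow_ne_zero 3 hq0) (fun m => (6 * (m : ℂ) - 1) ^ k * q ^ m)
    (6 ^ k) (2 ^ k * ‖q‖⁻¹) (one_le_mul_of_one_le_of_one_le (one_le_pow₀ (by norm_num)) hi)
    (fun m => by
      rw [norm_mul, mul_pow, ← mul_assoc]
      refine mul_le_mul (Star_pow_bd m _ 6 (Star_six m) k) ?_ (norm_nonneg _)
        (by positivity)
      rw [norm_zpow]
      rcases Int.natAbs_eq m with h | h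
      · conv_lhs => rw [h]
        rw [zpow_natCast]
        exact pow_le_pow_left₀ hq1.le (hq.le.trans hi) _
      · conv_lhs => rw [h]
        rw [zpow_neg, zpow_natCast, ← inv_pow])
  refine h.of_norm.congr fun m => ?_
  rw [Star_exp, zpow_add₀ hq0, zpow_mul]
  have : q ^ (3:ℤ) = q ^ 3 := by norm_cast
  rw [this]
  ring

private theorem Star_rhs (hq : ‖q‖ < 1) (hq0 : q ≠ 0) (k : ℕ) (hk : Odd k) :
    (∑' m : ℤ, (-1 : ℂ) ^ m *
      ((((3 * m + 1 : ℤ) : ℂ) - 3 / 2) ^ k * q ^ (m * (3 * m - 1) / 2) -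
        (((3 * m + 2 : ℤ) : ℂ) - 3 / 2) ^ k * q ^ (m * (3 * m + 1) / 2))) =
    2 * (1 / 2) ^ k * ∑' m : ℤ, (-1 : ℂ) ^ m * (6 * (m : ℂ) - 1) ^ k * q ^ (m * (3 * m - 1) / 2) := by
  obtain ⟨F, hF⟩ : ∃ F : ℤ → ℂ, F = fun m : ℤ => (1 / 2 : ℂ) ^ k *
        ((-1 : ℂ) ^ m * ((6 * (m : ℂ) - 1) ^ k * q ^ (m * (3 * m - 1) / 2))) := ⟨_, rfl⟩
  have hs : Summable F := by rw [hF]; exact (Star_Ksum hq hq0 k).mul_left ((1 / 2 : ℂ) ^ k)
  have hs' : Summable fun m : ℤ => F (-m) := (Equiv.neg ℤ).summable_iff.mpr hs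
  have ht : ∑' m : ℤ, F (-m) = ∑' m, F m := (Equiv.neg ℤ).tsum_eq F
  have e1 : ∀ m : ℤ, (-1 : ℂ) ^ m *
      ((((3 * m + 1 : ℤ) : ℂ) - 3 / 2) ^ k * q ^ (m * (3 * m - 1) / 2) -
        (((3 * m + 2 : ℤ) : ℂ) - 3 / 2) ^ k * q ^ (m * (3 * m + 1) / 2)) = F m + F (-m) := by
    intro m
    have a1 : (((3 * m + 1 : ℤ) : ℂ) - 3 / 2) = (1 / 2) * (6 * (m : ℂ) - 1) := by
      push_cast; ring
    have a2 : (((3 * m + 2 : ℤ) : ℂ) - 3 / 2) = -((1 / 2) * (6 * ((-m : ℤ) : ℂ) - 1)) := by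
      push_cast; ring
    have a3 : -m * (3 * -m - 1) / 2 = m * (3 * m + 1) / 2 := by
      congr 1; ring
    have a4 : (-1 : ℂ) ^ (-m) = (-1 : ℂ) ^ m := by
      rw [zpow_neg, ← inv_zpow]; norm_num
    rw [hF]
    simp only
    rw [a1, a2, a3, a4, mul_pow, Odd.neg_pow hk, mul_pow]
    ring
  rw [tsum_congr e1, hs.tsum_add hs', ht, ← two_mul, hF, tsum_mul_left, mul_assoc]
  congr 3
  funext m
  ring

theorem cubeK1 (hq : ‖q‖ < 1) (hq0 : q ≠ 0) : K1 q = -(ca q * Eu q) := by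
  have hq3 : ‖q ^ 3‖ < 1 := by
    rw [norm_pow]; exact pow_lt_one₀ (norm_nonneg _) hq (by norm_num)
  have h := cube hq hq0 (fun n : ℤ => (n : ℂ) - 3 / 2) 2 2 (by norm_num) (fun n => Star_threeHalf n)
  rw [Star_lhs1 hq hq0] at h
  have h2 := Star_rhs hq hq0 1 odd_one
  simp only [pow_one] at h2
  have h3 : (∑' m : ℤ, (-1 : ℂ) ^ m * (((3 * m : ℤ) : ℂ) - 3 / 2) * (q ^ 3) ^ (m * (m - 1) / 2)) =
      3 * J1 (q ^ 3) := by
    unfold J1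
    rw [← tsum_mul_left]
    refine tsum_congr fun m => ?_
    push_cast
    ring
  have h4 : (∑' m : ℤ, (-1 : ℂ) ^ m * (6 * (m : ℂ) - 1) * q ^ (m * (3 * m - 1) / 2)) = K1 q := rfl
  rw [h4] at h2
  rw [h3, h2, jac1 hq3 (pow_ne_zero 3 hq0), rel_ct hq hq0] at h
  have n1 := Eu_ne hq
  have n3 := Eu_ne hq3
  field_simp at h
  have n33 : Eu (q ^ 3) ^ 3 ≠ 0 := pow_ne_zero 3 n3
  have h5 : K1 q + ca q * Eu q = 0 := by
    have h6 : Eu (q ^ 3) ^ 3 * (K1 q + ca q * Eu q) = 0 := by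
      linear_combination (1 / 3 : ℂ) * h
    exact (mul_eq_zero.mp h6).resolve_left n33
  linear_combination h5

theorem cubeK3 (hq : ‖q‖ < 1) (hq0 : q ≠ 0) :
    6 * J1 q ^ 3 = 27 * ca q * J3 (q ^ 3) - 1 / 4 * ct q * K3 q := by
  have h := cube hq hq0 (fun n : ℤ => ((n : ℂ) - 3 / 2) ^ 3) (2 ^ 3) (2 ^ 3) (by norm_num)
    (fun n => Star_pow_bd n _ 2 (Star_threeHalf n) 3)
  rw [Star_lhs3 hq hq0] at h
  have h2 := Star_rhs hq hq0 3 (by decide)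
  have h3 : (∑' m : ℤ, (-1 : ℂ) ^ m * (((3 * m : ℤ) : ℂ) - 3 / 2) ^ 3 * (q ^ 3) ^ (m * (m - 1) / 2)) =
      27 * J3 (q ^ 3) := by
    unfold J3
    rw [← tsum_mul_left]
    refine tsum_congr fun m => ?_
    push_cast
    ring
  have h4 : (∑' m : ℤ, (-1 : ℂ) ^ m * (6 * (m : ℂ) - 1) ^ 3 * q ^ (m * (3 * m - 1) / 2)) = K3 q := rfl
  rw [h4] at h2
  rw [h3, h2] at h
  rw [h]
  ring

private theorem Star_nhds (hq : ‖q‖ < 1) (hq0 : q ≠ 0) : {p : ℂ | ‖p‖ < 1 ∧ p ≠ 0} ∈ nhds q :=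
  IsOpen.mem_nhds ((isOpen_lt continuous_norm continuous_const).inter isOpen_ne) ⟨hq, hq0⟩

private theorem Star_Eu_d (hq : ‖q‖ < 1) : DifferentiableAt ℂ Eu q :=
  Eu_diff.differentiableAt (Metric.isOpen_ball.mem_nhds (by simpa using hq))

private theorem Star_ca_d (hq : ‖q‖ < 1) : DifferentiableAt ℂ ca q :=
  ca_diff.differentiableAt (Metric.isOpen_ball.mem_nhds (by simpa using hq))

private theorem Star_dJ (hq : ‖q‖ < 1) (hq0 : q ≠ 0) : qd J1 q = -(3 * Eu q ^ 2 * qd Eu q) := by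
  have h : J1 =ᶠ[nhds q] fun p => -Eu p ^ 3 := by
    filter_upwards [Star_nhds hq hq0] with p hp
    exact jac1 hp.1 hp.2
  unfold qd
  rw [h.deriv_eq]
  have h2 := ((Star_Eu_d hq).hasDerivAt.pow 3).neg
  have h3 : deriv (fun p => -Eu p ^ 3) q = -(((3:ℕ):ℂ) * Eu q ^ (3 - 1) * deriv Eu q) := h2.deriv
  rw [h3]
  push_cast
  ring

private theorem Star_dK (hq : ‖q‖ < 1) (hq0 : q ≠ 0) :
    qd K1 q = -(qd ca q * Eu q + ca q * qd Eu q) := by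
  have h : K1 =ᶠ[nhds q] fun p => -(ca p * Eu p) := by
    filter_upwards [Star_nhds hq hq0] with p hp
    exact cubeK1 hp.1 hp.2
  unfold qd
  rw [h.deriv_eq]
  have h2 := ((Star_ca_d hq).hasDerivAt.mul (Star_Eu_d hq).hasDerivAt).neg
  have h3 : deriv (fun p => -(ca p * Eu p)) q = -(deriv ca q * Eu q + ca q * deriv Eu q) := h2.deriv
  rw [h3]
  ring

theorem star (hq : ‖q‖ < 1) (hq0 : q ≠ 0) :
    3 * qd ca q = ca q * (9 * PP (q ^ 3) - PP q) / 8 - bb q := by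
  have hq3 : ‖q ^ 3‖ < 1 := by
    rw [norm_pow]; exact pow_lt_one₀ (norm_nonneg _) hq (by norm_num)
  have hq30 : q ^ 3 ≠ 0 := pow_ne_zero 3 hq0
  have n1 := Eu_ne hq
  have n3 := Eu_ne hq3
  have h := cubeK3 hq hq0
  rw [heatJ hq3 hq30, heatK hq hq0, Star_dJ hq3 hq30, Star_dK hq hq0, cubeK1 hq hq0,
    jac1 hq hq0, jac1 hq3 hq30, rel_ct hq hq0] at h
  unfold PP bb
  generalize qd ca q = Da at h ⊢
  generalize qd Eu q = D1 at h ⊢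
  generalize qd Eu (q ^ 3) = D3 at h ⊢
  generalize Eu q = E1 at n1 h ⊢
  generalize Eu (q ^ 3) = E3 at n3 h ⊢
  generalize ca q = a at h ⊢
  field_simp at h ⊢
  linear_combination (-1 / 3 : ℂ) * h

end RV15W
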