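import Mathlib
import Pool.Agent.RV15W.Defs
import Pool.Agent.RV15W.Bas
import Pool.Agent.RV15W.Rel
import Pool.Agent.RV15W.Star

/-!
# RV15W/Alg: the differential ring generated by `a(q)`, `a(q²)`, `PP(q²)`

Write `x = a(q)`, `z = a(q²)`, `P_d = PP(q^d)`, `D = qd`, `E_k = Eu(q^k)`, `B = bb q`, `B2 = bb(q²)`.
* `rel_bb`: `B = al² ga = (x+z)(x-2z)²/2`, `B2 = (2z-x)(x+z)²/4` (`E1^9/E3^3 = al²·ga`, `E2^9/E6^3 = al·ga²`,
  and `al = 2z-x`, `ga = (x+z)/2`, `de = (x-z)/2`, `be = x+2z`).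
* `rel_cc`: `27 q E3^9/E1^3 = be² de`, so `x³ = B + 27 q E3^9/E1^3`.
* `rel_T`: `TT = ga de/(al be)`; `rel_Z`: `ZZ = al be/3`.
* `P3`: `D log` of `B` is `(3/8)(P1 - P3)`, of `C = 27 q E3^9/E1^3` is `(9 P3 - P1)/8`; differentiate `x³ = B + C` and use
  `star`: `2x² = 3 P3 - P1`. `P6`: the same at `q²`.
* `dx`: `star` with `P3`: `12 Dx = x P1 + 3x³ - 4B`; `dz`: the same at `q²`.
* `P2`: `D log al = (P1 + P6 - P2 - P3)/4` and `al = 2z - x` give `(4z - x) d = -x³+2x²z+10xz²-8z³`, `d = 2P2 - P1`;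
  `D log de = (36 P6 + P1 - 4 P2 - 9 P3)/24` and `2 de = x - z` give a relation with factor `(2x - z)`; the right sides are
  `(4z-x) d0` and `(2x-z) d0` with `d0 = 2xz - 2z² + x²`; combine to `7x (d-d0) = 0 = 7z (d-d0)`, and
  `2z - x = al ≠ 0`.
-/

set_option autoImplicit false

namespace RV15W

variable {q : ℂ}

private lemma nk {k : ℕ} (hq : ‖q‖ < 1) (hk : k ≠ 0) : ‖q ^ k‖ < 1 := by
  rw [norm_pow]; exact pow_lt_one₀ (norm_nonneg _) hq hk

private lemma ne1 (hq : ‖q‖ < 1) : Eu q ≠ 0 := Eu_ne hq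
private lemma ne2 (hq : ‖q‖ < 1) : Eu (q ^ 2) ≠ 0 := Eu_ne (nk hq (by norm_num))
private lemma ne3 (hq : ‖q‖ < 1) : Eu (q ^ 3) ≠ 0 := Eu_ne (nk hq (by norm_num))
private lemma ne6 (hq : ‖q‖ < 1) : Eu (q ^ 6) ≠ 0 := Eu_ne (nk hq (by norm_num))

theorem al_ne (hq : ‖q‖ < 1) : al q ≠ 0 := by
  unfold al
  have h1 := ne1 hq; have h2 := ne2 hq; have h3 := ne3 hq; have h6 := ne6 hq
  positivity

theorem be_ne (hq : ‖q‖ < 1) : be q ≠ 0 := by
  unfold be
  have h1 := ne1 hq; have h2 := ne2 hq; have h3 := ne3 hq; have h6 := ne6 hq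
  exact div_ne_zero (mul_ne_zero (mul_ne_zero (by norm_num) (pow_ne_zero _ h3)) h2)
    (mul_ne_zero (pow_ne_zero _ h1) (pow_ne_zero _ h6))

private lemma ga_ne (hq : ‖q‖ < 1) : ga q ≠ 0 := by
  unfold ga
  have h1 := ne1 hq; have h2 := ne2 hq; have h3 := ne3 hq; have h6 := ne6 hq
  positivity

private lemma al0 : al 0 = 1 := by simp [al, Eu_zero]
private lemma be0 : be 0 = 3 := by simp [be, Eu_zero]
private lemma ga0 : ga 0 = 1 := by simp [ga, Eu_zero]
private lemma de0 : de 0 = 0 := by simp [de]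

theorem al_eq (hq : ‖q‖ < 1) : al q = 2 * ca (q ^ 2) - ca q := by
  by_cases h0 : q = 0
  · subst h0; simp [al0, ca_zero]; norm_num
  · linear_combination (-2 : ℂ) * relB hq h0 + rel_a1 hq h0

theorem be_eq (hq : ‖q‖ < 1) : be q = ca q + 2 * ca (q ^ 2) := by
  by_cases h0 : q = 0
  · subst h0; simp [be0, ca_zero]; norm_num
  · linear_combination rel_be hq h0 - rel_a1 hq h0 - 2 * relB hq h0

private lemma ga_eq (hq : ‖q‖ < 1) : ga q = (ca q + ca (q ^ 2)) / 2 := by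
  by_cases h0 : q = 0
  · subst h0; simp [ga0, ca_zero]
  · linear_combination rel_ga hq h0 - (1/2:ℂ) * rel_a1 hq h0 - (1/2:ℂ) * relB hq h0

private lemma de_eq (hq : ‖q‖ < 1) : de q = (ca q - ca (q ^ 2)) / 2 := by
  by_cases h0 : q = 0
  · subst h0; simp [de0, ca_zero]
  · linear_combination (-1/2:ℂ) * rel_a1 hq h0 + (1/2:ℂ) * relB hq h0

theorem rel_B1 (hq : ‖q‖ < 1) :
    bb q = (ca q + ca (q ^ 2)) * (ca q - 2 * ca (q ^ 2)) ^ 2 / 2 := by
  have h1 := ne1 hq; have h2 := ne2 hq; have h3 := ne3 hq; have h6 := ne6 hq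
  have key : bb q = al q ^ 2 * ga q := by
    unfold bb al ga; field_simp
  rw [key, al_eq hq, ga_eq hq]; ring

theorem rel_B2 (hq : ‖q‖ < 1) :
    bb (q ^ 2) = (2 * ca (q ^ 2) - ca q) * (ca q + ca (q ^ 2)) ^ 2 / 4 := by
  have h1 := ne1 hq; have h2 := ne2 hq; have h3 := ne3 hq; have h6 := ne6 hq
  have key : bb (q ^ 2) = al q * ga q ^ 2 := by
    unfold bb al ga; rw [← pow_mul]; norm_num; field_simp
  rw [key, al_eq hq, ga_eq hq]; ring

/-- `T = (x²-z²)/(4(4z²-x²))` -/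
theorem rel_T (hq : ‖q‖ < 1) :
    TT q * (4 * (4 * ca (q ^ 2) ^ 2 - ca q ^ 2)) = ca q ^ 2 - ca (q ^ 2) ^ 2 := by
  have h1 := ne1 hq; have h2 := ne2 hq; have h3 := ne3 hq; have h6 := ne6 hq
  have key : TT q * (al q * be q) = ga q * de q := by
    unfold TT ff al be ga de; field_simp
  rw [al_eq hq, be_eq hq, ga_eq hq, de_eq hq] at key
  linear_combination 4 * key

theorem ZZ_ne (hq : ‖q‖ < 1) : ZZ q ≠ 0 := by
  have : ZZ q = al q * be q / 3 := by
    rw [al_eq hq, be_eq hq]; unfold ZZ; ring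
  rw [this]
  exact div_ne_zero (mul_ne_zero (al_ne hq) (be_ne hq)) (by norm_num)

/-! calculus of `qd` -/

private lemma qd_mul {f g : ℂ → ℂ} (hf : DifferentiableAt ℂ f q) (hg : DifferentiableAt ℂ g q) :
    qd (fun r => f r * g r) q = qd f q * g q + f q * qd g q := by
  unfold qd; rw [deriv_fun_mul hf hg]; ring

private lemma qd_pow {f : ℂ → ℂ} (n : ℕ) (hf : DifferentiableAt ℂ f q) :
    qd (fun r => f r ^ n) q = n * f q ^ (n - 1) * qd f q := by
  unfold qd; rw [deriv_fun_pow hf]; ring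

private lemma qd_comp {f : ℂ → ℂ} (k : ℕ) (hk : k ≠ 0) (hf : DifferentiableAt ℂ f (q ^ k)) :
    qd (fun r => f (r ^ k)) q = k * qd f (q ^ k) := by
  unfold qd
  have h1 : HasDerivAt (fun r : ℂ => r ^ k) (k * q ^ (k - 1)) q := hasDerivAt_pow k q
  have h2 := (hf.hasDerivAt).comp q h1
  have h3 : deriv (fun r => f (r ^ k)) q = deriv f (q ^ k) * (k * q ^ (k - 1)) := h2.deriv
  rw [h3]
  have : q ^ k = q * q ^ (k - 1) := by rw [← pow_succ', Nat.sub_add_cancel (Nat.pos_of_ne_zero hk)]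
  rw [this]; ring

private lemma dE (hq : ‖q‖ < 1) : DifferentiableAt ℂ Eu q :=
  Eu_diff.differentiableAt (Metric.isOpen_ball.mem_nhds (by simpa using hq))

private lemma dEk (hq : ‖q‖ < 1) {k : ℕ} (hk : k ≠ 0) : DifferentiableAt ℂ (fun r => Eu (r ^ k)) q :=
  (dE (nk hq hk)).comp q (differentiableAt_pow k)

private lemma dca (hq : ‖q‖ < 1) : DifferentiableAt ℂ ca q :=
  ca_diff.differentiableAt (Metric.isOpen_ball.mem_nhds (by simpa using hq))

private lemma dcak (hq : ‖q‖ < 1) {k : ℕ} (hk : k ≠ 0) : DifferentiableAt ℂ (fun r => ca (r ^ k)) q :=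
  (dca (nk hq hk)).comp q (differentiableAt_pow k)

/-- logarithmic derivative of `Eu (q^k)` -/
private lemma ldE (hq : ‖q‖ < 1) {k : ℕ} (hk : k ≠ 0) :
    qd (fun r => Eu (r ^ k)) q = k * (PP (q ^ k) - 1) / 24 * Eu (q ^ k) := by
  rw [qd_comp k hk (dE (nk hq hk))]
  have : Eu (q ^ k) ≠ 0 := Eu_ne (nk hq hk)
  unfold PP; field_simp; ring

private lemma ldE1 (hq : ‖q‖ < 1) : qd Eu q = (PP q - 1) / 24 * Eu q := by
  have : Eu q ≠ 0 := Eu_ne hq
  unfold PP; field_simp; ring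

private lemma ballN (hq : ‖q‖ < 1) : ∀ᶠ r in nhds q, ‖r‖ < 1 := by
  have : Metric.ball (0:ℂ) 1 ∈ nhds q := Metric.isOpen_ball.mem_nhds (by simpa using hq)
  filter_upwards [this] with r hr
  simpa using hr

private lemma qd_congr {f g : ℂ → ℂ} (e : ∀ᶠ r in nhds q, f r = g r) : qd f q = qd g q := by
  unfold qd
  rw [Filter.EventuallyEq.deriv_eq e]

/-- monomials in the Euler products -/
private noncomputable def mn (a b c d : ℕ) (r : ℂ) : ℂ :=
  Eu r ^ a * Eu (r ^ 2) ^ b * Eu (r ^ 3) ^ c * Eu (r ^ 6) ^ d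

private lemma mn_diff (hq : ‖q‖ < 1) (a b c d : ℕ) : DifferentiableAt ℂ (mn a b c d) q := by
  unfold mn
  exact ((((dE hq).fun_pow a).fun_mul ((dEk hq two_ne_zero).fun_pow b)).fun_mul
    ((dEk hq three_ne_zero).fun_pow c)).fun_mul ((dEk hq (by norm_num)).fun_pow d)

private lemma qd_mn (hq : ‖q‖ < 1) (a b c d : ℕ) : qd (mn a b c d) q = mn a b c d q *
    ((a * (PP q - 1) + 2 * b * (PP (q ^ 2) - 1) + 3 * c * (PP (q ^ 3) - 1) +
      6 * d * (PP (q ^ 6) - 1)) / 24) := by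
  have pw : ∀ {f : ℂ → ℂ} {l : ℂ} (n : ℕ), DifferentiableAt ℂ f q → qd f q = l * f q →
      qd (fun r => f r ^ n) q = n * l * f q ^ n := by
    intro f l n hf hl
    rw [qd_pow n hf, hl]
    cases n with
    | zero => simp
    | succ m => simp only [Nat.add_sub_cancel]; ring
  have e1 := pw a (dE hq) (ldE1 hq)
  have e2 := pw b (dEk hq two_ne_zero) (ldE hq two_ne_zero)
  have e3 := pw c (dEk hq three_ne_zero) (ldE hq three_ne_zero)
  have e6 := pw d (dEk hq (show (6:ℕ) ≠ 0 by norm_num)) (ldE hq (show (6:ℕ) ≠ 0 by norm_num))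
  have d1 := (dE hq).fun_pow a
  have d2 := (dEk hq two_ne_zero).fun_pow b
  have d3 := (dEk hq three_ne_zero).fun_pow c
  have d6 := (dEk hq (show (6:ℕ) ≠ 0 by norm_num)).fun_pow d
  unfold mn
  rw [qd_mul ((d1.fun_mul d2).fun_mul d3) d6, qd_mul (d1.fun_mul d2) d3, qd_mul d1 d2, e1, e2, e3, e6]
  push_cast
  ring

/-- if `f · M' = M` with monomials, then the logarithmic derivative of `f` -/
private lemma qd_quot (hq : ‖q‖ < 1) {f : ℂ → ℂ} {a b c d a' b' c' d' : ℕ}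
    (hf : ∀ r, ‖r‖ < 1 → f r = mn a b c d r / mn a' b' c' d' r) :
    DifferentiableAt ℂ f q ∧ qd f q = f q *
      (((a - a') * (PP q - 1) + 2 * (b - b') * (PP (q ^ 2) - 1) + 3 * (c - c') * (PP (q ^ 3) - 1) +
      6 * (d - d') * (PP (q ^ 6) - 1)) / 24) := by
  have hne : ∀ r : ℂ, ‖r‖ < 1 → mn a' b' c' d' r ≠ 0 := by
    intro r hr
    unfold mn
    have h1 := ne1 hr; have h2 := ne2 hr; have h3 := ne3 hr; have h6 := ne6 hr
    positivity
  have e : ∀ᶠ r in nhds q, f r = mn a b c d r / mn a' b' c' d' r := by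
    filter_upwards [ballN hq] with r hr using hf r hr
  have hd : DifferentiableAt ℂ f q :=
    ((mn_diff hq a b c d).fun_div (mn_diff hq a' b' c' d') (hne q hq)).congr_of_eventuallyEq e
  refine ⟨hd, ?_⟩
  have e2 : ∀ᶠ r in nhds q, f r * mn a' b' c' d' r = mn a b c d r := by
    filter_upwards [ballN hq] with r hr
    rw [hf r hr, div_mul_cancel₀ _ (hne r hr)]
  have e3 := qd_congr e2
  rw [qd_mul hd (mn_diff hq a' b' c' d'), qd_mn hq, qd_mn hq] at e3
  have h0 := hne q hq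
  have e4 : f q * mn a' b' c' d' q = mn a b c d q := e2.self_of_nhds
  rw [← e4] at e3
  have e5 : qd f q * mn a' b' c' d' q = (f q *
      (((a - a') * (PP q - 1) + 2 * (b - b') * (PP (q ^ 2) - 1) + 3 * (c - c') * (PP (q ^ 3) - 1) +
      6 * (d - d') * (PP (q ^ 6) - 1)) / 24)) * mn a' b' c' d' q := by
    linear_combination e3
  exact mul_right_cancel₀ h0 e5

private lemma ld_al (hq : ‖q‖ < 1) :
    qd al q = al q * ((PP q + PP (q ^ 6) - PP (q ^ 2) - PP (q ^ 3)) / 4) := by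
  have h := (qd_quot hq (f := al) (a := 6) (b := 0) (c := 0) (d := 1) (a' := 0) (b' := 3) (c' := 2)
    (d' := 0) (by intro r _; unfold al mn; simp)).2
  rw [h]; push_cast; ring

private lemma ld_bb (hq : ‖q‖ < 1) :
    qd bb q = bb q * (3 * (PP q - PP (q ^ 3)) / 8) := by
  have h := (qd_quot hq (f := bb) (a := 9) (b := 0) (c := 0) (d := 0) (a' := 0) (b' := 0) (c' := 3)
    (d' := 0) (by intro r _; unfold bb mn; simp)).2
  rw [h]; push_cast; ring

/-- with an extra factor `q` -/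
private lemma qd_quotq (hq : ‖q‖ < 1) {f : ℂ → ℂ} {a b c d a' b' c' d' : ℕ} (k : ℂ)
    (hf : ∀ r, ‖r‖ < 1 → f r = k * r * (mn a b c d r / mn a' b' c' d' r)) :
    qd f q = f q *
      (1 + ((a - a') * (PP q - 1) + 2 * (b - b') * (PP (q ^ 2) - 1) + 3 * (c - c') * (PP (q ^ 3) - 1) +
      6 * (d - d') * (PP (q ^ 6) - 1)) / 24) := by
  have h := qd_quot hq (f := fun r => mn a b c d r / mn a' b' c' d' r) (a := a) (b := b) (c := c) (d := d)
    (a' := a') (b' := b') (c' := c') (d' := d') (fun r _ => rfl)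
  have e : ∀ᶠ r in nhds q, f r = (k * r) * (mn a b c d r / mn a' b' c' d' r) := by
    filter_upwards [ballN hq] with r hr using hf r hr
  rw [qd_congr e, qd_mul (by fun_prop) h.1, h.2, e.self_of_nhds]
  have : qd (fun r => k * r) q = k * q := by
    unfold qd
    rw [deriv_const_mul_id']
    ring
  rw [this]
  ring

private lemma ld_de (hq : ‖q‖ < 1) :
    qd de q = de q * ((PP q + 36 * PP (q ^ 6) - 4 * PP (q ^ 2) - 9 * PP (q ^ 3)) / 24) := by
  have h := (qd_quotq hq (f := de) (a := 1) (b := 0) (c := 0) (d := 6) (a' := 0) (b' := 2) (c' := 3)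
    (d' := 0) 3 (by intro r _; unfold de mn; simp; ring))
  rw [h]; push_cast; ring

private lemma ld_T (hq : ‖q‖ < 1) :
    qd TT q = TT q * ((2 * PP (q ^ 2) + 6 * PP (q ^ 6) - PP q - 3 * PP (q ^ 3)) / 4) := by
  have h := (qd_quotq hq (f := TT) (a := 0) (b := 6) (c := 0) (d := 6) (a' := 6) (b' := 0) (c' := 6)
    (d' := 0) 1 (by intro r _; unfold TT ff mn; simp [mul_pow, div_pow]))
  rw [h]; push_cast; ring

private lemma ld_C (hq : ‖q‖ < 1) :
    qd (fun r => ca r ^ 3 - bb r) q = (ca q ^ 3 - bb q) * ((9 * PP (q ^ 3) - PP q) / 8) := by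
  have h := (qd_quotq hq (f := fun r => ca r ^ 3 - bb r) (a := 0) (b := 0) (c := 9) (d := 0)
    (a' := 3) (b' := 0) (c' := 0) (d' := 0) 27 (by
      intro r hr
      have e : ca r ^ 3 - bb r = be r ^ 2 * de r := by
        rw [rel_B1 hr, be_eq hr, de_eq hr]; ring
      rw [e]
      have h1 := ne1 hr; have h2 := ne2 hr; have h3 := ne3 hr; have h6 := ne6 hr
      unfold be de mn
      field_simp
      ring))
  rw [h]; push_cast; ring

private lemma PP0 : PP 0 = 1 := by simp [PP, qd]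

private lemma bb_ne (hq : ‖q‖ < 1) : bb q ≠ 0 := by
  unfold bb
  have h1 := ne1 hq; have h3 := ne3 hq
  positivity

private lemma dbb (hq : ‖q‖ < 1) : DifferentiableAt ℂ bb q :=
  (qd_quot hq (f := bb) (a := 9) (b := 0) (c := 0) (d := 0) (a' := 0) (b' := 0) (c' := 3)
    (d' := 0) (by intro r _; unfold bb mn; simp)).1

theorem P3 (hq : ‖q‖ < 1) : 3 * PP (q ^ 3) = 2 * ca q ^ 2 + PP q := by
  by_cases h0 : q = 0
  · subst h0; simp [PP0, ca_zero]; norm_num
  have hs := star hq h0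
  have hC := ld_C hq
  have hB := ld_bb hq
  have e1 : qd (fun r => ca r ^ 3) q = qd (fun r => ca r ^ 3 - bb r) q + qd bb q := by
    have d1 : DifferentiableAt ℂ (fun r => ca r ^ 3) q := (dca hq).fun_pow 3
    unfold qd
    rw [deriv_fun_sub d1 (dbb hq)]
    ring
  rw [qd_pow 3 (dca hq), hC, hB] at e1
  have hb := bb_ne hq
  have e2 : bb q * (3 * PP (q ^ 3) - (2 * ca q ^ 2 + PP q)) = 0 := by
    push_cast at e1
    linear_combination (2 : ℂ) * e1 - (2 * ca q ^ 2) * hs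
  rcases mul_eq_zero.mp e2 with h | h
  · exact absurd h hb
  · linear_combination h

theorem dx (hq : ‖q‖ < 1) :
    12 * qd ca q = ca q * PP q + ca q ^ 3 + 6 * ca q ^ 2 * ca (q ^ 2) - 8 * ca (q ^ 2) ^ 3 := by
  by_cases h0 : q = 0
  · subst h0; simp [PP0, ca_zero, qd]; norm_num
  have hs := star hq h0
  have h3 := P3 hq
  have hB := rel_B1 hq
  linear_combination 4 * hs + (3 / 2 : ℂ) * ca q * h3 - 4 * hB

private lemma P6 (hq : ‖q‖ < 1) : 3 * PP (q ^ 6) = 2 * ca (q ^ 2) ^ 2 + PP (q ^ 2) := by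
  have h := P3 (nk hq two_ne_zero)
  rw [← pow_mul] at h
  exact h

theorem dz (hq : ‖q‖ < 1) :
    12 * qd (fun r => ca (r ^ 2)) q = 2 * ca (q ^ 2) * PP (q ^ 2) + 2 * ca (q ^ 2) ^ 3 +
      2 * ca q ^ 3 - 6 * ca q * ca (q ^ 2) ^ 2 := by
  by_cases h0 : q = 0
  · subst h0; simp [PP0, ca_zero, qd]; norm_num
  have hq2 := nk hq two_ne_zero
  rw [qd_comp 2 two_ne_zero (dca hq2)]
  have hs := star hq2 (pow_ne_zero 2 h0)
  have h3 := P3 hq2
  have hB := rel_B2 hq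
  push_cast
  linear_combination 8 * hs + 3 * ca (q ^ 2) * h3 - 8 * hB

theorem P2 (hq : ‖q‖ < 1) :
    2 * PP (q ^ 2) = PP q + 2 * ca q * ca (q ^ 2) - 2 * ca (q ^ 2) ^ 2 + ca q ^ 2 := by
  have hx := dx hq
  have hz := dz hq
  have h3 := P3 hq
  have h6 := P6 hq
  have ha : qd al q = 2 * qd (fun r => ca (r ^ 2)) q - qd ca q := by
    have e : ∀ᶠ r in nhds q, al r = 2 * ca (r ^ 2) - ca r := by
      filter_upwards [ballN hq] with r hr using al_eq hr
    rw [qd_congr e]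
    unfold qd
    rw [deriv_fun_sub ((dcak hq two_ne_zero).const_mul 2) (dca hq), deriv_const_mul 2 (dcak hq two_ne_zero)]
    ring
  have hd : qd de q = (qd ca q - qd (fun r => ca (r ^ 2)) q) / 2 := by
    have e : ∀ᶠ r in nhds q, de r = (ca r - ca (r ^ 2)) / 2 := by
      filter_upwards [ballN hq] with r hr using de_eq hr
    rw [qd_congr e]
    unfold qd
    rw [deriv_div_const, deriv_fun_sub (dca hq) (dcak hq two_ne_zero)]
    ring
  rw [ld_al hq, al_eq hq] at ha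
  rw [ld_de hq, de_eq hq] at hd
  have k1 : (4 * ca (q ^ 2) - ca q) *
      (2 * PP (q ^ 2) - (PP q + 2 * ca q * ca (q ^ 2) - 2 * ca (q ^ 2) ^ 2 + ca q ^ 2)) = 0 := by
    linear_combination (-12 : ℂ) * ha + (2 * ca (q ^ 2) - ca q) * h6 -
      (2 * ca (q ^ 2) - ca q) * h3 - 2 * hz + hx
  have k2 : (2 * ca q - ca (q ^ 2)) *
      (2 * PP (q ^ 2) - (PP q + 2 * ca q * ca (q ^ 2) - 2 * ca (q ^ 2) ^ 2 + ca q ^ 2)) = 0 := by
    linear_combination (24 : ℂ) * hd - 6 * (ca q - ca (q ^ 2)) * h6 +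
      (3 / 2 : ℂ) * (ca q - ca (q ^ 2)) * h3 + hx - hz
  rcases mul_eq_zero.mp k1 with a1 | a1
  · rcases mul_eq_zero.mp k2 with a2 | a2
    · exfalso
      apply al_ne hq
      rw [al_eq hq]
      have : ca (q ^ 2) = 0 := by linear_combination (2 / 7 : ℂ) * a1 + (1 / 7 : ℂ) * a2
      have h2 : ca q = 0 := by linear_combination (4:ℂ) * this - a1
      rw [this, h2]; ring
    · linear_combination a2
  · linear_combination a1

/-- `D log T = a(q) a(q²)` -/
theorem dT (hq : ‖q‖ < 1) : qd TT q = TT q * (ca q * ca (q ^ 2)) := by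
  rw [ld_T hq]
  have h3 := P3 hq
  have h6 := P6 hq
  have h2 := P2 hq
  linear_combination TT q * ((1 / 2 : ℂ) * h6 - (1 / 4 : ℂ) * h3 + (1 / 2 : ℂ) * h2)

end RV15W
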