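import Mathlib
import Pool.Agent.RV15W.Defs
import Pool.Agent.RV15W.Bas

/-!
# RV15W/Fri: the transformation `a(-1/(3τ)) = (√3 τ/i) a(τ)`

With `θ3(τ) = Σ e^(π i n² τ)` (Mathlib `jacobiTheta`), `θ2(τ) = Σ e^(π i (n+1/2)² τ)`, `θ4(τ) = Σ (-1)^n e^(π i n² τ)`:
`m²+mn+n² = (m+n/2)² + 3n²/4`, so splitting `n` even/odd, `ca (qq τ) = θ3(2τ)θ3(6τ) + θ2(2τ)θ2(6τ)`.
`jacobiTheta₂_functional_equation` gives `θ3(-1/τ) = √(-iτ) θ3(τ)`, `θ2(-1/τ) = √(-iτ) θ4(τ)`; and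
`θ3(τ/4) = θ3(τ) + θ2(τ)`, `θ4(τ/4) = θ3(τ) - θ2(τ)` (for suitable argument: split `n` even/odd).
So with `s = -1/(3τ)`: `θ3(2s) = √(-i3τ/2) θ3(3τ/2) = √(-i3τ/2) (θ3(6τ)+θ2(6τ))`,
`θ3(6s) = √(-iτ/2) θ3(τ/2) = √(-iτ/2)(θ3(2τ)+θ2(2τ))`, and with `θ2`, `θ4` the same with minus signs; the product of the two
square roots is `√3 τ/(2i)`.
-/

set_option autoImplicit false

namespace RV15W

private theorem Fri_congr {f g : ℤ → ℂ} {a : ℂ} (h : ∀ n, f n = g n) (hf : HasSum f a) :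
    HasSum g a := (funext h : f = g) ▸ hf

private theorem Fri_even_odd {f : ℤ → ℂ} {a b : ℂ} (he : HasSum (fun k : ℤ => f (2 * k)) a)
    (ho : HasSum (fun k : ℤ => f (2 * k + 1)) b) : HasSum f (a + b) := by
  have h2 : Function.Injective (fun k : ℤ => 2 * k) := mul_right_injective₀ two_ne_zero
  have h3 : Function.Injective (fun k : ℤ => 2 * k + 1) := (add_left_injective 1).comp h2
  refine (h2.hasSum_range_iff.2 he).add_isCompl ?_ (h3.hasSum_range_iff.2 ho)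
  simpa [Function.comp_def] using Int.isCompl_even_odd

private noncomputable def FriA3 (τ : ℂ) : ℂ := jacobiTheta₂ 0 τ

private noncomputable def FriA4 (τ : ℂ) : ℂ := jacobiTheta₂ (1 / 2) τ

private noncomputable def FriA2 (τ : ℂ) : ℂ :=
  Complex.exp (Real.pi * Complex.I * τ / 4) * jacobiTheta₂ (τ / 2) τ

private theorem Fri_hA3 {τ : ℂ} (hτ : 0 < τ.im) :
    HasSum (fun n : ℤ => Complex.exp (Real.pi * Complex.I * (n : ℂ) ^ 2 * τ)) (FriA3 τ) := by
  have h := hasSum_jacobiTheta₂_term 0 hτ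
  refine Fri_congr (fun n => ?_) h
  simp [jacobiTheta₂_term]

private theorem Fri_hA4 {τ : ℂ} (hτ : 0 < τ.im) :
    HasSum (fun n : ℤ => (-1 : ℂ) ^ n * Complex.exp (Real.pi * Complex.I * (n : ℂ) ^ 2 * τ))
      (FriA4 τ) := by
  have h := hasSum_jacobiTheta₂_term (1 / 2) hτ
  refine Fri_congr (fun n => ?_) h
  rw [jacobiTheta₂_term, Complex.exp_add]
  congr 1
  rw [← Complex.exp_pi_mul_I, ← Complex.exp_int_mul]
  congr 1
  ring

private theorem Fri_hA2 {τ : ℂ} (hτ : 0 < τ.im) :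
    HasSum (fun n : ℤ => Complex.exp (Real.pi * Complex.I * ((n : ℂ) + 1 / 2) ^ 2 * τ))
      (FriA2 τ) := by
  have h := (hasSum_jacobiTheta₂_term (τ / 2) hτ).mul_left
    (Complex.exp (Real.pi * Complex.I * τ / 4))
  refine Fri_congr (fun n => ?_) h
  rw [jacobiTheta₂_term, ← Complex.exp_add]
  congr 1
  ring

private theorem Fri_im_inv {τ : ℂ} (hτ : 0 < τ.im) : 0 < (-1 / τ).im := by
  rw [div_eq_mul_inv, neg_one_mul, Complex.neg_im, Complex.inv_im, neg_div, neg_neg]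
  exact div_pos hτ (Complex.normSq_pos.mpr (fun h => by rw [h] at hτ; simp at hτ))

private theorem Fri_ne {τ : ℂ} (hτ : 0 < τ.im) : τ ≠ 0 := fun h => by
  rw [h] at hτ; simp at hτ

private theorem Fri_sqrt_ne {τ : ℂ} (hτ : 0 < τ.im) : (-Complex.I * τ) ^ (1 / 2 : ℂ) ≠ 0 := by
  rw [Ne, Complex.cpow_eq_zero_iff, not_and_or]
  exact Or.inl <| mul_ne_zero (neg_ne_zero.mpr Complex.I_ne_zero) (Fri_ne hτ)

private theorem Fri_fe3 {τ : ℂ} (hτ : 0 < τ.im) :
    FriA3 (-1 / τ) = (-Complex.I * τ) ^ (1 / 2 : ℂ) * FriA3 τ := by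
  unfold FriA3
  rw [jacobiTheta₂_functional_equation 0 τ]
  have h := Fri_sqrt_ne hτ
  simp only [ne_eq, OfNat.ofNat_ne_zero, not_false_eq_true, zero_pow, mul_zero, zero_div,
    Complex.exp_zero, mul_one]
  rw [← mul_assoc, mul_one_div_cancel h, one_mul]

private theorem Fri_fe2 {τ : ℂ} (hτ : 0 < τ.im) :
    FriA2 (-1 / τ) = (-Complex.I * τ) ^ (1 / 2 : ℂ) * FriA4 τ := by
  unfold FriA2 FriA4
  rw [jacobiTheta₂_functional_equation (1 / 2) τ]
  have h := Fri_sqrt_ne hτ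
  have h0 := Fri_ne hτ
  rw [← mul_assoc, ← mul_assoc, mul_one_div_cancel h, one_mul]
  have h1 : (-1 / τ / 2 : ℂ) = -(1 / 2 / τ) := by field_simp
  rw [h1, jacobiTheta₂_neg_left]
  congr 2
  field_simp
  ring

private theorem Fri_q3 {τ : ℂ} (hτ : 0 < τ.im) : FriA3 τ = FriA3 (4 * τ) + FriA2 (4 * τ) := by
  have h4 : 0 < (4 * τ).im := by simpa using hτ
  refine (Fri_hA3 hτ).unique (Fri_even_odd ?_ ?_)
  · refine Fri_congr (fun n => ?_) (Fri_hA3 h4)
    push_cast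
    congr 1
    ring
  · refine Fri_congr (fun n => ?_) (Fri_hA2 h4)
    push_cast
    congr 1
    ring

private theorem Fri_q4 {τ : ℂ} (hτ : 0 < τ.im) : FriA4 τ = FriA3 (4 * τ) - FriA2 (4 * τ) := by
  have h4 : 0 < (4 * τ).im := by simpa using hτ
  rw [sub_eq_add_neg]
  refine (Fri_hA4 hτ).unique (Fri_even_odd ?_ ?_)
  · refine Fri_congr (fun n => ?_) (Fri_hA3 h4)
    rw [zpow_mul]
    norm_num
    congr 1
    ring
  · refine Fri_congr (fun n => ?_) (Fri_hA2 h4).neg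
    rw [zpow_add₀ (by norm_num), zpow_mul]
    norm_num
    congr 1
    ring

private theorem Fri_qq_norm {τ : ℂ} (hτ : 0 < τ.im) : ‖qq τ‖ < 1 := by
  unfold qq
  rw [Complex.norm_exp, Real.exp_lt_one_iff]
  have : (2 * (Real.pi : ℂ) * Complex.I * τ).re = -(2 * Real.pi * τ.im) := by
    simp [Complex.mul_re, Complex.mul_im]
  rw [this]
  have := Real.pi_pos
  have := mul_pos this hτ
  linarith

private theorem Fri_term (τ : ℂ) (N : ℤ) :
    qq τ ^ N = Complex.exp (2 * Real.pi * Complex.I * τ * N) := by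
  unfold qq
  rw [← Complex.exp_int_mul]
  congr 1
  ring

private theorem Fri_ca {τ : ℂ} (hτ : 0 < τ.im) :
    ca (qq τ) = FriA3 (6 * τ) * FriA3 (2 * τ) + FriA2 (6 * τ) * FriA2 (2 * τ) := by
  have h2 : 0 < (2 * τ).im := by simpa using hτ
  have h6 : 0 < (6 * τ).im := by simpa using hτ
  have hs := (ca_summable (Fri_qq_norm hτ)).of_norm.hasSum
  have hf : ∀ k : ℤ, HasSum (fun b : ℤ => qq τ ^ ((2 * k) ^ 2 + (2 * k) * b + b ^ 2))
      (Complex.exp (Real.pi * Complex.I * (k : ℂ) ^ 2 * (6 * τ)) * FriA3 (2 * τ)) := by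
    intro k
    have h := ((Equiv.addRight k).hasSum_iff.mpr (Fri_hA3 h2)).mul_left
      (Complex.exp (Real.pi * Complex.I * (k : ℂ) ^ 2 * (6 * τ)))
    refine Fri_congr (fun n => ?_) h
    rw [Fri_term, Function.comp_apply, ← Complex.exp_add]
    congr 1
    simp only [Equiv.coe_addRight]
    push_cast
    ring
  have hg : ∀ k : ℤ, HasSum (fun b : ℤ => qq τ ^ ((2 * k + 1) ^ 2 + (2 * k + 1) * b + b ^ 2))
      (Complex.exp (Real.pi * Complex.I * ((k : ℂ) + 1 / 2) ^ 2 * (6 * τ)) * FriA2 (2 * τ)) := by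
    intro k
    have h := ((Equiv.addRight k).hasSum_iff.mpr (Fri_hA2 h2)).mul_left
      (Complex.exp (Real.pi * Complex.I * ((k : ℂ) + 1 / 2) ^ 2 * (6 * τ)))
    refine Fri_congr (fun n => ?_) h
    rw [Fri_term, Function.comp_apply, ← Complex.exp_add]
    congr 1
    simp only [Equiv.coe_addRight]
    push_cast
    ring
  have hfib : ∀ a : ℤ, Summable fun b : ℤ => qq τ ^ (a ^ 2 + a * b + b ^ 2) := fun a =>
    hs.summable.prod_factor a
  have h1 : HasSum (fun a : ℤ => ∑' b : ℤ, qq τ ^ (a ^ 2 + a * b + b ^ 2)) (ca (qq τ)) :=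
    hs.prod_fiberwise fun a => (hfib a).hasSum
  refine h1.unique (Fri_even_odd ?_ ?_)
  · refine Fri_congr (fun k => ?_) ((Fri_hA3 h6).mul_right (FriA3 (2 * τ)))
    exact (hf k).tsum_eq.symm
  · refine Fri_congr (fun k => ?_) ((Fri_hA2 h6).mul_right (FriA2 (2 * τ)))
    exact (hg k).tsum_eq.symm

theorem ca_fricke (τ : ℂ) (hτ : 0 < τ.im) :
    ca (qq (-1 / (3 * τ))) = (Real.sqrt 3 : ℂ) * τ / Complex.I * ca (qq τ) := by
  have h0 := Fri_ne hτ
  have h3 : 0 < (3 * τ).im := by simpa using hτ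
  have ha : 0 < (3 * τ / 2).im := by
    have : (3 * τ / 2 : ℂ) = ((3 / 2 : ℝ) : ℂ) * τ := by push_cast; ring
    rw [this, Complex.im_ofReal_mul]
    positivity
  have hb : 0 < (τ / 2).im := by
    have : (τ / 2 : ℂ) = ((1 / 2 : ℝ) : ℂ) * τ := by push_cast; ring
    rw [this, Complex.im_ofReal_mul]
    positivity
  rw [Fri_ca (Fri_im_inv h3), Fri_ca hτ]
  have e6 : 6 * (-1 / (3 * τ)) = -1 / (τ / 2) := by field_simp; norm_num
  have e2 : 2 * (-1 / (3 * τ)) = -1 / (3 * τ / 2) := by field_simp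
  rw [e6, e2, Fri_fe3 hb, Fri_fe2 hb, Fri_fe3 ha, Fri_fe2 ha, Fri_q3 ha, Fri_q4 ha, Fri_q3 hb,
    Fri_q4 hb]
  have e7 : 4 * (τ / 2) = 2 * τ := by ring
  have e8 : 4 * (3 * τ / 2) = 6 * τ := by ring
  rw [e7, e8]
  have hw : -Complex.I * (3 * τ / 2) = ((3 : ℝ) : ℂ) * (-Complex.I * (τ / 2)) := by
    push_cast; ring
  have hw0 : -Complex.I * (τ / 2) ≠ 0 :=
    mul_ne_zero (neg_ne_zero.mpr Complex.I_ne_zero) (Fri_ne hb)
  have hsq : (-Complex.I * (τ / 2)) ^ (1 / 2 : ℂ) * (-Complex.I * (3 * τ / 2)) ^ (1 / 2 : ℂ) =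
      (Real.sqrt 3 : ℂ) * (-Complex.I * (τ / 2)) := by
    rw [hw]
    set w := -Complex.I * (τ / 2) with hwdef
    have h31 : (((3 : ℝ) : ℂ) * w) ^ (1 / 2 : ℂ) = (Real.sqrt 3 : ℂ) * w ^ (1 / 2 : ℂ) := by
      rw [Complex.cpow_def_of_ne_zero (mul_ne_zero (by norm_num) hw0),
        Complex.cpow_def_of_ne_zero hw0, Complex.log_ofReal_mul (by norm_num) hw0, add_mul,
        Complex.exp_add]
      congr 1
      rw [Real.sqrt_eq_rpow, Real.rpow_def_of_pos (by norm_num)]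
      push_cast
      rfl
    have h32 : w ^ (1 / 2 : ℂ) * w ^ (1 / 2 : ℂ) = w := by
      rw [← Complex.cpow_add _ _ hw0]
      norm_num
    rw [h31]
    linear_combination (Real.sqrt 3 : ℂ) * h32
  have hI : (Real.sqrt 3 : ℂ) * τ / Complex.I = 2 * ((Real.sqrt 3 : ℂ) * (-Complex.I * (τ / 2))) := by
    rw [div_eq_iff Complex.I_ne_zero]
    linear_combination ((Real.sqrt 3 : ℂ) * τ) * (Complex.I_mul_I)
  rw [hI, ← hsq]
  ring

/-- real form -/
theorem ra_fricke (y : ℝ) (hy : 0 < y) :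
    ra (nm (1 / (3 * y))) = Real.sqrt 3 * y * ra (nm y) := by
  have hq : ∀ t : ℝ, qq (Complex.I * t) = (nm t : ℂ) := by
    intro t
    unfold qq nm
    push_cast
    congr 1
    linear_combination (2 * (Real.pi : ℂ) * t) * Complex.I_mul_I
  have hI := Complex.I_ne_zero
  have hy0 : (y : ℂ) ≠ 0 := by exact_mod_cast hy.ne'
  have h := ca_fricke (Complex.I * y) (by simpa using hy)
  have h1 : -1 / (3 * (Complex.I * y)) = Complex.I * ((1 / (3 * y) : ℝ) : ℂ) := by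
    push_cast
    field_simp
    rw [Complex.I_sq]
  rw [h1, hq, hq, ca_ofReal, ca_ofReal] at h
  have h2 : (Real.sqrt 3 : ℂ) * (Complex.I * y) / Complex.I = (Real.sqrt 3 : ℂ) * y := by
    field_simp
  rw [h2] at h
  exact_mod_cast h

end RV15W
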