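import Mathlib
import Pool.Agent.RV15W.Defs
import Pool.Agent.RV15W.Bas
import Pool.Agent.RV15W.Alg

/-!
# RV15W/QE: `QQ` in terms of the cubic theta series

`x = a(q)`, `z = a(q²)`, `P_d = PP(q^d)`, `Q_d = QQ(q^d)`; `qd (fun r => PP (r^d)) q = d (P_d² - Q_d)/12`.
* `Q3`: `qd` of `3 P3 = 2x² + P1` (valid on the whole disc) with `dx`.
* `Q12`: `qd` of `2 P2 = P1 + 2xz - 2z² + x²` with `dx`, `dz`, `P2`: gives `Q1 - 4 Q2` as a polynomial in `x, z`, namely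
  `Q1 - 4 Q2 = f(q) - 4 f(q²)`, where `f = 9a⁴ - 8 a bb`.
* `QQ_eq`: `g = QQ - f` is continuous (analytic) on the disc and `g(q) = 4 g(q²)`. So `g(0) = 0`,
  `‖g(q)‖ ≤ C ‖q‖` near `0` (differentiable at 0), and `g(q) = 4^n g(q^(2^n)) → 0`.
-/

set_option autoImplicit false

namespace RV15W

variable {q : ℂ}

private lemma QE_lt (hq : ‖q‖ < 1) {k : ℕ} (hk : k ≠ 0) : ‖q ^ k‖ < 1 := by
  rw [norm_pow]
  exact pow_lt_one₀ (norm_nonneg _) hq hk

private lemma QE_nhds (hq : ‖q‖ < 1) : Metric.ball (0 : ℂ) 1 ∈ nhds q :=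
  Metric.isOpen_ball.mem_nhds (by simpa using hq)

theorem PP_diff : DifferentiableOn ℂ PP (Metric.ball 0 1) := by
  have h1 : DifferentiableOn ℂ (deriv Eu) (Metric.ball 0 1) :=
    Eu_diff.deriv Metric.isOpen_ball
  have h2 : DifferentiableOn ℂ (fun q : ℂ => 1 + 24 * (q * deriv Eu q / Eu q))
      (Metric.ball 0 1) :=
    (((differentiableOn_id.mul h1).div Eu_diff (fun x hx => Eu_ne (by simpa using hx))).const_mul
      24).const_add 1
  exact h2

theorem QQ_diff : DifferentiableOn ℂ QQ (Metric.ball 0 1) := by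
  have h1 : DifferentiableOn ℂ (deriv PP) (Metric.ball 0 1) :=
    PP_diff.deriv Metric.isOpen_ball
  have h2 : DifferentiableOn ℂ (fun q : ℂ => PP q ^ 2 - 12 * (q * deriv PP q))
      (Metric.ball 0 1) :=
    (PP_diff.pow 2).sub ((differentiableOn_id.mul h1).const_mul 12)
  exact h2

private lemma QE_PP (hq : ‖q‖ < 1) : DifferentiableAt ℂ PP q :=
  PP_diff.differentiableAt (QE_nhds hq)

private lemma QE_ca (hq : ‖q‖ < 1) : DifferentiableAt ℂ ca q :=
  ca_diff.differentiableAt (QE_nhds hq)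

private lemma QE_has {f : ℂ → ℂ} {k : ℕ} (hf : DifferentiableAt ℂ f (q ^ k)) :
    HasDerivAt (fun r => f (r ^ k)) (deriv f (q ^ k) * (k * q ^ (k - 1))) q := by
  have h := hf.hasDerivAt.comp q (hasDerivAt_pow k q)
  exact h

private lemma QE_qd {f : ℂ → ℂ} {k : ℕ} (hk : k ≠ 0) (hf : DifferentiableAt ℂ f (q ^ k)) :
    qd (fun r => f (r ^ k)) q = k * qd f (q ^ k) := by
  unfold qd
  rw [(QE_has hf).deriv]
  obtain ⟨m, rfl⟩ := Nat.exists_eq_succ_of_ne_zero hk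
  simp only [Nat.succ_eq_add_one, Nat.add_sub_cancel]
  ring

private lemma QE_qdP (hq : ‖q‖ < 1) {k : ℕ} (hk : k ≠ 0) :
    12 * qd (fun r => PP (r ^ k)) q = k * (PP (q ^ k) ^ 2 - QQ (q ^ k)) := by
  rw [QE_qd hk (QE_PP (QE_lt hq hk))]
  unfold QQ
  ring

theorem Q3 (hq : ‖q‖ < 1) :
    9 * QQ (q ^ 3) = QQ q - 8 * ca q ^ 4 + 16 * ca q * bb q := by
  have h1 : HasDerivAt (fun r => 3 * PP (r ^ 3)) (3 * deriv (fun r => PP (r ^ 3)) q) q :=
    ((QE_has (QE_PP (QE_lt hq (by norm_num)))).differentiableAt.hasDerivAt).const_mul 3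
  have h2 : HasDerivAt (fun r => 2 * ca r ^ 2 + PP r)
      (2 * (2 * ca q * deriv ca q) + deriv PP q) q := by
    have h := (((QE_ca hq).hasDerivAt.pow 2).const_mul 2).add (QE_PP hq).hasDerivAt
    refine h.congr_deriv ?_
    simp
  have h3 : (fun r => 3 * PP (r ^ 3)) =ᶠ[nhds q] (fun r => 2 * ca r ^ 2 + PP r) := by
    filter_upwards [QE_nhds hq] with r hr
    exact P3 (by simpa using hr)
  have h4 := (h2.congr_of_eventuallyEq h3).unique h1
  have h5 := QE_qdP (k := 3) hq (by norm_num)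
  have h6 := dx hq
  have h7 := P3 hq
  have h8 := rel_B1 hq
  have h9 : QQ q = PP q ^ 2 - 12 * (q * deriv PP q) := rfl
  unfold qd at h5 h6
  push_cast at h5
  rw [h8]
  set X := ca q
  set Z := ca (q ^ 2)
  set A := PP q
  set B := PP (q ^ 3)
  set D3 := deriv (fun r => PP (r ^ 3)) q
  set D1 := deriv PP q
  set DX := deriv ca q
  have e : 9 * B ^ 2 = (2 * X ^ 2 + A) ^ 2 := by rw [← h7]; ring
  linear_combination 3 * h5 + e + 12 * q * h4 - 4 * X * h6 - h9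

theorem Q12 (hq : ‖q‖ < 1) :
    QQ q - (9 * ca q ^ 4 - 8 * ca q * bb q) =
      4 * (QQ (q ^ 2) - (9 * ca (q ^ 2) ^ 4 - 8 * ca (q ^ 2) * bb (q ^ 2))) := by
  have h0 : DifferentiableAt ℂ (fun r => ca (r ^ 2)) q :=
    (QE_has (QE_ca (QE_lt hq (by norm_num)))).differentiableAt
  have h1 : HasDerivAt (fun r => 2 * PP (r ^ 2)) (2 * deriv (fun r => PP (r ^ 2)) q) q :=
    ((QE_has (QE_PP (QE_lt hq (by norm_num)))).differentiableAt.hasDerivAt).const_mul 2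
  have h2 : HasDerivAt (fun r => PP r + 2 * (ca r * ca (r ^ 2)) - 2 * ca (r ^ 2) ^ 2 + ca r ^ 2)
      (deriv PP q + 2 * (deriv ca q * ca (q ^ 2) + ca q * deriv (fun r => ca (r ^ 2)) q)
        - 2 * (2 * ca (q ^ 2) * deriv (fun r => ca (r ^ 2)) q) + 2 * ca q * deriv ca q) q := by
    have h := (((QE_PP hq).hasDerivAt.add
      (((QE_ca hq).hasDerivAt.mul h0.hasDerivAt).const_mul 2)).sub
      ((h0.hasDerivAt.pow 2).const_mul 2)).add ((QE_ca hq).hasDerivAt.pow 2)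
    refine h.congr_deriv ?_
    simp
  have h3 : (fun r => 2 * PP (r ^ 2)) =ᶠ[nhds q]
      (fun r => PP r + 2 * (ca r * ca (r ^ 2)) - 2 * ca (r ^ 2) ^ 2 + ca r ^ 2) := by
    filter_upwards [QE_nhds hq] with r hr
    have := P2 (q := r) (by simpa using hr)
    rw [this]
    ring
  have h4 := (h2.congr_of_eventuallyEq h3).unique h1
  have h5 := QE_qdP (k := 2) hq (by norm_num)
  have h6 := dx hq
  have h7 := dz hq
  have h8 := P2 hq
  have h9 := rel_B1 hq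
  have h10 := rel_B2 hq
  have h11 : QQ q = PP q ^ 2 - 12 * (q * deriv PP q) := rfl
  unfold qd at h5 h6 h7
  push_cast at h5
  rw [h9, h10]
  set X := ca q
  set Z := ca (q ^ 2)
  set A := PP q
  set B := PP (q ^ 2)
  set D2 := deriv (fun r => PP (r ^ 2)) q
  set D1 := deriv PP q
  set DX := deriv ca q
  set DZ := deriv (fun r => ca (r ^ 2)) q
  have e : 4 * B ^ 2 = (A + 2 * X * Z - 2 * Z ^ 2 + X ^ 2) ^ 2 := by rw [← h8]; ring
  linear_combination h11 - 2 * h5 - e - 12 * q * h4 + (2 * Z + 2 * X) * h6 + (2 * X - 4 * Z) * h7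
    + 2 * Z * (X - 2 * Z) * h8

private noncomputable def QEg (q : ℂ) : ℂ := QQ q - (9 * ca q ^ 4 - 8 * ca q * bb q)

private lemma QE_bb : DifferentiableAt ℂ bb 0 := by
  have h0 : ‖(0 : ℂ)‖ < 1 := by simp
  have h1 : DifferentiableAt ℂ Eu 0 := Eu_diff.differentiableAt (QE_nhds h0)
  have h2 : DifferentiableAt ℂ (fun r : ℂ => Eu (r ^ 3)) 0 :=
    (QE_has (f := Eu) (q := 0) (k := 3)
      (Eu_diff.differentiableAt (QE_nhds (by simp)))).differentiableAt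
  have h3 : Eu ((0 : ℂ) ^ 3) ^ 3 ≠ 0 := pow_ne_zero 3 (Eu_ne (by simp))
  have h := (h1.pow 9).div (h2.pow 3) h3
  exact h

private lemma QE_g_diff : DifferentiableAt ℂ QEg 0 := by
  have h0 : ‖(0 : ℂ)‖ < 1 := by simp
  have h1 : DifferentiableAt ℂ QQ 0 := QQ_diff.differentiableAt (QE_nhds h0)
  have h2 := QE_ca h0
  exact h1.sub (((h2.pow 4).const_mul 9).sub ((h2.const_mul 8).mul QE_bb))

private lemma QE_g2 (hq : ‖q‖ < 1) : QEg q = 4 * QEg (q ^ 2) := Q12 hq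

private lemma QE_g0 : QEg 0 = 0 := by
  have h := QE_g2 (q := 0) (by simp)
  have h1 : (0 : ℂ) ^ 2 = 0 := by norm_num
  rw [h1] at h
  have h3 : (3 : ℂ) * QEg 0 = 0 := by linear_combination -h
  exact (mul_eq_zero.mp h3).resolve_left (by norm_num)

private lemma QE_gn (hq : ‖q‖ < 1) (n : ℕ) : QEg q = 4 ^ n * QEg (q ^ (2 ^ n)) := by
  induction n with
  | zero => simp
  | succ n ih =>
    have h := QE_g2 (q := q ^ (2 ^ n)) (QE_lt hq (by positivity))
    rw [ih, h, ← pow_mul, ← pow_succ]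
    ring

private lemma QE_g_zero (hq : ‖q‖ < 1) : QEg q = 0 := by
  obtain ⟨C, hC⟩ := QE_g_diff.isBigO_sub.bound
  have hC' : ∀ᶠ r in nhds (0 : ℂ), ‖QEg r‖ ≤ C * ‖r‖ := by
    filter_upwards [hC] with r hr
    simpa [QE_g0] using hr
  have ht : Filter.Tendsto (fun n : ℕ => q ^ (2 ^ n)) Filter.atTop (nhds 0) :=
    (tendsto_pow_atTop_nhds_zero_of_norm_lt_one hq).comp
      (tendsto_pow_atTop_atTop_of_one_lt (r := 2) (by norm_num))
  have h1 := ht.eventually hC'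
  have h2 : ∀ᶠ n : ℕ in Filter.atTop, ‖QEg q‖ ≤ C * (4 ^ n * ‖q‖ ^ (2 ^ n)) := by
    filter_upwards [h1] with n hn
    rw [QE_gn hq n, norm_mul, norm_pow]
    rw [norm_pow] at hn
    have : ‖(4 : ℂ)‖ = 4 := by simp
    rw [this]
    calc (4 : ℝ) ^ n * ‖QEg (q ^ 2 ^ n)‖ ≤ 4 ^ n * (C * ‖q‖ ^ 2 ^ n) :=
          mul_le_mul_of_nonneg_left hn (by positivity)
      _ = C * (4 ^ n * ‖q‖ ^ (2 ^ n)) := by ring
  have h3 : Filter.Tendsto (fun n : ℕ => C * ((4 : ℝ) ^ n * ‖q‖ ^ (2 ^ n))) Filter.atTop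
      (nhds 0) := by
    have h4 : Filter.Tendsto (fun m : ℕ => (m : ℝ) ^ 2 * ‖q‖ ^ m) Filter.atTop (nhds 0) := by
      have := tendsto_pow_const_mul_const_pow_of_abs_lt_one 2 (r := ‖q‖)
        (by rwa [abs_of_nonneg (norm_nonneg q)])
      exact this
    have h5 := h4.comp (tendsto_pow_atTop_atTop_of_one_lt (r := 2) (by norm_num))
    have h6 : Filter.Tendsto (fun n : ℕ => (4 : ℝ) ^ n * ‖q‖ ^ (2 ^ n)) Filter.atTop
        (nhds 0) := by
      refine h5.congr fun n => ?_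
      simp only [Function.comp]
      push_cast
      rw [← pow_mul, mul_comm n 2, pow_mul]
      norm_num
    simpa using h6.const_mul C
  have h7 : ‖QEg q‖ ≤ 0 := ge_of_tendsto h3 h2
  exact norm_le_zero_iff.mp h7

theorem QQ_eq (hq : ‖q‖ < 1) : QQ q = 9 * ca q ^ 4 - 8 * ca q * bb q := by
  have h := QE_g_zero hq
  unfold QEg at h
  exact sub_eq_zero.mp h

/-- `qd` of `PP (q²)` in the ring -/
theorem dP2 (hq : ‖q‖ < 1) :
    6 * qd (fun r => PP (r ^ 2)) q = PP (q ^ 2) ^ 2 - 5 * ca (q ^ 2) ^ 4 -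
      2 * ca q ^ 3 * ca (q ^ 2) + 6 * ca q * ca (q ^ 2) ^ 3 := by
  have h5 := QE_qdP (k := 2) hq (by norm_num)
  have h1 := QQ_eq (q := q ^ 2) (QE_lt hq (by norm_num))
  have h10 := rel_B2 hq
  rw [h1, h10] at h5
  push_cast at h5
  linear_combination h5 / 2

end RV15W
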