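import Mathlib
import Pool.Agent.RV15W.Defs
import Pool.Agent.RV15W.Bas

/-!
# RV15W/Ram: Ramanujan's identity `12 q P' = P² - Q`

`QQ = e4` on the unit disc.
Proof: on the upper half plane (`q = exp(2πi τ)`): `PP (q τ) = EisensteinSeries.E2 τ` (Mathlib:
`logDeriv ModularForm.eta = (π i/12) E2`, or the q-expansion of `E2` and the logarithmic derivative of the product), and
`e4 (q τ) = E4 τ` (Mathlib: q-expansion of the Eisenstein series of weight 4).
`P² - 12 (1/(2πi)) P'` is a modular form of level one and weight 4 (Mathlib: `serreDerivative` of `E2`, or differentiate the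
transformation law of `E2` under `S` and `T` directly), bounded at `i∞` with constant term 1; the space of level one forms of
weight 4 is one dimensional. Both sides are continuous at `q = 0`, value 1.
-/

set_option autoImplicit false

open Filter Topology UpperHalfPlane ModularForm MatrixGroups Function

namespace RV15W

noncomputable section

/-- slash invariance under `S` and `T` from the classical functional equations -/
private theorem Ram_slash_all {F : ℂ → ℂ} {k : ℕ}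
    (hS : ∀ τ : ℂ, 0 < τ.im → F (-1 / τ) = τ ^ k * F τ)
    (hT : ∀ τ : ℂ, 0 < τ.im → F (τ + 1) = F τ) (γ : SL(2, ℤ)) :
    (fun τ : ℍ => F τ) ∣[(k : ℤ)] γ = (fun τ : ℍ => F τ) := by
  refine SlashInvariantForm.slash_action_generators_SL2Z ?_ ?_ γ
  · ext z
    have hz : (z : ℂ) ≠ 0 := z.ne_zero
    rw [SL_slash_apply, UpperHalfPlane.modular_S_smul]
    have h := hS z z.2
    have e : (-(z : ℂ))⁻¹ = -1 / z := by field_simp
    simp only [ModularGroup.denom_S, zpow_neg, zpow_natCast]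
    change F ((-(z : ℂ))⁻¹) * _ = _
    rw [e, h]
    field_simp
  · ext z
    rw [SL_slash_apply, modular_T_smul]
    have h := hT z z.2
    have hd : denom ModularGroup.T z = 1 := by
      rw [ModularGroup.denom_apply]; simp [ModularGroup.T]
    rw [hd, one_zpow, mul_one]
    simp only [coe_vadd]
    rw [← h, add_comm]
    simp

/-- modular form of level one from classical functional equations and a limit at `i∞` -/
private def Ram_mkForm (F : ℂ → ℂ) (k : ℕ)
    (hd : DifferentiableOn ℂ F {τ | 0 < τ.im})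
    (hS : ∀ τ : ℂ, 0 < τ.im → F (-1 / τ) = τ ^ k * F τ)
    (hT : ∀ τ : ℂ, 0 < τ.im → F (τ + 1) = F τ)
    {l : ℂ} (hl : Tendsto (fun τ : ℍ => F τ) atImInfty (𝓝 l)) : ModularForm 𝒮ℒ (k : ℤ) where
  toFun := fun τ : ℍ => F τ
  slash_action_eq' A hA := by
    obtain ⟨A, rfl⟩ := hA
    exact Ram_slash_all hS hT A
  holo' := by
    rw [UpperHalfPlane.mdifferentiable_iff]
    refine hd.congr fun z hz ↦ ?_
    simp [ofComplex_apply_of_im_pos hz]
  bdd_at_cusps' hc := by
    rw [Subgroup.IsArithmetic.isCusp_iff_isCusp_SL2Z] at hc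
    rw [OnePoint.isBoundedAt_iff_forall_SL2Z hc]
    intro γ _
    rw [Ram_slash_all hS hT]
    exact hl.isBigO_one ℝ

private theorem Ram_qq_qParam (τ : ℂ) : qq τ = Periodic.qParam 1 τ := by
  simp [qq, Periodic.qParam]

private theorem Ram_norm_qq {τ : ℂ} (h : 0 < τ.im) : ‖qq τ‖ < 1 := by
  rw [Ram_qq_qParam]
  exact mod_cast norm_qParam_lt_one 1 ⟨τ, h⟩

private theorem Ram_Eu_diff : DifferentiableOn ℂ Eu (Metric.ball 0 1) :=
  ModularForm.differentiableOn_tprod_one_sub_pow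

private theorem Ram_Eu_zero : Eu 0 = 1 := by
  simp [Eu]

private theorem Ram_exists_tau {q : ℂ} (hq : ‖q‖ < 1) (h0 : q ≠ 0) : ∃ τ : ℍ, qq τ = q := by
  have him := Periodic.im_invQParam_pos_of_norm_lt_one one_pos hq h0
  refine ⟨⟨_, him⟩, ?_⟩
  rw [Ram_qq_qParam]
  exact Periodic.qParam_right_inv one_ne_zero h0

private theorem Ram_Eu_ne {q : ℂ} (hq : ‖q‖ < 1) : Eu q ≠ 0 := by
  by_cases h0 : q = 0
  · rw [h0, Ram_Eu_zero]; exact one_ne_zero
  · obtain ⟨τ, hτ⟩ := Ram_exists_tau hq h0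
    have := ModularForm.eta_tprod_ne_zero τ.2
    rw [← hτ, Ram_qq_qParam]
    exact this

private theorem Ram_PP_diff : DifferentiableOn ℂ PP (Metric.ball 0 1) := by
  have h1 : DifferentiableOn ℂ (fun q => qd Eu q) (Metric.ball 0 1) :=
    differentiableOn_id.mul (Ram_Eu_diff.deriv Metric.isOpen_ball)
  exact ((h1.div Ram_Eu_diff fun q hq => Ram_Eu_ne (by simpa using hq)).const_mul 24).const_add 1

private theorem Ram_QQ_diff : DifferentiableOn ℂ QQ (Metric.ball 0 1) :=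
  (Ram_PP_diff.pow 2).sub
    ((differentiableOn_id.mul (Ram_PP_diff.deriv Metric.isOpen_ball)).const_mul 12)

private theorem Ram_QQ_zero : QQ 0 = 1 := by
  simp [QQ, PP, qd]

private theorem Ram_qq_deriv (τ : ℂ) : HasDerivAt qq (2 * Real.pi * Complex.I * qq τ) τ := by
  have h : HasDerivAt (fun τ : ℂ => 2 * Real.pi * Complex.I * τ) (2 * Real.pi * Complex.I) τ := by
    simpa using (hasDerivAt_id τ).const_mul (2 * Real.pi * Complex.I : ℂ)
  have h2 := h.cexp
  unfold qq
  rw [mul_comm (2 * Real.pi * Complex.I : ℂ) (Complex.exp _)]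
  exact h2

private theorem Ram_PP_E2 (z : ℍ) : PP (qq z) = EisensteinSeries.E2 z := by
  have hq := Ram_norm_qq z.2
  have hmem : qq z ∈ Metric.ball (0 : ℂ) 1 := by simpa using hq
  have hE : DifferentiableAt ℂ Eu (qq z) :=
    (Ram_Eu_diff _ hmem).differentiableAt (Metric.isOpen_ball.mem_nhds hmem)
  have hne := Ram_Eu_ne hq
  have h1 := ModularForm.logDeriv_eta_eq_E2 z
  have h2 : ModularForm.eta = fun w => Periodic.qParam 24 w * (Eu ∘ qq) w := by
    funext w
    simp only [ModularForm.eta, Function.comp, Ram_qq_qParam]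
    rfl
  rw [h2, logDeriv_mul (z : ℂ) (Periodic.qParam_ne_zero _) (show (Eu ∘ qq) z ≠ 0 from hne)
    (by fun_prop) (DifferentiableAt.comp (z : ℂ) hE (Ram_qq_deriv z).differentiableAt),
    ModularForm.logDeriv_qParam,
    logDeriv_comp hE (Ram_qq_deriv z).differentiableAt, (Ram_qq_deriv z).deriv, logDeriv_apply] at h1
  have hpi : (Real.pi * Complex.I : ℂ) ≠ 0 :=
    mul_ne_zero (Complex.ofReal_ne_zero.2 Real.pi_ne_zero) Complex.I_ne_zero
  unfold PP qd
  have h3 : (Real.pi * Complex.I / 12 : ℂ) * (1 + 24 * (qq z * deriv Eu (qq z) / Eu (qq z))) =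
      (Real.pi * Complex.I / 12 : ℂ) * EisensteinSeries.E2 z := by
    rw [← h1]
    push_cast
    field_simp
    ring
  exact mul_left_cancel₀ (div_ne_zero hpi (by norm_num)) h3

/-- `f(τ) = PP (qq τ)` -/
private def Ram_f (τ : ℂ) : ℂ := PP (qq τ)

private theorem Ram_f_deriv {τ : ℂ} (h : 0 < τ.im) :
    HasDerivAt Ram_f (2 * Real.pi * Complex.I * qd PP (qq τ)) τ := by
  have hmem : qq τ ∈ Metric.ball (0 : ℂ) 1 := by simpa using Ram_norm_qq h
  have hP : DifferentiableAt ℂ PP (qq τ) :=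
    (Ram_PP_diff _ hmem).differentiableAt (Metric.isOpen_ball.mem_nhds hmem)
  have := hP.hasDerivAt.comp τ (Ram_qq_deriv τ)
  exact this.congr_deriv (by unfold qd; ring)

private theorem Ram_ne_of_im {τ : ℂ} (h : 0 < τ.im) : τ ≠ 0 := by
  rintro rfl
  simp at h

private theorem Ram_inv_im {τ : ℂ} (h : 0 < τ.im) : 0 < (-1 / τ).im := by
  have h0 := Ram_ne_of_im h
  rw [neg_div, Complex.neg_im, one_div, Complex.inv_im, neg_div, neg_neg]
  exact div_pos h (Complex.normSq_pos.2 h0)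

private theorem Ram_f_S' (z : ℍ) :
    Ram_f (-1 / (z : ℂ)) = (z : ℂ) ^ 2 * Ram_f z + 6 / (Real.pi * Complex.I) * z := by
  have h0 : (z : ℂ) ≠ 0 := z.ne_zero
  have hpi : (Real.pi : ℂ) ≠ 0 := Complex.ofReal_ne_zero.2 Real.pi_ne_zero
  have key := congrFun (EisensteinSeries.E2_slash_action ModularGroup.S) z
  rw [SL_slash_apply, UpperHalfPlane.modular_S_smul] at key
  simp only [ModularGroup.denom_S, Pi.sub_apply, Pi.smul_apply, EisensteinSeries.D2_S,
    riemannZeta_two, smul_eq_mul, ← Ram_PP_E2] at key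
  change Ram_f ((-(z : ℂ))⁻¹) * (z : ℂ) ^ (-2 : ℤ) = Ram_f z - _ at key
  have e : (-(z : ℂ))⁻¹ = -1 / z := by field_simp
  rw [e] at key
  have h3 : Ram_f (-1 / (z : ℂ)) = (z : ℂ) ^ 2 * (Ram_f (-1 / (z : ℂ)) * (z : ℂ) ^ (-2 : ℤ)) := by
    rw [zpow_neg]
    field_simp
  rw [h3, key]
  field_simp
  linear_combination (-6 : ℂ) * Complex.I_sq

private theorem Ram_f_S {τ : ℂ} (h : 0 < τ.im) :
    Ram_f (-1 / τ) = τ ^ 2 * Ram_f τ + 6 / (Real.pi * Complex.I) * τ :=
  Ram_f_S' ⟨τ, h⟩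

/-- `F(τ) = QQ (qq τ)` -/
private def Ram_F (τ : ℂ) : ℂ := QQ (qq τ)

private theorem Ram_F_eq {τ : ℂ} (h : 0 < τ.im) :
    Ram_F τ = Ram_f τ ^ 2 - 6 / (Real.pi * Complex.I) * deriv Ram_f τ := by
  rw [(Ram_f_deriv h).deriv]
  have hpi : (Real.pi : ℂ) ≠ 0 := Complex.ofReal_ne_zero.2 Real.pi_ne_zero
  unfold Ram_F QQ Ram_f
  field_simp
  ring

private theorem Ram_F_T {τ : ℂ} : Ram_F (τ + 1) = Ram_F τ := by
  unfold Ram_F
  congr 1
  unfold qq
  rw [mul_add, Complex.exp_add, mul_one, Complex.exp_two_pi_mul_I, mul_one]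

private theorem Ram_F_S {τ : ℂ} (h : 0 < τ.im) : Ram_F (-1 / τ) = τ ^ 4 * Ram_F τ := by
  have h0 := Ram_ne_of_im h
  have hpi : (Real.pi : ℂ) ≠ 0 := Complex.ofReal_ne_zero.2 Real.pi_ne_zero
  have hI := Complex.I_ne_zero
  have h' := Ram_inv_im h
  rw [Ram_F_eq h, Ram_F_eq h', Ram_f_S h]
  -- differentiate the functional equation
  have d1 : HasDerivAt (fun t : ℂ => -1 / t) (1 / τ ^ 2) τ := by
    have := (hasDerivAt_inv h0).const_mul (-1 : ℂ)
    refine (this.congr_deriv ?_).congr_of_eventuallyEq ?_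
    · field_simp
    · exact Eventually.of_forall fun t => by
        simp [div_eq_mul_inv]
  have dL : HasDerivAt (fun t : ℂ => Ram_f (-1 / t)) (deriv Ram_f (-1 / τ) * (1 / τ ^ 2)) τ :=
    (Ram_f_deriv h').differentiableAt.hasDerivAt.comp τ d1
  have dR : HasDerivAt (fun t : ℂ => t ^ 2 * Ram_f t + 6 / (Real.pi * Complex.I) * t)
      (2 * τ * Ram_f τ + τ ^ 2 * deriv Ram_f τ + 6 / (Real.pi * Complex.I)) τ := by
    have a1 : HasDerivAt (fun t : ℂ => t ^ 2) (2 * τ) τ := by simpa using hasDerivAt_pow 2 τ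
    have a2 := a1.mul (Ram_f_deriv h).differentiableAt.hasDerivAt
    have a3 : HasDerivAt (fun t : ℂ => 6 / (Real.pi * Complex.I) * t)
        (6 / (Real.pi * Complex.I)) τ := by
      simpa using (hasDerivAt_id τ).const_mul (6 / (Real.pi * Complex.I) : ℂ)
    exact a2.add a3
  have hev : (fun t : ℂ => Ram_f (-1 / t)) =ᶠ[𝓝 τ]
      fun t : ℂ => t ^ 2 * Ram_f t + 6 / (Real.pi * Complex.I) * t := by
    have hopen : IsOpen {t : ℂ | 0 < t.im} := isOpen_lt continuous_const Complex.continuous_im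
    filter_upwards [hopen.mem_nhds h] with t ht
    exact Ram_f_S ht
  have key := (dL.congr_of_eventuallyEq hev.symm).unique dR
  have key2 : deriv Ram_f (-1 / τ) =
      τ ^ 2 * (2 * τ * Ram_f τ + τ ^ 2 * deriv Ram_f τ + 6 / (Real.pi * Complex.I)) := by
    rw [← key]
    field_simp
  rw [key2]
  ring

private theorem Ram_F_E4 (z : ℍ) : QQ (qq z) = ModularForm.E₄ z := by
  have hl : Tendsto (fun τ : ℍ => Ram_F τ) atImInfty (𝓝 1) := by
    have hc : ContinuousAt QQ 0 := by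
      have hm : (0 : ℂ) ∈ Metric.ball (0 : ℂ) 1 := by simp
      exact ((Ram_QQ_diff _ hm).differentiableAt (Metric.isOpen_ball.mem_nhds hm)).continuousAt
    have h1 : Tendsto QQ (𝓝 0) (𝓝 1) := by
      have := hc.tendsto
      rwa [Ram_QQ_zero] at this
    refine (h1.comp (UpperHalfPlane.qParam_tendsto_atImInfty zero_lt_one)).congr fun τ => ?_
    simp only [Function.comp, Ram_F, Ram_qq_qParam]
  have hd : DifferentiableOn ℂ Ram_F {τ | 0 < τ.im} := by
    intro τ hτ
    have hmem : qq τ ∈ Metric.ball (0 : ℂ) 1 := by simpa using Ram_norm_qq hτ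
    have hQ : DifferentiableAt ℂ QQ (qq τ) :=
      (Ram_QQ_diff _ hmem).differentiableAt (Metric.isOpen_ball.mem_nhds hmem)
    exact (hQ.comp τ (Ram_qq_deriv τ).differentiableAt).differentiableWithinAt
  let f : ModularForm 𝒮ℒ ((4 : ℕ) : ℤ) := Ram_mkForm Ram_F 4 hd (fun τ h => Ram_F_S h)
    (fun τ _ => Ram_F_T) hl
  obtain ⟨c, hc⟩ : ∃ c : ℂ, c • ModularForm.E₄ = f :=
    (finrank_eq_one_iff_of_nonzero' ModularForm.E₄ (EisensteinSeries.E_ne_zero _ ⟨2, rfl⟩)).mp
      (Module.rank_eq_one_iff_finrank_eq_one.mp levelOne_weight_four_rank_one) f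
  have h1 : (qExpansion 1 (f : ℍ → ℂ)).coeff 0 = 1 := by
    rw [UpperHalfPlane.qExpansion_coeff_zero one_pos
      (ModularFormClass.analyticAt_cuspFunction_zero f one_pos one_mem_strictPeriods_SL)
      (SlashInvariantFormClass.periodic_comp_ofComplex f one_mem_strictPeriods_SL)]
    exact hl.limUnder_eq
  have h2 : (qExpansion 1 (f : ℍ → ℂ)).coeff 0 = c := by
    rw [← hc, FunLike.coe_smul,
      ModularForm.qExpansion_smul one_pos one_mem_strictPeriods_SL c ModularForm.E₄,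
      PowerSeries.coeff_smul, EisensteinSeries.E_qExpansion_coeff_zero _ ⟨2, rfl⟩]
    simp
  have hc1 : c = 1 := h2.symm.trans h1
  rw [hc1, one_smul] at hc
  exact (DFunLike.congr_fun hc z).symm

private theorem Ram_E4_e4 (z : ℍ) : ModularForm.E₄ z = e4 (qq z) := by
  have h := EisensteinSeries.q_expansion_bernoulli (k := 4) (by norm_num) ⟨2, rfl⟩ z
  have hb : bernoulli 4 = -1 / 30 := by
    rw [bernoulli_eq_bernoulli'_of_ne_one (by norm_num), bernoulli'_four]
  have h2 : ModularForm.E₄ z = ModularForm.E (k := 4) (by norm_num) z := rfl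
  have h3 : ∀ S : ℂ, (1 : ℂ) - 2 * ((4 : ℕ) : ℂ) / ((bernoulli 4 : ℚ) : ℂ) * S = 1 + 240 * S := by
    intro S
    rw [hb]
    push_cast
    ring
  rw [h2, h, tsum_pnat_eq_tsum_succ (f := fun n : ℕ =>
    ((ArithmeticFunction.sigma (4 - 1) n : ℕ) : ℂ) * Complex.exp (2 * Real.pi * Complex.I * z) ^ (n : ℤ)),
    h3]
  unfold e4 qq
  simp only [zpow_natCast]

theorem QQ_e4 {q : ℂ} (hq : ‖q‖ < 1) : QQ q = e4 q := by
  by_cases h0 : q = 0
  · rw [h0, Ram_QQ_zero]
    simp [e4]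
  · obtain ⟨τ, hτ⟩ := Ram_exists_tau hq h0
    rw [← hτ, Ram_F_E4, Ram_E4_e4]

end

end RV15W
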