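import Mathlib
import Pool.Agent.RV15W.Defs

/-!
# RV15W/Mom: `nu` is a probability measure on `[0,16]` with moments the Domb numbers

`A = 1 + e a`, `B = 1 + e c`; `YY = A + e b B`.
`∫_b ‖A + e b B‖^(2n) db = Σ_k C(n,k)² ‖A‖^(2(n-k)) ‖B‖^(2k)` (expand `(A + e b B)^n` and its conjugate,
`∫ e (m b) db = 0` for `m ≠ 0`), and `∫_a ‖1 + e a‖^(2j) da = C(2j,j)` (the same with `A = B = 1`, `Σ C(j,i)² = C(2j,j)`).
`‖YY‖ ≤ 4`.
-/

set_option autoImplicit false

open MeasureTheory Set

namespace RV15W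

private noncomputable def m1 : Measure ℝ := volume.restrict (Ioc 0 1)

private theorem mu_eq : mu = m1.prod (m1.prod m1) := by
  unfold mu m1
  rw [Measure.prod_restrict, Measure.prod_restrict]
  rfl

private instance m1_prob : IsProbabilityMeasure m1 := ⟨by simp [m1]⟩

theorem mu_prob : IsProbabilityMeasure mu := by
  rw [mu_eq]; infer_instance

private theorem e_cont : Continuous e := by
  unfold e; fun_prop

private theorem e_norm (a : ℝ) : ‖e a‖ = 1 := by
  unfold e
  rw [show (2 * (Real.pi : ℂ) * a * Complex.I) = ((2 * Real.pi * a : ℝ) : ℂ) * Complex.I by push_cast; ring]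
  exact Complex.norm_exp_ofReal_mul_I _

theorem YY_cont : Continuous YY := by
  unfold YY
  have := e_cont
  fun_prop

theorem YY_le (v : ℝ × ℝ × ℝ) : ‖YY v‖ ≤ 4 := by
  unfold YY
  have h1 : ‖1 + e v.1‖ ≤ 2 := by
    refine (norm_add_le _ _).trans ?_
    rw [e_norm]; norm_num
  have h2 : ‖1 + e v.2.2‖ ≤ 2 := by
    refine (norm_add_le _ _).trans ?_
    rw [e_norm]; norm_num
  refine (norm_add_le _ _).trans ?_
  rw [norm_mul, e_norm, one_mul]
  linarith

private theorem e_pow (b : ℝ) (k l : ℕ) :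
    (e b) ^ k * (starRingEnd ℂ (e b)) ^ l =
      Complex.exp ((2 * Real.pi * ((k : ℂ) - l) * Complex.I) * b) := by
  unfold e
  rw [← Complex.exp_conj, ← Complex.exp_nat_mul, ← Complex.exp_nat_mul, ← Complex.exp_add]
  congr 1
  simp only [map_mul, Complex.conj_ofReal, Complex.conj_I, map_ofNat]
  ring

private theorem int_e (k l : ℕ) :
    ∫ b, (e b) ^ k * (starRingEnd ℂ (e b)) ^ l ∂m1 = if k = l then 1 else 0 := by
  simp only [e_pow]
  unfold m1
  rw [← intervalIntegral.integral_of_le zero_le_one]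
  split_ifs with h
  · subst h
    simp
  · have hc : (2 * (Real.pi : ℂ) * ((k : ℂ) - l) * Complex.I) ≠ 0 := by
      have h1 : ((k : ℂ) - l) ≠ 0 := by
        rw [sub_ne_zero]; exact_mod_cast h
      have h2 : (Real.pi : ℂ) ≠ 0 := by exact_mod_cast Real.pi_ne_zero
      simp [h1, h2]
    rw [integral_exp_mul_complex hc]
    have h3 : Complex.exp (2 * (Real.pi : ℂ) * ((k : ℂ) - l) * Complex.I * ((1 : ℝ) : ℂ)) = 1 := by
      rw [Complex.exp_eq_one_iff]
      exact ⟨(k : ℤ) - l, by push_cast; ring⟩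
    rw [h3]
    simp

private theorem int_A (j : ℕ) :
    ∫ a, (1 + e a) ^ j * (starRingEnd ℂ (1 + e a)) ^ j ∂m1 = ((2 * j).choose j : ℂ) := by
  have hexp : ∀ a : ℝ, (1 + e a) ^ j * (starRingEnd ℂ (1 + e a)) ^ j =
      ∑ p ∈ Finset.range (j + 1) ×ˢ Finset.range (j + 1),
        ((j.choose p.1 : ℂ) * (j.choose p.2 : ℂ)) * ((e a) ^ p.1 * (starRingEnd ℂ (e a)) ^ p.2) := by
    intro a
    rw [map_add, map_one, add_comm 1 (e a), add_comm 1 (starRingEnd ℂ (e a)), add_pow, add_pow,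
      Finset.sum_mul_sum, Finset.sum_product]
    refine Finset.sum_congr rfl fun x _ => Finset.sum_congr rfl fun y _ => ?_
    simp only [one_pow, mul_one]
    ring
  simp only [hexp]
  have hint : ∀ k l : ℕ, Integrable (fun a => (e a) ^ k * (starRingEnd ℂ (e a)) ^ l) m1 := by
    intro k l
    have hc : Continuous fun a => (e a) ^ k * (starRingEnd ℂ (e a)) ^ l := by
      have := e_cont
      have h2 : Continuous fun a => starRingEnd ℂ (e a) := Complex.continuous_conj.comp this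
      fun_prop
    refine Integrable.of_bound hc.aestronglyMeasurable 1 (Filter.Eventually.of_forall fun a => ?_)
    simp [e_norm]
  rw [integral_finsetSum _ fun p _ => (hint p.1 p.2).const_mul _]
  simp only [integral_const_mul, int_e]
  rw [Finset.sum_product]
  have : ∀ x ∈ Finset.range (j + 1), ∑ y ∈ Finset.range (j + 1),
      (j.choose x : ℂ) * (j.choose y : ℂ) * (if x = y then 1 else 0) = ((j.choose x : ℂ)) ^ 2 := by
    intro x hx
    rw [Finset.sum_eq_single x]
    · simp [sq]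
    · intro y _ hy
      simp [Ne.symm hy]
    · intro h; exact absurd hx h
  rw [Finset.sum_congr rfl this]
  have h := Nat.sum_range_choose_sq j
  rw [← h]
  push_cast
  rfl

private theorem mom (n : ℕ) : ∫ v, ((‖YY v‖ : ℂ) ^ 2) ^ n ∂mu = (Dn n : ℂ) := by
  have hexp : ∀ v : ℝ × ℝ × ℝ, ((‖YY v‖ : ℂ) ^ 2) ^ n =
      ∑ p ∈ Finset.range (n + 1) ×ˢ Finset.range (n + 1),
        ((n.choose p.1 : ℂ) * (n.choose p.2 : ℂ)) *
          (((1 + e v.1) ^ (n - p.1) * (starRingEnd ℂ (1 + e v.1)) ^ (n - p.2)) *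
          (((e v.2.1) ^ p.1 * (starRingEnd ℂ (e v.2.1)) ^ p.2) *
          ((1 + e v.2.2) ^ p.1 * (starRingEnd ℂ (1 + e v.2.2)) ^ p.2))) := by
    intro v
    have h0 : ((‖YY v‖ : ℂ) ^ 2) = YY v * starRingEnd ℂ (YY v) := by
      rw [Complex.mul_conj']
    rw [h0, mul_pow]
    unfold YY
    rw [map_add, map_mul, add_comm (1 + e v.1), add_comm (starRingEnd ℂ (1 + e v.1)), add_pow, add_pow,
      Finset.sum_mul_sum, Finset.sum_product]
    refine Finset.sum_congr rfl fun x _ => Finset.sum_congr rfl fun y _ => ?_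
    rw [mul_pow, mul_pow]
    ring
  simp only [hexp]
  have hc1 : Continuous fun a => starRingEnd ℂ (e a) := Complex.continuous_conj.comp e_cont
  have hc2 : Continuous fun a => starRingEnd ℂ (1 + e a) :=
    Complex.continuous_conj.comp (continuous_const.add e_cont)
  have hb : ∀ a : ℝ, ‖1 + e a‖ ≤ 2 := by
    intro a
    refine (norm_add_le _ _).trans ?_
    rw [e_norm]; norm_num
  have := mu_prob
  have hint : ∀ k l : ℕ, Integrable (fun v : ℝ × ℝ × ℝ =>
      (((1 + e v.1) ^ (n - k) * (starRingEnd ℂ (1 + e v.1)) ^ (n - l)) *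
          (((e v.2.1) ^ k * (starRingEnd ℂ (e v.2.1)) ^ l) *
          ((1 + e v.2.2) ^ k * (starRingEnd ℂ (1 + e v.2.2)) ^ l)))) mu := by
    intro k l
    have hc : Continuous (fun v : ℝ × ℝ × ℝ =>
      (((1 + e v.1) ^ (n - k) * (starRingEnd ℂ (1 + e v.1)) ^ (n - l)) *
          (((e v.2.1) ^ k * (starRingEnd ℂ (e v.2.1)) ^ l) *
          ((1 + e v.2.2) ^ k * (starRingEnd ℂ (1 + e v.2.2)) ^ l)))) := by
      have := e_cont
      have h3 : Continuous fun v : ℝ × ℝ × ℝ => starRingEnd ℂ (1 + e v.1) := hc2.comp continuous_fst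
      have h4 : Continuous fun v : ℝ × ℝ × ℝ => starRingEnd ℂ (e v.2.1) :=
        hc1.comp (continuous_fst.comp continuous_snd)
      have h5 : Continuous fun v : ℝ × ℝ × ℝ => starRingEnd ℂ (1 + e v.2.2) :=
        hc2.comp (continuous_snd.comp continuous_snd)
      fun_prop
    refine Integrable.of_bound hc.aestronglyMeasurable
      ((2 ^ (n - k) * 2 ^ (n - l)) * (1 * (2 ^ k * 2 ^ l))) (Filter.Eventually.of_forall fun v => ?_)
    simp only [norm_mul, norm_pow, RCLike.norm_conj, e_norm, one_pow, one_mul]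
    have h1 := hb v.1
    have h2 := hb v.2.2
    gcongr
  rw [integral_finsetSum _ fun p _ => (hint p.1 p.2).const_mul _]
  simp only [integral_const_mul]
  have hprod : ∀ k l : ℕ, ∫ v : ℝ × ℝ × ℝ,
      (((1 + e v.1) ^ (n - k) * (starRingEnd ℂ (1 + e v.1)) ^ (n - l)) *
          (((e v.2.1) ^ k * (starRingEnd ℂ (e v.2.1)) ^ l) *
          ((1 + e v.2.2) ^ k * (starRingEnd ℂ (1 + e v.2.2)) ^ l))) ∂mu =
      (∫ a, ((1 + e a) ^ (n - k) * (starRingEnd ℂ (1 + e a)) ^ (n - l)) ∂m1) *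
        ((∫ b, (e b) ^ k * (starRingEnd ℂ (e b)) ^ l ∂m1) *
          ∫ c, (1 + e c) ^ k * (starRingEnd ℂ (1 + e c)) ^ l ∂m1) := by
    intro k l
    rw [mu_eq, ← integral_prod_mul (μ := m1) (ν := m1) (fun b => (e b) ^ k * (starRingEnd ℂ (e b)) ^ l)
      (fun c => (1 + e c) ^ k * (starRingEnd ℂ (1 + e c)) ^ l)]
    exact integral_prod_mul (μ := m1) (ν := m1.prod m1)
      (fun a => ((1 + e a) ^ (n - k) * (starRingEnd ℂ (1 + e a)) ^ (n - l)))
      (fun w : ℝ × ℝ => (((e w.1) ^ k * (starRingEnd ℂ (e w.1)) ^ l) *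
          ((1 + e w.2) ^ k * (starRingEnd ℂ (1 + e w.2)) ^ l)))
  simp only [hprod, int_e]
  rw [Finset.sum_product]
  have hs : ∀ x ∈ Finset.range (n + 1), ∑ y ∈ Finset.range (n + 1),
      (n.choose x : ℂ) * (n.choose y : ℂ) *
        ((∫ a, ((1 + e a) ^ (n - x) * (starRingEnd ℂ (1 + e a)) ^ (n - y)) ∂m1) *
          ((if x = y then 1 else 0) * ∫ c, (1 + e c) ^ x * (starRingEnd ℂ (1 + e c)) ^ y ∂m1)) =
      (n.choose x : ℂ) ^ 2 * ((2 * x).choose x) * ((2 * (n - x)).choose (n - x)) := by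
    intro x hx
    rw [Finset.sum_eq_single x]
    · rw [int_A, int_A]
      simp
      ring
    · intro y _ hy
      simp [Ne.symm hy]
    · intro h; exact absurd hx h
  rw [Finset.sum_congr rfl hs]
  unfold Dn
  push_cast
  rfl

theorem nu_walk : IsWalk nu := by
  have := mu_prob
  have hc : Continuous fun v : ℝ × ℝ × ℝ => ‖YY v‖ ^ 2 := YY_cont.norm.pow 2
  have hm : Measurable fun v : ℝ × ℝ × ℝ => ‖YY v‖ ^ 2 := hc.measurable
  refine ⟨?_, ?_, ?_⟩
  · unfold nu
    exact Measure.isProbabilityMeasure_map hm.aemeasurable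
  · unfold nu
    rw [Measure.map_apply hm measurableSet_Icc.compl]
    have : (fun v : ℝ × ℝ × ℝ => ‖YY v‖ ^ 2) ⁻¹' (Icc 0 16)ᶜ = ∅ := by
      ext v
      simp only [mem_preimage, mem_compl_iff, mem_Icc, not_and, not_le, mem_empty_iff_false, iff_false]
      intro h
      have h1 := h (by positivity)
      have h2 := YY_le v
      have h3 := norm_nonneg (YY v)
      nlinarith
    rw [this]; simp
  · intro n
    unfold nu
    rw [integral_map hm.aemeasurable (by fun_prop)]
    have h := mom n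
    have h2 : ∫ v, ((‖YY v‖ : ℂ) ^ 2) ^ n ∂mu = ((∫ v, (‖YY v‖ ^ 2) ^ n ∂mu : ℝ) : ℂ) := by
      rw [← integral_complex_ofReal]
      congr 1
      ext v
      push_cast
      rfl
    rw [h2] at h
    exact_mod_cast h

end RV15W
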