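import Mathlib

/-!
# RV15W/Uniq: uniqueness of the analytic solution at the maximally unipotent point

`D f q = g(q) q f'(q)`, `g(0) = 1`.  If `y` is analytic at `0`, `y(0) = 0` and
`D³y = A2 D²y + A1 Dy + A0 y` near `0` with `A_i → 0`, then `y = 0` near `0`.
Proof: otherwise `y = q^m u(q)` near `0` with `m ≥ 1`, `u` analytic, `u(0) ≠ 0`
(`AnalyticAt.exists_eventuallyEq_pow_smul_nonzero_iff` or the order).  Then `D y = q^m u1` with
`u1 = g (m u + q u')`, `u1(0) = m u(0)`, and so on: `D³y = q^m u3`, `u3(0) = m³ u(0)`. Divide by `q^m` and let `q → 0`: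
`m³ u(0) = 0`.
-/

set_option autoImplicit false

open Filter

namespace RV15W

private theorem Uniq_step {g : ℂ → ℂ} (hg : AnalyticAt ℂ g 0) (hg0 : g 0 = 1)
    (D : (ℂ → ℂ) → ℂ → ℂ) (hD : ∀ f q, D f q = g q * (q * deriv f q))
    (m : ℕ) {f u : ℂ → ℂ} (hu : AnalyticAt ℂ u 0)
    (hf : ∀ᶠ q in nhds (0 : ℂ), f q = q ^ m * u q) :
    ∃ u1 : ℂ → ℂ, AnalyticAt ℂ u1 0 ∧ u1 0 = (m : ℂ) * u 0 ∧
      ∀ᶠ q in nhds (0 : ℂ), D f q = q ^ m * u1 q := by
  refine ⟨fun q => g q * ((m : ℂ) * u q + q * deriv u q), ?_, ?_, ?_⟩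
  · exact hg.mul ((analyticAt_const.mul hu).add (analyticAt_id.mul hu.deriv))
  · simp [hg0]
  · filter_upwards [hf.eventually_nhds, hu.eventually_analyticAt] with q hq hua
    have h1 : deriv f q = deriv (fun q => q ^ m * u q) q :=
      Filter.EventuallyEq.deriv_eq hq
    have h2 : HasDerivAt (fun q : ℂ => q ^ m * u q)
        (((m : ℂ) * q ^ (m - 1)) * u q + q ^ m * deriv u q) q :=
      (hasDerivAt_pow m q).mul hua.differentiableAt.hasDerivAt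
    rw [hD, h1, h2.deriv]
    rcases m with _ | k
    · simp
    · simp only [Nat.add_sub_cancel]
      ring

theorem uniq {g y A2 A1 A0 : ℂ → ℂ} (hg : AnalyticAt ℂ g 0) (hg0 : g 0 = 1)
    (hy : AnalyticAt ℂ y 0) (hy0 : y 0 = 0)
    (h2 : Tendsto A2 (nhdsWithin 0 {0}ᶜ) (nhds 0)) (h1 : Tendsto A1 (nhdsWithin 0 {0}ᶜ) (nhds 0))
    (h0 : Tendsto A0 (nhdsWithin 0 {0}ᶜ) (nhds 0))
    (D : (ℂ → ℂ) → ℂ → ℂ) (hD : ∀ f q, D f q = g q * (q * deriv f q))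
    (h : ∀ᶠ q in nhdsWithin (0 : ℂ) {0}ᶜ, D (D (D y)) q = A2 q * D (D y) q + A1 q * D y q + A0 q * y q) :
    ∀ᶠ q in nhds (0 : ℂ), y q = 0 := by
  by_contra hne
  obtain ⟨m, u, hu, hu0, hyu⟩ := hy.exists_eventuallyEq_pow_smul_nonzero_iff.2 hne
  have hyu' : ∀ᶠ q in nhds (0 : ℂ), y q = q ^ m * u q := by
    filter_upwards [hyu] with q hq
    rw [hq]; simp
  have hm : m ≠ 0 := by
    rintro rfl
    have := hyu'.self_of_nhds
    rw [hy0] at this
    simp at this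
    exact hu0 this.symm
  obtain ⟨u1, hu1, hu10, e1⟩ := Uniq_step hg hg0 D hD m hu hyu'
  obtain ⟨u2, hu2, hu20, e2⟩ := Uniq_step hg hg0 D hD m hu1 e1
  obtain ⟨u3, hu3, hu30, e3⟩ := Uniq_step hg hg0 D hD m hu2 e2
  have key : ∀ᶠ q in nhdsWithin (0 : ℂ) {0}ᶜ, u3 q = A2 q * u2 q + A1 q * u1 q + A0 q * u q := by
    filter_upwards [h, nhdsWithin_le_nhds e1, nhdsWithin_le_nhds e2, nhdsWithin_le_nhds e3,
      nhdsWithin_le_nhds hyu', self_mem_nhdsWithin] with q hq e1q e2q e3q e0q hq0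
    rw [e1q, e2q, e3q, e0q] at hq
    have hp : q ^ m ≠ 0 := pow_ne_zero _ hq0
    apply mul_left_cancel₀ hp
    rw [hq]; ring
  have l3 : Tendsto u3 (nhdsWithin 0 {0}ᶜ) (nhds (u3 0)) :=
    (hu3.continuousAt.tendsto).mono_left nhdsWithin_le_nhds
  have l2 : Tendsto u2 (nhdsWithin 0 {0}ᶜ) (nhds (u2 0)) :=
    (hu2.continuousAt.tendsto).mono_left nhdsWithin_le_nhds
  have l1 : Tendsto u1 (nhdsWithin 0 {0}ᶜ) (nhds (u1 0)) :=
    (hu1.continuousAt.tendsto).mono_left nhdsWithin_le_nhds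
  have l0 : Tendsto u (nhdsWithin 0 {0}ᶜ) (nhds (u 0)) :=
    (hu.continuousAt.tendsto).mono_left nhdsWithin_le_nhds
  have lr : Tendsto (fun q => A2 q * u2 q + A1 q * u1 q + A0 q * u q) (nhdsWithin 0 {0}ᶜ)
      (nhds 0) := by
    have := ((h2.mul l2).add (h1.mul l1)).add (h0.mul l0)
    simpa using this
  have h30 : u3 0 = 0 := by
    refine tendsto_nhds_unique l3 ?_
    refine lr.congr' ?_
    filter_upwards [key] with q hq
    exact hq.symm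
  rw [hu30, hu20, hu10] at h30
  have hmc : (m : ℂ) ≠ 0 := by exact_mod_cast hm
  have : (m : ℂ) * ((m : ℂ) * ((m : ℂ) * u 0)) ≠ 0 :=
    mul_ne_zero hmc (mul_ne_zero hmc (mul_ne_zero hmc hu0))
  exact this h30

end RV15W
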