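import Mathlib
import Pool.Agent.RV15W.Defs
import Pool.Agent.RV15W.Bas
import Pool.Agent.RV15W.Alg

/-!
# RV15W/Re: real forms

For real `q`, `|q| < 1`, all functions are real.  For `0 < q < 1`: `T > 0`, `Z > 0` (`Z = al be/3`, both eta quotients
positive), and `T → 0` as `q → 0+`.
-/

set_option autoImplicit false

open Filter

namespace RV15W

private theorem Re_abs {q : ℝ} (hq : |q| < 1) {k : ℕ} (hk : k ≠ 0) : |q ^ k| < 1 := by
  rw [abs_pow]
  exact pow_lt_one₀ (abs_nonneg _) hq hk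

private theorem Re_norm {q : ℂ} (hq : ‖q‖ < 1) {k : ℕ} (hk : k ≠ 0) : ‖q ^ k‖ < 1 := by
  rw [norm_pow]
  exact pow_lt_one₀ (norm_nonneg _) hq hk

private theorem Re_Eu {q : ℝ} (hq : |q| < 1) {k : ℕ} (hk : k ≠ 0) :
    Eu ((q : ℂ) ^ k) = (rE (q ^ k) : ℂ) := by
  rw [← Complex.ofReal_pow]
  exact Eu_ofReal (Re_abs hq hk)

private theorem Re_ca (q : ℝ) (k : ℕ) : ca ((q : ℂ) ^ k) = (ra (q ^ k) : ℂ) := by
  rw [← Complex.ofReal_pow]
  exact ca_ofReal _

theorem TT_ofReal {q : ℝ} (hq : |q| < 1) : TT (q : ℂ) = (rT q : ℂ) := by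
  unfold TT ff rT
  rw [Eu_ofReal hq, Re_Eu hq (k := 2) (by norm_num), Re_Eu hq (k := 3) (by norm_num),
    Re_Eu hq (k := 6) (by norm_num)]
  push_cast
  rfl

theorem ZZ_ofReal {q : ℝ} (hq : |q| < 1) : ZZ (q : ℂ) = (rZ q : ℂ) := by
  unfold ZZ rZ
  rw [ca_ofReal, Re_ca q 2]
  push_cast
  rfl

private theorem Re_pow_diff {f : ℂ → ℂ} (hf : DifferentiableOn ℂ f (Metric.ball 0 1)) {k : ℕ}
    (hk : k ≠ 0) : DifferentiableOn ℂ (fun q : ℂ => f (q ^ k)) (Metric.ball 0 1) := by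
  refine hf.comp ((differentiable_id.pow k).differentiableOn) ?_
  intro q hq
  have h1 : ‖q‖ < 1 := by simpa using hq
  simpa using Re_norm h1 hk

theorem TT_diff : DifferentiableOn ℂ TT (Metric.ball 0 1) := by
  have h1 := Eu_diff
  have h2 := Re_pow_diff Eu_diff (k := 2) (by norm_num)
  have h3 := Re_pow_diff Eu_diff (k := 3) (by norm_num)
  have h6 := Re_pow_diff Eu_diff (k := 6) (by norm_num)
  have hne : ∀ q ∈ Metric.ball (0 : ℂ) 1, Eu q * Eu (q ^ 3) ≠ 0 := by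
    intro q hq
    have hq1 : ‖q‖ < 1 := by simpa using hq
    exact mul_ne_zero (Eu_ne hq1) (Eu_ne (Re_norm hq1 (by norm_num)))
  unfold TT ff
  exact differentiableOn_id.mul (((h2.mul h6).div (h1.mul h3) hne).pow 6)

theorem TT_zero : TT 0 = 0 := by
  simp [TT]

theorem ZZ_diff : DifferentiableOn ℂ ZZ (Metric.ball 0 1) := by
  have h1 := ca_diff
  have h2 := Re_pow_diff ca_diff (k := 2) (by norm_num)
  unfold ZZ
  exact (((h2.pow 2).const_mul 4).sub (h1.pow 2)).div_const 3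

theorem rT_pos {q : ℝ} (h0 : 0 < q) (h1 : q < 1) : 0 < rT q := by
  have hq : |q| < 1 := by rwa [abs_of_pos h0]
  have p1 := rE_pos hq
  have p2 := rE_pos (Re_abs hq (k := 2) (by norm_num))
  have p3 := rE_pos (Re_abs hq (k := 3) (by norm_num))
  have p6 := rE_pos (Re_abs hq (k := 6) (by norm_num))
  unfold rT
  positivity

theorem rT_cont : ContinuousAt rT 0 := by
  have h0 : |(0 : ℝ)| < 1 := by norm_num
  have hc : ContinuousAt rE 0 := (rE_diff h0).continuousAt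
  have hk : ∀ k : ℕ, k ≠ 0 → ContinuousAt (fun q : ℝ => rE (q ^ k)) 0 := by
    intro k hk
    have h1 : ContinuousAt rE ((0 : ℝ) ^ k) := by
      rw [zero_pow hk]
      exact hc
    exact ContinuousAt.comp (f := fun q : ℝ => q ^ k) (g := rE) h1 (continuous_pow k).continuousAt
  have h2 := hk 2 (by norm_num)
  have h3 := hk 3 (by norm_num)
  have h6 := hk 6 (by norm_num)
  have hne : rE 0 * rE (0 ^ 3) ≠ 0 := by
    have : (0 : ℝ) ^ 3 = 0 := by norm_num
    rw [this, rE_zero]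
    norm_num
  unfold rT
  exact continuousAt_id.mul (((h2.mul h6).div (hc.mul h3) hne).pow 6)

/-- `12 Z T = a1² - a2²` -/
theorem rZT {q : ℝ} (hq : |q| < 1) : 12 * rZ q * rT q = ra q ^ 2 - ra (q ^ 2) ^ 2 := by
  have hn : ‖(q : ℂ)‖ < 1 := by
    rw [Complex.norm_real]
    exact hq
  have h := rel_T hn
  rw [TT_ofReal hq, Re_ca q 2, ca_ofReal] at h
  have h2 : rT q * (4 * (4 * ra (q ^ 2) ^ 2 - ra q ^ 2)) = ra q ^ 2 - ra (q ^ 2) ^ 2 := by
    exact_mod_cast h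
  rw [← h2]
  unfold rZ
  ring

/-- `T = (x²-z²)/(4(4z²-x²))` and `Z = (4z²-x²)/3 ≠ 0` -/
theorem rZ_pos {q : ℝ} (hq : |q| < 1) : 0 < rZ q := by
  have hn : ‖(q : ℂ)‖ < 1 := by
    rw [Complex.norm_real]
    exact hq
  have p1 := rE_pos hq
  have p2 := rE_pos (Re_abs hq (k := 2) (by norm_num))
  have p3 := rE_pos (Re_abs hq (k := 3) (by norm_num))
  have p6 := rE_pos (Re_abs hq (k := 6) (by norm_num))
  have ha := al_eq hn
  have hb := be_eq hn
  unfold al at ha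
  unfold be at hb
  rw [Re_ca q 2, ca_ofReal, Eu_ofReal hq, Re_Eu hq (k := 2) (by norm_num),
    Re_Eu hq (k := 3) (by norm_num), Re_Eu hq (k := 6) (by norm_num)] at ha hb
  have ha' : rE q ^ 6 * rE (q ^ 6) / (rE (q ^ 2) ^ 3 * rE (q ^ 3) ^ 2)
      = 2 * ra (q ^ 2) - ra q := by
    exact_mod_cast ha
  have hb' : 3 * rE (q ^ 3) ^ 6 * rE (q ^ 2) / (rE q ^ 2 * rE (q ^ 6) ^ 3)
      = ra q + 2 * ra (q ^ 2) := by
    exact_mod_cast hb
  have A : 0 < 2 * ra (q ^ 2) - ra q := by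
    rw [← ha']
    positivity
  have B : 0 < ra q + 2 * ra (q ^ 2) := by
    rw [← hb']
    positivity
  have hZ : rZ q = (2 * ra (q ^ 2) - ra q) * (ra q + 2 * ra (q ^ 2)) / 3 := by
    unfold rZ
    ring
  rw [hZ]
  positivity

end RV15W
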