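import Mathlib
import Pool.Agent.RV15W.Defs

/-!
# RV15W/DnRec: the recurrence of the Domb numbers

`(n+2)³ D(n+2) - 2(2n+3)(5(n+1)(n+2)+2) D(n+1) + 64 (n+1)³ D(n) = 0`.
Let `F(n,k) = C(n,k)² C(2k,k) C(2n-2k,n-k)`.  For `0 ≤ k ≤ n` (over the rationals)
`(n+2)³ F(n+2,k) - 2(2n+3)(5(n+1)(n+2)+2) F(n+1,k) + 64 (n+1)³ F(n,k) = G(n,k+1) - G(n,k)` with
`G(n,k) = F(n,k) k³ (2n-2k+1) p(n,k)/((n+1-k)³ (n+2-k)³)`,
`p(n,k) = (n+1)² (16k³ - 24(3n+5)k² + 4(n+2)(26n+37)k - 8(n+2)²(6n+7))`, and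
`G(n,k+1) = F(n,k) (2k+1) p(n,k+1)/(n+1-k)³` (use this form, also for `k = n`).
-/

set_option autoImplicit false

namespace RV15W

/-- the summand as a real function of `k` and `j = n - k` -/
private noncomputable def DnRecf (k j : ℕ) : ℝ :=
  (((k + j).choose k : ℕ) : ℝ) ^ 2 * (((2 * k).choose k : ℕ) : ℝ) * (((2 * j).choose j : ℕ) : ℝ)

private noncomputable def DnRecp (n k : ℝ) : ℝ :=
  (n + 1) ^ 2 * (16 * k ^ 3 - 24 * (3 * n + 5) * k ^ 2 + 4 * (n + 2) * (26 * n + 37) * k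
    - 8 * (n + 2) ^ 2 * (6 * n + 7))

private lemma DnRec_cb (k : ℕ) :
    ((k : ℝ) + 1) * (((2 * (k + 1)).choose (k + 1) : ℕ) : ℝ) =
      2 * (2 * (k : ℝ) + 1) * (((2 * k).choose k : ℕ) : ℝ) := by
  have h := Nat.succ_mul_centralBinom_succ k
  rw [Nat.centralBinom_eq_two_mul_choose, Nat.centralBinom_eq_two_mul_choose] at h
  exact_mod_cast h

private lemma DnRec_symm (k j : ℕ) : DnRecf k j = DnRecf j k := by
  unfold DnRecf
  have h : (k + j).choose k = (j + k).choose j := by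
    rw [add_comm k j, ← Nat.choose_symm_add]
  rw [h]; ring

private lemma DnRec_j (k j : ℕ) :
    DnRecf k (j + 1) = DnRecf k j * (((k : ℝ) + j + 1) ^ 2 * (2 * (2 * (j : ℝ) + 1)) / ((j : ℝ) + 1) ^ 3) := by
  have h1 := DnRec_cb j
  have h2 : (((k + j).choose k : ℕ) : ℝ) * ((k : ℝ) + j + 1) =
      (((k + (j + 1)).choose k : ℕ) : ℝ) * ((j : ℝ) + 1) := by
    have h := Nat.choose_mul_succ_eq (k + j) k
    have h3 : k + j + 1 - k = j + 1 := by omega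
    rw [h3] at h
    have h4 : k + (j + 1) = k + j + 1 := by ring
    rw [h4]
    exact_mod_cast h
  have hj : ((j : ℝ) + 1) ≠ 0 := by positivity
  have h1' : (((2 * (j + 1)).choose (j + 1) : ℕ) : ℝ) =
      2 * (2 * (j : ℝ) + 1) * (((2 * j).choose j : ℕ) : ℝ) / ((j : ℝ) + 1) := by
    field_simp
    linarith
  have h2' : (((k + (j + 1)).choose k : ℕ) : ℝ) =
      (((k + j).choose k : ℕ) : ℝ) * ((k : ℝ) + j + 1) / ((j : ℝ) + 1) := by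
    field_simp
    linarith
  unfold DnRecf
  rw [h1', h2']
  field_simp

private lemma DnRec_k (k j : ℕ) :
    DnRecf (k + 1) j = DnRecf k j * (((k : ℝ) + j + 1) ^ 2 * (2 * (2 * (k : ℝ) + 1)) / ((k : ℝ) + 1) ^ 3) := by
  rw [DnRec_symm, DnRec_j, DnRec_symm j k]
  ring

/-- the combination at `k`, for `n = k + j` -/
private noncomputable def DnRecT (n k : ℕ) : ℝ :=
  ((n : ℝ) + 2) ^ 3 * DnRecf k (n + 2 - k) -
      2 * (2 * (n : ℝ) + 3) * (5 * ((n : ℝ) + 1) * ((n : ℝ) + 2) + 2) * DnRecf k (n + 1 - k) +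
      64 * ((n : ℝ) + 1) ^ 3 * DnRecf k (n - k)

private lemma DnRecT_eq (k j : ℕ) : DnRecT (k + j) k =
    (((k : ℝ) + j) + 2) ^ 3 * DnRecf k (j + 2) -
      2 * (2 * ((k : ℝ) + j) + 3) * (5 * (((k : ℝ) + j) + 1) * (((k : ℝ) + j) + 2) + 2) * DnRecf k (j + 1) +
      64 * (((k : ℝ) + j) + 1) ^ 3 * DnRecf k j := by
  unfold DnRecT
  rw [show k + j + 2 - k = j + 2 by omega, show k + j + 1 - k = j + 1 by omega,
    show k + j - k = j by omega]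
  push_cast
  ring

private lemma DnRec_tel (m : ℕ) : ∀ j : ℕ, ∑ k ∈ Finset.range (m + 1), DnRecT (m + j) k =
    DnRecf m j * ((2 * (m : ℝ) + 1) * DnRecp ((m : ℝ) + j) ((m : ℝ) + 1) / ((j : ℝ) + 1) ^ 3) := by
  induction m with
  | zero =>
    intro j
    rw [Finset.sum_range_one, DnRecT_eq, show j + 2 = (j + 1) + 1 by ring, DnRec_j 0 (j + 1), DnRec_j 0 j]
    have hj : ((j : ℝ) + 1) ≠ 0 := by positivity
    have hj2 : ((j : ℝ) + 2) ≠ 0 := by positivity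
    have hj3 : ((j : ℝ) + 1 + 1) ≠ 0 := by positivity
    unfold DnRecp
    push_cast
    field_simp
    ring
  | succ m ih =>
    intro j
    rw [Finset.sum_range_succ]
    have h := ih (j + 1)
    rw [show m + (j + 1) = m + 1 + j by ring] at h
    rw [h, DnRecT_eq, show j + 2 = (j + 1) + 1 by ring, DnRec_j (m + 1) (j + 1), DnRec_j (m + 1) j,
      DnRec_k m j, DnRec_j m j]
    have hj : ((j : ℝ) + 1) ≠ 0 := by positivity
    have hj3 : ((j : ℝ) + 1 + 1) ≠ 0 := by positivity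
    have hm : ((m : ℝ) + 1) ≠ 0 := by positivity
    unfold DnRecp
    push_cast
    field_simp
    ring

private lemma DnRec_sum (n : ℕ) : (Dn n : ℝ) = ∑ k ∈ Finset.range (n + 1), DnRecf k (n - k) := by
  unfold Dn
  push_cast
  refine Finset.sum_congr rfl fun k hk => ?_
  have hk' : k ≤ n := Nat.lt_succ_iff.mp (Finset.mem_range.mp hk)
  unfold DnRecf
  rw [Nat.add_sub_cancel' hk']

theorem Dn_rec (n : ℕ) :
    ((n : ℝ) + 2) ^ 3 * (Dn (n + 2) : ℝ) -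
      2 * (2 * (n : ℝ) + 3) * (5 * ((n : ℝ) + 1) * ((n : ℝ) + 2) + 2) * (Dn (n + 1) : ℝ) +
      64 * ((n : ℝ) + 1) ^ 3 * (Dn n : ℝ) = 0 := by
  have ht := DnRec_tel n 0
  rw [add_zero] at ht
  unfold DnRecT at ht
  rw [Finset.sum_add_distrib, Finset.sum_sub_distrib, ← Finset.mul_sum, ← Finset.mul_sum,
    ← Finset.mul_sum] at ht
  rw [DnRec_sum (n + 2), DnRec_sum (n + 1), DnRec_sum n, Finset.sum_range_succ _ (n + 2),
    Finset.sum_range_succ _ (n + 1), Finset.sum_range_succ (fun k => DnRecf k (n + 1 - k)) (n + 1)]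
  rw [show n + 2 - (n + 2) = 0 by omega, show n + 2 - (n + 1) = 0 + 1 by omega,
    show n + 1 - (n + 1) = 0 by omega]
  have e1 : DnRecf (n + 2) 0 = DnRecf n 0 * (((n : ℝ) + 0 + 1) ^ 2 * (2 * (2 * (n : ℝ) + 1)) / ((n : ℝ) + 1) ^ 3)
      * (((n : ℝ) + 1 + 0 + 1) ^ 2 * (2 * (2 * ((n : ℝ) + 1) + 1)) / ((n : ℝ) + 1 + 1) ^ 3) := by
    rw [show n + 2 = (n + 1) + 1 by ring, DnRec_k (n + 1) 0, DnRec_k n 0]
    push_cast
    ring
  have e2 : DnRecf (n + 1) (0 + 1) = DnRecf n 0 * (((n : ℝ) + 0 + 1) ^ 2 * (2 * (2 * (n : ℝ) + 1)) / ((n : ℝ) + 1) ^ 3)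
      * (((n : ℝ) + 1 + 0 + 1) ^ 2 * (2 * (2 * (0 : ℝ) + 1)) / ((0 : ℝ) + 1) ^ 3) := by
    rw [DnRec_j (n + 1) 0, DnRec_k n 0]
    push_cast
    ring
  have e3 : DnRecf (n + 1) 0 = DnRecf n 0 * (((n : ℝ) + 0 + 1) ^ 2 * (2 * (2 * (n : ℝ) + 1)) / ((n : ℝ) + 1) ^ 3) := by
    rw [DnRec_k n 0]
    push_cast
    ring
  rw [e1, e2, e3]
  have hn : ((n : ℝ) + 1) ≠ 0 := by positivity
  have hn2 : ((n : ℝ) + 1 + 1) ≠ 0 := by positivity
  have key : ((n : ℝ) + 2) ^ 3 * (DnRecf n 0 * (((n : ℝ) + 0 + 1) ^ 2 * (2 * (2 * (n : ℝ) + 1)) / ((n : ℝ) + 1) ^ 3)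
      * (((n : ℝ) + 1 + 0 + 1) ^ 2 * (2 * (2 * (0 : ℝ) + 1)) / ((0 : ℝ) + 1) ^ 3) +
      DnRecf n 0 * (((n : ℝ) + 0 + 1) ^ 2 * (2 * (2 * (n : ℝ) + 1)) / ((n : ℝ) + 1) ^ 3)
      * (((n : ℝ) + 1 + 0 + 1) ^ 2 * (2 * (2 * ((n : ℝ) + 1) + 1)) / ((n : ℝ) + 1 + 1) ^ 3)) -
      2 * (2 * (n : ℝ) + 3) * (5 * ((n : ℝ) + 1) * ((n : ℝ) + 2) + 2) *
      (DnRecf n 0 * (((n : ℝ) + 0 + 1) ^ 2 * (2 * (2 * (n : ℝ) + 1)) / ((n : ℝ) + 1) ^ 3)) +
      DnRecf n 0 * ((2 * (n : ℝ) + 1) * DnRecp ((n : ℝ) + (0 : ℕ)) ((n : ℝ) + 1) / (((0 : ℕ) : ℝ) + 1) ^ 3) = 0 := by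
    unfold DnRecp
    push_cast
    field_simp
    ring
  rw [← ht] at key
  linear_combination key

/-- crude bound, from `Σ_k C(n,k)² C(2k,k) C(2n-2k,n-k) ≤ (Σ_k C(n,k) 2^k 2^(n-k))² = 16^n`
(`C(2k,k) ≤ 4^k`) -/
theorem Dn_le (n : ℕ) : Dn n ≤ 16 ^ n := by
  unfold Dn
  have h : ∀ k ∈ Finset.range (n + 1),
      (n.choose k) ^ 2 * ((2 * k).choose k) * ((2 * (n - k)).choose (n - k)) ≤ n.choose k * 8 ^ n := by
    intro k hk
    have hk' : k ≤ n := Nat.lt_succ_iff.mp (Finset.mem_range.mp hk)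
    have h1 : n.choose k ≤ 2 ^ n := Nat.choose_le_two_pow n k
    have h2 : (2 * k).choose k ≤ 2 ^ (2 * k) := Nat.choose_le_two_pow _ _
    have h3 : (2 * (n - k)).choose (n - k) ≤ 2 ^ (2 * (n - k)) := Nat.choose_le_two_pow _ _
    have h4 : (2 : ℕ) ^ n * 2 ^ (2 * k) * 2 ^ (2 * (n - k)) = 8 ^ n := by
      rw [← pow_add, ← pow_add, show (8 : ℕ) = 2 ^ 3 by norm_num, ← pow_mul]
      congr 1
      omega
    calc (n.choose k) ^ 2 * ((2 * k).choose k) * ((2 * (n - k)).choose (n - k))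
        = n.choose k * (n.choose k * ((2 * k).choose k) * ((2 * (n - k)).choose (n - k))) := by ring
      _ ≤ n.choose k * (2 ^ n * 2 ^ (2 * k) * 2 ^ (2 * (n - k))) := by gcongr
      _ = n.choose k * 8 ^ n := by rw [h4]
  refine (Finset.sum_le_sum h).trans ?_
  rw [← Finset.sum_mul, Nat.sum_range_choose, ← mul_pow]
  norm_num

theorem Dn_zero : Dn 0 = 1 := by
  simp [Dn]

theorem Dn_one : Dn 1 = 4 := by
  simp [Dn, Finset.sum_range_succ]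

end RV15W
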