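import Mathlib
import Pool.Agent.RV15W.Defs
import Pool.Agent.RV15W.DnRec

/-!
# RV15W/HC: the Domb differential equation for `hC = Σ (-1)^n D(n) T^n`

`hC` is analytic on the ball of radius `1/16` (`Dn_le`), and with `E f T = T f'(T)` (`qd`) it satisfies
`(1+20T+64T²) E³ + (30T+192T²) E² + (18T+192T²) E + (4T+64T²) = 0`: `E` multiplies the coefficient of `T^n` by `n`;
compare coefficients of `T^n`, `n ≥ 2` (`Dn_rec` at `n-2`); the coefficients of `T^0`, `T^1` with `Dn_zero`, `Dn_one`.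
-/

set_option autoImplicit false

namespace RV15W

/-- sum of the power series with coefficients `a` -/
private noncomputable def HC_P (a : ℕ → ℂ) (T : ℂ) : ℂ := ∑' n : ℕ, a n * T ^ n

/-- radius of convergence at least `1/16` -/
private def HC_good (a : ℕ → ℂ) : Prop :=
  ∀ r : ℝ, 0 < r → r < 1 / 16 → Summable fun n : ℕ => ‖a n‖ * r ^ n

private lemma HC_good_mul {a : ℕ → ℂ} (ha : HC_good a) : HC_good fun n => (n : ℂ) * a n := by
  intro r hr0 hr
  obtain ⟨s, hs1, hs2⟩ := exists_between hr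
  have hs0 : 0 < s := hr0.trans hs1
  have hq0 : 0 ≤ r / s := by positivity
  have hq1 : r / s < 1 := by rw [div_lt_one hs0]; exact hs1
  have h1 : Summable fun n : ℕ => (n : ℝ) ^ 1 * (r / s) ^ n :=
    summable_pow_mul_geometric_of_norm_lt_one 1 (by rw [Real.norm_of_nonneg hq0]; exact hq1)
  have h2 := h1.tendsto_atTop_zero
  have h3 : ∀ᶠ n : ℕ in Filter.atTop, (n : ℝ) ^ 1 * (r / s) ^ n ≤ 1 :=
    h2.eventually_le_const one_pos
  refine Summable.of_norm_bounded_eventually_nat (ha s hs0 hs2) ?_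
  filter_upwards [h3] with n hn
  have h4 : ‖‖(n : ℂ) * a n‖ * r ^ n‖ = (((n : ℝ) ^ 1 * (r / s) ^ n)) * (‖a n‖ * s ^ n) := by
    rw [Real.norm_of_nonneg (by positivity), norm_mul, Complex.norm_natCast, div_pow]
    field_simp
  rw [h4]
  have h5 : 0 ≤ ‖a n‖ * s ^ n := by positivity
  calc ((n : ℝ) ^ 1 * (r / s) ^ n) * (‖a n‖ * s ^ n) ≤ 1 * (‖a n‖ * s ^ n) :=
        mul_le_mul_of_nonneg_right hn h5
    _ = _ := one_mul _

private lemma HC_summable {a : ℕ → ℂ} (ha : HC_good a) {T : ℂ} (hT : ‖T‖ < 1 / 16) :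
    Summable fun n : ℕ => a n * T ^ n := by
  obtain ⟨s, hs1, hs2⟩ := exists_between hT
  have hs0 : 0 < s := (norm_nonneg T).trans_lt hs1
  refine Summable.of_norm_bounded (ha s hs0 hs2) fun n => ?_
  rw [norm_mul, norm_pow]
  gcongr

private lemma HC_hasDeriv {a : ℕ → ℂ} (ha : HC_good a) {T : ℂ} (hT : ‖T‖ < 1 / 16) :
    HasDerivAt (HC_P a) (∑' n : ℕ, a n * ((n : ℂ) * T ^ (n - 1))) T := by
  obtain ⟨s, hs1, hs2⟩ := exists_between hT
  have hs0 : 0 < s := (norm_nonneg T).trans_lt hs1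
  have hu : Summable fun n : ℕ => (1 / s) * (‖(n : ℂ) * a n‖ * s ^ n) :=
    ((HC_good_mul ha) s hs0 hs2).mul_left _
  refine hasDerivAt_tsum_of_isPreconnected (g := fun n T => a n * T ^ n)
    (g' := fun n T => a n * ((n : ℂ) * T ^ (n - 1))) hu Metric.isOpen_ball
    (convex_ball (0 : ℂ) s).isPreconnected ?_ ?_
    (y₀ := T) (by rw [mem_ball_zero_iff]; exact hs1) (HC_summable ha hT)
    (by rw [mem_ball_zero_iff]; exact hs1)
  · intro n y _
    exact (hasDerivAt_pow n y).const_mul (a n)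
  · intro n y hy
    rw [mem_ball_zero_iff] at hy
    rcases Nat.eq_zero_or_pos n with h0 | hpos
    · subst h0
      simp
    · rw [norm_mul, norm_mul, norm_pow, Complex.norm_natCast, norm_mul, Complex.norm_natCast]
      have e1 : s ^ n = s ^ (n - 1) * s := by
        rw [← pow_succ, Nat.sub_add_cancel hpos]
      rw [e1]
      have e2 : 1 / s * ((n : ℝ) * ‖a n‖ * (s ^ (n - 1) * s)) = ‖a n‖ * ((n : ℝ) * s ^ (n - 1)) := by
        field_simp
      rw [e2]
      gcongr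

private lemma HC_qd {a : ℕ → ℂ} (ha : HC_good a) {T : ℂ} (hT : ‖T‖ < 1 / 16) :
    qd (HC_P a) T = HC_P (fun n => (n : ℂ) * a n) T := by
  unfold qd
  rw [(HC_hasDeriv ha hT).deriv, ← tsum_mul_left]
  unfold HC_P
  refine tsum_congr fun n => ?_
  rcases Nat.eq_zero_or_pos n with h0 | hpos
  · subst h0
    simp
  · have e1 : T ^ n = T ^ (n - 1) * T := by
      rw [← pow_succ, Nat.sub_add_cancel hpos]
    rw [e1]
    ring

private lemma HC_qd_congr {f g : ℂ → ℂ} (h : ∀ T : ℂ, ‖T‖ < 1 / 16 → f T = g T) {T : ℂ}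
    (hT : ‖T‖ < 1 / 16) : qd f T = qd g T := by
  unfold qd
  have h1 : f =ᶠ[nhds T] g := by
    have h2 : Metric.ball (0 : ℂ) (1 / 16) ∈ nhds T :=
      Metric.isOpen_ball.mem_nhds (by rw [mem_ball_zero_iff]; exact hT)
    filter_upwards [h2] with y hy
    exact h y (by rwa [mem_ball_zero_iff] at hy)
  rw [h1.deriv_eq]

/-- coefficients of `hC` -/
private noncomputable def HC_a (n : ℕ) : ℂ := (-1) ^ n * (Dn n : ℂ)

private lemma HC_hC : hC = HC_P HC_a := rfl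

private lemma HC_a_good : HC_good HC_a := by
  intro r hr0 hr
  have h1 : Summable fun n : ℕ => (16 * r) ^ n :=
    summable_geometric_of_lt_one (by positivity) (by linarith)
  refine Summable.of_nonneg_of_le (fun n => by positivity) (fun n => ?_) h1
  have h2 : ‖HC_a n‖ = (Dn n : ℝ) := by
    unfold HC_a
    rw [norm_mul, norm_pow, norm_neg, norm_one, one_pow, one_mul, Complex.norm_natCast]
  rw [h2, mul_pow]
  have h3 : (Dn n : ℝ) ≤ 16 ^ n := by exact_mod_cast Dn_le n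
  gcongr

private lemma HC_split {a : ℕ → ℂ} (ha : HC_good a) {T : ℂ} (hT : ‖T‖ < 1 / 16) :
    HC_P a T = a 0 + T * HC_P (fun n => a (n + 1)) T := by
  unfold HC_P
  rw [(HC_summable ha hT).tsum_eq_zero_add, pow_zero, mul_one, ← tsum_mul_left]
  congr 1
  refine tsum_congr fun n => ?_
  ring

private lemma HC_good_add {a b : ℕ → ℂ} (ha : HC_good a) (hb : HC_good b) :
    HC_good fun n => a n + b n := by
  intro r hr0 hr
  refine Summable.of_nonneg_of_le (fun n => by positivity) (fun n => ?_)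
    ((ha r hr0 hr).add (hb r hr0 hr))
  have := norm_add_le (a n) (b n)
  calc ‖a n + b n‖ * r ^ n ≤ (‖a n‖ + ‖b n‖) * r ^ n := by gcongr
    _ = _ := by ring

private lemma HC_good_smul {a : ℕ → ℂ} (c : ℂ) (ha : HC_good a) : HC_good fun n => c * a n := by
  intro r hr0 hr
  have h := (ha r hr0 hr).mul_left ‖c‖
  refine h.congr fun n => ?_
  rw [norm_mul]
  ring

private lemma HC_good_shift {a : ℕ → ℂ} (ha : HC_good a) : HC_good fun n => a (n + 1) := by
  intro r hr0 hr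
  have h := ((summable_nat_add_iff 1).mpr (ha r hr0 hr)).mul_left (1 / r)
  refine h.congr fun n => ?_
  rw [pow_succ]
  field_simp

private lemma HC_add {a b : ℕ → ℂ} (ha : HC_good a) (hb : HC_good b) {T : ℂ}
    (hT : ‖T‖ < 1 / 16) : HC_P (fun n => a n + b n) T = HC_P a T + HC_P b T := by
  unfold HC_P
  rw [← (HC_summable ha hT).tsum_add (HC_summable hb hT)]
  refine tsum_congr fun n => ?_
  ring

private lemma HC_smul {a : ℕ → ℂ} (c : ℂ) {T : ℂ} :
    HC_P (fun n => c * a n) T = c * HC_P a T := by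
  unfold HC_P
  rw [← tsum_mul_left]
  refine tsum_congr fun n => ?_
  ring

private lemma HC_rec (n : ℕ) :
    ((n : ℂ) + 2) ^ 3 * HC_a (n + 2) +
      (20 * ((n : ℂ) + 1) ^ 3 + 30 * ((n : ℂ) + 1) ^ 2 + 18 * ((n : ℂ) + 1) + 4) * HC_a (n + 1) +
      (64 * (n : ℂ) ^ 3 + 192 * (n : ℂ) ^ 2 + 192 * (n : ℂ) + 64) * HC_a n = 0 := by
  have h := Dn_rec n
  have h2 : ((n : ℂ) + 2) ^ 3 * (Dn (n + 2) : ℂ) -
      2 * (2 * (n : ℂ) + 3) * (5 * ((n : ℂ) + 1) * ((n : ℂ) + 2) + 2) * (Dn (n + 1) : ℂ) +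
      64 * ((n : ℂ) + 1) ^ 3 * (Dn n : ℂ) = 0 := by exact_mod_cast congrArg (fun x : ℝ => (x : ℂ)) h
  have h3 : ((-1 : ℂ) ^ n) * (((n : ℂ) + 2) ^ 3 * (Dn (n + 2) : ℂ) -
      2 * (2 * (n : ℂ) + 3) * (5 * ((n : ℂ) + 1) * ((n : ℂ) + 2) + 2) * (Dn (n + 1) : ℂ) +
      64 * ((n : ℂ) + 1) ^ 3 * (Dn n : ℂ)) = 0 := by rw [h2, mul_zero]
  unfold HC_a
  rw [← h3]
  ring

private lemma HC_main {T : ℂ} (hT : ‖T‖ < 1 / 16) :
    (1 + 20 * T + 64 * T ^ 2) * qd (qd (qd hC)) T + (30 * T + 192 * T ^ 2) * qd (qd hC) T +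
      (18 * T + 192 * T ^ 2) * qd hC T + (4 * T + 64 * T ^ 2) * hC T = 0 := by
  set a0 : ℕ → ℂ := HC_a with ha0
  set a1 : ℕ → ℂ := fun n => (n : ℂ) * a0 n with ha1
  set a2 : ℕ → ℂ := fun n => (n : ℂ) * a1 n with ha2
  set a3 : ℕ → ℂ := fun n => (n : ℂ) * a2 n with ha3
  have g0 : HC_good a0 := HC_a_good
  have g1 : HC_good a1 := HC_good_mul g0
  have g2 : HC_good a2 := HC_good_mul g1
  have g3 : HC_good a3 := HC_good_mul g2
  have e1 : ∀ S : ℂ, ‖S‖ < 1 / 16 → qd hC S = HC_P a1 S := fun S hS => by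
    rw [HC_hC]; exact HC_qd g0 hS
  have e2 : ∀ S : ℂ, ‖S‖ < 1 / 16 → qd (qd hC) S = HC_P a2 S := fun S hS => by
    rw [HC_qd_congr e1 hS]; exact HC_qd g1 hS
  have e3 : ∀ S : ℂ, ‖S‖ < 1 / 16 → qd (qd (qd hC)) S = HC_P a3 S := fun S hS => by
    rw [HC_qd_congr e2 hS]; exact HC_qd g2 hS
  rw [e3 T hT, e2 T hT, e1 T hT, HC_hC]
  -- the two combinations
  have gB : HC_good fun n => (20 * a3 n + 30 * a2 n) + (18 * a1 n + 4 * a0 n) :=
    HC_good_add (HC_good_add (HC_good_smul 20 g3) (HC_good_smul 30 g2))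
      (HC_good_add (HC_good_smul 18 g1) (HC_good_smul 4 g0))
  have gC : HC_good fun n => (64 * a3 n + 192 * a2 n) + (192 * a1 n + 64 * a0 n) :=
    HC_good_add (HC_good_add (HC_good_smul 64 g3) (HC_good_smul 192 g2))
      (HC_good_add (HC_good_smul 192 g1) (HC_good_smul 64 g0))
  have hB : HC_P (fun n => (20 * a3 n + 30 * a2 n) + (18 * a1 n + 4 * a0 n)) T =
      20 * HC_P a3 T + 30 * HC_P a2 T + 18 * HC_P a1 T + 4 * HC_P a0 T := by
    rw [HC_add (HC_good_add (HC_good_smul 20 g3) (HC_good_smul 30 g2))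
      (HC_good_add (HC_good_smul 18 g1) (HC_good_smul 4 g0)) hT,
      HC_add (HC_good_smul 20 g3) (HC_good_smul 30 g2) hT,
      HC_add (HC_good_smul 18 g1) (HC_good_smul 4 g0) hT, HC_smul, HC_smul, HC_smul, HC_smul]
    ring
  have hCc : HC_P (fun n => (64 * a3 n + 192 * a2 n) + (192 * a1 n + 64 * a0 n)) T =
      64 * HC_P a3 T + 192 * HC_P a2 T + 192 * HC_P a1 T + 64 * HC_P a0 T := by
    rw [HC_add (HC_good_add (HC_good_smul 64 g3) (HC_good_smul 192 g2))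
      (HC_good_add (HC_good_smul 192 g1) (HC_good_smul 64 g0)) hT,
      HC_add (HC_good_smul 64 g3) (HC_good_smul 192 g2) hT,
      HC_add (HC_good_smul 192 g1) (HC_good_smul 64 g0) hT, HC_smul, HC_smul, HC_smul, HC_smul]
    ring
  have s3 : HC_P a3 T = a3 0 + T * (a3 1 + T * HC_P (fun n => a3 (n + 1 + 1)) T) := by
    rw [HC_split g3 hT, HC_split (HC_good_shift g3) hT]
  have sB := HC_split gB hT
  rw [hB] at sB
  have key : (1 + 20 * T + 64 * T ^ 2) * HC_P a3 T + (30 * T + 192 * T ^ 2) * HC_P a2 T +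
      (18 * T + 192 * T ^ 2) * HC_P a1 T + (4 * T + 64 * T ^ 2) * HC_P a0 T =
      HC_P a3 T + T * (20 * HC_P a3 T + 30 * HC_P a2 T + 18 * HC_P a1 T + 4 * HC_P a0 T) +
      T ^ 2 * (64 * HC_P a3 T + 192 * HC_P a2 T + 192 * HC_P a1 T + 64 * HC_P a0 T) := by ring
  rw [key, sB, ← hCc, s3]
  have hz : HC_P (fun n => a3 (n + 1 + 1)) T +
      HC_P (fun n => (20 * a3 (n + 1) + 30 * a2 (n + 1)) + (18 * a1 (n + 1) + 4 * a0 (n + 1))) T +
      HC_P (fun n => (64 * a3 n + 192 * a2 n) + (192 * a1 n + 64 * a0 n)) T = 0 := by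
    rw [← HC_add (HC_good_shift (HC_good_shift g3)) (HC_good_shift gB) hT,
      ← HC_add (HC_good_add (HC_good_shift (HC_good_shift g3)) (HC_good_shift gB)) gC hT]
    unfold HC_P
    rw [← tsum_zero (α := ℂ) (β := ℕ)]
    refine tsum_congr fun n => ?_
    have h := HC_rec n
    have h4 : (a3 (n + 1 + 1) + ((20 * a3 (n + 1) + 30 * a2 (n + 1)) +
        (18 * a1 (n + 1) + 4 * a0 (n + 1)))) +
        ((64 * a3 n + 192 * a2 n) + (192 * a1 n + 64 * a0 n)) = 0 := by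
      simp only [ha3, ha2, ha1, ha0]
      rw [← h]
      push_cast
      ring
    beta_reduce
    rw [h4, zero_mul]
  have h0 : a3 0 = 0 := by simp [ha3]
  have h1 : a3 1 + ((20 * a3 0 + 30 * a2 0) + (18 * a1 0 + 4 * a0 0)) = 0 := by
    simp only [ha3, ha2, ha1, ha0, HC_a, Dn_zero, Dn_one]
    norm_num
  have fin : a3 0 + T * (a3 1 + T * HC_P (fun n => a3 (n + 1 + 1)) T) +
      T * (((20 * a3 0 + 30 * a2 0) + (18 * a1 0 + 4 * a0 0)) + T * HC_P (fun n =>
        (20 * a3 (n + 1) + 30 * a2 (n + 1)) + (18 * a1 (n + 1) + 4 * a0 (n + 1))) T) +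
      T ^ 2 * HC_P (fun n => (64 * a3 n + 192 * a2 n) + (192 * a1 n + 64 * a0 n)) T =
      a3 0 + T * (a3 1 + ((20 * a3 0 + 30 * a2 0) + (18 * a1 0 + 4 * a0 0))) +
      T ^ 2 * (HC_P (fun n => a3 (n + 1 + 1)) T +
      HC_P (fun n => (20 * a3 (n + 1) + 30 * a2 (n + 1)) + (18 * a1 (n + 1) + 4 * a0 (n + 1))) T +
      HC_P (fun n => (64 * a3 n + 192 * a2 n) + (192 * a1 n + 64 * a0 n)) T) := by ring
  rw [fin, hz, h1, h0]
  ring

theorem hC_ode : ∀ᶠ T in nhds (0 : ℂ),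
    (1 + 20 * T + 64 * T ^ 2) * qd (qd (qd hC)) T + (30 * T + 192 * T ^ 2) * qd (qd hC) T +
      (18 * T + 192 * T ^ 2) * qd hC T + (4 * T + 64 * T ^ 2) * hC T = 0 := by
  filter_upwards [Metric.ball_mem_nhds (0 : ℂ) (by norm_num : (0 : ℝ) < 1 / 16)] with T hT
  rw [mem_ball_zero_iff] at hT
  exact HC_main hT

theorem hC_diff : DifferentiableOn ℂ hC (Metric.ball 0 (1 / 16)) := by
  intro T hT
  rw [mem_ball_zero_iff] at hT
  rw [HC_hC]
  exact (HC_hasDeriv HC_a_good hT).differentiableAt.differentiableWithinAt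

theorem hC_zero : hC 0 = 1 := by
  have h := HC_split HC_a_good (T := 0) (by rw [norm_zero]; norm_num)
  rw [HC_hC, h, zero_mul, add_zero]
  simp [HC_a, Dn_zero]

end RV15W
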