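import Mathlib
import Pool.Agent.RV15W.Defs
import Pool.Agent.RV15W.Bas
import Pool.Agent.RV15W.Alg
import Pool.Agent.RV15W.QE

/-!
# RV15W/ZOde: `Z` satisfies the Domb differential equation in `T`, near `q = 0`

`dl f q = qd f q / (a(q) a(q²))` is `T d/dT`.  With `x = a(q)`, `z = a(q²)`, `p = PP(q²)` and `D = qd`:
`6 Dx = x p + 2x²z + xz² - 4z³`, `6 Dz = z p + z³ + x³ - 3xz²`, `6 Dp = p² - 5z⁴ - 2x³z + 6xz³`,
`Z = (4z²-x²)/3`, `DZ = Z (p + z² - 2xz)/3`, `T = (x²-z²)/(4(4z²-x²))`.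
Near `q = 0` the functions `x, z, Z` do not vanish. Compute `dl Z`, `dl (dl Z)`, `dl (dl (dl Z))` as explicit rational functions
(each equality holds on a neighbourhood, so it can be differentiated) and check the final identity by `field_simp; ring`.
-/

set_option autoImplicit false

namespace RV15W

noncomputable section

/-- `T d/dT` in the variable `q` -/
def dl (f : ℂ → ℂ) (q : ℂ) : ℂ := qd f q / (ca q * ca (q ^ 2))

end

/-- `f` has the logarithmic derivative value `v` at `q` -/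
private def HD (f : ℂ → ℂ) (v q : ℂ) : Prop := ∃ f' : ℂ, HasDerivAt f f' q ∧ q * f' = v

private theorem HD.qd {f : ℂ → ℂ} {v q : ℂ} (h : HD f v q) : qd f q = v := by
  obtain ⟨f', h1, h2⟩ := h
  unfold RV15W.qd
  rw [h1.deriv, h2]

private theorem HD.of_diff {f : ℂ → ℂ} {q : ℂ} (h : DifferentiableAt ℂ f q) :
    HD f (RV15W.qd f q) q := ⟨deriv f q, h.hasDerivAt, rfl⟩

private theorem HD.add {f g : ℂ → ℂ} {u v q : ℂ} (hf : HD f u q) (hg : HD g v q) :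
    HD (fun r => f r + g r) (u + v) q := by
  obtain ⟨f', h1, h2⟩ := hf
  obtain ⟨g', h3, h4⟩ := hg
  exact ⟨f' + g', h1.add h3, by rw [← h2, ← h4]; ring⟩

private theorem HD.sub {f g : ℂ → ℂ} {u v q : ℂ} (hf : HD f u q) (hg : HD g v q) :
    HD (fun r => f r - g r) (u - v) q := by
  obtain ⟨f', h1, h2⟩ := hf
  obtain ⟨g', h3, h4⟩ := hg
  exact ⟨f' - g', h1.sub h3, by rw [← h2, ← h4]; ring⟩

private theorem HD.mul {f g : ℂ → ℂ} {u v q : ℂ} (hf : HD f u q) (hg : HD g v q) :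
    HD (fun r => f r * g r) (u * g q + f q * v) q := by
  obtain ⟨f', h1, h2⟩ := hf
  obtain ⟨g', h3, h4⟩ := hg
  exact ⟨f' * g q + f q * g', h1.mul h3, by rw [← h2, ← h4]; ring⟩

private theorem HD.cmul {f : ℂ → ℂ} {u q : ℂ} (c : ℂ) (hf : HD f u q) :
    HD (fun r => c * f r) (c * u) q := by
  obtain ⟨f', h1, h2⟩ := hf
  exact ⟨c * f', h1.const_mul c, by rw [← h2]; ring⟩

private theorem HD.pow {f : ℂ → ℂ} {u q : ℂ} (hf : HD f u q) (n : ℕ) :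
    HD (fun r => f r ^ (n + 1)) ((n + 1) * f q ^ n * u) q := by
  obtain ⟨f', h1, h2⟩ := hf
  refine ⟨_, h1.pow (n + 1), ?_⟩
  rw [← h2]
  simp only [Nat.add_sub_cancel, Nat.cast_add, Nat.cast_one]
  ring

private theorem HD.div {f g : ℂ → ℂ} {u v q : ℂ} (hf : HD f u q) (hg : HD g v q)
    (h0 : g q ≠ 0) :
    HD (fun r => f r / g r) ((u * g q - f q * v) / g q ^ 2) q := by
  obtain ⟨f', h1, h2⟩ := hf
  obtain ⟨g', h3, h4⟩ := hg
  exact ⟨_, h1.div h3 h0, by rw [← h2, ← h4]; ring⟩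

private theorem HD.congr {f g : ℂ → ℂ} {u q : ℂ} (hf : HD f u q) (h : g =ᶠ[nhds q] f) :
    HD g u q := by
  obtain ⟨f', h1, h2⟩ := hf
  exact ⟨f', h1.congr_of_eventuallyEq h, h2⟩

private theorem sq_lt {q : ℂ} (hq : ‖q‖ < 1) : ‖q ^ 2‖ < 1 := by
  rw [norm_pow]
  exact pow_lt_one₀ (norm_nonneg _) hq two_ne_zero

private theorem hx {q : ℂ} (hq : ‖q‖ < 1) :
    HD ca ((ca q * PP (q ^ 2) + 2 * ca q ^ 2 * ca (q ^ 2) + ca q * ca (q ^ 2) ^ 2 -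
      4 * ca (q ^ 2) ^ 3) / 6) q := by
  have h := HD.of_diff (f := ca) (q := q)
    (ca_diff.differentiableAt (Metric.isOpen_ball.mem_nhds (by
      rw [Metric.mem_ball, dist_zero_right]; exact hq)))
  have h1 := dx hq
  have h2 := P2 hq
  have h3 : RV15W.qd ca q = (ca q * PP (q ^ 2) + 2 * ca q ^ 2 * ca (q ^ 2) +
      ca q * ca (q ^ 2) ^ 2 - 4 * ca (q ^ 2) ^ 3) / 6 := by
    linear_combination h1 / 12 - ca q * h2 / 12
  rw [h3] at h
  exact h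

private theorem hz {q : ℂ} (hq : ‖q‖ < 1) :
    HD (fun r => ca (r ^ 2)) ((ca (q ^ 2) * PP (q ^ 2) + ca (q ^ 2) ^ 3 + ca q ^ 3 -
      3 * ca q * ca (q ^ 2) ^ 2) / 6) q := by
  have hd : DifferentiableAt ℂ (fun r : ℂ => ca (r ^ 2)) q := by
    have h1 : DifferentiableAt ℂ ca (q ^ 2) :=
      ca_diff.differentiableAt (Metric.isOpen_ball.mem_nhds (by
        rw [Metric.mem_ball, dist_zero_right]; exact sq_lt hq))
    have h2 : DifferentiableAt ℂ (fun r : ℂ => r ^ 2) q := differentiableAt_pow 2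
    exact DifferentiableAt.comp (g := ca) (f := fun r : ℂ => r ^ 2) q h1 h2
  have h := HD.of_diff hd
  have h1 := dz hq
  have h3 : RV15W.qd (fun r => ca (r ^ 2)) q = (ca (q ^ 2) * PP (q ^ 2) + ca (q ^ 2) ^ 3 +
      ca q ^ 3 - 3 * ca q * ca (q ^ 2) ^ 2) / 6 := by
    linear_combination h1 / 12
  rw [h3] at h
  exact h

private theorem hp {q : ℂ} (hq : ‖q‖ < 1) :
    HD (fun r => PP (r ^ 2)) ((PP (q ^ 2) ^ 2 - 5 * ca (q ^ 2) ^ 4 -
      2 * ca q ^ 3 * ca (q ^ 2) + 6 * ca q * ca (q ^ 2) ^ 3) / 6) q := by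
  have hd : DifferentiableAt ℂ (fun r : ℂ => PP (r ^ 2)) q := by
    have h1 : DifferentiableAt ℂ PP (q ^ 2) :=
      PP_diff.differentiableAt (Metric.isOpen_ball.mem_nhds (by
        rw [Metric.mem_ball, dist_zero_right]; exact sq_lt hq))
    have h2 : DifferentiableAt ℂ (fun r : ℂ => r ^ 2) q := differentiableAt_pow 2
    exact DifferentiableAt.comp (g := PP) (f := fun r : ℂ => r ^ 2) q h1 h2
  have h := HD.of_diff hd
  have h1 := dP2 hq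
  have h3 : RV15W.qd (fun r => PP (r ^ 2)) q = (PP (q ^ 2) ^ 2 - 5 * ca (q ^ 2) ^ 4 -
      2 * ca q ^ 3 * ca (q ^ 2) + 6 * ca q * ca (q ^ 2) ^ 3) / 6 := by
    linear_combination h1 / 6
  rw [h3] at h
  exact h

/-- the good neighbourhood of `0` -/
private theorem good : ∀ᶠ q in nhds (0 : ℂ), ‖q‖ < 1 ∧ ca q ≠ 0 ∧ ca (q ^ 2) ≠ 0 := by
  have hc : ContinuousAt ca 0 :=
    (ca_diff.differentiableAt (Metric.isOpen_ball.mem_nhds (by simp))).continuousAt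
  have h1 : ∀ᶠ q in nhds (0 : ℂ), ‖q‖ < 1 := by
    filter_upwards [Metric.ball_mem_nhds (0 : ℂ) one_pos] with q hq
    rw [Metric.mem_ball, dist_zero_right] at hq
    exact hq
  have h2 : ∀ᶠ q in nhds (0 : ℂ), ca q ≠ 0 :=
    hc.eventually_ne (by rw [ca_zero]; exact one_ne_zero)
  have h3 : ∀ᶠ q in nhds (0 : ℂ), ca (q ^ 2) ≠ 0 := by
    have hs : Filter.Tendsto (fun q : ℂ => q ^ 2) (nhds 0) (nhds 0) := by
      have := (continuous_pow 2 (M := ℂ)).tendsto 0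
      simpa using this
    exact hs.eventually h2
  filter_upwards [h1, h2, h3] with q a b c
  exact ⟨a, b, c⟩

private noncomputable def R1 (x z p : ℂ) : ℂ :=
  (4 * z ^ 2 - x ^ 2) * (p + z ^ 2 - 2 * x * z) / (9 * (x * z))

private noncomputable def N2 (x z p : ℂ) : ℂ :=
  x * z * (p + z ^ 2 - 2 * x * z) ^ 2 -
    (p + z ^ 2 - 2 * x * z) * ((x ^ 2 - z ^ 2) * (x ^ 2 + 4 * z ^ 2)) -
    2 * (x * z) * ((x ^ 2 - z ^ 2) * (x ^ 2 + 2 * z ^ 2))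

private noncomputable def R2 (x z p : ℂ) : ℂ :=
  (4 * z ^ 2 - x ^ 2) * N2 x z p / (54 * (x * z) ^ 3)

private theorem step1 {q : ℂ} (hq : ‖q‖ < 1) (h1 : ca q ≠ 0) (h2 : ca (q ^ 2) ≠ 0) :
    dl ZZ q = R1 (ca q) (ca (q ^ 2)) (PP (q ^ 2)) := by
  have hd := (((hz hq).pow 1).cmul 4).sub ((hx hq).pow 1)
  have hd2 := hd.cmul (1 / 3)
  have h : HD ZZ _ q := hd2.congr (Filter.Eventually.of_forall fun r => by
    unfold ZZ
    ring)
  unfold dl R1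
  rw [h.qd]
  push_cast
  field_simp
  ring

private theorem hs {q : ℂ} (hq : ‖q‖ < 1) :
    HD (fun r => PP (r ^ 2) + ca (r ^ 2) ^ 2 - 2 * (ca r * ca (r ^ 2)))
      (((PP (q ^ 2) + ca (q ^ 2) ^ 2 - 2 * (ca q * ca (q ^ 2))) ^ 2 +
        2 * (ca (q ^ 2) ^ 2 - ca q ^ 2) * (2 * ca (q ^ 2) ^ 2 + ca q ^ 2)) / 6) q := by
  have h := ((hp hq).add ((hz hq).pow 1)).sub (((hx hq).mul (hz hq)).cmul 2)
  convert h using 1
  push_cast
  ring

private theorem hm {q : ℂ} (hq : ‖q‖ < 1) :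
    HD (fun r => 4 * ca (r ^ 2) ^ 2 - ca r ^ 2)
      ((4 * ca (q ^ 2) ^ 2 - ca q ^ 2) *
        (PP (q ^ 2) + ca (q ^ 2) ^ 2 - 2 * (ca q * ca (q ^ 2))) / 3) q := by
  have h := (((hz hq).pow 1).cmul 4).sub ((hx hq).pow 1)
  convert h using 1
  push_cast
  ring

private theorem hw {q : ℂ} (hq : ‖q‖ < 1) :
    HD (fun r => ca r * ca (r ^ 2))
      ((2 * (ca q * ca (q ^ 2)) * (PP (q ^ 2) + ca (q ^ 2) ^ 2 - 2 * (ca q * ca (q ^ 2))) +
        (ca q ^ 2 - ca (q ^ 2) ^ 2) * (ca q ^ 2 + 4 * ca (q ^ 2) ^ 2)) / 6) q := by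
  have h := (hx hq).mul (hz hq)
  convert h using 1
  ring

private theorem step2 {q : ℂ} (hq : ‖q‖ < 1) (h1 : ca q ≠ 0) (h2 : ca (q ^ 2) ≠ 0)
    (he : dl ZZ =ᶠ[nhds q] fun r => R1 (ca r) (ca (r ^ 2)) (PP (r ^ 2))) :
    dl (dl ZZ) q = R2 (ca q) (ca (q ^ 2)) (PP (q ^ 2)) := by
  have hd := (((hm hq).mul (hs hq)).div (hw hq) (mul_ne_zero h1 h2)).cmul (1 / 9)
  have h : HD (dl ZZ) _ q := hd.congr (he.trans (Filter.Eventually.of_forall fun r => by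
    simp only [R1]
    rw [mul_comm (9 : ℂ), ← div_div]
    ring))
  unfold dl at h ⊢
  rw [h.qd]
  unfold R2 N2
  field_simp
  ring

private theorem step3 {q : ℂ} (hq : ‖q‖ < 1) (h1 : ca q ≠ 0) (h2 : ca (q ^ 2) ≠ 0)
    (he : dl (dl ZZ) =ᶠ[nhds q] fun r => R2 (ca r) (ca (r ^ 2)) (PP (r ^ 2))) :
    (1 + 20 * TT q + 64 * TT q ^ 2) * dl (dl (dl ZZ)) q +
      (30 * TT q + 192 * TT q ^ 2) * R2 (ca q) (ca (q ^ 2)) (PP (q ^ 2)) +
      (18 * TT q + 192 * TT q ^ 2) * R1 (ca q) (ca (q ^ 2)) (PP (q ^ 2)) +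
      (4 * TT q + 64 * TT q ^ 2) * ZZ q = 0 := by
  have hxx := (hx hq).pow 1
  have hzz := (hz hq).pow 1
  have hA := hxx.sub hzz
  have hB := hxx.add (hzz.cmul 4)
  have hC := hxx.add (hzz.cmul 2)
  have hN := (((hw hq).mul ((hs hq).pow 1)).sub ((hs hq).mul (hA.mul hB))).sub
    ((hw hq).mul ((hA.mul hC).cmul 2))
  have hd := (((hm hq).mul hN).div ((hw hq).pow 2)
    (pow_ne_zero _ (mul_ne_zero h1 h2))).cmul (1 / 54)
  have h : HD (dl (dl ZZ)) _ q := hd.congr (he.trans (Filter.Eventually.of_forall fun r => by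
    simp only [R2, N2]
    rw [mul_comm (54 : ℂ), ← div_div]
    ring))
  have h3 : dl (dl (dl ZZ)) q = RV15W.qd (dl (dl ZZ)) q / (ca q * ca (q ^ 2)) := rfl
  rw [h3, h.qd]
  have hZ := ZZ_ne hq
  have hT := rel_T hq
  unfold ZZ at hZ ⊢
  have hm0 : 4 * ca (q ^ 2) ^ 2 - ca q ^ 2 ≠ 0 := by
    intro h0
    apply hZ
    rw [h0]
    simp
  have h40 : (4 : ℂ) ≠ 0 := by norm_num
  have hT2 : TT q = (ca q ^ 2 - ca (q ^ 2) ^ 2) / (4 * (4 * ca (q ^ 2) ^ 2 - ca q ^ 2)) := by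
    rw [eq_div_iff (mul_ne_zero h40 hm0)]
    exact hT
  clear hT hZ h3 h hd hN hC hB hA hxx hzz he h40
  unfold R1 R2 N2
  generalize TT q = t at *
  generalize ca (q ^ 2) = z at *
  generalize ca q = x at *
  generalize PP (q ^ 2) = p at *
  obtain ⟨m, hm⟩ : ∃ m : ℂ, m = 4 * z ^ 2 - x ^ 2 := ⟨_, rfl⟩
  rw [← hm] at hm0 hT2
  rw [hT2]
  push_cast
  field_simp
  rw [hm]
  ring

theorem Z_ode : ∀ᶠ q in nhds (0 : ℂ),
    (1 + 20 * TT q + 64 * TT q ^ 2) * dl (dl (dl ZZ)) q +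
      (30 * TT q + 192 * TT q ^ 2) * dl (dl ZZ) q +
      (18 * TT q + 192 * TT q ^ 2) * dl ZZ q + (4 * TT q + 64 * TT q ^ 2) * ZZ q = 0 := by
  have e1 : ∀ᶠ q in nhds (0 : ℂ),
      dl ZZ q = R1 (ca q) (ca (q ^ 2)) (PP (q ^ 2)) := by
    filter_upwards [good] with q ⟨a, b, c⟩
    exact step1 a b c
  have e2 : ∀ᶠ q in nhds (0 : ℂ),
      dl (dl ZZ) q = R2 (ca q) (ca (q ^ 2)) (PP (q ^ 2)) := by
    filter_upwards [good, eventually_eventually_nhds.2 e1] with q ⟨a, b, c⟩ h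
    exact step2 a b c h
  filter_upwards [good, e1, e2, eventually_eventually_nhds.2 e2] with q ⟨a, b, c⟩ h1 h2 h
  rw [h1, h2]
  exact step3 a b c h

end RV15W
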