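import Mathlib
import Pool.Agent.RV15W.Defs
import Pool.Agent.RV15W.Bas
import Pool.Agent.RV15W.Alg
import Pool.Agent.RV15W.Re
import Pool.Agent.RV15W.ZOde
import Pool.Agent.RV15W.HC
import Pool.Agent.RV15W.Uniq

/-!
# RV15W/ZD: `Σ (-1)^n D(n) T(q)^n = Z(q)` near `q = 0`

* Chain rule: near `0`, `dl (f ∘ TT) = (qd f) ∘ TT` for `f` differentiable near `0` (`dT`, `TT` analytic, `TT 0 = 0`), so
  `hC ∘ TT` satisfies the equation of `Z_ode` (by `hC_ode`).
* `y = ZZ - hC ∘ TT`, `y(0) = 0`, satisfies the same linear equation; divide by `1 + 20T + 64T²` and use `uniq` with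
  `g = 1/(a(q) a(q²))`, `D = dl`.
-/

set_option autoImplicit false

open Filter

namespace RV15W

private theorem ZD_congr {f g : ℂ → ℂ} (h : f =ᶠ[nhds 0] g) : dl f =ᶠ[nhds 0] dl g := by
  filter_upwards [h.deriv] with q hq
  unfold dl qd
  rw [hq]

private theorem ZD_TTan : AnalyticAt ℂ TT 0 :=
  TT_diff.analyticAt (Metric.ball_mem_nhds _ one_pos)

private theorem ZD_TTlim : Tendsto TT (nhds 0) (nhds 0) := by
  have h := ZD_TTan.continuousAt.tendsto
  rwa [TT_zero] at h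

private theorem ZD_caan : AnalyticAt ℂ ca 0 :=
  ca_diff.analyticAt (Metric.ball_mem_nhds _ one_pos)

private theorem ZD_ca2an : AnalyticAt ℂ (fun q => ca (q ^ 2)) 0 := by
  have h : AnalyticAt ℂ (fun q : ℂ => q ^ 2) 0 := analyticAt_id.pow 2
  have h2 : AnalyticAt ℂ ca ((fun q : ℂ => q ^ 2) 0) := by
    simpa using ZD_caan
  exact AnalyticAt.fun_comp h2 h

private theorem ZD_ne : ∀ᶠ q in nhds (0 : ℂ), ca q * ca (q ^ 2) ≠ 0 := by
  have h := (ZD_caan.mul ZD_ca2an).continuousAt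
  refine h.eventually_ne ?_
  simp [ca_zero]

private theorem ZD_chain {f : ℂ → ℂ} (hf : AnalyticAt ℂ f 0) :
    dl (f ∘ TT) =ᶠ[nhds 0] (qd f) ∘ TT := by
  have h1 := ZD_TTlim.eventually hf.eventually_analyticAt
  filter_upwards [h1, ZD_ne, Metric.ball_mem_nhds (0 : ℂ) one_pos] with q hq hne hb
  have hT : DifferentiableAt ℂ TT q := TT_diff.differentiableAt (Metric.isOpen_ball.mem_nhds hb)
  have hd : deriv (f ∘ TT) q = deriv f (TT q) * deriv TT q :=
    deriv_comp q hq.differentiableAt hT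
  have hqn : ‖q‖ < 1 := by simpa using hb
  have h2 := dT hqn
  show qd (f ∘ TT) q / (ca q * ca (q ^ 2)) = qd f (TT q)
  rw [div_eq_iff hne]
  unfold qd at h2 ⊢
  rw [hd]
  calc q * (deriv f (TT q) * deriv TT q) = deriv f (TT q) * (q * deriv TT q) := by ring
    _ = _ := by rw [h2]; ring

private theorem ZD_qdan {f : ℂ → ℂ} (hf : AnalyticAt ℂ f 0) : AnalyticAt ℂ (qd f) 0 :=
  analyticAt_id.mul hf.deriv

private theorem ZD_gan : AnalyticAt ℂ (fun q => (ca q * ca (q ^ 2))⁻¹) 0 :=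
  (ZD_caan.mul ZD_ca2an).inv (by simp [ca_zero])

private theorem ZD_dlan {f : ℂ → ℂ} (hf : AnalyticAt ℂ f 0) : AnalyticAt ℂ (dl f) 0 := by
  have h := (ZD_qdan hf).mul ZD_gan
  exact h

private theorem ZD_sub {f g : ℂ → ℂ} (hf : AnalyticAt ℂ f 0) (hg : AnalyticAt ℂ g 0) :
    dl (f - g) =ᶠ[nhds 0] dl f - dl g := by
  filter_upwards [hf.eventually_analyticAt, hg.eventually_analyticAt] with q h1 h2
  show qd (f - g) q / (ca q * ca (q ^ 2)) = qd f q / (ca q * ca (q ^ 2)) -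
    qd g q / (ca q * ca (q ^ 2))
  unfold qd
  rw [deriv_sub h1.differentiableAt h2.differentiableAt]
  ring

theorem ZD : ∀ᶠ q in nhds (0 : ℂ), hC (TT q) = ZZ q := by
  have hCan : AnalyticAt ℂ hC 0 :=
    hC_diff.analyticAt (Metric.ball_mem_nhds _ (by norm_num))
  have hZan : AnalyticAt ℂ ZZ 0 := ZZ_diff.analyticAt (Metric.ball_mem_nhds _ one_pos)
  have hHan : AnalyticAt ℂ (hC ∘ TT) 0 := by
    have h2 : AnalyticAt ℂ hC (TT 0) := by rw [TT_zero]; exact hCan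
    exact h2.comp ZD_TTan
  -- the equation of `hC ∘ TT`
  have e1 : dl (hC ∘ TT) =ᶠ[nhds 0] (qd hC) ∘ TT := ZD_chain hCan
  have e2 : dl (dl (hC ∘ TT)) =ᶠ[nhds 0] (qd (qd hC)) ∘ TT :=
    (ZD_congr e1).trans (ZD_chain (ZD_qdan hCan))
  have e3 : dl (dl (dl (hC ∘ TT))) =ᶠ[nhds 0] (qd (qd (qd hC))) ∘ TT :=
    (ZD_congr e2).trans (ZD_chain (ZD_qdan (ZD_qdan hCan)))
  have hode := ZD_TTlim.eventually hC_ode
  -- differences
  have d1 : dl (ZZ - hC ∘ TT) =ᶠ[nhds 0] dl ZZ - dl (hC ∘ TT) := ZD_sub hZan hHan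
  have d2 : dl (dl (ZZ - hC ∘ TT)) =ᶠ[nhds 0] dl (dl ZZ) - dl (dl (hC ∘ TT)) :=
    (ZD_congr d1).trans (ZD_sub (ZD_dlan hZan) (ZD_dlan hHan))
  have d3 : dl (dl (dl (ZZ - hC ∘ TT))) =ᶠ[nhds 0]
      dl (dl (dl ZZ)) - dl (dl (dl (hC ∘ TT))) :=
    (ZD_congr d2).trans (ZD_sub (ZD_dlan (ZD_dlan hZan)) (ZD_dlan (ZD_dlan hHan)))
  have hcont : Tendsto (fun q => 1 + 20 * TT q + 64 * TT q ^ 2) (nhds 0) (nhds 1) := by
    have h := (tendsto_const_nhds (x := (1 : ℂ))).add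
      ((ZD_TTlim.const_mul 20).add ((ZD_TTlim.pow 2).const_mul 64))
    simpa [add_assoc] using h
  have hne : ∀ᶠ q in nhds (0 : ℂ), 1 + 20 * TT q + 64 * TT q ^ 2 ≠ 0 :=
    hcont.eventually_ne one_ne_zero
  have lim : ∀ a b : ℂ, Tendsto (fun q => -((a * TT q + b * TT q ^ 2) /
      (1 + 20 * TT q + 64 * TT q ^ 2))) (nhdsWithin 0 {0}ᶜ) (nhds 0) := by
    intro a b
    have h1 : Tendsto (fun q => a * TT q + b * TT q ^ 2) (nhds 0) (nhds 0) := by
      have h := (ZD_TTlim.const_mul a).add ((ZD_TTlim.pow 2).const_mul b)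
      simpa using h
    have h2 := (h1.div hcont one_ne_zero).neg
    simp only [zero_div, neg_zero] at h2
    exact h2.mono_left nhdsWithin_le_nhds
  have hfin := uniq (g := fun q => (ca q * ca (q ^ 2))⁻¹) (y := ZZ - hC ∘ TT)
    (A2 := fun q => -((30 * TT q + 192 * TT q ^ 2) / (1 + 20 * TT q + 64 * TT q ^ 2)))
    (A1 := fun q => -((18 * TT q + 192 * TT q ^ 2) / (1 + 20 * TT q + 64 * TT q ^ 2)))
    (A0 := fun q => -((4 * TT q + 64 * TT q ^ 2) / (1 + 20 * TT q + 64 * TT q ^ 2)))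
    ZD_gan (by simp [ca_zero]) (hZan.sub hHan)
    (by
      show ZZ 0 - hC (TT 0) = 0
      rw [TT_zero, hC_zero]
      unfold ZZ
      simp [ca_zero]
      norm_num)
    (lim 30 192) (lim 18 192) (lim 4 64) dl
    (by
      intro f q
      unfold dl qd
      rw [div_eq_mul_inv, mul_comm])
    (by
      refine nhdsWithin_le_nhds ?_
      filter_upwards [Z_ode, hode, hne, e1, e2, e3, d1, d2, d3] with q hz hh hn a1 a2 a3 b1 b2 b3
      rw [b1, b2, b3]
      simp only [Pi.sub_apply, Function.comp_apply] at a1 a2 a3 ⊢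
      rw [a1, a2, a3]
      set w := 1 + 20 * TT q + 64 * TT q ^ 2 with hw
      have k : ∀ x y : ℂ, w * (-(x / w) * y) = -(x * y) := by
        intro x y
        field_simp
      refine mul_left_cancel₀ hn ?_
      rw [mul_add, mul_add, k, k, k]
      linear_combination hz - hh)
  filter_upwards [hfin] with q hq
  have h : ZZ q - hC (TT q) = 0 := hq
  exact (sub_eq_zero.1 h).symm

end RV15W
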