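import Mathlib
import Pool.Agent.RV15W.Defs
import Pool.Agent.RV15W.Bas
import Pool.Agent.RV15W.Alg
import Pool.Agent.RV15W.Re
import Pool.Agent.RV15W.ZD

/-!
# RV15W/LawA: the Stieltjes transform of the law of the walk

* `stdiff`: for `w` with `-w ∈ slitPlane` the function `w ↦ ∫ 1/(x - w) dν(x)` is complex differentiable (`ν` is a
  probability measure carried by `[0,16]`; `hasDerivAt_integral_of_dominated_loc_of_deriv_le`; the distance from `w` to
  `[0,16]` is positive near `w`).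
* `law1`: for small `q > 0`, `∫ 1/(1 + T x) dν = Σ (-T)^n D(n) = hC(T) = Z` (`T < 1/16`, geometric series, `ν` on `[0,16]`; `ZD`).
  Both sides are real analytic in `q ∈ (0,1)` (`∫ 1/(1+Tx) dν = (1/T) ∫ 1/(x-w) dν` at `w = -1/T`, `stdiff`, composed with the
  real analytic `T(q) > 0`), so the identity holds on `(0,1)` (`AnalyticOnNhd.eqOn_of_preconnected_of_eventuallyEq`).
-/

set_option autoImplicit false

open MeasureTheory Set

namespace RV15W

private theorem lawA_ae {ν : Measure ℝ} (h : IsWalk ν) : ∀ᵐ x ∂ν, x ∈ Icc (0:ℝ) 16 := by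
  have h2 := h.2.1
  rw [ae_iff]
  exact h2

private theorem lawA_far {w : ℂ} (hw : -w ∈ Complex.slitPlane) :
    ∃ r : ℝ, 0 < r ∧ ∀ v ∈ Metric.ball w r, ∀ x : ℝ, 0 ≤ x → r ≤ ‖(x : ℂ) - v‖ := by
  have hop : IsOpen {v : ℂ | -v ∈ Complex.slitPlane} :=
    Complex.isOpen_slitPlane.preimage continuous_neg
  obtain ⟨s, hs, hb⟩ := Metric.isOpen_iff.1 hop w hw
  refine ⟨s / 2, by positivity, fun v hv x hx => ?_⟩
  by_contra hlt
  push Not at hlt
  have hx1 : (x : ℂ) ∈ Metric.ball w s := by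
    rw [Metric.mem_ball, Complex.dist_eq]
    rw [Metric.mem_ball, Complex.dist_eq] at hv
    calc ‖(x : ℂ) - w‖ = ‖((x : ℂ) - v) + (v - w)‖ := by ring_nf
      _ ≤ ‖(x : ℂ) - v‖ + ‖v - w‖ := norm_add_le _ _
      _ < s / 2 + s / 2 := by linarith
      _ = s := by ring
  have hx2 : -(x : ℂ) ∈ Complex.slitPlane := hb hx1
  rw [Complex.mem_slitPlane_iff] at hx2
  simp at hx2
  linarith

theorem stdiff {ν : Measure ℝ} (h : IsWalk ν) {w : ℂ} (hw : -w ∈ Complex.slitPlane) :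
    HasDerivAt (fun w : ℂ => ∫ x, 1 / ((x : ℂ) - w) ∂ν) (∫ x, 1 / ((x : ℂ) - w) ^ 2 ∂ν) w := by
  have := h.1
  obtain ⟨r, hr, hfar⟩ := lawA_far hw
  have hae := lawA_ae h
  have key := hasDerivAt_integral_of_dominated_loc_of_deriv_le
    (μ := ν) (F := fun (v : ℂ) (x : ℝ) => 1 / ((x : ℂ) - v))
    (F' := fun (v : ℂ) (x : ℝ) => 1 / ((x : ℂ) - v) ^ 2) (x₀ := w)
    (bound := fun _ => 1 / r ^ 2) (s := Metric.ball w r) (Metric.ball_mem_nhds w hr)
    (Filter.Eventually.of_forall fun v => by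
      have : Measurable fun x : ℝ => 1 / ((x : ℂ) - v) := by fun_prop
      exact this.aestronglyMeasurable)
    (by
      have hm : Measurable fun x : ℝ => 1 / ((x : ℂ) - w) := by fun_prop
      refine Integrable.of_bound hm.aestronglyMeasurable (1 / r) ?_
      filter_upwards [hae] with x hx
      rw [norm_div, norm_one]
      exact one_div_le_one_div_of_le hr (hfar w (Metric.mem_ball_self hr) x hx.1))
    (by
      have hm : Measurable fun x : ℝ => 1 / ((x : ℂ) - w) ^ 2 := by fun_prop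
      exact hm.aestronglyMeasurable)
    (by
      filter_upwards [hae] with x hx v hv
      rw [norm_div, norm_one, norm_pow]
      exact one_div_le_one_div_of_le (by positivity)
        (pow_le_pow_left₀ hr.le (hfar v hv x hx.1) 2))
    (integrable_const _)
    (by
      filter_upwards [hae] with x hx v hv
      have hne : (x : ℂ) - v ≠ 0 := by
        intro h0
        have := hfar v hv x hx.1
        rw [h0, norm_zero] at this
        linarith
      have hd : HasDerivAt (fun v : ℂ => (x : ℂ) - v) (-1) v := by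
        simpa using (hasDerivAt_id v).const_sub (x : ℂ)
      have := hd.fun_inv hne
      simpa [one_div] using this)
  exact key.2

private theorem lawA_series {ν : Measure ℝ} (h : IsWalk ν) {T : ℝ} (h0 : 0 ≤ T) (h1 : T ≤ 1 / 32) :
    ((∫ x, 1 / (1 + T * x) ∂ν : ℝ) : ℂ) = hC (T : ℂ) := by
  have := h.1
  have hae := lawA_ae h
  have hint : ∀ n : ℕ, Integrable (fun x : ℝ => (-(T * x)) ^ n) ν := by
    intro n
    have hm : Measurable fun x : ℝ => (-(T * x)) ^ n := by fun_prop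
    refine Integrable.of_bound hm.aestronglyMeasurable ((1 / 2) ^ n) ?_
    filter_upwards [hae] with x hx
    rw [norm_pow, norm_neg, Real.norm_eq_abs, abs_of_nonneg (mul_nonneg h0 hx.1)]
    refine pow_le_pow_left₀ (mul_nonneg h0 hx.1) ?_ n
    nlinarith [hx.1, hx.2]
  have hsum : Summable fun n : ℕ => ∫ x, ‖(-(T * x)) ^ n‖ ∂ν := by
    refine Summable.of_nonneg_of_le (fun n => integral_nonneg fun x => norm_nonneg _) ?_
      (summable_geometric_of_lt_one (by norm_num : (0:ℝ) ≤ 1 / 2) (by norm_num))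
    intro n
    have hle : ∀ᵐ x ∂ν, ‖(-(T * x)) ^ n‖ ≤ (1 / 2) ^ n := by
      filter_upwards [hae] with x hx
      rw [norm_pow, norm_neg, Real.norm_eq_abs, abs_of_nonneg (mul_nonneg h0 hx.1)]
      refine pow_le_pow_left₀ (mul_nonneg h0 hx.1) ?_ n
      nlinarith [hx.1, hx.2]
    calc ∫ x, ‖(-(T * x)) ^ n‖ ∂ν ≤ ∫ _x, ((1 / 2 : ℝ)) ^ n ∂ν :=
          integral_mono_ae (hint n).norm (integrable_const _) hle
      _ = (1 / 2) ^ n := by simp
  have hS := hasSum_integral_of_summable_integral_norm hint hsum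
  have e1 : ∀ n : ℕ, ∫ x, (-(T * x)) ^ n ∂ν = (-1) ^ n * (Dn n : ℝ) * T ^ n := by
    intro n
    have : (fun x : ℝ => (-(T * x)) ^ n) = fun x => ((-1) ^ n * T ^ n) * x ^ n := by
      funext x
      rw [neg_pow, mul_pow]
      ring
    rw [this, integral_const_mul, h.2.2 n]
    ring
  have e2 : ∫ x, (∑' n : ℕ, (-(T * x)) ^ n) ∂ν = ∫ x, 1 / (1 + T * x) ∂ν := by
    apply integral_congr_ae
    filter_upwards [hae] with x hx
    rw [tsum_geometric_of_abs_lt_one]
    · rw [one_div, sub_neg_eq_add]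
    · rw [abs_neg, abs_of_nonneg (mul_nonneg h0 hx.1)]
      nlinarith [hx.1, hx.2]
  rw [e2] at hS
  have hS2 : HasSum (fun n : ℕ => (-1) ^ n * (Dn n : ℝ) * T ^ n) (∫ x, 1 / (1 + T * x) ∂ν) := by
    simpa only [e1] using hS
  rw [hC, ← hS2.tsum_eq, Complex.ofReal_tsum]
  congr 1
  funext n
  push_cast
  ring

private theorem lawA_cplx {ν : Measure ℝ} (h : IsWalk ν) {q : ℝ} (h0 : 0 < q) (h1 : q < 1) :
    ((∫ x, 1 / (1 + rT q * x) ∂ν : ℝ) : ℂ) =
      1 / TT (q : ℂ) * ∫ x, 1 / ((x : ℂ) - (-1 / TT (q : ℂ))) ∂ν := by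
  have hT := rT_pos h0 h1
  have hq : |q| < 1 := by rw [abs_of_pos h0]; exact h1
  rw [TT_ofReal hq, ← integral_const_mul, ← integral_complex_ofReal]
  apply integral_congr_ae
  filter_upwards [lawA_ae h] with x hx
  have hne : (1 + rT q * x : ℂ) ≠ 0 := by
    have : (0:ℝ) < 1 + rT q * x := by nlinarith [hx.1, mul_nonneg hT.le hx.1]
    exact_mod_cast this.ne'
  have hTne : (rT q : ℂ) ≠ 0 := by exact_mod_cast hT.ne'
  push_cast
  have e : ((x : ℂ) - (-1 / (rT q : ℂ))) = (1 + rT q * x) / rT q := by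
    field_simp
    ring
  rw [e]
  field_simp

theorem law1 {ν : Measure ℝ} (h : IsWalk ν) {q : ℝ} (h0 : 0 < q) (h1 : q < 1) :
    ∫ x, 1 / (1 + rT q * x) ∂ν = rZ q := by
  have hop : IsOpen {v : ℂ | -v ∈ Complex.slitPlane} :=
    Complex.isOpen_slitPlane.preimage continuous_neg
  set Φ : ℂ → ℂ := fun w => ∫ x, 1 / ((x : ℂ) - w) ∂ν with hΦ
  have hΦd : DifferentiableOn ℂ Φ {v : ℂ | -v ∈ Complex.slitPlane} := fun w hw =>
    (stdiff h hw).differentiableAt.differentiableWithinAt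
  have hof : ∀ p : ℝ, AnalyticAt ℝ (fun t : ℝ => (t : ℂ)) p := fun p =>
    Complex.ofRealCLM.analyticAt p
  have hball : ∀ p : ℝ, 0 < p → p < 1 → (p : ℂ) ∈ Metric.ball (0:ℂ) 1 := by
    intro p hp0 hp1
    rw [mem_ball_zero_iff, Complex.norm_real, Real.norm_eq_abs, abs_of_pos hp0]
    exact hp1
  have hTan : ∀ p : ℝ, 0 < p → p < 1 → AnalyticAt ℝ (fun t : ℝ => TT (t : ℂ)) p := by
    intro p hp0 hp1
    have h2 : AnalyticAt ℂ TT (p : ℂ) :=
      TT_diff.analyticAt (Metric.isOpen_ball.mem_nhds (hball p hp0 hp1))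
    exact (h2.restrictScalars (𝕜 := ℝ)).fun_comp_of_eq (hof p) rfl
  have hZan : ∀ p : ℝ, 0 < p → p < 1 → AnalyticAt ℝ (fun t : ℝ => ZZ (t : ℂ)) p := by
    intro p hp0 hp1
    have h2 : AnalyticAt ℂ ZZ (p : ℂ) :=
      ZZ_diff.analyticAt (Metric.isOpen_ball.mem_nhds (hball p hp0 hp1))
    exact (h2.restrictScalars (𝕜 := ℝ)).fun_comp_of_eq (hof p) rfl
  have hTpos : ∀ p : ℝ, 0 < p → p < 1 → TT (p : ℂ) = (rT p : ℂ) ∧ 0 < rT p := by
    intro p hp0 hp1
    exact ⟨TT_ofReal (by rw [abs_of_pos hp0]; exact hp1), rT_pos hp0 hp1⟩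
  have hf : AnalyticOnNhd ℝ (fun t : ℝ => 1 / TT (t : ℂ) * Φ (-1 / TT (t : ℂ))) (Ioo 0 1) := by
    intro p hp
    obtain ⟨hTe, hTp⟩ := hTpos p hp.1 hp.2
    have hne : TT (p : ℂ) ≠ 0 := by
      rw [hTe]
      exact_mod_cast hTp.ne'
    have hinv : AnalyticAt ℝ (fun t : ℝ => 1 / TT (t : ℂ)) p :=
      analyticAt_const.fun_div (hTan p hp.1 hp.2) hne
    have hninv : AnalyticAt ℝ (fun t : ℝ => -1 / TT (t : ℂ)) p :=
      analyticAt_const.fun_div (hTan p hp.1 hp.2) hne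
    have hmem : -(-1 / TT (p : ℂ)) ∈ Complex.slitPlane := by
      rw [hTe]
      have : -(-1 / (rT p : ℂ)) = ((1 / rT p : ℝ) : ℂ) := by
        push_cast
        ring
      rw [this, Complex.ofReal_mem_slitPlane]
      positivity
    have hΦa : AnalyticAt ℂ Φ (-1 / TT (p : ℂ)) :=
      hΦd.analyticAt (hop.mem_nhds hmem)
    exact hinv.fun_mul ((hΦa.restrictScalars (𝕜 := ℝ)).fun_comp_of_eq hninv rfl)
  have hg : AnalyticOnNhd ℝ (fun t : ℝ => ZZ (t : ℂ)) (Ioo 0 1) := fun p hp =>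
    hZan p hp.1 hp.2
  -- near zero
  have hz : ∀ᶠ t : ℝ in nhds (0:ℝ), hC (TT (t : ℂ)) = ZZ (t : ℂ) := by
    have hc : Filter.Tendsto (fun t : ℝ => (t : ℂ)) (nhds 0) (nhds (0:ℂ)) := by
      have := (Complex.continuous_ofReal.tendsto (0:ℝ))
      simpa using this
    exact hc.eventually ZD
  have hT0 : rT 0 = 0 := by simp [rT]
  have hsm : ∀ᶠ t : ℝ in nhds (0:ℝ), rT t < 1 / 32 := by
    have := rT_cont
    rw [ContinuousAt, hT0] at this
    exact this.eventually (gt_mem_nhds (by norm_num))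
  obtain ⟨d, hd, hdb⟩ := Metric.eventually_nhds_iff.1 (hz.and hsm)
  have hev : ∀ t : ℝ, 0 < t → t < min d 1 →
      1 / TT (t : ℂ) * Φ (-1 / TT (t : ℂ)) = ZZ (t : ℂ) := by
    intro t ht0 ht1
    have htd : t < d := lt_of_lt_of_le ht1 (min_le_left _ _)
    have ht1' : t < 1 := lt_of_lt_of_le ht1 (min_le_right _ _)
    obtain ⟨e1, e2⟩ := hdb (y := t) (by rw [Real.dist_eq, sub_zero, abs_of_pos ht0]; exact htd)
    obtain ⟨hTe, hTp⟩ := hTpos t ht0 ht1'
    rw [← lawA_cplx h ht0 ht1', lawA_series h hTp.le e2.le, ← e1, hTe]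
  have hz0 : (min d 1) / 2 ∈ Ioo (0:ℝ) 1 := by
    have h3 : 0 < min d 1 := lt_min hd one_pos
    constructor
    · positivity
    · have := min_le_right d 1
      linarith
  have heq := hf.eqOn_of_preconnected_of_eventuallyEq hg isPreconnected_Ioo hz0 (by
    have h3 : 0 < min d 1 := lt_min hd one_pos
    have hnb : Ioo (0:ℝ) (min d 1) ∈ nhds ((min d 1) / 2) :=
      Ioo_mem_nhds (by positivity) (by linarith)
    filter_upwards [hnb] with t ht
    exact hev t ht.1 ht.2)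
  have hfin := heq ⟨h0, h1⟩
  simp only at hfin
  have hq : |q| < 1 := by rw [abs_of_pos h0]; exact h1
  have : ((∫ x, 1 / (1 + rT q * x) ∂ν : ℝ) : ℂ) = (rZ q : ℂ) := by
    rw [lawA_cplx h h0 h1, ← ZZ_ofReal hq]
    exact hfin
  exact_mod_cast this

end RV15W
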