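import Mathlib
import Pool.Agent.RV15W.Defs
import Pool.Agent.RV15W.Bas
import Pool.Agent.RV15W.Alg
import Pool.Agent.RV15W.Re
import Pool.Agent.RV15W.LawA
import Pool.Agent.RV15W.Fri

/-!
# RV15W/Law: the Fricke involution

* `law2`: replace `y` by `1/(6y)` in `law1`: by `ra_fricke` `a1(1/(6y)) = 2√3 y a2(y)` (`a1(1/(6y)) = ra (nm (1/(3·(2y))))`,
  `a2(y) = ra (nm y ^ 2) = ra (nm (2y))`), `a2(1/(6y)) = √3 y a1(y)`, so
  `Z(1/(6y)) = 4y²(a1²-a2²) = 48 y² Z T` (`rZT`) and `T(1/(6y)) = 1/(64 T(y))` (`rZT` at both points).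
* `law0`: `64T · ∫ 1/(64T+x) dν = 48 y² Z T → 0` as `y → ∞`, and the left side is `≥ ν{0}`.
-/

set_option autoImplicit false

open MeasureTheory Set

namespace RV15W

private theorem nm_pos (y : ℝ) : 0 < nm y := Real.exp_pos _

private theorem nm_lt_one {y : ℝ} (hy : 0 < y) : nm y < 1 := by
  unfold nm
  rw [Real.exp_lt_one_iff]
  have := Real.pi_pos
  have : 0 < 2 * Real.pi * y := by positivity
  linarith

private theorem nm_abs {y : ℝ} (hy : 0 < y) : |nm y| < 1 := by
  rw [abs_of_pos (nm_pos y)]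
  exact nm_lt_one hy

private theorem nm_sq (y : ℝ) : nm y ^ 2 = nm (2 * y) := by
  unfold nm
  rw [← Real.exp_nat_mul]
  congr 1
  push_cast
  ring

private theorem law_aux {y : ℝ} (hy : 0 < y) :
    rZ (nm (1 / (6 * y))) = 48 * y ^ 2 * rZ (nm y) * rT (nm y) ∧
      64 * rT (nm y) * rT (nm (1 / (6 * y))) = 1 := by
  have hy' : 0 < 1 / (6 * y) := by positivity
  have h1 : ra (nm (1 / (6 * y))) = Real.sqrt 3 * (2 * y) * ra (nm y ^ 2) := by
    rw [nm_sq]
    have := ra_fricke (2 * y) (by positivity)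
    rw [← this]
    congr 2
    ring
  have h2 : ra (nm (1 / (6 * y)) ^ 2) = Real.sqrt 3 * y * ra (nm y) := by
    rw [nm_sq]
    have := ra_fricke y hy
    rw [← this]
    congr 2
    field_simp
    norm_num
  have hs : Real.sqrt 3 ^ 2 = 3 := Real.sq_sqrt (by norm_num)
  have hZ := rZT (nm_abs hy)
  have hZ' := rZT (nm_abs hy')
  have e1 : rZ (nm (1 / (6 * y))) = 48 * y ^ 2 * rZ (nm y) * rT (nm y) := by
    have : rZ (nm (1 / (6 * y))) =
        (4 * ra (nm (1 / (6 * y)) ^ 2) ^ 2 - ra (nm (1 / (6 * y))) ^ 2) / 3 := rfl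
    rw [this, h1, h2]
    have : 48 * y ^ 2 * rZ (nm y) * rT (nm y) = 4 * y ^ 2 * (12 * rZ (nm y) * rT (nm y)) := by
      ring
    rw [this, hZ]
    ring_nf
    rw [hs]
    ring
  refine ⟨e1, ?_⟩
  have hzp := rZ_pos (nm_abs hy)
  have e2 : 12 * rZ (nm (1 / (6 * y))) * rT (nm (1 / (6 * y))) = 9 * y ^ 2 * rZ (nm y) := by
    rw [hZ', h1, h2]
    have : rZ (nm y) = (4 * ra (nm y ^ 2) ^ 2 - ra (nm y) ^ 2) / 3 := rfl
    rw [this]
    ring_nf
    rw [hs]
    ring
  rw [e1] at e2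
  have hne : 9 * y ^ 2 * rZ (nm y) ≠ 0 := by positivity
  have : 9 * y ^ 2 * rZ (nm y) * (64 * rT (nm y) * rT (nm (1 / (6 * y)))) =
      9 * y ^ 2 * rZ (nm y) * 1 := by
    rw [mul_one]
    linear_combination e2
  exact mul_left_cancel₀ hne this

theorem law2 {ν : Measure ℝ} (h : IsWalk ν) {y : ℝ} (hy : 0 < y) :
    ∫ x, 1 / (64 * rT (nm y) + x) ∂ν = 3 / 4 * y ^ 2 * rZ (nm y) := by
  have hy' : 0 < 1 / (6 * y) := by positivity
  obtain ⟨e1, e2⟩ := law_aux hy
  have hT : 0 < rT (nm y) := rT_pos (nm_pos y) (nm_lt_one hy)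
  have h1 := law1 h (nm_pos (1 / (6 * y))) (nm_lt_one hy')
  have hT' : rT (nm (1 / (6 * y))) = 1 / (64 * rT (nm y)) := by
    field_simp
    linarith
  rw [e1, hT'] at h1
  have h3 : ∀ x : ℝ, 1 / (1 + 1 / (64 * rT (nm y)) * x) =
      (64 * rT (nm y)) * (1 / (64 * rT (nm y) + x)) := by
    intro x
    have hne : (64 * rT (nm y)) ≠ 0 := by positivity
    have : 1 + 1 / (64 * rT (nm y)) * x = (64 * rT (nm y) + x) / (64 * rT (nm y)) := by
      field_simp
    rw [this, one_div_div]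
    ring
  simp_rw [h3] at h1
  rw [integral_const_mul] at h1
  have hne : (64 * rT (nm y)) ≠ 0 := by positivity
  apply mul_left_cancel₀ hne
  rw [h1]
  ring

private theorem law0_bound {ν : Measure ℝ} (h : IsWalk ν) {y : ℝ} (hy : 0 < y) :
    (ν {0}).toReal ≤ 48 * y ^ 2 * rZ (nm y) * rT (nm y) := by
  obtain ⟨hp, h0, -⟩ := id h
  have hT : 0 < rT (nm y) := rT_pos (nm_pos y) (nm_lt_one hy)
  have h2 := law2 h hy
  have hae : ∀ᵐ x ∂ν, x ∈ Icc (0:ℝ) 16 := by
    rw [ae_iff]
    exact h0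
  have hmeas : Measurable fun x : ℝ => (64 * rT (nm y)) * (1 / (64 * rT (nm y) + x)) := by
    fun_prop
  have hint : Integrable (fun x : ℝ => (64 * rT (nm y)) * (1 / (64 * rT (nm y) + x))) ν := by
    refine Integrable.of_bound hmeas.aestronglyMeasurable 1 ?_
    filter_upwards [hae] with x hx
    have h1 : 0 < 64 * rT (nm y) + x := by
      have := hx.1
      positivity
    rw [Real.norm_eq_abs, abs_of_nonneg (by positivity), mul_one_div, div_le_one h1]
    linarith [hx.1]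
  have e1 : (ν {0}).toReal = ∫ x, ({0} : Set ℝ).indicator (fun _ => (1:ℝ)) x ∂ν := by
    rw [integral_indicator (measurableSet_singleton 0)]
    simp [Measure.real]
  have e2 : ∫ x, (64 * rT (nm y)) * (1 / (64 * rT (nm y) + x)) ∂ν =
      48 * y ^ 2 * rZ (nm y) * rT (nm y) := by
    rw [integral_const_mul, h2]
    ring
  rw [e1, ← e2]
  refine integral_mono_ae ?_ hint ?_
  · exact (integrable_const (1:ℝ)).indicator (measurableSet_singleton 0)
  · filter_upwards [hae] with x hx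
    by_cases hx0 : x = 0
    · subst hx0
      have : (64 * rT (nm y)) ≠ 0 := by positivity
      simp only [mem_singleton_iff, indicator_of_mem, add_zero]
      rw [mul_one_div, div_self this]
    · rw [indicator_of_notMem (by simpa using hx0)]
      have h1 : 0 < 64 * rT (nm y) + x := by
        have := hx.1
        positivity
      positivity

private theorem law0_lim :
    Filter.Tendsto (fun y : ℝ => 48 * y ^ 2 * rZ (nm y) * rT (nm y)) Filter.atTop
      (nhds 0) := by
  have hnm : Filter.Tendsto nm Filter.atTop (nhds 0) := by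
    unfold nm
    refine Real.tendsto_exp_neg_atTop_nhds_zero.comp ?_
    exact Filter.Tendsto.const_mul_atTop (by positivity) Filter.tendsto_id
  have hnmC : Filter.Tendsto (fun y => ((nm y : ℝ) : ℂ)) Filter.atTop (nhds 0) := by
    have := (Complex.continuous_ofReal.tendsto 0).comp hnm
    simpa [Function.comp_def] using this
  have hb : Metric.ball (0:ℂ) 1 ∈ nhds (0:ℂ) := Metric.ball_mem_nhds _ one_pos
  have hZc : Filter.Tendsto (fun y => ZZ ((nm y : ℝ) : ℂ)) Filter.atTop (nhds (ZZ 0)) :=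
    ((ZZ_diff.differentiableAt hb).continuousAt.tendsto).comp hnmC
  have hTO : (fun y => TT ((nm y : ℝ) : ℂ)) =O[Filter.atTop] fun y => ((nm y : ℝ) : ℂ) := by
    have h1 := (TT_diff.differentiableAt hb).hasDerivAt.isBigO_sub
    have h2 := h1.comp_tendsto hnmC
    simpa [Function.comp_def, TT_zero] using h2
  have hZO : (fun y => ZZ ((nm y : ℝ) : ℂ)) =O[Filter.atTop] fun _ => (1:ℂ) := hZc.isBigO_one _
  have hprod : (fun y : ℝ => ((48 * y ^ 2 : ℝ) : ℂ) * ZZ ((nm y : ℝ) : ℂ) * TT ((nm y : ℝ) : ℂ))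
      =O[Filter.atTop] fun y : ℝ => ((48 * y ^ 2 : ℝ) : ℂ) * 1 * ((nm y : ℝ) : ℂ) :=
    ((Asymptotics.isBigO_refl _ _).mul hZO).mul hTO
  have hlim : Filter.Tendsto (fun y : ℝ => ((48 * y ^ 2 : ℝ) : ℂ) * 1 * ((nm y : ℝ) : ℂ))
      Filter.atTop (nhds 0) := by
    have h1 : Filter.Tendsto (fun y : ℝ => (2 * Real.pi * y) ^ 2 * Real.exp (-(2 * Real.pi * y)))
        Filter.atTop (nhds 0) := by
      refine (Real.tendsto_pow_mul_exp_neg_atTop_nhds_zero 2).comp ?_
      exact Filter.Tendsto.const_mul_atTop (by positivity) Filter.tendsto_id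
    have h2 := (h1.const_mul (48 / (2 * Real.pi) ^ 2))
    rw [mul_zero] at h2
    have h3 := (Complex.continuous_ofReal.tendsto 0).comp h2
    rw [Complex.ofReal_zero] at h3
    refine h3.congr fun y => ?_
    have hpi : (Real.pi : ℂ) ≠ 0 := by exact_mod_cast Real.pi_ne_zero
    simp only [Function.comp, nm]
    push_cast
    field_simp
  have hlim2 := hprod.trans_tendsto hlim
  have h4 := (Complex.continuous_re.tendsto 0).comp hlim2
  rw [Complex.zero_re] at h4
  refine h4.congr' ?_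
  filter_upwards [Filter.eventually_gt_atTop 0] with y hy
  simp only [Function.comp]
  rw [TT_ofReal (nm_abs hy), ZZ_ofReal (nm_abs hy), ← Complex.ofReal_mul, ← Complex.ofReal_mul,
    Complex.ofReal_re]

theorem law0 {ν : Measure ℝ} (h : IsWalk ν) : ν {0} = 0 := by
  obtain ⟨hp, -, -⟩ := id h
  have h1 : (ν {0}).toReal ≤ 0 := by
    refine ge_of_tendsto law0_lim ?_
    filter_upwards [Filter.eventually_gt_atTop 0] with y hy
    exact law0_bound h hy
  have h2 : (ν {0}).toReal = 0 := le_antisymm h1 ENNReal.toReal_nonneg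
  rcases (ENNReal.toReal_eq_zero_iff _).1 h2 with h3 | h3
  · exact h3
  · exact absurd h3 (measure_ne_top ν _)

end RV15W
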