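import Mathlib
import Pool.Agent.RV15W.Defs
import Pool.Agent.RV15W.Bas
import Pool.Agent.RV15W.Alg

/-!
# RV15W/NRa: explicit bounds near the cusp

`‖q‖ < 0.0181` as `2π · 0.64 > 4.02`, `e^(4.02) > 55.4`.  Bounds for `r = ‖q‖ ≤ 0.0181`:
`TT' (q) = ff q · a(q) a(q²)` (`dT` for `q ≠ 0`; at `q = 0` by continuity).  With the Euler products:
`‖Eu q - 1‖ ≤ exp (r/(1-r)) - 1`, and the same for `q², q³, q⁶`; `‖ff q - 1‖`, `‖al q - 1‖ ≤ e^(0.114) - 1`,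
`‖de q‖ ≤ 3 r e^(0.02) ≤ 0.0556`, `a(q) = al + 4 de`, `a(q²) = al + 2 de` (`rel_a1`, `relB`), which gives
`‖f'(q) - 1‖ ≤ (1.35)(1.24)(1.13) - 1 < 1`.  (Any other way to get `‖f' - 1‖ < 1` is fine, for example counting
lattice points for `a(q) - 1`.)
-/

set_option autoImplicit false

namespace RV15W

open Filter

private theorem NRa_mul {u v : ℂ} {A B : ℝ} (hu : ‖u - 1‖ ≤ A - 1) (hv : ‖v - 1‖ ≤ B - 1) :
    ‖u * v - 1‖ ≤ A * B - 1 := by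
  have h : u * v - 1 = (u - 1) * (v - 1) + (u - 1) + (v - 1) := by ring
  have hA : 0 ≤ A - 1 := (norm_nonneg _).trans hu
  calc ‖u * v - 1‖ ≤ ‖u - 1‖ * ‖v - 1‖ + ‖u - 1‖ + ‖v - 1‖ := by
        rw [h]
        refine (norm_add_le _ _).trans (add_le_add ((norm_add_le _ _).trans ?_) le_rfl)
        rw [norm_mul]
    _ ≤ (A - 1) * (B - 1) + (A - 1) + (B - 1) := by
        have := mul_le_mul hu hv (norm_nonneg _) hA
        linarith
    _ = A * B - 1 := by ring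

private theorem NRa_pow {u : ℂ} {A : ℝ} (hu : ‖u - 1‖ ≤ A - 1) (n : ℕ) :
    ‖u ^ n - 1‖ ≤ A ^ n - 1 := by
  induction n with
  | zero => simp
  | succ n ih =>
    rw [pow_succ, pow_succ]
    exact NRa_mul ih hu

private theorem NRa_inv {u : ℂ} {A : ℝ} (hu : ‖u - 1‖ ≤ A - 1) (hA : A < 2) :
    ‖u⁻¹ - 1‖ ≤ (2 - A)⁻¹ - 1 := by
  have h1 : 2 - A ≤ ‖u‖ := by
    have : ‖(1 : ℂ)‖ ≤ ‖u‖ + ‖u - 1‖ := by
      have h := norm_sub_le u (u - 1)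
      rwa [sub_sub_cancel] at h
    rw [norm_one] at this
    linarith
  have h2 : 0 < 2 - A := by linarith
  have hu0 : u ≠ 0 := by
    intro h
    rw [h, norm_zero] at h1
    linarith
  have h3 : u⁻¹ - 1 = (1 - u) * u⁻¹ := by field_simp
  rw [h3, norm_mul, norm_sub_rev, norm_inv]
  have h4 : ‖u‖⁻¹ ≤ (2 - A)⁻¹ := by gcongr
  calc ‖u - 1‖ * ‖u‖⁻¹ ≤ (A - 1) * (2 - A)⁻¹ :=
        mul_le_mul hu h4 (inv_nonneg.mpr (norm_nonneg _)) ((norm_nonneg _).trans hu)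
    _ = (2 - A)⁻¹ - 1 := by field_simp; ring

private theorem NRa_div {u v : ℂ} {A B : ℝ} (hu : ‖u - 1‖ ≤ A - 1) (hv : ‖v - 1‖ ≤ B - 1)
    (hB : B < 2) : ‖u / v - 1‖ ≤ A * (2 - B)⁻¹ - 1 := by
  rw [div_eq_mul_inv]
  exact NRa_mul hu (NRa_inv hv hB)

private theorem NRa_Eu {q : ℂ} {r : ℝ} (hq : ‖q‖ ≤ r) (hr : r < 1 / 2) :
    ‖Eu q - 1‖ ≤ (1 - r) / (1 - 2 * r) - 1 := by
  have hr0 : 0 ≤ r := (norm_nonneg _).trans hq
  have hq1 : ‖q‖ < 1 := by linarith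
  have hp := (Eu_mult hq1).hasProd
  have ht : Tendsto (fun s : Finset ℕ => ‖∏ i ∈ s, (1 - q ^ (i + 1)) - 1‖) atTop
      (nhds ‖Eu q - 1‖) := by
    have h0 : Tendsto (fun s : Finset ℕ => ∏ i ∈ s, (1 - q ^ (i + 1))) atTop (nhds (Eu q)) := hp
    exact (h0.sub_const 1).norm
  refine le_of_tendsto' ht fun s => ?_
  have h1 := Finset.norm_prod_one_add_sub_one_le s (fun i : ℕ => -(q ^ (i + 1)))
  simp only [← sub_eq_add_neg, norm_neg, norm_pow] at h1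
  refine h1.trans (sub_le_sub_right ?_ 1)
  have h2 : ∑ i ∈ s, ‖q‖ ^ (i + 1) ≤ r / (1 - r) := by
    have hs : Summable fun i : ℕ => ‖q‖ ^ (i + 1) := by
      simp only [pow_succ]
      exact (summable_geometric_of_lt_one (norm_nonneg _) hq1).mul_right _
    refine (hs.sum_le_tsum s fun i _ => by positivity).trans ?_
    simp only [pow_succ]
    rw [tsum_mul_right, tsum_geometric_of_lt_one (norm_nonneg _) hq1]
    rw [inv_mul_eq_div]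
    have : 0 < 1 - r := by linarith
    gcongr
  have h3 : r / (1 - r) < 1 := by
    rw [div_lt_one (by linarith)]
    linarith
  have h4 := Real.one_sub_le_exp_neg (r / (1 - r))
  calc Real.exp (∑ i ∈ s, ‖q‖ ^ (i + 1)) ≤ Real.exp (r / (1 - r)) := Real.exp_le_exp.mpr h2
    _ = (Real.exp (-(r / (1 - r))))⁻¹ := by rw [Real.exp_neg, inv_inv]
    _ ≤ (1 - r / (1 - r))⁻¹ := by
        have : 0 < 1 - r / (1 - r) := by linarith
        gcongr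
    _ = (1 - r) / (1 - 2 * r) := by
        have h5 : (1 : ℝ) - r ≠ 0 := by linarith
        have h6 : 1 - r / (1 - r) = (1 - 2 * r) / (1 - r) := by
          field_simp
          ring
        rw [h6, inv_div]

section

variable {q : ℂ}

private theorem NRa_E1 (hq : ‖q‖ ≤ 0.0181) : ‖Eu q - 1‖ ≤ 1.0188 - 1 := by
  refine (NRa_Eu hq (by norm_num)).trans ?_
  norm_num

private theorem NRa_E2 (hq : ‖q‖ ≤ 0.0181) : ‖Eu (q ^ 2) - 1‖ ≤ 1.00033 - 1 := by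
  have h : ‖q ^ 2‖ ≤ 0.0181 ^ 2 := by rw [norm_pow]; gcongr
  refine (NRa_Eu h (by norm_num)).trans ?_
  norm_num

private theorem NRa_E3 (hq : ‖q‖ ≤ 0.0181) : ‖Eu (q ^ 3) - 1‖ ≤ 1.00001 - 1 := by
  have h : ‖q ^ 3‖ ≤ 0.0181 ^ 3 := by rw [norm_pow]; gcongr
  refine (NRa_Eu h (by norm_num)).trans ?_
  norm_num

private theorem NRa_E6 (hq : ‖q‖ ≤ 0.0181) : ‖Eu (q ^ 6) - 1‖ ≤ 1.00001 - 1 := by
  have h : ‖q ^ 6‖ ≤ 0.0181 ^ 6 := by rw [norm_pow]; gcongr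
  refine (NRa_Eu h (by norm_num)).trans ?_
  norm_num

private theorem NRa_ff (hq : ‖q‖ ≤ 0.0181) : ‖ff q - 1‖ ≤ 1.124 - 1 := by
  have h := NRa_pow (NRa_div (NRa_mul (NRa_E2 hq) (NRa_E6 hq)) (NRa_mul (NRa_E1 hq) (NRa_E3 hq))
    (by norm_num)) 6
  refine h.trans ?_
  norm_num

private theorem NRa_al (hq : ‖q‖ ≤ 0.0181) : ‖al q - 1‖ ≤ 1.12 - 1 := by
  have h := NRa_div (NRa_mul (NRa_pow (NRa_E1 hq) 6) (NRa_E6 hq))
    (NRa_mul (NRa_pow (NRa_E2 hq) 3) (NRa_pow (NRa_E3 hq) 2)) (by norm_num)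
  refine h.trans ?_
  norm_num

private theorem NRa_be (hq : ‖q‖ ≤ 0.0181) : ‖be q / 3 - 1‖ ≤ 1.04 - 1 := by
  have h := NRa_div (NRa_mul (NRa_pow (NRa_E3 hq) 6) (NRa_E2 hq))
    (NRa_mul (NRa_pow (NRa_E1 hq) 2) (NRa_pow (NRa_E6 hq) 3)) (by norm_num)
  have h2 : be q / 3 = Eu (q ^ 3) ^ 6 * Eu (q ^ 2) / (Eu q ^ 2 * Eu (q ^ 6) ^ 3) := by
    unfold be
    ring
  rw [h2]
  refine h.trans ?_
  norm_num

private theorem NRa_ca (hq : ‖q‖ ≤ 0.0181) : ‖ca q - 1‖ ≤ 1.12 - 1 := by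
  have hq1 : ‖q‖ < 1 := hq.trans_lt (by norm_num)
  have h : ca q - 1 = (3 * (be q / 3 - 1) - (al q - 1)) / 2 := by
    linear_combination (1 / 2 : ℂ) * al_eq hq1 - (1 / 2 : ℂ) * be_eq hq1
  rw [h, norm_div]
  have h1 := NRa_al hq
  have h2 := NRa_be hq
  have h3 : ‖3 * (be q / 3 - 1) - (al q - 1)‖ ≤ 3 * ‖be q / 3 - 1‖ + ‖al q - 1‖ := by
    refine (norm_sub_le _ _).trans (add_le_add ?_ le_rfl)
    rw [norm_mul]
    simp
  have h4 : ‖(2 : ℂ)‖ = 2 := by simp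
  rw [h4]
  linarith

private theorem NRa_ca2 (hq : ‖q‖ ≤ 0.0181) : ‖ca (q ^ 2) - 1‖ ≤ 1.06 - 1 := by
  have hq1 : ‖q‖ < 1 := hq.trans_lt (by norm_num)
  have h : ca (q ^ 2) - 1 = (3 * (be q / 3 - 1) + (al q - 1)) / 4 := by
    linear_combination -(1 / 4 : ℂ) * al_eq hq1 - (1 / 4 : ℂ) * be_eq hq1
  rw [h, norm_div]
  have h1 := NRa_al hq
  have h2 := NRa_be hq
  have h3 : ‖3 * (be q / 3 - 1) + (al q - 1)‖ ≤ 3 * ‖be q / 3 - 1‖ + ‖al q - 1‖ := by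
    refine (norm_add_le _ _).trans (add_le_add ?_ le_rfl)
    rw [norm_mul]
    simp
  have h4 : ‖(4 : ℂ)‖ = 4 := by simp
  rw [h4]
  linarith

private theorem NRa_ffdiff : DifferentiableAt ℂ ff 0 := by
  have h1 : DifferentiableAt ℂ Eu 0 :=
    Eu_diff.differentiableAt (Metric.isOpen_ball.mem_nhds (by simp))
  have hk : ∀ k : ℕ, k ≠ 0 → DifferentiableAt ℂ (fun q : ℂ => Eu (q ^ k)) 0 := by
    intro k hk
    have h2 : DifferentiableAt ℂ Eu ((0 : ℂ) ^ k) := by rwa [zero_pow hk]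
    exact h2.comp (0 : ℂ) (differentiableAt_id.pow k)
  unfold ff
  refine (DifferentiableAt.div ((hk 2 (by norm_num)).mul (hk 6 (by norm_num)))
    (h1.mul (hk 3 (by norm_num))) ?_).pow 6
  simp [Eu_zero]

private theorem NRa_d0 : deriv TT 0 = 1 := by
  have h : HasDerivAt TT (1 * ff 0 + 0 * deriv ff 0) 0 :=
    (hasDerivAt_id (0 : ℂ)).mul NRa_ffdiff.hasDerivAt
  rw [h.deriv]
  simp [ff, Eu_zero]

end

theorem qq_small {τ : ℂ} (h : 16 / 25 < τ.im) : ‖qq τ‖ < 0.0181 := by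
  have h1 : (2 * Real.pi * Complex.I * τ : ℂ).re = -(2 * Real.pi * τ.im) := by
    simp [Complex.mul_re, Complex.mul_im]
  rw [qq, Complex.norm_exp, h1]
  have hpi := Real.pi_gt_d4
  have h2 : (4.02 : ℝ) ≤ 2 * Real.pi * τ.im := by nlinarith
  have h3 : Real.exp (-(2 * Real.pi * τ.im)) ≤ Real.exp (-4.02) := by
    apply Real.exp_le_exp.mpr
    linarith
  refine h3.trans_lt ?_
  rw [Real.exp_neg]
  have h4 : (2.718 : ℝ) < Real.exp 1 := by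
    have := Real.exp_one_gt_d9
    linarith
  have h5 : Real.exp 4.02 = Real.exp 1 ^ 4 * Real.exp 0.02 := by
    rw [← Real.exp_nat_mul, ← Real.exp_add]
    norm_num
  have h6 : (1.02 : ℝ) ≤ Real.exp 0.02 := by
    have := Real.add_one_le_exp (0.02 : ℝ)
    linarith
  have h7 : (2.718 : ℝ) ^ 4 * 1.02 ≤ Real.exp 4.02 := by
    rw [h5]
    gcongr
  have h8 : (0 : ℝ) < Real.exp 4.02 := Real.exp_pos _
  rw [inv_lt_comm₀ h8 (by norm_num)]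
  refine lt_of_lt_of_le ?_ h7
  norm_num

theorem dTT_near {q : ℂ} (hq : ‖q‖ ≤ 0.0181) : ‖deriv TT q - 1‖ < 1 := by
  rcases eq_or_ne q 0 with h0 | h0
  · rw [h0, NRa_d0]
    simp
  have hq1 : ‖q‖ < 1 := hq.trans_lt (by norm_num)
  have h1 : deriv TT q = ff q * (ca q * ca (q ^ 2)) := by
    have h2 := dT hq1
    unfold qd at h2
    have h3 : q * deriv TT q = q * (ff q * (ca q * ca (q ^ 2))) := by
      rw [h2]
      unfold TT
      ring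
    exact mul_left_cancel₀ h0 h3
  rw [h1]
  refine (NRa_mul (NRa_ff hq) (NRa_mul (NRa_ca hq) (NRa_ca2 hq))).trans_lt ?_
  norm_num

private theorem NRa_ra {q : ℝ} (hq : |q| ≤ 0.0181) : |ra q - 1| ≤ 0.12 ∧ |ra (q ^ 2) - 1| ≤ 0.06 := by
  have hq' : ‖(q : ℂ)‖ ≤ 0.0181 := by rwa [Complex.norm_real, Real.norm_eq_abs]
  have h1 := NRa_ca hq'
  have h2 := NRa_ca2 hq'
  have e1 : ca (q : ℂ) - 1 = ((ra q - 1 : ℝ) : ℂ) := by rw [ca_ofReal]; push_cast; rfl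
  have e2 : ca ((q : ℂ) ^ 2) - 1 = ((ra (q ^ 2) - 1 : ℝ) : ℂ) := by
    rw [← Complex.ofReal_pow, ca_ofReal]; push_cast; rfl
  rw [e1, Complex.norm_real, Real.norm_eq_abs] at h1
  rw [e2, Complex.norm_real, Real.norm_eq_abs] at h2
  constructor
  · linarith
  · linarith

/-- `a(q) a(q²) > 0` for `-0.0181 ≤ q ≤ 0.0181` -/
theorem aa_pos {q : ℝ} (hq : |q| ≤ 0.0181) : 0 < ra q * ra (q ^ 2) := by
  obtain ⟨h1, h2⟩ := NRa_ra hq
  rw [abs_le] at h1 h2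
  exact mul_pos (by linarith [h1.1]) (by linarith [h2.1])

theorem aa_le {q : ℝ} (hq : |q| ≤ 0.0181) : ra q * ra (q ^ 2) ≤ 3 := by
  obtain ⟨h1, h2⟩ := NRa_ra hq
  rw [abs_le] at h1 h2
  have h3 : 0 < ra (q ^ 2) := by linarith [h2.1]
  have h4 : ra q ≤ 1.5 := by linarith [h1.2]
  have h5 : ra (q ^ 2) ≤ 1.5 := by linarith [h2.2]
  calc ra q * ra (q ^ 2) ≤ 1.5 * 1.5 := by gcongr
    _ ≤ 3 := by norm_num

theorem aa_ne {q : ℂ} (hq : ‖q‖ ≤ 0.0181) : ca q * ca (q ^ 2) ≠ 0 := by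
  have h1 := NRa_ca hq
  have h2 := NRa_ca2 hq
  refine mul_ne_zero ?_ ?_
  · intro h
    rw [h, zero_sub, norm_neg, norm_one] at h1
    norm_num at h1
  · intro h
    rw [h, zero_sub, norm_neg, norm_one] at h2
    norm_num at h2

end RV15W
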