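import Mathlib
import Pool.Agent.RV15W.Defs
import Pool.Agent.RV15W.Bas
import Pool.Agent.RV15W.Alg
import Pool.Agent.RV15W.Re
import Pool.Agent.RV15W.NRa

/-!
# RV15W/NonReal: `w(τ)` is not in `[0,∞)` for `|Re τ| < 1/2`, `Im τ > 16/25`

As `TT` is real on real arguments, for `q = u + iv`: `t ↦ Im TT(u + i t)` has derivative `Re TT'(u + i t) > 0`
(`dTT_near`) and vanishes at `t = 0`, hence `Im TT(q)` has the sign of `v`.
`wt τ = -64 TT (qq τ)` and `Im qq τ > 0` for `0 < Re τ < 1/2`.  If `Re τ = 0` then `q > 0`, `TT q > 0`.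
-/

set_option autoImplicit false

namespace RV15W

private theorem NonReal_ball {q : ℂ} (hq : ‖q‖ ≤ 0.0181) : DifferentiableAt ℂ TT q := by
  refine TT_diff.differentiableAt (Metric.isOpen_ball.mem_nhds ?_)
  rw [Metric.mem_ball, dist_zero_right]
  exact hq.trans_lt (by norm_num)

private theorem NonReal_re {q : ℂ} (hq : ‖q‖ ≤ 0.0181) : 0 < (deriv TT q).re := by
  have h1 := dTT_near hq
  have h2 := Complex.abs_re_le_norm (deriv TT q - 1)
  have h3 : |(deriv TT q - 1).re| < 1 := lt_of_le_of_lt h2 h1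
  rw [Complex.sub_re, Complex.one_re, abs_lt] at h3
  linarith [h3.1]

/-- the imaginary part of `TT` along a vertical line -/
private theorem NonReal_deriv (u t : ℝ) (h : ‖(u : ℂ) + t * Complex.I‖ ≤ 0.0181) :
    HasDerivAt (fun s : ℝ => (TT ((u : ℂ) + s * Complex.I)).im)
      (deriv TT ((u : ℂ) + t * Complex.I)).re t := by
  have h1 : HasDerivAt (fun s : ℝ => (u : ℂ) + s * Complex.I) (1 * Complex.I) t :=
    ((Complex.ofRealCLM.hasDerivAt (x := t)).mul_const Complex.I).const_add (u : ℂ)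
  have h2 := (NonReal_ball h).hasDerivAt
  have h3 : HasDerivAt (fun s : ℝ => TT ((u : ℂ) + s * Complex.I))
      (deriv TT ((u : ℂ) + t * Complex.I) * (1 * Complex.I)) t := by
    have h5 := (h2.hasFDerivAt.restrictScalars ℝ).comp_hasDerivAt t h1
    refine h5.congr_deriv ?_
    simp [mul_comm]
  have h4 := (Complex.imCLM.hasFDerivAt.comp_hasDerivAt t h3)
  have e : Complex.imCLM (deriv TT ((u : ℂ) + t * Complex.I) * (1 * Complex.I)) =
      (deriv TT ((u : ℂ) + t * Complex.I)).re := by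
    simp
  rw [e] at h4
  exact h4

private theorem NonReal_norm {q : ℂ} {t : ℝ} (ht : |t| ≤ |q.im|) :
    ‖(q.re : ℂ) + t * Complex.I‖ ≤ ‖q‖ := by
  have h1 : ‖(q.re : ℂ) + t * Complex.I‖ ^ 2 ≤ ‖q‖ ^ 2 := by
    rw [← Complex.normSq_eq_norm_sq, ← Complex.normSq_eq_norm_sq, Complex.normSq_apply,
      Complex.normSq_apply]
    simp only [Complex.add_re, Complex.ofReal_re, Complex.mul_re, Complex.I_re, mul_zero,
      Complex.ofReal_im, Complex.I_im, mul_one, sub_self, add_zero, Complex.add_im,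
      Complex.mul_im, zero_add]
    have := sq_le_sq.mpr ht
    nlinarith
  exact (pow_le_pow_iff_left₀ (norm_nonneg _) (norm_nonneg _) two_ne_zero).mp h1

private theorem NonReal_zero {u : ℝ} (hu : |u| ≤ 0.0181) :
    (TT ((u : ℂ) + (0 : ℝ) * Complex.I)).im = 0 := by
  rw [Complex.ofReal_zero, zero_mul, add_zero, TT_ofReal (hu.trans_lt (by norm_num)),
    Complex.ofReal_im]

theorem TT_im_pos {q : ℂ} (hq : ‖q‖ ≤ 0.0181) (h : 0 < q.im) : 0 < (TT q).im := by
  have hu : |q.re| ≤ 0.0181 := (Complex.abs_re_le_norm q).trans hq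
  have hn : ∀ t ∈ Set.Icc 0 q.im, ‖(q.re : ℂ) + t * Complex.I‖ ≤ 0.0181 := by
    intro t ht
    refine (NonReal_norm ?_).trans hq
    rw [abs_of_nonneg ht.1, abs_of_pos h]
    exact ht.2
  have hm : StrictMonoOn (fun s : ℝ => (TT ((q.re : ℂ) + s * Complex.I)).im)
      (Set.Icc 0 q.im) := by
    refine strictMonoOn_of_deriv_pos (convex_Icc _ _) ?_ ?_
    · intro t ht
      exact (NonReal_deriv q.re t (hn t ht)).continuousAt.continuousWithinAt
    · intro t ht
      rw [interior_Icc] at ht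
      have ht' : t ∈ Set.Icc 0 q.im := ⟨ht.1.le, ht.2.le⟩
      rw [(NonReal_deriv q.re t (hn t ht')).deriv]
      exact NonReal_re (hn t ht')
  have h1 := hm (Set.left_mem_Icc.mpr h.le) (Set.right_mem_Icc.mpr h.le) h
  simp only [] at h1
  rw [NonReal_zero hu, Complex.re_add_im] at h1
  exact h1

private theorem NonReal_im_neg {q : ℂ} (hq : ‖q‖ ≤ 0.0181) (h : q.im < 0) : (TT q).im < 0 := by
  have hu : |q.re| ≤ 0.0181 := (Complex.abs_re_le_norm q).trans hq
  have hn : ∀ t ∈ Set.Icc q.im 0, ‖(q.re : ℂ) + t * Complex.I‖ ≤ 0.0181 := by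
    intro t ht
    refine (NonReal_norm ?_).trans hq
    rw [abs_of_nonpos ht.2, abs_of_neg h]
    linarith [ht.1]
  have hm : StrictMonoOn (fun s : ℝ => (TT ((q.re : ℂ) + s * Complex.I)).im)
      (Set.Icc q.im 0) := by
    refine strictMonoOn_of_deriv_pos (convex_Icc _ _) ?_ ?_
    · intro t ht
      exact (NonReal_deriv q.re t (hn t ht)).continuousAt.continuousWithinAt
    · intro t ht
      rw [interior_Icc] at ht
      have ht' : t ∈ Set.Icc q.im 0 := ⟨ht.1.le, ht.2.le⟩
      rw [(NonReal_deriv q.re t (hn t ht')).deriv]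
      exact NonReal_re (hn t ht')
  have h1 := hm (Set.left_mem_Icc.mpr h.le) (Set.right_mem_Icc.mpr h.le) h
  simp only [] at h1
  rw [NonReal_zero hu, Complex.re_add_im] at h1
  exact h1

private theorem NonReal_wt (τ : ℂ) : wt τ = -64 * TT (qq τ) := by
  unfold wt wq TT
  ring

private theorem NonReal_wt_im (τ : ℂ) : (wt τ).im = -64 * (TT (qq τ)).im := by
  rw [NonReal_wt]
  simp [Complex.mul_im]

private theorem NonReal_qq_im (τ : ℂ) : (qq τ).im =
    Real.exp (-(2 * Real.pi * τ.im)) * Real.sin (2 * Real.pi * τ.re) := by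
  have h1 : (2 * Real.pi * Complex.I * τ : ℂ).re = -(2 * Real.pi * τ.im) := by
    simp [Complex.mul_re, Complex.mul_im]
  have h2 : (2 * Real.pi * Complex.I * τ : ℂ).im = 2 * Real.pi * τ.re := by
    simp [Complex.mul_re, Complex.mul_im]
  rw [qq, Complex.exp_im, h1, h2]

/-- for `0 < Re τ < 1/2` the number `-w(τ)` is in the upper half plane -/
theorem wt_im {τ : ℂ} (h : 16 / 25 < τ.im) (h0 : 0 < τ.re) (h1 : τ.re < 1 / 2) :
    (wt τ).im < 0 := by
  have hpi := Real.pi_pos
  have h2 : 0 < (qq τ).im := by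
    rw [NonReal_qq_im]
    refine mul_pos (Real.exp_pos _) (Real.sin_pos_of_pos_of_lt_pi (by positivity) ?_)
    nlinarith
  have h3 := TT_im_pos (qq_small h).le h2
  rw [NonReal_wt_im]
  linarith

theorem wt_not {τ : ℂ} (h : 16 / 25 < τ.im) (h1 : |τ.re| < 1 / 2) :
    -wt τ ∈ Complex.slitPlane := by
  have hpi := Real.pi_pos
  rw [abs_lt] at h1
  rw [Complex.mem_slitPlane_iff]
  rcases lt_trichotomy τ.re 0 with h0 | h0 | h0
  · right
    have h2 : (qq τ).im < 0 := by
      rw [NonReal_qq_im]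
      refine mul_neg_of_pos_of_neg (Real.exp_pos _) (Real.sin_neg_of_neg_of_neg_pi_lt ?_ ?_)
      · nlinarith
      · nlinarith [h1.1]
    have h3 := NonReal_im_neg (qq_small h).le h2
    rw [Complex.neg_im, NonReal_wt_im]
    intro h4
    linarith
  · left
    have h2 : qq τ = ((Real.exp (-(2 * Real.pi * τ.im)) : ℝ) : ℂ) := by
      rw [qq, Complex.ofReal_exp]
      congr 1
      apply Complex.ext
      · simp [Complex.mul_re, Complex.mul_im]
      · simp [Complex.mul_re, Complex.mul_im, h0]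
    have h3 : (0 : ℝ) < Real.exp (-(2 * Real.pi * τ.im)) := Real.exp_pos _
    have h4 : Real.exp (-(2 * Real.pi * τ.im)) < 1 := by
      rw [Real.exp_lt_one_iff]
      have : 0 < 2 * Real.pi * τ.im := by
        have : 0 < τ.im := by linarith
        positivity
      linarith
    rw [NonReal_wt, h2, TT_ofReal (by rw [abs_of_pos h3]; exact h4)]
    have h5 := rT_pos h3 h4
    simp [Complex.mul_re]
    exact h5
  · right
    have h2 := wt_im h h0 h1.2
    rw [Complex.neg_im]
    intro h3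
    linarith

theorem wq_pos {q : ℝ} (hq : -1 < q) (h : q < 0) : 0 < (wq (q : ℂ)).re ∧ (wq (q : ℂ)).im = 0 := by
  have h1 : |q| < 1 := by rw [abs_lt]; constructor <;> linarith
  have hk : ∀ k : ℕ, k ≠ 0 → |q ^ k| < 1 := by
    intro k hk
    rw [abs_pow]
    exact pow_lt_one₀ (abs_nonneg q) h1 hk
  have h2 : wq (q : ℂ) = ((-64 * q * ((rE (q ^ 2) * rE (q ^ 6)) / (rE q * rE (q ^ 3))) ^ 6 : ℝ) : ℂ) := by
    unfold wq ff
    rw [← Complex.ofReal_pow, ← Complex.ofReal_pow, ← Complex.ofReal_pow,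
      Eu_ofReal h1, Eu_ofReal (hk 2 (by norm_num)), Eu_ofReal (hk 6 (by norm_num)),
      Eu_ofReal (hk 3 (by norm_num))]
    push_cast
    ring
  rw [h2, Complex.ofReal_re, Complex.ofReal_im]
  refine ⟨?_, rfl⟩
  have p1 := rE_pos h1
  have p2 := rE_pos (hk 2 (by norm_num))
  have p3 := rE_pos (hk 3 (by norm_num))
  have p6 := rE_pos (hk 6 (by norm_num))
  have : 0 < -64 * q := by linarith
  positivity

end RV15W
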