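import Mathlib
import Pool.Agent.RV15W.Defs
import Pool.Agent.RV15W.Alg
import Pool.Agent.RV15W.QE
import Pool.Agent.RV15W.Ram

/-!
# RV15W/PsiId: `24 Ψ = a(q) a(q²) (a(q)² - a(q²)²)`

`480 Ψ = (Q1 - 9 Q3) - (Q2 - 9 Q6)`, `Q3` at `q` and at `q²`, and `rel_B1`, `rel_B2`.
-/

set_option autoImplicit false

namespace RV15W

theorem psi_id {q : ℂ} (hq : ‖q‖ < 1) :
    24 * psi q = ca q * ca (q ^ 2) * (ca q ^ 2 - ca (q ^ 2) ^ 2) := by
  have hp : ∀ k : ℕ, k ≠ 0 → ‖q ^ k‖ < 1 := fun k hk => by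
    rw [norm_pow]
    exact pow_lt_one₀ (norm_nonneg _) hq hk
  have h1 := Q3 hq
  have h2 := Q3 (hp 2 (by norm_num))
  rw [← pow_mul] at h2
  norm_num at h2
  have e1 := QQ_e4 hq
  have e2 := QQ_e4 (hp 2 (by norm_num))
  have e3 := QQ_e4 (hp 3 (by norm_num))
  have e6 := QQ_e4 (hp 6 (by norm_num))
  have b1 := rel_B1 hq
  have b2 := rel_B2 hq
  unfold psi
  rw [← e1, ← e2, ← e3, ← e6]
  rw [b1] at h1
  rw [b2] at h2
  linear_combination (-1 / 20) * h1 + (1 / 20) * h2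

end RV15W
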