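import Mathlib
import Pool.Agent.RV15W.Defs
import Pool.Agent.RV15W.Bas
import Pool.Agent.RV15W.Alg
import Pool.Agent.RV15W.Re
import Pool.Agent.RV15W.PsiId
import Pool.Agent.RV15W.Law
import Pool.Agent.RV15W.NonReal

/-!
# RV15W/Cplx: analytic continuation of `law2`

On `Ω = {|Re τ| < 1/2, Im τ > 16/25}`: `w'(τ) ∫ 1/(x - w(τ)) dν(x) = 192 π i τ² Ψ(τ)`.
* `w' = 2π i w a(q) a(q²)` (`dT`).
* On `τ = i y`: `w = -64 T(q)`, `q = nm y`; `law2` gives `-128π i T a1 a2 · (3/4) y² Z = -8π i y² a1 a2 (a1² - a2²)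
  = -192π i y² Ψ` (`rZT`, `psi_id`), and `τ² = -y²`.
* Both sides are analytic on `Ω` (convex): `F(w) = ∫ 1/(x - w) dν` is complex differentiable where `-w ∈ slitPlane`
  (`ν` lives on `[0,16]`; `hasDerivAt_integral_of_dominated_loc_of_deriv_le`), and `wt_not`.
  Identity theorem (`AnalyticOnNhd.eqOn_of_preconnected_of_frequently_eq`) at `τ = i`.
-/

set_option autoImplicit false

open MeasureTheory Set

namespace RV15W

private theorem Cplx_qq_norm {τ : ℂ} (h : 0 < τ.im) : ‖qq τ‖ < 1 := by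
  unfold qq
  rw [Complex.norm_exp]
  have h1 : (2 * (Real.pi : ℂ) * Complex.I * τ).re = -(2 * Real.pi * τ.im) := by
    simp [Complex.mul_re, Complex.mul_im]
  rw [h1, Real.exp_lt_one_iff]
  have := Real.pi_pos
  have := mul_pos this h
  linarith

private theorem Cplx_qq_deriv (τ : ℂ) :
    HasDerivAt qq (2 * Real.pi * Complex.I * qq τ) τ := by
  unfold qq
  have h := ((hasDerivAt_id τ).const_mul (2 * (Real.pi : ℂ) * Complex.I)).cexp
  simp only [id_eq, mul_one] at h
  exact h.congr_deriv (mul_comm _ _)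

private theorem Cplx_wt (τ : ℂ) : wt τ = -64 * TT (qq τ) := by
  unfold wt wq TT
  ring

theorem dwt {τ : ℂ} (h : 0 < τ.im) :
    HasDerivAt wt (2 * Real.pi * Complex.I * wt τ * (ca (qq τ) * ca (qq τ ^ 2))) τ := by
  have hq := Cplx_qq_norm h
  have hT : DifferentiableAt ℂ TT (qq τ) :=
    TT_diff.differentiableAt (Metric.isOpen_ball.mem_nhds (by simpa using hq))
  have h1 : HasDerivAt (fun τ => -64 * TT (qq τ))
      (-64 * (deriv TT (qq τ) * (2 * Real.pi * Complex.I * qq τ))) τ :=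
    (hT.hasDerivAt.comp τ (Cplx_qq_deriv τ)).const_mul (-64)
  have h2 : wt = fun τ => -64 * TT (qq τ) := funext Cplx_wt
  have h3 := dT hq
  unfold qd at h3
  rw [h2]
  convert h1 using 1
  show 2 * (Real.pi : ℂ) * Complex.I * (-64 * TT (qq τ)) * (ca (qq τ) * ca (qq τ ^ 2)) = _
  linear_combination (-(2 * (Real.pi : ℂ) * Complex.I * 64)) * (-h3)

/-- distance to the positive half line -/
private theorem Cplx_dist {w : ℂ} (hw : -w ∈ Complex.slitPlane) :
    ∃ δ : ℝ, 0 < δ ∧ ∀ x : ℝ, 0 ≤ x → δ ≤ ‖(x : ℂ) - w‖ := by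
  rw [Complex.mem_slitPlane_iff] at hw
  rcases hw with hw | hw
  · refine ⟨-w.re, by simpa using hw, fun x hx => ?_⟩
    have h1 := Complex.abs_re_le_norm ((x : ℂ) - w)
    have h2 := le_abs_self ((x : ℂ) - w).re
    simp at h1 h2
    linarith
  · refine ⟨|w.im|, abs_pos.mpr (by simpa using hw), fun x hx => ?_⟩
    have h1 := Complex.abs_im_le_norm ((x : ℂ) - w)
    simpa using h1

private theorem Cplx_F_diff {ν : Measure ℝ} (h : IsWalk ν) {w : ℂ}
    (hw : -w ∈ Complex.slitPlane) :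
    DifferentiableAt ℂ (fun w : ℂ => ∫ x, 1 / ((x : ℂ) - w) ∂ν) w := by
  have := h.1
  obtain ⟨δ, hδ, hd⟩ := Cplx_dist hw
  have hae : ∀ᵐ x ∂ν, 0 ≤ x := by
    have := h.2.1
    rw [ae_iff]
    refine measure_mono_null (fun x hx => ?_) this
    simp only [mem_ofPred_eq, not_le] at hx
    simp only [mem_compl_iff, mem_Icc, not_and_or, not_le]
    exact Or.inl hx
  have hmeas : ∀ v : ℂ, AEStronglyMeasurable (fun x : ℝ => 1 / ((x : ℂ) - v)) ν := by
    intro v
    have : Measurable fun x : ℝ => 1 / ((x : ℂ) - v) := by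
      simp only [one_div]
      exact (Complex.measurable_ofReal.sub_const v).inv
    exact this.aestronglyMeasurable
  have hball : ∀ v ∈ Metric.ball w (δ / 2), ∀ x : ℝ, 0 ≤ x → δ / 2 ≤ ‖(x : ℂ) - v‖ := by
    intro v hv x hx
    have h1 := hd x hx
    have h2 : ‖(x : ℂ) - w‖ ≤ ‖(x : ℂ) - v‖ + ‖v - w‖ := by
      have := norm_add_le ((x : ℂ) - v) (v - w)
      simpa using this
    rw [Metric.mem_ball, dist_eq_norm] at hv
    linarith
  have hint : Integrable (fun x : ℝ => 1 / ((x : ℂ) - w)) ν := by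
    refine Integrable.of_bound (hmeas w) (1 / δ) ?_
    filter_upwards [hae] with x hx
    rw [norm_div, norm_one]
    exact one_div_le_one_div_of_le hδ (hd x hx)
  have key := hasDerivAt_integral_of_dominated_loc_of_deriv_le
    (μ := ν) (F := fun (w : ℂ) (x : ℝ) => 1 / ((x : ℂ) - w))
    (F' := fun (w : ℂ) (x : ℝ) => 1 / ((x : ℂ) - w) ^ 2) (x₀ := w)
    (s := Metric.ball w (δ / 2)) (bound := fun _ => (δ / 2)⁻¹ ^ 2)
    (Metric.ball_mem_nhds w (by positivity)) ?_ hint ?_ ?_ (integrable_const _) ?_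
  · exact key.2.differentiableAt
  · exact Filter.Eventually.of_forall hmeas
  · have : Measurable fun x : ℝ => 1 / ((x : ℂ) - w) ^ 2 := by
      simp only [one_div]
      exact ((Complex.measurable_ofReal.sub_const w).pow_const 2).inv
    exact this.aestronglyMeasurable
  · filter_upwards [hae] with x hx v hv
    rw [norm_div, norm_one, norm_pow, one_div, ← inv_pow]
    have h1 := hball v hv x hx
    exact pow_le_pow_left₀ (by positivity) (inv_anti₀ (by positivity) h1) 2
  · filter_upwards [hae] with x hx v hv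
    have h1 := hball v hv x hx
    have h2 : (x : ℂ) - v ≠ 0 := by
      intro h0
      rw [h0, norm_zero] at h1
      linarith
    have h3 : HasDerivAt (fun w : ℂ => (x : ℂ) - w) (-1) v := by
      simpa using (hasDerivAt_id v).const_sub (x : ℂ)
    have h4 := h3.inv h2
    have h5 : (fun w : ℂ => 1 / ((x : ℂ) - w)) = (fun w : ℂ => (x : ℂ) - w)⁻¹ := by
      funext w
      simp
    rw [h5]
    exact h4.congr_deriv (by rw [neg_neg])

private theorem Cplx_axis {ν : Measure ℝ} (h : IsWalk ν) {y : ℝ} (hy : 0 < y) :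
    2 * Real.pi * Complex.I * wt (Complex.I * y) *
      (ca (qq (Complex.I * y)) * ca (qq (Complex.I * y) ^ 2)) *
        ∫ x, 1 / ((x : ℂ) - wt (Complex.I * y)) ∂ν =
      192 * Real.pi * Complex.I * (Complex.I * y) ^ 2 * psi (qq (Complex.I * y)) := by
  have hq : qq (Complex.I * y) = (nm y : ℂ) := by
    unfold qq nm
    rw [Complex.ofReal_exp]
    congr 1
    push_cast
    linear_combination (2 * (Real.pi : ℂ) * y) * Complex.I_mul_I
  have hn0 : 0 < nm y := Real.exp_pos _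
  have hn1 : nm y < 1 := by
    unfold nm
    rw [Real.exp_lt_one_iff]
    have := mul_pos Real.pi_pos hy
    linarith
  have hn : |nm y| < 1 := by rwa [abs_of_pos hn0]
  have hn2 : |nm y ^ 2| < 1 := by
    rw [abs_pow]
    exact pow_lt_one₀ (abs_nonneg _) hn (by norm_num)
  have hw : wt (Complex.I * y) = ((-64 * rT (nm y) : ℝ) : ℂ) := by
    rw [Cplx_wt, hq, TT_ofReal hn]
    push_cast
    ring
  have hI : ∫ x, 1 / ((x : ℂ) - wt (Complex.I * y)) ∂ν = ((3 / 4 * y ^ 2 * rZ (nm y) : ℝ) : ℂ) := by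
    rw [← law2 h hy, ← integral_complex_ofReal]
    refine integral_congr_ae (Filter.Eventually.of_forall fun x => ?_)
    simp only [hw]
    push_cast
    congr 1
    ring
  have hp : 24 * psi (nm y : ℂ) =
      ca (nm y : ℂ) * ca ((nm y : ℂ) ^ 2) * (ca (nm y : ℂ) ^ 2 - ca ((nm y : ℂ) ^ 2) ^ 2) :=
    psi_id (by simpa using hn)
  have hr : (12 * rZ (nm y) * rT (nm y) : ℂ) = (ra (nm y) : ℂ) ^ 2 - (ra (nm y ^ 2) : ℂ) ^ 2 := by
    exact_mod_cast rZT hn
  have hc2 : ca ((nm y : ℂ) ^ 2) = (ra (nm y ^ 2) : ℂ) := by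
    rw [← ca_ofReal]
    push_cast
    rfl
  rw [hI, hw, hq]
  rw [hc2, ca_ofReal] at hp ⊢
  push_cast
  linear_combination (-(8 * (Real.pi : ℂ) * Complex.I * y ^ 2 * ra (nm y) * ra (nm y ^ 2))) * hr
    - (192 * (Real.pi : ℂ) * Complex.I * y ^ 2 * psi (nm y : ℂ)) * Complex.I_mul_I
    + (8 * (Real.pi : ℂ) * Complex.I * y ^ 2) * hp

theorem cplx {ν : Measure ℝ} (h : IsWalk ν) {τ : ℂ} (hi : 16 / 25 < τ.im) (hr : |τ.re| < 1 / 2) :
    2 * Real.pi * Complex.I * wt τ * (ca (qq τ) * ca (qq τ ^ 2)) * ∫ x, 1 / ((x : ℂ) - wt τ) ∂ν =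
      192 * Real.pi * Complex.I * τ ^ 2 * psi (qq τ) := by
  set Ω : Set ℂ := {τ : ℂ | 16 / 25 < τ.im ∧ |τ.re| < 1 / 2} with hΩ
  have hopen : IsOpen Ω :=
    (isOpen_lt continuous_const Complex.continuous_im).inter
      (isOpen_lt Complex.continuous_re.abs continuous_const)
  have hconv : Convex ℝ Ω := by
    have h1 : Convex ℝ {τ : ℂ | 16 / 25 < τ.im} := convex_halfSpace_im_gt _
    have h2 : Convex ℝ {τ : ℂ | |τ.re| < 1 / 2} := by
      have h3 : {τ : ℂ | |τ.re| < 1 / 2} = {τ : ℂ | -(1 / 2) < τ.re} ∩ {τ : ℂ | τ.re < 1 / 2} := by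
        ext z
        simp only [mem_ofPred_eq, mem_inter_iff, abs_lt]
      rw [h3]
      exact (convex_halfSpace_re_gt _).inter (convex_halfSpace_re_lt _)
    exact h1.inter h2
  have hpos : ∀ z ∈ Ω, 0 < z.im := fun z hz => lt_trans (by norm_num) hz.1
  have hqd : ∀ z, DifferentiableAt ℂ qq z := fun z => (Cplx_qq_deriv z).differentiableAt
  have hball : ∀ z ∈ Ω, Metric.ball (0 : ℂ) 1 ∈ nhds (qq z) := fun z hz =>
    Metric.isOpen_ball.mem_nhds (by simpa using Cplx_qq_norm (hpos z hz))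
  have hball2 : ∀ z ∈ Ω, Metric.ball (0 : ℂ) 1 ∈ nhds (qq z ^ 2) := fun z hz =>
    Metric.isOpen_ball.mem_nhds (by
      have := Cplx_qq_norm (hpos z hz)
      simp only [Metric.mem_ball, dist_zero_right, norm_pow]
      exact pow_lt_one₀ (norm_nonneg _) this (by norm_num))
  have hL : AnalyticOnNhd ℂ (fun τ => 2 * Real.pi * Complex.I * wt τ *
      (ca (qq τ) * ca (qq τ ^ 2)) * ∫ x, 1 / ((x : ℂ) - wt τ) ∂ν) Ω := by
    refine DifferentiableOn.analyticOnNhd (fun z hz => ?_) hopen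
    refine DifferentiableAt.differentiableWithinAt ?_
    have hw : DifferentiableAt ℂ wt z := (dwt (hpos z hz)).differentiableAt
    have h1 : DifferentiableAt ℂ (fun τ => ca (qq τ)) z :=
      (ca_diff.differentiableAt (hball z hz)).comp z (hqd z)
    have h2 : DifferentiableAt ℂ (fun τ => ca (qq τ ^ 2)) z :=
      DifferentiableAt.comp (g := ca) (f := fun τ => qq τ ^ 2) z
        (ca_diff.differentiableAt (hball2 z hz)) ((hqd z).pow 2)
    have h3 : DifferentiableAt ℂ (fun τ => ∫ x, 1 / ((x : ℂ) - wt τ) ∂ν) z :=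
      (Cplx_F_diff h (wt_not hz.1 hz.2)).comp z hw
    exact ((((differentiableAt_const _).mul hw).mul (h1.mul h2)).mul h3)
  have hR : AnalyticOnNhd ℂ (fun τ => 192 * Real.pi * Complex.I * τ ^ 2 * psi (qq τ)) Ω := by
    refine DifferentiableOn.analyticOnNhd (fun z hz => ?_) hopen
    refine DifferentiableAt.differentiableWithinAt ?_
    have h1 : DifferentiableAt ℂ (fun τ => psi (qq τ)) z :=
      (psi_diff.differentiableAt (hball z hz)).comp z (hqd z)
    exact ((differentiableAt_const _).mul (differentiableAt_id.pow 2)).mul h1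
  have hIm : Complex.I ∈ Ω := by
    simp only [hΩ, mem_ofPred_eq, Complex.I_im, Complex.I_re]
    norm_num
  have hfreq : ∃ᶠ z in nhdsWithin Complex.I {Complex.I}ᶜ,
      (fun τ => 2 * Real.pi * Complex.I * wt τ *
      (ca (qq τ) * ca (qq τ ^ 2)) * ∫ x, 1 / ((x : ℂ) - wt τ) ∂ν) z =
      (fun τ => 192 * Real.pi * Complex.I * τ ^ 2 * psi (qq τ)) z := by
    have ht : Filter.Tendsto (fun n : ℕ => Complex.I * ((1 + 1 / ((n : ℝ) + 1) : ℝ) : ℂ))
        Filter.atTop (nhdsWithin Complex.I {Complex.I}ᶜ) := by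
      refine tendsto_nhdsWithin_iff.mpr ⟨?_, Filter.Eventually.of_forall fun n => ?_⟩
      · have h1 : Filter.Tendsto (fun n : ℕ => (1 + 1 / ((n : ℝ) + 1) : ℝ)) Filter.atTop
            (nhds (1 + 0)) := tendsto_one_div_add_atTop_nhds_zero_nat.const_add 1
        have h2 := ((Complex.continuous_ofReal.tendsto _).comp h1).const_mul Complex.I
        simpa using h2
      · simp only [mem_compl_iff, mem_singleton_iff]
        intro h0
        have h1 : (((1 + 1 / ((n : ℝ) + 1) : ℝ) : ℂ)) = 1 := by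
          have := mul_left_cancel₀ Complex.I_ne_zero (h0.trans (mul_one _).symm)
          exact this
        have h2 : (1 + 1 / ((n : ℝ) + 1) : ℝ) = 1 := by exact_mod_cast h1
        have h3 : 0 < 1 / ((n : ℝ) + 1) := by positivity
        linarith
    refine ht.frequently (Filter.Frequently.of_forall fun n => ?_)
    exact Cplx_axis h (by positivity)
  exact hL.eqOn_of_preconnected_of_frequently_eq hR hconv.isPreconnected hIm hfreq ⟨hi, hr⟩

end RV15W
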