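import Mathlib
import Pool.Agent.RV15W.Defs
import Pool.Agent.RV15W.Bas
import Pool.Agent.RV15W.NonReal
import Pool.Agent.RV15W.Cplx

/-!
# RV15W/ArgA: the logarithmic potential along vertical lines

For `0 < x < 1/2`, `16/25 < y ≤ Y`:
`∫ Log (R - w(x+iY)) dν(R) - ∫ Log (R - w(x+iy)) dν(R) = ∫_y^Y 192 π (x+is)² Ψ(x+is) ds`.
Proof: `R - w(τ)` is in the open upper half plane (`wt_im`), `∂_s Log (R - w(x+is)) = -i w'(τ)/(R - w(τ))`; differentiate under
the integral (`ν` a probability on `[0,16]`; `|Im w|` is bounded below on compact subsets), `-i w'(τ) ∫ 1/(R-w) dν =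
192 π τ² Ψ(τ)` (`cplx`), continuous; fundamental theorem of calculus.
-/

set_option autoImplicit false

open MeasureTheory Set

namespace RV15W

theorem log_integrable {ν : Measure ℝ} (h : IsWalk ν) {w : ℂ} (hw : -w ∈ Complex.slitPlane) :
    Integrable (fun R : ℝ => Complex.log ((R : ℂ) - w)) ν := by
  obtain ⟨hp, hsupp, -⟩ := h
  have hmeas : Measurable (fun R : ℝ => Complex.log ((R : ℂ) - w)) :=
    Complex.measurable_log.comp (Complex.measurable_ofReal.sub_const w)
  have hslit : ∀ R ∈ Icc (0 : ℝ) 16, (R : ℂ) - w ∈ Complex.slitPlane := by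
    intro R hR
    rw [Complex.mem_slitPlane_iff] at hw ⊢
    simp only [Complex.neg_re, Complex.neg_im, Complex.sub_re, Complex.sub_im,
      Complex.ofReal_re, Complex.ofReal_im] at hw ⊢
    rcases hw with h1 | h1
    · left; linarith [hR.1]
    · right; simpa using h1
  have hcont : ContinuousOn (fun R : ℝ => Complex.log ((R : ℂ) - w)) (Icc (0 : ℝ) 16) := by
    intro R hR
    refine ContinuousAt.continuousWithinAt ?_
    exact (Complex.continuous_ofReal.continuousAt.sub continuousAt_const).clog (hslit R hR)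
  obtain ⟨C, hC⟩ := isCompact_Icc.exists_bound_of_continuousOn hcont
  refine Integrable.of_bound hmeas.aestronglyMeasurable C ?_
  have : ∀ᵐ R ∂ν, R ∈ Icc (0 : ℝ) 16 := by
    rw [ae_iff]
    exact hsupp
  filter_upwards [this] with R hR using hC R hR

/-- the point `x + i s` -/
theorem argA_re (x s : ℝ) : ((x : ℂ) + s * Complex.I).re = x := by simp
theorem argA_im (x s : ℝ) : ((x : ℂ) + s * Complex.I).im = s := by simp

theorem argA_qq_norm (x s : ℝ) (hs : 0 < s) : ‖qq (x + s * Complex.I)‖ < 1 := by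
  unfold qq
  rw [Complex.norm_exp]
  have : (2 * Real.pi * Complex.I * ((x : ℂ) + s * Complex.I)).re = -(2 * Real.pi * s) := by
    simp
  rw [this]
  rw [Real.exp_lt_one_iff]
  have := Real.pi_pos
  nlinarith [mul_pos this hs]

theorem argA_tau_deriv (x s : ℝ) :
    HasDerivAt (fun s : ℝ => (x : ℂ) + s * Complex.I) Complex.I s := by
  have h1 : HasDerivAt (fun s : ℝ => ((s : ℝ) : ℂ)) 1 s := by
    simpa using (hasDerivAt_id s).ofReal_comp
  simpa using (h1.mul_const Complex.I).const_add (x : ℂ)

/-- the derivative of `s ↦ w(x+is)` -/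
noncomputable def argAD (x s : ℝ) : ℂ :=
  2 * Real.pi * Complex.I * wt (x + s * Complex.I) *
    (ca (qq (x + s * Complex.I)) * ca (qq (x + s * Complex.I) ^ 2)) * Complex.I

theorem argA_wt_deriv (x s : ℝ) (hs : 0 < s) :
    HasDerivAt (fun s : ℝ => wt (x + s * Complex.I)) (argAD x s) s := by
  have him : 0 < ((x : ℂ) + s * Complex.I).im := by rw [argA_im]; exact hs
  have h := (dwt him).scomp s (argA_tau_deriv x s)
  have e : Complex.I • (2 * Real.pi * Complex.I * wt (x + s * Complex.I) *
    (ca (qq (x + s * Complex.I)) * ca (qq (x + s * Complex.I) ^ 2))) = argAD x s := by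
    rw [argAD, smul_eq_mul]; ring
  rw [e] at h
  exact h

theorem argA_log_deriv (R x s : ℝ) (hx0 : 0 < x) (hx1 : x < 1 / 2) (hs : 16 / 25 < s) :
    HasDerivAt (fun s : ℝ => Complex.log ((R : ℂ) - wt (x + s * Complex.I)))
      (-argAD x s * (1 / ((R : ℂ) - wt (x + s * Complex.I)))) s := by
  have him : (wt (x + s * Complex.I)).im < 0 :=
    wt_im (by rw [argA_im]; exact hs) (by rw [argA_re]; exact hx0) (by rw [argA_re]; exact hx1)
  have hsl : (R : ℂ) - wt (x + s * Complex.I) ∈ Complex.slitPlane := by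
    rw [Complex.mem_slitPlane_iff]
    right
    simp only [Complex.sub_im, Complex.ofReal_im]
    linarith
  have h := ((argA_wt_deriv x s (by linarith)).const_sub (R : ℂ)).clog_real hsl
  convert h using 1
  ring

theorem argA_qq_cont (x : ℝ) : Continuous (fun s : ℝ => qq (x + s * Complex.I)) := by
  unfold qq
  fun_prop

theorem argA_ca_cont (x : ℝ) :
    ContinuousOn (fun s : ℝ => ca (qq (x + s * Complex.I)) * ca (qq (x + s * Complex.I) ^ 2))
      (Ioi 0) := by
  refine ContinuousOn.mul ?_ ?_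
  · refine ca_diff.continuousOn.comp (argA_qq_cont x).continuousOn ?_
    intro s hs
    simpa using argA_qq_norm x s hs
  · refine ca_diff.continuousOn.comp ((argA_qq_cont x).pow 2).continuousOn ?_
    intro s hs
    have h1 := argA_qq_norm x s hs
    rw [mem_ball_zero_iff, norm_pow]
    exact pow_lt_one₀ (norm_nonneg _) h1 (by norm_num)

theorem argA_wt_cont (x : ℝ) :
    ContinuousOn (fun s : ℝ => wt (x + s * Complex.I)) (Ioi 0) := by
  intro s hs
  exact (argA_wt_deriv x s hs).continuousAt.continuousWithinAt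

theorem argA_D_cont (x : ℝ) : ContinuousOn (argAD x) (Ioi 0) := by
  unfold argAD
  exact ((continuousOn_const.mul (argA_wt_cont x)).mul (argA_ca_cont x)).mul continuousOn_const

theorem argA_pot_deriv {ν : Measure ℝ} (h : IsWalk ν) {x s : ℝ} (hx0 : 0 < x) (hx1 : x < 1 / 2)
    (hs : 16 / 25 < s) :
    HasDerivAt (fun s : ℝ => ∫ R, Complex.log ((R : ℂ) - wt (x + s * Complex.I)) ∂ν)
      (192 * Real.pi * ((x : ℂ) + s * Complex.I) ^ 2 * psi (qq (x + s * Complex.I))) s := by
  have : IsProbabilityMeasure ν := h.1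
  set K : Set ℝ := Icc ((16 / 25 + s) / 2) (s + 1) with hK
  have hKpos : K ⊆ Ioi 0 := by
    intro t ht
    have := ht.1
    simp only [mem_Ioi]
    linarith
  have hKgt : ∀ t ∈ K, 16 / 25 < t := by
    intro t ht
    have := ht.1
    linarith
  have hnb : K ∈ nhds s := Icc_mem_nhds (by linarith) (by linarith)
  obtain ⟨M, hM⟩ := isCompact_Icc.exists_bound_of_continuousOn ((argA_D_cont x).mono hKpos)
  have hne : K.Nonempty := ⟨s, by linarith, by linarith⟩
  have himc : ContinuousOn (fun t : ℝ => (wt (x + t * Complex.I)).im) K :=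
    Complex.continuous_im.comp_continuousOn ((argA_wt_cont x).mono hKpos)
  obtain ⟨t0, ht0, hmax⟩ := isCompact_Icc.exists_isMaxOn hne himc
  have hwim : ∀ t ∈ K, (wt (x + t * Complex.I)).im < 0 := fun t ht =>
    wt_im (by rw [argA_im]; exact hKgt t ht) (by rw [argA_re]; exact hx0)
      (by rw [argA_re]; exact hx1)
  set δ : ℝ := -(wt (x + t0 * Complex.I)).im with hδ
  have hδpos : 0 < δ := by have := hwim t0 ht0; linarith
  have hlow : ∀ t ∈ K, ∀ R : ℝ, δ ≤ ‖(R : ℂ) - wt (x + t * Complex.I)‖ := by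
    intro t ht R
    have h1 : (wt (x + t * Complex.I)).im ≤ (wt (x + t0 * Complex.I)).im := hmax ht
    have h2 := Complex.abs_im_le_norm ((R : ℂ) - wt (x + t * Complex.I))
    simp only [Complex.sub_im, Complex.ofReal_im, zero_sub, abs_neg] at h2
    have h3 := hwim t ht
    rw [abs_of_neg h3] at h2
    linarith
  have hM0 : 0 ≤ M := le_trans (norm_nonneg _) (hM s ⟨by linarith, by linarith⟩)
  have key := hasDerivAt_integral_of_dominated_loc_of_deriv_le (μ := ν) (𝕜 := ℝ)
    (F := fun (t : ℝ) (R : ℝ) => Complex.log ((R : ℂ) - wt (x + t * Complex.I)))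
    (F' := fun (t : ℝ) (R : ℝ) => -argAD x t * (1 / ((R : ℂ) - wt (x + t * Complex.I))))
    (x₀ := s) (s := K) (bound := fun _ => M * (1 / δ)) hnb
    (Filter.Eventually.of_forall fun t =>
      (Complex.measurable_log.comp
        (Complex.measurable_ofReal.sub_const _)).aestronglyMeasurable)
    (log_integrable h (wt_not (by rw [argA_im]; exact hs)
      (by rw [argA_re, abs_of_pos hx0]; exact hx1)))
    (by
      refine Measurable.aestronglyMeasurable ?_
      exact ((measurable_const.div (Complex.measurable_ofReal.sub_const _)).const_mul _))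
    (Filter.Eventually.of_forall fun R t ht => by
      rw [norm_mul, norm_neg, norm_div, norm_one]
      refine mul_le_mul (hM t ht) ?_ (by positivity) hM0
      exact one_div_le_one_div_of_le hδpos (hlow t ht R))
    (integrable_const _)
    (Filter.Eventually.of_forall fun R t ht => argA_log_deriv R x t hx0 hx1 (hKgt t ht))
  have hval : (∫ R : ℝ, -argAD x s * (1 / ((R : ℂ) - wt (x + s * Complex.I))) ∂ν)
      = 192 * Real.pi * ((x : ℂ) + s * Complex.I) ^ 2 * psi (qq (x + s * Complex.I)) := by
    rw [integral_const_mul]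
    have hc := cplx h (τ := (x : ℂ) + s * Complex.I) (by rw [argA_im]; exact hs)
      (by rw [argA_re, abs_of_pos hx0]; exact hx1)
    calc -argAD x s * ∫ R : ℝ, 1 / ((R : ℂ) - wt (x + s * Complex.I)) ∂ν
        = -Complex.I * (2 * Real.pi * Complex.I * wt (x + s * Complex.I) *
            (ca (qq (x + s * Complex.I)) * ca (qq (x + s * Complex.I) ^ 2)) *
            ∫ R : ℝ, 1 / ((R : ℂ) - wt (x + s * Complex.I)) ∂ν) := by
          rw [argAD]; ring
      _ = -Complex.I * (192 * Real.pi * Complex.I * ((x : ℂ) + s * Complex.I) ^ 2 *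
            psi (qq (x + s * Complex.I))) := by rw [hc]
      _ = -(Complex.I * Complex.I) * (192 * Real.pi * ((x : ℂ) + s * Complex.I) ^ 2 *
            psi (qq (x + s * Complex.I))) := by ring
      _ = _ := by rw [Complex.I_mul_I]; ring
  rw [hval] at key
  exact key.2

theorem argA {ν : Measure ℝ} (h : IsWalk ν) {x y Y : ℝ} (hx0 : 0 < x) (hx1 : x < 1 / 2)
    (hy : 16 / 25 < y) (hY : y ≤ Y) :
    (∫ R, Complex.log ((R : ℂ) - wt (x + Y * Complex.I)) ∂ν) -
      (∫ R, Complex.log ((R : ℂ) - wt (x + y * Complex.I)) ∂ν) =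
    ∫ s in y..Y, 192 * Real.pi * ((x : ℂ) + s * Complex.I) ^ 2 * psi (qq (x + s * Complex.I)) := by
  have key := intervalIntegral.integral_eq_sub_of_hasDerivAt (a := y) (b := Y)
    (f := fun s : ℝ => ∫ R, Complex.log ((R : ℂ) - wt (x + s * Complex.I)) ∂ν)
    (f' := fun s : ℝ => 192 * Real.pi * ((x : ℂ) + s * Complex.I) ^ 2 *
      psi (qq (x + s * Complex.I))) ?_ ?_
  · exact key.symm
  · intro s hs
    rw [uIcc_of_le hY] at hs
    exact argA_pot_deriv h hx0 hx1 (lt_of_lt_of_le hy hs.1)
  · refine ContinuousOn.intervalIntegrable ?_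
    rw [uIcc_of_le hY]
    refine ContinuousOn.mul ?_ ?_
    · fun_prop
    · refine psi_diff.continuousOn.comp (argA_qq_cont x).continuousOn ?_
      intro s hs
      have : 0 < s := by linarith [hs.1]
      simpa using argA_qq_norm x s this

end RV15W
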