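import Mathlib
import Pool.Agent.RV15W.Defs
import Pool.Agent.RV15W.Bas
import Pool.Agent.RV15W.NonReal

/-!
# RV15W/ArgB: the limits `x → 1/2`

* `argB1`: `w(x + iy) → w(1/2+iy) = wq (qm y) = exp (lr y) > 0` (`wq_pos`; `qq (1/2 + iy) = qm y`), and `-w(x+iy)` is in the
  upper half plane (`wt_im`), so `Im Log (R - w(x+iy)) → π` if `R < exp (lr y)`, `→ 0` if `R > exp (lr y)`, bounded by `π`;
  dominated convergence.
* `argB2`: uniform continuity of the integrand; at `x = 1/2`: `Im ((1/2+is)²) = s`, `psi (qm s)` real (`psi_ofReal`).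
-/

set_option autoImplicit false

open MeasureTheory Set Filter

namespace RV15W

private theorem ArgB_qm (s : ℝ) : qq (((1 / 2 : ℝ) : ℂ) + s * Complex.I) = qm s := by
  unfold qq qm
  have h : 2 * (Real.pi : ℂ) * Complex.I * (((1 / 2 : ℝ) : ℂ) + s * Complex.I)
      = Real.pi * Complex.I + ((-(2 * Real.pi * s) : ℝ) : ℂ) := by
    push_cast
    linear_combination (2 * (Real.pi : ℂ) * s) * Complex.I_sq
  rw [h, Complex.exp_add, Complex.exp_pi_mul_I, ← Complex.ofReal_exp]
  ring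

private theorem ArgB_qqn (x s : ℝ) :
    ‖qq (x + s * Complex.I)‖ = Real.exp (-(2 * Real.pi * s)) := by
  unfold qq
  rw [Complex.norm_exp]
  congr 1
  simp [Complex.mul_re, Complex.mul_im]

private theorem ArgB_qqn1 (x : ℝ) {s : ℝ} (hs : 0 < s) : ‖qq (x + s * Complex.I)‖ < 1 := by
  rw [ArgB_qqn, Real.exp_lt_one_iff]
  have := Real.pi_pos
  nlinarith [mul_pos this hs]

private theorem ArgB_qqc : Continuous qq := by
  unfold qq
  fun_prop

private theorem ArgB_Euc {q : ℂ} (hq : ‖q‖ < 1) {n : ℕ} (hn : n ≠ 0) :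
    ContinuousAt (fun z : ℂ => Eu (z ^ n)) q := by
  have h1 : ‖q ^ n‖ < 1 := by
    rw [norm_pow]
    exact pow_lt_one₀ (norm_nonneg _) hq hn
  have h2 : ContinuousAt Eu (q ^ n) :=
    Eu_diff.continuousOn.continuousAt (Metric.isOpen_ball.mem_nhds (by simpa using h1))
  exact ContinuousAt.comp (f := fun z : ℂ => z ^ n) h2 (by fun_prop)

private theorem ArgB_wqc {q : ℂ} (hq : ‖q‖ < 1) : ContinuousAt wq q := by
  have h1 := ArgB_Euc hq (n := 1) (by norm_num)
  have h2 := ArgB_Euc hq (n := 2) (by norm_num)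
  have h3 := ArgB_Euc hq (n := 3) (by norm_num)
  have h6 := ArgB_Euc hq (n := 6) (by norm_num)
  simp only [pow_one] at h1
  have n1 : Eu q ≠ 0 := Eu_ne hq
  have n3 : Eu (q ^ 3) ≠ 0 := Eu_ne (by
    rw [norm_pow]
    exact pow_lt_one₀ (norm_nonneg _) hq (by norm_num))
  have hf : ContinuousAt ff q := by
    unfold ff
    exact ((h2.mul h6).div (h1.mul h3) (mul_ne_zero n1 n3)).pow 6
  unfold wq
  exact (continuousAt_const.mul continuousAt_id).mul hf

private theorem ArgB_wtc {y : ℝ} (hy : 0 < y) :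
    ContinuousAt (fun x : ℝ => wt (x + y * Complex.I)) (1 / 2) := by
  have h1 : ContinuousAt wq (qq (((1 / 2 : ℝ) : ℂ) + y * Complex.I)) :=
    ArgB_wqc (ArgB_qqn1 _ hy)
  have h2 : Continuous (fun x : ℝ => qq (x + y * Complex.I)) :=
    ArgB_qqc.comp (by fun_prop)
  exact ContinuousAt.comp (f := fun x : ℝ => qq (x + y * Complex.I)) h1 h2.continuousAt

private theorem ArgB_W {y : ℝ} (hy : 0 < y) :
    wt (((1 / 2 : ℝ) : ℂ) + y * Complex.I) = (Real.exp (lr y) : ℂ) := by
  unfold wt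
  rw [ArgB_qm]
  have hpi := Real.pi_pos
  have e1 : Real.exp (-(2 * Real.pi * y)) < 1 := by
    rw [Real.exp_lt_one_iff]
    nlinarith [mul_pos hpi hy]
  have hq : qm y = ((-(Real.exp (-(2 * Real.pi * y))) : ℝ) : ℂ) := by
    unfold qm
    push_cast
    ring
  obtain ⟨h1, h2⟩ := wq_pos (q := -(Real.exp (-(2 * Real.pi * y))))
    (by linarith) (by linarith [Real.exp_pos (-(2 * Real.pi * y))])
  rw [← hq] at h1 h2
  have h3 : wq (qm y) = ((wq (qm y)).re : ℂ) := by
    apply Complex.ext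
    · simp
    · simpa using h2
  have h4 : ‖wq (qm y)‖ = (wq (qm y)).re := by
    rw [h3, Complex.norm_real, Real.norm_eq_abs, abs_of_pos h1]
    simp
  have h5 : Real.exp (lr y) = (wq (qm y)).re := by
    unfold lr
    rw [h4, Real.exp_log h1]
  rw [h5, ← h3]

theorem argB1 {ν : Measure ℝ} (h : IsWalk ν) {y : ℝ} (hy : 16 / 25 < y)
    (h0 : ν {Real.exp (lr y)} = 0) :
    Tendsto (fun x : ℝ => ∫ R, (Complex.log ((R : ℂ) - wt (x + y * Complex.I))).im ∂ν)
      (nhdsWithin (1 / 2) (Iio (1 / 2))) (nhds (Real.pi * (ν (Iio (Real.exp (lr y)))).toReal)) := by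
  have := h.1
  have hy0 : 0 < y := by linarith
  set W : ℝ := Real.exp (lr y) with hWd
  have hc : Tendsto (fun x : ℝ => wt (x + y * Complex.I)) (nhdsWithin (1 / 2) (Iio (1 / 2)))
      (nhds (W : ℂ)) := by
    have h1 := (ArgB_wtc hy0).tendsto
    rw [ArgB_W hy0] at h1
    exact h1.mono_left nhdsWithin_le_nhds
  have hev : ∀ᶠ x : ℝ in nhdsWithin (1 / 2) (Iio (1 / 2)), (wt (x + y * Complex.I)).im < 0 := by
    have h1 : ∀ᶠ x : ℝ in nhdsWithin (1 / 2) (Iio (1 / 2)), x < 1 / 2 := eventually_mem_nhdsWithin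
    have h2 : ∀ᶠ x : ℝ in nhdsWithin (1 / 2) (Iio (1 / 2)), 0 < x :=
      (eventually_gt_nhds (by norm_num : (0 : ℝ) < 1 / 2)).filter_mono nhdsWithin_le_nhds
    filter_upwards [h1, h2] with x hx1 hx2
    apply wt_im
    · simpa using hy
    · simpa using hx2
    · simpa using hx1
  have hI : ∫ R, (Iio W).indicator (fun _ => Real.pi) R ∂ν = Real.pi * (ν (Iio W)).toReal := by
    rw [integral_indicator_const _ measurableSet_Iio, smul_eq_mul, mul_comm]
    rfl
  rw [← hI]
  apply tendsto_integral_filter_of_dominated_convergence (fun _ => Real.pi)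
  · refine Eventually.of_forall fun x => Measurable.aestronglyMeasurable ?_
    exact Complex.measurable_im.comp (Complex.measurable_log.comp
      (Complex.measurable_ofReal.sub measurable_const))
  · refine Eventually.of_forall fun x => Eventually.of_forall fun R => ?_
    rw [Complex.log_im, Real.norm_eq_abs]
    exact Complex.abs_arg_le_pi _
  · exact integrable_const _
  · have hne : ∀ᵐ R ∂ν, R ≠ W := by
      rw [ae_iff]
      simpa using h0
    filter_upwards [hne] with R hR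
    simp only [Complex.log_im]
    have hl : Tendsto (fun x : ℝ => (R : ℂ) - wt (x + y * Complex.I))
        (nhdsWithin (1 / 2) (Iio (1 / 2))) (nhds ((R : ℂ) - W)) := tendsto_const_nhds.sub hc
    rcases lt_or_gt_of_ne hR with hlt | hgt
    · rw [indicator_of_mem (mem_Iio.mpr hlt)]
      have hz1 : ((R : ℂ) - W).re < 0 := by simpa using hlt
      have hz2 : ((R : ℂ) - W).im = 0 := by simp
      refine (Complex.tendsto_arg_nhdsWithin_im_nonneg_of_re_neg_of_im_zero hz1 hz2).comp ?_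
      refine tendsto_nhdsWithin_iff.mpr ⟨hl, ?_⟩
      filter_upwards [hev] with x hx
      have h5 : 0 ≤ ((R : ℂ) - wt (x + y * Complex.I)).im := by
        simp only [Complex.sub_im, Complex.ofReal_im]
        linarith
      exact h5
    · rw [indicator_of_notMem (by simpa using hgt.le)]
      have hz : ((R : ℂ) - W) ∈ Complex.slitPlane := by
        rw [Complex.mem_slitPlane_iff]
        left
        simpa using hgt
      have h1 := (Complex.continuousAt_arg hz).tendsto.comp hl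
      have h2 : Complex.arg ((R : ℂ) - W) = 0 := by
        rw [← Complex.ofReal_sub]
        exact Complex.arg_ofReal_of_nonneg (by linarith)
      rw [h2] at h1
      exact h1

private theorem ArgB_psic {q : ℂ} (hq : ‖q‖ < 1) : ContinuousAt psi q :=
  psi_diff.continuousOn.continuousAt (Metric.isOpen_ball.mem_nhds (by simpa using hq))

private noncomputable def ArgB_G (x s : ℝ) : ℂ :=
  192 * Real.pi * ((x : ℂ) + s * Complex.I) ^ 2 * psi (qq (x + s * Complex.I))

private theorem ArgB_gc (p : ℝ × ℝ) (hp : 0 < p.2) :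
    ContinuousAt (fun p : ℝ × ℝ => ArgB_G p.1 p.2) p := by
  have h2 : Continuous (fun p : ℝ × ℝ => qq ((p.1 : ℂ) + p.2 * Complex.I)) :=
    ArgB_qqc.comp (by fun_prop)
  have h3 : ContinuousAt (fun p : ℝ × ℝ => psi (qq ((p.1 : ℂ) + p.2 * Complex.I))) p :=
    ContinuousAt.comp (f := fun p : ℝ × ℝ => qq ((p.1 : ℂ) + p.2 * Complex.I))
      (ArgB_psic (ArgB_qqn1 _ hp)) h2.continuousAt
  unfold ArgB_G
  refine ContinuousAt.mul ?_ h3
  fun_prop

private theorem ArgB_gx (x : ℝ) {s : ℝ} (hs : 0 < s) :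
    ContinuousAt (fun s : ℝ => ArgB_G x s) s :=
  ContinuousAt.comp (f := fun s : ℝ => (x, s)) (g := fun p : ℝ × ℝ => ArgB_G p.1 p.2)
    (ArgB_gc (x, s) hs) (by fun_prop)

private theorem ArgB_gs (x : ℝ) {s : ℝ} (hs : 0 < s) :
    ContinuousAt (fun x : ℝ => ArgB_G x s) x :=
  ContinuousAt.comp (f := fun x : ℝ => (x, s)) (g := fun p : ℝ × ℝ => ArgB_G p.1 p.2)
    (ArgB_gc (x, s) hs) (by fun_prop)

private theorem ArgB_im (s : ℝ) : (ArgB_G (1 / 2) s).im = 192 * Real.pi * (s * Ps s) := by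
  unfold ArgB_G
  rw [ArgB_qm]
  have hq : qm s = ((-(Real.exp (-(2 * Real.pi * s))) : ℝ) : ℂ) := by
    unfold qm
    push_cast
    ring
  have h2 : psi (qm s) = (Ps s : ℂ) := by
    unfold Ps
    rw [hq]
    exact (psi_ofReal _).symm
  rw [h2]
  have h3 : (192 * (Real.pi : ℂ) * (((1 / 2 : ℝ) : ℂ) + s * Complex.I) ^ 2 * (Ps s : ℂ))
      = ((192 * Real.pi * (1 / 4 - s ^ 2) * Ps s : ℝ) : ℂ)
        + ((192 * Real.pi * (s * Ps s) : ℝ) : ℂ) * Complex.I := by
    push_cast
    linear_combination (192 * (Real.pi : ℂ) * s ^ 2 * (Ps s : ℂ)) * Complex.I_sq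
  rw [h3, Complex.add_im, Complex.ofReal_im, Complex.mul_I_im, Complex.ofReal_re, zero_add]

theorem argB2 {y Y : ℝ} (hy : 16 / 25 < y) (hY : y ≤ Y) :
    Tendsto (fun x : ℝ => (∫ s in y..Y, 192 * Real.pi * ((x : ℂ) + s * Complex.I) ^ 2 *
        psi (qq (x + s * Complex.I))).im)
      (nhdsWithin (1 / 2) (Iio (1 / 2))) (nhds (192 * Real.pi * ∫ s in y..Y, s * Ps s)) := by
  have hy0 : 0 < y := by linarith
  change Tendsto (fun x : ℝ => (∫ s in y..Y, ArgB_G x s).im)
    (nhdsWithin (1 / 2) (Iio (1 / 2))) (nhds (192 * Real.pi * ∫ s in y..Y, s * Ps s))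
  have hK : IsCompact (Icc (0 : ℝ) 1 ×ˢ Icc y Y) := isCompact_Icc.prod isCompact_Icc
  have hcK : ContinuousOn (fun p : ℝ × ℝ => ArgB_G p.1 p.2) (Icc (0 : ℝ) 1 ×ˢ Icc y Y) := by
    rintro ⟨a, b⟩ ⟨-, hb⟩
    exact (ArgB_gc (a, b) (lt_of_lt_of_le hy0 hb.1)).continuousWithinAt
  obtain ⟨C, hC⟩ := hK.exists_bound_of_continuousOn hcK
  have hcx : ∀ x : ℝ, ContinuousOn (fun s : ℝ => ArgB_G x s) (Icc y Y) := by
    intro x s hs
    exact (ArgB_gx x (lt_of_lt_of_le hy0 hs.1)).continuousWithinAt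
  have hmain : Tendsto (fun x : ℝ => ∫ s in y..Y, ArgB_G x s) (nhdsWithin (1 / 2) (Iio (1 / 2)))
      (nhds (∫ s in y..Y, ArgB_G (1 / 2) s)) := by
    apply intervalIntegral.tendsto_integral_filter_of_dominated_convergence (fun _ => C)
    · refine Eventually.of_forall fun x => ?_
      rw [uIoc_of_le hY]
      exact ((hcx x).mono Ioc_subset_Icc_self).aestronglyMeasurable measurableSet_Ioc
    · have h1 : ∀ᶠ x : ℝ in nhdsWithin (1 / 2) (Iio (1 / 2)), x < 1 / 2 :=
        eventually_mem_nhdsWithin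
      have h2 : ∀ᶠ x : ℝ in nhdsWithin (1 / 2) (Iio (1 / 2)), 0 < x :=
        (eventually_gt_nhds (by norm_num : (0 : ℝ) < 1 / 2)).filter_mono nhdsWithin_le_nhds
      filter_upwards [h1, h2] with x hx1 hx2
      refine Eventually.of_forall fun s hs => ?_
      rw [uIoc_of_le hY] at hs
      exact hC (x, s) ⟨⟨hx2.le, by linarith⟩, ⟨hs.1.le, hs.2⟩⟩
    · exact intervalIntegrable_const
    · refine Eventually.of_forall fun s hs => ?_
      rw [uIoc_of_le hY] at hs
      exact (ArgB_gs (1 / 2) (lt_trans hy0 hs.1)).tendsto.mono_left nhdsWithin_le_nhds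
  have him := (Complex.continuous_im.tendsto _).comp hmain
  have hval : (∫ s in y..Y, ArgB_G (1 / 2) s).im = 192 * Real.pi * ∫ s in y..Y, s * Ps s := by
    have hint : IntervalIntegrable (fun s : ℝ => ArgB_G (1 / 2) s) volume y Y := by
      apply ContinuousOn.intervalIntegrable
      rw [uIcc_of_le hY]
      exact hcx (1 / 2)
    have h1 := Complex.imCLM.intervalIntegral_comp_comm hint
    simp only [Complex.imCLM_apply] at h1
    rw [← h1, ← intervalIntegral.integral_const_mul]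
    apply intervalIntegral.integral_congr
    intro s hs
    exact ArgB_im s
  rw [← hval]
  exact him

end RV15W
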