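import Mathlib
import Pool.Agent.RV15W.Defs
import Pool.Agent.RV15W.Bas
import Pool.Agent.RV15W.Alg
import Pool.Agent.RV15W.NonReal

/-!
# RV15W/Lr: `lr` on `(16/25, ∞)`

`lr' (y) = -2π a(q) a(q²)` at `q = -exp(-2πy)` (`dT`, logarithmic derivative; `Re (q f'/f)` is real), negative by `aa_pos`.
`lr y → -∞` as `y → ∞` since `wq q → 0`.
-/

set_option autoImplicit false

open MeasureTheory Set Filter

namespace RV15W

/-- the negative of the derivative of `lr` -/
noncomputable def dlr (y : ℝ) : ℝ :=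
  2 * Real.pi * (ra (-Real.exp (-(2 * Real.pi * y))) * ra ((-Real.exp (-(2 * Real.pi * y))) ^ 2))

private noncomputable def rr (y : ℝ) : ℝ := -Real.exp (-(2 * Real.pi * y))

private theorem rr_abs {y : ℝ} (hy : 0 < y) : |rr y| < 1 := by
  have h : 0 < 2 * Real.pi * y := by positivity
  rw [rr, abs_neg, abs_of_pos (Real.exp_pos _)]
  rw [← Real.exp_zero]
  exact Real.exp_lt_exp.mpr (by linarith)

private theorem rr_ne (y : ℝ) : rr y ≠ 0 := by
  rw [rr]; exact neg_ne_zero.mpr (Real.exp_pos _).ne'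

private theorem qm_eq (y : ℝ) : qm y = ((rr y : ℝ) : ℂ) := by
  rw [qm, rr]; push_cast; rfl

private theorem rT_ne {r : ℝ} (h : |r| < 1) (h0 : r ≠ 0) : rT r ≠ 0 := by
  have h2 : |r ^ 2| < 1 := by
    rw [abs_pow]; exact pow_lt_one₀ (abs_nonneg _) h (by norm_num)
  have h3 : |r ^ 3| < 1 := by
    rw [abs_pow]; exact pow_lt_one₀ (abs_nonneg _) h (by norm_num)
  have h6 : |r ^ 6| < 1 := by
    rw [abs_pow]; exact pow_lt_one₀ (abs_nonneg _) h (by norm_num)
  rw [rT]
  have := rE_pos h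
  have := rE_pos h2
  have := rE_pos h3
  have := rE_pos h6
  positivity

private theorem lr_eq {y : ℝ} (hy : 0 < y) : lr y = Real.log (-64 * rT (rr y)) := by
  have h : wq (qm y) = ((-64 * rT (rr y) : ℝ) : ℂ) := by
    have h1 : wq (qm y) = -64 * TT (qm y) := by rw [wq, TT]; ring
    rw [h1, qm_eq, TT_ofReal (rr_abs hy)]
    push_cast
    rfl
  rw [lr, h, Complex.norm_real, Real.norm_eq_abs, Real.log_abs]

private theorem rr_deriv (y : ℝ) : HasDerivAt rr (-(2 * Real.pi) * rr y) y := by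
  have h1 : HasDerivAt (fun y : ℝ => -(2 * Real.pi * y)) (-(2 * Real.pi)) y := by
    have h := ((hasDerivAt_id y).const_mul (-(2 * Real.pi)))
    rw [mul_one] at h
    refine h.congr_of_eventuallyEq (Filter.Eventually.of_forall fun s => ?_)
    simp
  have h2 := h1.exp.neg
  have h3 : -(Real.exp (-(2 * Real.pi * y)) * -(2 * Real.pi)) = -(2 * Real.pi) * rr y := by
    rw [rr]; ring
  rw [h3] at h2
  exact h2

private theorem g_deriv {y : ℝ} (hy : 0 < y) :
    HasDerivAt (fun s => rT (rr s)) (-dlr y * rT (rr y)) y := by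
  have hb : ‖((rr y : ℝ) : ℂ)‖ < 1 := by
    rw [Complex.norm_real, Real.norm_eq_abs]; exact rr_abs hy
  have hT : HasDerivAt TT (deriv TT ((rr y : ℝ) : ℂ)) ((rr y : ℝ) : ℂ) := by
    have := TT_diff.differentiableAt (x := ((rr y : ℝ) : ℂ))
      (Metric.isOpen_ball.mem_nhds (by simpa using hb))
    exact this.hasDerivAt
  have hq : HasDerivAt (fun s : ℝ => ((rr s : ℝ) : ℂ)) ((-(2 * Real.pi) * rr y : ℝ) : ℂ) y :=
    (rr_deriv y).ofReal_comp
  have hc := hT.comp y hq
  have hd : qd TT ((rr y : ℝ) : ℂ) = TT ((rr y : ℝ) : ℂ) *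
      (ca ((rr y : ℝ) : ℂ) * ca (((rr y : ℝ) : ℂ) ^ 2)) := dT hb
  have hval : deriv TT ((rr y : ℝ) : ℂ) * ((-(2 * Real.pi) * rr y : ℝ) : ℂ) =
      ((-dlr y * rT (rr y) : ℝ) : ℂ) := by
    rw [qd, TT_ofReal (rr_abs hy), ← Complex.ofReal_pow, ca_ofReal, ca_ofReal] at hd
    have hdl : dlr y = 2 * Real.pi * (ra (rr y) * ra ((rr y) ^ 2)) := rfl
    rw [hdl]
    push_cast
    linear_combination (-(2 * (Real.pi : ℂ))) * hd
  rw [hval] at hc
  have hre := Complex.reCLM.hasFDerivAt.comp_hasDerivAt y hc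
  have hre2 : HasDerivAt (fun s : ℝ => (TT ((rr s : ℝ) : ℂ)).re) (-dlr y * rT (rr y)) y := by
    have h5 : Complex.reCLM ((-dlr y * rT (rr y) : ℝ) : ℂ) = -dlr y * rT (rr y) := by
      rw [Complex.reCLM_apply, Complex.ofReal_re]
    rw [h5] at hre
    exact hre
  refine hre2.congr_of_eventuallyEq ?_
  filter_upwards [Ioi_mem_nhds hy] with s hs
  rw [TT_ofReal (rr_abs hs), Complex.ofReal_re]

theorem lr_deriv {y : ℝ} (hy : 0 < y) : HasDerivAt lr (-dlr y) y := by
  have hg := g_deriv hy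
  have hne : -64 * rT (rr y) ≠ 0 :=
    mul_ne_zero (by norm_num) (rT_ne (rr_abs hy) (rr_ne y))
  have h1 := (hg.const_mul (-64)).log hne
  have h2 : -64 * (-dlr y * rT (rr y)) / (-64 * rT (rr y)) = -dlr y := by
    have h0 := rT_ne (rr_abs hy) (rr_ne y)
    field_simp
  rw [h2] at h1
  refine h1.congr_of_eventuallyEq ?_
  filter_upwards [Ioi_mem_nhds hy] with s hs
  exact lr_eq hs

theorem dlr_cont : ContinuousOn dlr (Ioi 0) := by
  intro y hy
  have hr : ContinuousAt rr y := (rr_deriv y).continuousAt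
  have h1 : ContinuousAt (fun s => ra (rr s)) y :=
    ContinuousAt.comp (ra_diff (rr_abs hy)).continuousAt hr
  have h2' : |rr y ^ 2| < 1 := by
    rw [abs_pow]; exact pow_lt_one₀ (abs_nonneg _) (rr_abs hy) (by norm_num)
  have h2 : ContinuousAt (fun s => ra (rr s ^ 2)) y :=
    ContinuousAt.comp (f := fun s => rr s ^ 2) (ra_diff h2').continuousAt (hr.pow 2)
  exact (continuousAt_const.mul (h1.mul h2)).continuousWithinAt

private theorem rr_small {y : ℝ} (hy : 16 / 25 < y) : |rr y| ≤ 0.0181 := by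
  have h := qq_small (τ := (y : ℂ) * Complex.I) (by simpa using hy)
  have h2 : ‖qq ((y : ℂ) * Complex.I)‖ = |rr y| := by
    rw [qq, Complex.norm_exp, rr, abs_neg, abs_of_pos (Real.exp_pos _)]
    congr 1
    have : 2 * (Real.pi : ℂ) * Complex.I * ((y : ℂ) * Complex.I) =
        ((-(2 * Real.pi * y) : ℝ) : ℂ) := by
      push_cast
      linear_combination (2 * (Real.pi : ℂ) * y) * Complex.I_mul_I
    rw [this, Complex.ofReal_re]
  rw [h2] at h
  exact h.le

theorem dlr_pos {y : ℝ} (hy : 16 / 25 < y) : 0 < dlr y :=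
  mul_pos (by positivity) (aa_pos (rr_small hy))

theorem dlr_le {y : ℝ} (hy : 16 / 25 < y) : dlr y ≤ 20 := by
  have h1 : ra (rr y) * ra (rr y ^ 2) ≤ 3 := aa_le (rr_small hy)
  have h2 : dlr y = 2 * Real.pi * (ra (rr y) * ra ((rr y) ^ 2)) := rfl
  have h3 := Real.pi_lt_d2
  rw [h2]
  calc 2 * Real.pi * (ra (rr y) * ra ((rr y) ^ 2)) ≤ 2 * Real.pi * 3 :=
        mul_le_mul_of_nonneg_left h1 (by positivity)
    _ ≤ 20 := by linarith

theorem lr_anti : StrictAntiOn lr (Ioi (16 / 25)) := by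
  refine strictAntiOn_of_deriv_neg (convex_Ioi _) ?_ ?_
  · intro y hy
    have hy0 : 0 < y := lt_trans (by norm_num) hy
    exact (lr_deriv hy0).continuousAt.continuousWithinAt
  · intro y hy
    rw [interior_Ioi] at hy
    have hy0 : 0 < y := lt_trans (by norm_num) hy
    rw [(lr_deriv hy0).deriv]
    have := dlr_pos hy
    linarith

theorem lr_bot : Tendsto lr atTop atBot := by
  have hr : Tendsto rr atTop (nhds 0) := by
    have h1 : Tendsto (fun y : ℝ => 2 * Real.pi * y) atTop atTop :=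
      tendsto_id.const_mul_atTop (by positivity)
    have h2 := (Real.tendsto_exp_neg_atTop_nhds_zero.comp h1).neg
    rw [neg_zero] at h2
    exact h2
  have h0 : rT 0 = 0 := by rw [rT, zero_mul]
  have hT : Tendsto (fun y => -64 * rT (rr y)) atTop (nhds 0) := by
    have h3 : Tendsto rT (nhds 0) (nhds 0) := by
      have := rT_cont
      rw [ContinuousAt, h0] at this
      exact this
    have h4 := (h3.comp hr).const_mul (-64)
    rw [mul_zero] at h4
    exact h4
  have hT2 : Tendsto (fun y => -64 * rT (rr y)) atTop (nhdsWithin 0 {0}ᶜ) := by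
    refine tendsto_nhdsWithin_iff.mpr ⟨hT, ?_⟩
    filter_upwards [eventually_gt_atTop 0] with y hy
    exact mul_ne_zero (by norm_num) (rT_ne (rr_abs hy) (rr_ne y))
  have h5 := Real.tendsto_log_nhdsNE_zero.comp hT2
  refine h5.congr' ?_
  filter_upwards [eventually_gt_atTop 0] with y hy
  exact (lr_eq hy).symm

end RV15W
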