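import Mathlib
import Pool.Agent.RV15W.Defs
import Pool.Agent.RV15W.Bas
import Pool.Agent.RV15W.ArgA
import Pool.Agent.RV15W.ArgB
import Pool.Agent.RV15W.Lr
import Pool.Agent.RV15W.Law

/-!
# RV15W/Arg: the distribution function of `ν` on `[0, exp (lr y)]`

For `y > 16/25` with `ν {exp (lr y)} = 0`: `ν(Iio (exp (lr y))) = -192 ∫_y^∞ s Ps(s) ds`.
Proof: by `argA` (imaginary parts), `argB1`, `argB2`, for `y < Y` with both `exp (lr y)`, `exp (lr Y)` not atoms of `ν`:
`π ν(Iio (exp (lr Y))) - π ν(Iio (exp (lr y))) = 192π ∫_y^Y s Ps`.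
Let `Y → ∞` through such points: the atoms of `ν` are countably many and `lr` is strictly decreasing (`lr_anti`), so
the bad `Y` are countable and there is a sequence of good `Y_k → ∞`; `exp (lr Y) → 0` (`lr_bot`), `ν(Iic 0) = 0` by `law0` and
`ν (Icc 0 16)ᶜ = 0`; so `ν(Iio (exp (lr Y_k))) → 0`.  `Ps_int`: `Ps_le`, `Ps_cont`.
-/

set_option autoImplicit false

open MeasureTheory Set

namespace RV15W

theorem Ps_int {y : ℝ} (hy : 0 < y) : IntegrableOn (fun s => s * Ps s) (Ioi y) := by
  refine integrable_of_isBigO_exp_neg (b := 1) one_pos ?_ ?_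
  · refine (continuousOn_id.mul Ps_cont).mono fun s hs => ?_
    exact lt_of_lt_of_le hy hs
  · obtain ⟨C, hC⟩ := Ps_le hy
    refine Asymptotics.IsBigO.of_bound C ?_
    filter_upwards [Filter.eventually_ge_atTop y] with s hs
    have hs0 : 0 < s := lt_of_lt_of_le hy hs
    have h1 := hC s hs
    have h2 : s ≤ Real.exp s := by linarith [Real.add_one_le_exp s]
    have h3 : Real.exp s * Real.exp (-(2 * Real.pi * s)) ≤ Real.exp (-1 * s) := by
      rw [← Real.exp_add]
      apply Real.exp_le_exp.mpr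
      nlinarith [Real.pi_gt_three]
    have hC0 : 0 ≤ C := by
      by_contra hneg
      push Not at hneg
      have h4 : C * Real.exp (-(2 * Real.pi * s)) < 0 :=
        mul_neg_of_neg_of_pos hneg (Real.exp_pos _)
      linarith [abs_nonneg (Ps s)]
    rw [Real.norm_eq_abs, Real.norm_eq_abs, abs_mul, abs_of_pos hs0,
      abs_of_pos (Real.exp_pos (-1 * s))]
    calc s * |Ps s| ≤ Real.exp s * (C * Real.exp (-(2 * Real.pi * s))) :=
          mul_le_mul h2 h1 (abs_nonneg _) (Real.exp_pos _).le
      _ = C * (Real.exp s * Real.exp (-(2 * Real.pi * s))) := by ring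
      _ ≤ C * Real.exp (-1 * s) := mul_le_mul_of_nonneg_left h3 hC0

private theorem arg_fin {ν : Measure ℝ} (h : IsWalk ν) {y Y : ℝ} (hy : 16 / 25 < y) (hY : y ≤ Y)
    (h0 : ν {Real.exp (lr y)} = 0) (h1 : ν {Real.exp (lr Y)} = 0) :
    (ν (Iio (Real.exp (lr Y)))).toReal - (ν (Iio (Real.exp (lr y)))).toReal
      = 192 * ∫ s in y..Y, s * Ps s := by
  have hl1 := (argB1 h (lt_of_lt_of_le hy hY) h1).sub (argB1 h hy h0)
  have hl2 := argB2 hy hY
  have he : (fun x : ℝ => (∫ R, (Complex.log ((R : ℂ) - wt (x + Y * Complex.I))).im ∂ν)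
      - ∫ R, (Complex.log ((R : ℂ) - wt (x + y * Complex.I))).im ∂ν)
      =ᶠ[nhdsWithin (1 / 2) (Iio (1 / 2))]
      (fun x : ℝ => (∫ s in y..Y, 192 * Real.pi * ((x : ℂ) + s * Complex.I) ^ 2 *
        psi (qq (x + s * Complex.I))).im) := by
    have hmem : Ioo (0 : ℝ) (1 / 2) ∈ nhdsWithin (1 / 2 : ℝ) (Iio (1 / 2)) :=
      Ioo_mem_nhdsLT (by norm_num)
    filter_upwards [hmem] with x hx
    have hw : ∀ s : ℝ, 16 / 25 < s → -wt (x + s * Complex.I) ∈ Complex.slitPlane := by
      intro s hs
      refine wt_not ?_ ?_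
      · simpa using hs
      · have : ((x : ℂ) + s * Complex.I).re = x := by simp
        rw [this, abs_of_pos hx.1]
        exact hx.2
    rw [← argA h hx.1 hx.2 hy hY, Complex.sub_im]
    have e1 := integral_im (𝕜 := ℂ) (log_integrable h (hw Y (lt_of_lt_of_le hy hY)))
    have e2 := integral_im (𝕜 := ℂ) (log_integrable h (hw y hy))
    simp only [RCLike.im_eq_complex_im] at e1 e2
    rw [e1, e2]
  have h3 := tendsto_nhds_unique (hl1.congr' he) hl2
  have hp := Real.pi_pos
  have h4 : Real.pi * ((ν (Iio (Real.exp (lr Y)))).toReal - (ν (Iio (Real.exp (lr y)))).toReal)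
      = Real.pi * (192 * ∫ s in y..Y, s * Ps s) := by linarith
  exact mul_left_cancel₀ hp.ne' h4

theorem arg_law {ν : Measure ℝ} (h : IsWalk ν) {y : ℝ} (hy : 16 / 25 < y)
    (h0 : ν {Real.exp (lr y)} = 0) :
    (ν (Iio (Real.exp (lr y)))).toReal = -192 * ∫ s in Ioi y, s * Ps s := by
  have : IsProbabilityMeasure ν := h.1
  -- the bad points
  have hc : Set.Countable {t : ℝ | 0 < ν {a : ℝ | id a = t}} :=
    Measure.countable_meas_level_set_pos measurable_id
  set B : Set ℝ := Ioi (16 / 25) ∩ (fun s => Real.exp (lr s)) ⁻¹' {t : ℝ | 0 < ν {a : ℝ | id a = t}}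
    with hB
  have hinj : InjOn (fun s => Real.exp (lr s)) (Ioi (16 / 25)) := by
    intro a ha b hb hab
    exact lr_anti.injOn ha hb (Real.exp_injective hab)
  have hBc : B.Countable := by
    refine Set.MapsTo.countable_of_injOn (f := fun s => Real.exp (lr s))
      (t := {t : ℝ | 0 < ν {a : ℝ | id a = t}}) ?_ ?_ hc
    · intro s hs; exact hs.2
    · exact hinj.mono inter_subset_left
  have hd : Dense (Bᶜ) := hBc.dense_compl ℝ
  have hex : ∀ k : ℕ, ∃ s ∈ Bᶜ, max y k < s ∧ s < max y k + 1 := fun k =>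
    hd.exists_between (by linarith)
  choose Y hYB hY1 hY2 using hex
  have hYy : ∀ k, y < Y k := fun k => lt_of_le_of_lt (le_max_left _ _) (hY1 k)
  have hYk : ∀ k : ℕ, (k : ℝ) ≤ Y k := fun k => (lt_of_le_of_lt (le_max_right _ _) (hY1 k)).le
  have hYt : Filter.Tendsto Y Filter.atTop Filter.atTop :=
    Filter.tendsto_atTop_mono hYk tendsto_natCast_atTop_atTop
  have hgood : ∀ k, ν {Real.exp (lr (Y k))} = 0 := by
    intro k
    by_contra hne
    apply hYB k
    refine ⟨lt_trans hy (hYy k), ?_⟩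
    have : {a : ℝ | id a = Real.exp (lr (Y k))} = {Real.exp (lr (Y k))} := by
      ext a; simp
    show 0 < ν {a : ℝ | id a = Real.exp (lr (Y k))}
    rw [this]
    exact pos_iff_ne_zero.mpr hne
  have hfin : ∀ k, (ν (Iio (Real.exp (lr (Y k))))).toReal - (ν (Iio (Real.exp (lr y)))).toReal
      = 192 * ∫ s in y..Y k, s * Ps s := fun k => arg_fin h hy (hYy k).le h0 (hgood k)
  have hlim1 : Filter.Tendsto (fun k => ∫ s in y..Y k, s * Ps s) Filter.atTop
      (nhds (∫ s in Ioi y, s * Ps s)) :=
    intervalIntegral_tendsto_integral_Ioi y (Ps_int (by linarith)) hYt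
  have hexp : Filter.Tendsto (fun k => Real.exp (lr (Y k))) Filter.atTop (nhds 0) :=
    Real.tendsto_exp_atBot.comp (lr_bot.comp hYt)
  have hpos : ∀ᵐ x ∂ν, 0 < x := by
    have h2 : ν (Iic 0) = 0 := by
      refine measure_mono_null (t := (Icc 0 16)ᶜ ∪ {0}) ?_ ?_
      · intro x hx
        rcases eq_or_lt_of_le (show x ≤ 0 from hx) with hx0 | hx0
        · right; exact hx0
        · left
          intro hx1
          exact absurd hx1.1 (not_le.mpr hx0)
      · exact measure_union_null h.2.1 (law0 h)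
    rw [ae_iff]
    have : {a : ℝ | ¬ 0 < a} = Iic 0 := by ext a; simp
    rw [this]
    exact h2
  have hlim2 : Filter.Tendsto (fun k => (ν (Iio (Real.exp (lr (Y k))))).toReal) Filter.atTop
      (nhds 0) := by
    have key : Filter.Tendsto (fun k => ∫ x, (Iio (Real.exp (lr (Y k)))).indicator
        (fun _ => (1 : ℝ)) x ∂ν) Filter.atTop (nhds (∫ _, (0 : ℝ) ∂ν)) := by
      refine tendsto_integral_of_dominated_convergence (fun _ => (1 : ℝ)) ?_ ?_ ?_ ?_
      · intro k
        exact (measurable_const.indicator measurableSet_Iio).aestronglyMeasurable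
      · exact integrable_const _
      · intro k
        refine Filter.Eventually.of_forall fun x => ?_
        by_cases hx : x ∈ Iio (Real.exp (lr (Y k)))
        · rw [indicator_of_mem hx]; simp
        · rw [indicator_of_notMem hx]; simp
      · filter_upwards [hpos] with x hx
        have he : ∀ᶠ k in Filter.atTop, Real.exp (lr (Y k)) < x :=
          hexp.eventually (gt_mem_nhds hx)
        refine Filter.Tendsto.congr' (f₁ := fun _ => (0 : ℝ)) ?_ tendsto_const_nhds
        filter_upwards [he] with k hk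
        rw [indicator_of_notMem]
        simp only [mem_Iio, not_lt]
        exact hk.le
    simp only [integral_zero] at key
    refine key.congr fun k => ?_
    rw [integral_indicator measurableSet_Iio]
    simp [Measure.real]
  have h5 := tendsto_nhds_unique
    (((hlim2.sub (tendsto_const_nhds (x := (ν (Iio (Real.exp (lr y)))).toReal)))).congr hfin)
    (hlim1.const_mul 192)
  linarith

end RV15W
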