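import Mathlib
import Pool.Agent.RV15W.Defs
import Pool.Agent.RV15W.Bas
import Pool.Agent.RV15W.Alg
import Pool.Agent.RV15W.Re
import Pool.Agent.RV15W.Fri
import Pool.Agent.RV15W.NonReal

/-!
# RV15W/CM: `w(-1/2 + i√15/6) = 1`

`τ0 = -1/2 + i√15/6`, `τ' = (τ0+1)/2 = -1/(3τ0)`.  `q0 = qq τ0 = qq (τ0+1) = (qq τ')²`.  By `ca_fricke`,
`a(qq τ') = (√3 τ0/i) a(q0)`, so with `x' = a(qq τ')`, `z' = a((qq τ')²) = a(q0) ≠ 0`: `t' = x'/z' = √3τ0/i = (√5+i√3)/2`.
`bb(q0)/a(q0)³ = (2 - t')(t'+1)²/4 = (1+√5)/2` by `rel_B2` at `qq τ'`, and by `rel_B1` at `q0` with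
`t = a(q0)/a(q0²)` (real, `t ≥ ...`; `a(q0²) ≠ 0`): `bb(q0)/a(q0)³ = (t+1)(t-2)²/(2t³)`.  So
`(t+1)(t-2)² = (1+√5) t³`, i.e. `√5 t³ + 3t² - 4 = 0 = (√5 t - 2)(t² + √5 t + 2)`, and `t² + √5 t + 2 > 0` (discriminant `-3`):
`t = 2/√5`, `TT q0 = (t²-1)/(4(4-t²)) = -1/64` (`rel_T`), `wq q0 = 1`, `lr = log 1 = 0`.
-/

set_option autoImplicit false

namespace RV15W

private theorem CM_norm_qq {τ : ℂ} (h : 0 < τ.im) : ‖qq τ‖ < 1 := by
  unfold qq
  rw [Complex.norm_exp]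
  have h1 : (2 * Real.pi * Complex.I * τ).re = -(2 * Real.pi * τ.im) := by
    simp [Complex.mul_re, Complex.mul_im]
  rw [h1, Real.exp_lt_one_iff]
  have := mul_pos Real.pi_pos h
  linarith

private theorem CM_key (y : ℝ) (hy : y = Real.sqrt 15 / 6) :
    bb (qm y) * 2 = ca (qm y) ^ 3 * (1 + (Real.sqrt 5 : ℂ)) := by
  have h15 : Real.sqrt 15 = Real.sqrt 3 * Real.sqrt 5 := by
    rw [← Real.sqrt_mul (by norm_num)]
    norm_num
  have h3 : Real.sqrt 3 * Real.sqrt 3 = 3 := Real.mul_self_sqrt (by norm_num)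
  have h5 : Real.sqrt 5 * Real.sqrt 5 = 5 := Real.mul_self_sqrt (by norm_num)
  have h3c : (Real.sqrt 3 : ℂ) * (Real.sqrt 3 : ℂ) = 3 := by exact_mod_cast h3
  have h5c : (Real.sqrt 5 : ℂ) * (Real.sqrt 5 : ℂ) = 5 := by exact_mod_cast h5
  have h15p : 0 < Real.sqrt 15 := Real.sqrt_pos.mpr (by norm_num)
  have hyp : 0 < y := by rw [hy]; positivity
  have hyc : (y : ℂ) = (Real.sqrt 3 : ℂ) * (Real.sqrt 5 : ℂ) / 6 := by
    rw [hy, h15]; push_cast; ring
  set τ0 : ℂ := -1 / 2 + y * Complex.I with hτ0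
  set τ1 : ℂ := (1 / 2 + y * Complex.I) / 2 with hτ1
  have him0 : 0 < τ0.im := by
    have : τ0.im = y := by simp [hτ0]
    rw [this]; exact hyp
  have him1 : 0 < τ1.im := by
    have : τ1.im = y / 2 := by
      have e : τ1 = ((1 / 4 : ℝ) : ℂ) + ((y / 2 : ℝ) : ℂ) * Complex.I := by
        rw [hτ1]; push_cast; ring
      rw [e]; simp
    rw [this]; linarith
  have hτ0ne : τ0 ≠ 0 := by
    intro h
    rw [h] at him0
    simp at him0
  have hI : Complex.I * Complex.I = -1 := Complex.I_mul_I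
  have hyy : (y : ℂ) * y = 5 / 12 := by
    rw [hyc]
    linear_combination (Real.sqrt 5 : ℂ) * (Real.sqrt 5 : ℂ) / 36 * h3c + 3 / 36 * h5c
  have hτ : -1 / (3 * τ0) = τ1 := by
    rw [div_eq_iff (mul_ne_zero (by norm_num) hτ0ne), hτ1, hτ0]
    linear_combination (-3 / 2 * (y : ℂ) * y) * hI + 3 / 2 * hyy
  have hq0 : qq τ0 = qm y := by
    unfold qq qm
    have : 2 * (Real.pi : ℂ) * Complex.I * τ0 =
        ((-(2 * Real.pi * y) : ℝ) : ℂ) - Real.pi * Complex.I := by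
      rw [hτ0]; push_cast
      linear_combination (2 * (Real.pi : ℂ) * y) * hI
    rw [this, Complex.exp_sub, Complex.exp_pi_mul_I, Complex.ofReal_exp]
    ring
  have hq1 : qq τ1 ^ 2 = qm y := by
    rw [← hq0]
    unfold qq
    rw [← Complex.exp_nat_mul]
    have : ((2 : ℕ) : ℂ) * (2 * (Real.pi : ℂ) * Complex.I * τ1) =
        2 * (Real.pi : ℂ) * Complex.I * τ0 + 2 * Real.pi * Complex.I := by
      rw [hτ0, hτ1]; push_cast; ring
    rw [this, Complex.exp_add, Complex.exp_two_pi_mul_I, mul_one]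
  have hF := ca_fricke τ0 him0
  rw [hτ, hq0] at hF
  have hs : (Real.sqrt 3 : ℂ) * τ0 / Complex.I = ((Real.sqrt 5 : ℂ) + Complex.I * Real.sqrt 3) / 2 := by
    rw [div_eq_iff Complex.I_ne_zero, hτ0, hyc]
    linear_combination ((Real.sqrt 5 : ℂ) * Complex.I / 6) * h3c - (Real.sqrt 3 : ℂ) / 2 * hI
  rw [hs] at hF
  have hB := rel_B2 (CM_norm_qq him1)
  rw [hq1, hF] at hB
  rw [hB]
  set s3 : ℂ := (Real.sqrt 3 : ℂ) with hs3
  set s5 : ℂ := (Real.sqrt 5 : ℂ) with hs5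
  set z : ℂ := ca (qm y) with hz
  have h1 : (2 * z - (s5 + Complex.I * s3) / 2 * z) * ((s5 + Complex.I * s3) / 2 * z + z) ^ 2 / 4 * 2
      - z ^ 3 * (1 + s5) = 0 := by
    have hI2 : Complex.I ^ 2 = -1 := by rw [sq, hI]
    have hI3 : Complex.I ^ 3 = -Complex.I := by rw [pow_succ, hI2]; ring
    have h32 : s3 ^ 2 = 3 := by rw [sq, h3c]
    have h33 : s3 ^ 3 = 3 * s3 := by rw [pow_succ, h32]
    have h52 : s5 ^ 2 = 5 := by rw [sq, h5c]
    have h53 : s5 ^ 3 = 5 * s5 := by rw [pow_succ, h52]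
    ring_nf
    simp only [hI2, hI3, h32, h33, h52, h53]
    ring
  exact sub_eq_zero.mp h1

theorem lr_cm : lr (Real.sqrt 15 / 6) = 0 := by
  set y : ℝ := Real.sqrt 15 / 6 with hy
  have hyp : 0 < y := by
    have : 0 < Real.sqrt 15 := Real.sqrt_pos.mpr (by norm_num)
    rw [hy]; positivity
  have hkey := CM_key y hy
  set r : ℝ := -Real.exp (-(2 * Real.pi * y)) with hr
  have hqm : qm y = (r : ℂ) := by unfold qm; rw [hr]; push_cast; rfl
  have hexp : Real.exp (-(2 * Real.pi * y)) < 1 := by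
    rw [Real.exp_lt_one_iff]
    have := mul_pos Real.pi_pos hyp
    linarith
  have hr1 : |r| < 1 := by
    rw [hr, abs_neg, abs_of_pos (Real.exp_pos _)]
    exact hexp
  have hq : ‖qm y‖ < 1 := by rw [hqm]; simpa using hr1
  have hx : ca (qm y) = (ra r : ℂ) := by rw [hqm, ca_ofReal]
  have hz : ca (qm y ^ 2) = (ra (r ^ 2) : ℂ) := by
    rw [hqm, ← Complex.ofReal_pow, ca_ofReal]
  have hB := rel_B1 hq
  have hT := rel_T hq
  have hal : 2 * ca (qm y ^ 2) - ca (qm y) ≠ 0 := by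
    rw [← al_eq hq]; exact al_ne hq
  rw [hx, hz] at hB hT hal
  rw [hx, hB] at hkey
  set x : ℝ := ra r with hxd
  set z : ℝ := ra (r ^ 2) with hzd
  have h1 : (x + z) * (x - 2 * z) ^ 2 = x ^ 3 * (1 + Real.sqrt 5) := by
    have : (((x + z) * (x - 2 * z) ^ 2 : ℝ) : ℂ) = ((x ^ 3 * (1 + Real.sqrt 5) : ℝ) : ℂ) := by
      push_cast
      rw [← hkey]
      ring
    exact_mod_cast this
  have h5 : Real.sqrt 5 * Real.sqrt 5 = 5 := Real.mul_self_sqrt (by norm_num)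
  have hne : 2 * z - x ≠ 0 := by
    intro h
    apply hal
    exact_mod_cast h
  have h2 : (Real.sqrt 5 * x - 2 * z) * (x ^ 2 + Real.sqrt 5 * x * z + 2 * z ^ 2) = 0 := by
    linear_combination (-1 : ℝ) * h1 + (x ^ 2 * z) * h5
  have h3 : 0 < x ^ 2 + Real.sqrt 5 * x * z + 2 * z ^ 2 := by
    have h4 : x ^ 2 + Real.sqrt 5 * x * z + 2 * z ^ 2 =
        (x + Real.sqrt 5 / 2 * z) ^ 2 + 3 / 4 * z ^ 2 := by
      linear_combination (-(1 / 4 : ℝ) * z ^ 2) * h5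
    rw [h4]
    rcases eq_or_ne z 0 with h0 | h0
    · have hx0 : x ≠ 0 := by
        intro hx0
        apply hne
        rw [h0, hx0]; ring
      rw [h0]
      have : 0 < x ^ 2 := by positivity
      nlinarith
    · have : 0 < z ^ 2 := by positivity
      nlinarith [sq_nonneg (x + Real.sqrt 5 / 2 * z)]
  have h6 : Real.sqrt 5 * x = 2 * z := by
    rcases mul_eq_zero.mp h2 with h | h
    · linarith
    · exact absurd h h3.ne'
  have h7 : 4 * z ^ 2 = 5 * x ^ 2 := by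
    have : 4 * z ^ 2 = (Real.sqrt 5 * x) ^ 2 := by rw [h6]; ring
    rw [this]
    linear_combination (x ^ 2) * h5
  have hx0 : x ≠ 0 := by
    intro h
    have hz0 : z = 0 := by
      rw [h] at h6
      linarith
    apply hne
    rw [h, hz0]; ring
  have h7c : 4 * (z : ℂ) ^ 2 = 5 * (x : ℂ) ^ 2 := by exact_mod_cast h7
  have hxc : (x : ℂ) ^ 2 ≠ 0 := by
    have : (x : ℂ) ≠ 0 := by exact_mod_cast hx0
    exact pow_ne_zero 2 this
  have h8 : TT (qm y) = -1 / 64 := by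
    have h9 : (x : ℂ) ^ 2 * (TT (qm y) - (-1 / 64)) = 0 := by
      linear_combination (1 / 16) * hT + (-(TT (qm y)) / 4 - 1 / 64) * h7c
    rcases mul_eq_zero.mp h9 with h | h
    · exact absurd h hxc
    · exact sub_eq_zero.mp h
  have h10 : wq (qm y) = 1 := by
    have : wq (qm y) = -64 * TT (qm y) := by unfold wq TT; ring
    rw [this, h8]; norm_num
  unfold lr
  rw [h10]
  simp

theorem y0_gt : (16 : ℝ) / 25 < Real.sqrt 15 / 6 := by
  have : (96 / 25 : ℝ) < Real.sqrt 15 := by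
    apply Real.lt_sqrt_of_sq_lt
    norm_num
  linarith

end RV15W
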