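import Mathlib
import Pool.Agent.RV15W.Defs
import Pool.Agent.RV15W.Bas
import Pool.Agent.RV15W.Arg
import Pool.Agent.RV15W.Lr
import Pool.Agent.RV15W.CM

/-!
# RV15W/Fin: `∫ log⁺ x dν = ∫ log x dν + 192 ∫_{y0}^∞ s Ps lr ds`, `y0 = √15/6`

For `0 < x < 1` let `y_x > y0` be the point with `lr y_x = log x` (`lr` is a strictly decreasing bijection
`(y0,∞) → (-∞,0)`).  `{s > y0 : x < exp (lr s)} = (y0, y_x)`, so `∫_{y0}^∞ 1_{x < exp (lr s)} dlr(s) ds = -log x`.
Layer cake: `∫_{(0,1)} -log x dν = ∫_0^∞ ν(Iio (exp (-t))) dt = ∫_{y0}^∞ dlr(s) ν(Iio (exp (lr s))) ds`, by `arg_law`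
(atoms are countably many, `lr` injective, so the exceptional set of `s` is null)
`= ∫_{y0}^∞ dlr(s) (-192 ∫_s^∞ u Ps(u) du) ds`, and integration by parts gives `192 ∫_{y0}^∞ u Ps(u) lr(u) du`.
Integrability: `dlr` is bounded (`dlr_le`) on `(y0,∞)`, `|lr u| ≤ 20 u`, `Ps u = O(e^(-2πu))`.
-/

set_option autoImplicit false

open MeasureTheory Set

namespace RV15W

private noncomputable def Fin_y0 : ℝ := Real.sqrt 15 / 6

private theorem Fin_y0_gt : (16 : ℝ) / 25 < Fin_y0 := y0_gt

private theorem Fin_y0_pos : 0 < Fin_y0 := lt_trans (by norm_num) Fin_y0_gt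

private noncomputable def Fin_H (s : ℝ) : ℝ := ∫ u in Ioi s, u * Ps u

private theorem Fin_cont : ContinuousOn (fun u => u * Ps u) (Ioi 0) :=
  continuousOn_id.mul Ps_cont

private theorem Fin_H_deriv {s : ℝ} (hs : 0 < s) : HasDerivAt Fin_H (-(s * Ps s)) s := by
  have h2 : 0 < s / 2 := by linarith
  have hI : IntegrableOn (fun u => u * Ps u) (Ioi (s / 2)) := Ps_int h2
  have hev : ∀ᶠ t in nhds s, s / 2 < t := (isOpen_lt continuous_const continuous_id).mem_nhds
    (show s / 2 < s by linarith)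
  have heq : Fin_H =ᶠ[nhds s] fun t => (∫ u in Ioi (s / 2), u * Ps u) -
      ∫ u in (s / 2)..t, u * Ps u := by
    filter_upwards [hev] with t ht
    have hI2 : IntegrableOn (fun u => u * Ps u) (Ioi t) := hI.mono_set (Ioi_subset_Ioi ht.le)
    have hI3 : IntervalIntegrable (fun u => u * Ps u) volume (s / 2) t := by
      rw [intervalIntegrable_iff_integrableOn_Ioc_of_le ht.le]
      exact hI.mono_set Ioc_subset_Ioi_self
    have := intervalIntegral.integral_interval_add_Ioi hI hI2
    unfold Fin_H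
    linarith
  refine HasDerivAt.congr_of_eventuallyEq ?_ heq
  have hI3 : IntervalIntegrable (fun u => u * Ps u) volume (s / 2) s := by
    rw [intervalIntegrable_iff_integrableOn_Ioc_of_le (by linarith)]
    exact hI.mono_set Ioc_subset_Ioi_self
  have hc : ContinuousAt (fun u => u * Ps u) s :=
    Fin_cont.continuousAt (Ioi_mem_nhds hs)
  have hm : StronglyMeasurableAtFilter (fun u => u * Ps u) (nhds s) volume :=
    Fin_cont.stronglyMeasurableAtFilter isOpen_Ioi s hs
  have hd := intervalIntegral.integral_hasDerivAt_right hI3 hm hc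
  exact ((hasDerivAt_const s (∫ u in Ioi (s / 2), u * Ps u)).sub hd).congr_deriv (zero_sub _)

private theorem Fin_bound : ∃ C : ℝ, 0 ≤ C ∧ ∀ s : ℝ, Fin_y0 ≤ s →
    |s * Ps s| ≤ C * Real.exp (-Real.pi * s) := by
  obtain ⟨C, hC⟩ := Ps_le Fin_y0_pos
  have hC0 : 0 ≤ C := by
    have := (abs_nonneg _).trans (hC Fin_y0 le_rfl)
    by_contra h
    push Not at h
    have := mul_neg_of_neg_of_pos h (Real.exp_pos (-(2 * Real.pi * Fin_y0)))
    linarith
  refine ⟨C, hC0, fun s hs => ?_⟩
  have hs0 : 0 < s := lt_of_lt_of_le Fin_y0_pos hs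
  have h1 : s ≤ Real.exp (Real.pi * s) := by
    have h2 := Real.add_one_le_exp (Real.pi * s)
    nlinarith [Real.pi_gt_three]
  rw [abs_mul, abs_of_pos hs0]
  calc s * |Ps s| ≤ Real.exp (Real.pi * s) * (C * Real.exp (-(2 * Real.pi * s))) :=
        mul_le_mul h1 (hC s hs) (abs_nonneg _) (Real.exp_pos _).le
    _ = C * (Real.exp (Real.pi * s) * Real.exp (-(2 * Real.pi * s))) := by ring
    _ = C * Real.exp (-Real.pi * s) := by
        rw [← Real.exp_add]
        congr 2
        ring

private theorem Fin_H_bound : ∃ C : ℝ, 0 ≤ C ∧ ∀ s : ℝ, Fin_y0 ≤ s →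
    |Fin_H s| ≤ C * Real.exp (-Real.pi * s) := by
  obtain ⟨C, hC0, hC⟩ := Fin_bound
  refine ⟨C / Real.pi, by positivity, fun s hs => ?_⟩
  have hneg : -Real.pi < 0 := by linarith [Real.pi_pos]
  have hI : IntegrableOn (fun u : ℝ => C * Real.exp (-Real.pi * u)) (Ioi s) :=
    (integrableOn_exp_mul_Ioi hneg s).const_mul C
  have h1 : ‖∫ u in Ioi s, u * Ps u‖ ≤ ∫ u in Ioi s, C * Real.exp (-Real.pi * u) := by
    refine norm_integral_le_of_norm_le hI ?_
    refine (ae_restrict_mem measurableSet_Ioi).mono fun u hu => ?_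
    rw [Real.norm_eq_abs]
    exact hC u (hs.trans (le_of_lt hu))
  rw [integral_const_mul, integral_exp_mul_Ioi hneg, Real.norm_eq_abs] at h1
  unfold Fin_H
  refine h1.trans (le_of_eq ?_)
  field_simp

private theorem Fin_lr_bound {s : ℝ} (hs : Fin_y0 ≤ s) : |lr s| ≤ 20 * s := by
  have hs1 : 16 / 25 < s := lt_of_lt_of_le Fin_y0_gt hs
  have h := (convex_Ioi ((16 : ℝ) / 25)).norm_image_sub_le_of_norm_hasDerivWithin_le
    (f := lr) (f' := fun y => -dlr y) (C := 20) (x := Fin_y0) (y := s)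
    (fun y hy => (lr_deriv (lt_trans (by norm_num) hy)).hasDerivWithinAt)
    (fun y hy => by
      rw [norm_neg, Real.norm_eq_abs, abs_of_pos (dlr_pos hy)]
      exact dlr_le hy) Fin_y0_gt hs1
  have h0 : lr Fin_y0 = 0 := lr_cm
  have h1 : |s - Fin_y0| = s - Fin_y0 := abs_of_nonneg (by linarith)
  rw [h0, sub_zero, Real.norm_eq_abs, Real.norm_eq_abs, h1] at h
  have h2 := Fin_y0_pos
  linarith

/-- the image of `(y0, ∞)` under `-lr` -/
private theorem Fin_image : (fun s => -lr s) '' Ioi Fin_y0 = Ioi 0 := by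
  have h0 : lr Fin_y0 = 0 := lr_cm
  ext t
  constructor
  · rintro ⟨s, hs, rfl⟩
    have h1 := lr_anti Fin_y0_gt (lt_trans Fin_y0_gt hs) hs
    rw [h0] at h1
    show 0 < -lr s
    linarith
  · intro ht
    obtain ⟨S, hS1, hS2⟩ : ∃ S, Fin_y0 ≤ S ∧ lr S ≤ -t := by
      have h1 := (lr_bot.eventually (Filter.eventually_le_atBot (-t))).and
        (Filter.eventually_ge_atTop Fin_y0)
      obtain ⟨S, hS⟩ := h1.exists
      exact ⟨S, hS.2, hS.1⟩
    have hc : ContinuousOn lr (Icc Fin_y0 S) := fun y hy =>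
      (lr_deriv (lt_of_lt_of_le Fin_y0_pos hy.1)).continuousAt.continuousWithinAt
    have ht0 : (0 : ℝ) < t := ht
    have hmem : -t ∈ Icc (lr S) (lr Fin_y0) := ⟨hS2, by rw [h0]; linarith⟩
    obtain ⟨s, hs, hst⟩ := intermediate_value_Icc' hS1 hc hmem
    refine ⟨s, ?_, ?_⟩
    · rcases eq_or_lt_of_le hs.1 with h | h
      · rw [← h, h0] at hst
        linarith
      · exact h
    · show -lr s = t
      rw [hst, neg_neg]

private theorem Fin_inj : InjOn (fun s => -lr s) (Ioi Fin_y0) := by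
  intro a ha b hb h
  refine lr_anti.injOn (lt_trans Fin_y0_gt ha) (lt_trans Fin_y0_gt hb) ?_
  have : -lr a = -lr b := h
  linarith

/-- the atoms give a null set of parameters -/
private theorem Fin_atoms (ν : Measure ℝ) [IsProbabilityMeasure ν] :
    ∀ᵐ s ∂(volume.restrict (Ioi Fin_y0)), ν {Real.exp (lr s)} = 0 := by
  have hc : Set.Countable {t : ℝ | 0 < ν {a : ℝ | id a = t}} :=
    Measure.countable_meas_level_set_pos measurable_id
  set B : Set ℝ := {s | s ∈ Ioi Fin_y0 ∧ ν {Real.exp (lr s)} ≠ 0} with hB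
  have hBc : B.Countable := by
    refine Set.countable_of_injective_of_countable_image (f := fun s => Real.exp (lr s)) ?_ ?_
    · intro a ha b hb h
      have h2 : lr a = lr b := Real.exp_injective h
      exact lr_anti.injOn (lt_trans Fin_y0_gt ha.1) (lt_trans Fin_y0_gt hb.1) h2
    · refine hc.mono ?_
      rintro _ ⟨s, hs, rfl⟩
      have h3 : {a : ℝ | id a = Real.exp (lr s)} = {Real.exp (lr s)} := by
        ext a
        simp
      show 0 < ν {a : ℝ | id a = Real.exp (lr s)}
      rw [h3]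
      exact pos_iff_ne_zero.mpr hs.2
  rw [ae_restrict_iff' measurableSet_Ioi, ae_iff]
  refine measure_mono_null ?_ (hBc.measure_zero volume)
  intro s hs
  exact Classical.not_imp.mp hs

theorem fin_law {ν : Measure ℝ} (h : IsWalk ν) (hl : Integrable Real.log ν) :
    ∫ x, max (Real.log x) 0 ∂ν = ∫ x, Real.log x ∂ν +
      192 * ∫ s in Ioi (Real.sqrt 15 / 6), s * Ps s * lr s := by
  have : IsProbabilityMeasure ν := h.1
  have hy0 : Real.sqrt 15 / 6 = Fin_y0 := rfl
  rw [hy0]
  -- almost every point is in `(0, 16]`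
  have hpos : ∀ᵐ x ∂ν, 0 < x := by
    have h1 : ∀ᵐ x ∂ν, x ∈ Icc (0 : ℝ) 16 := by
      rw [ae_iff]
      exact h.2.1
    have h2 : ∀ᵐ x ∂ν, x ≠ 0 := by
      rw [ae_iff]
      have : {a : ℝ | ¬ a ≠ 0} = {0} := by
        ext a
        simp
      rw [this]
      exact law0 h
    filter_upwards [h1, h2] with x hx hx0
    exact lt_of_le_of_ne hx.1 (Ne.symm hx0)
  have hint1 : Integrable (fun x => max (Real.log x) 0) ν := hl.pos_part
  have hint2 : Integrable (fun x => max (-Real.log x) 0) ν := hl.neg.pos_part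
  have hsplit : ∫ x, max (Real.log x) 0 ∂ν = ∫ x, Real.log x ∂ν +
      ∫ x, max (-Real.log x) 0 ∂ν := by
    rw [← integral_add hl hint2]
    refine integral_congr_ae (Filter.Eventually.of_forall fun x => ?_)
    show max (Real.log x) 0 = Real.log x + max (-Real.log x) 0
    rcases le_total (Real.log x) 0 with h1 | h1
    · rw [max_eq_right h1, max_eq_left (by linarith)]
      ring
    · rw [max_eq_left h1, max_eq_right (by linarith)]
      ring
  rw [hsplit]
  congr 1
  -- layer cake
  have hnn : 0 ≤ᵐ[ν] fun x => max (-Real.log x) 0 :=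
    Filter.Eventually.of_forall fun x => le_max_right _ _
  rw [hint2.integral_eq_integral_meas_lt hnn]
  have hG : ∀ t ∈ Ioi (0 : ℝ), ν.real {a : ℝ | t < max (-Real.log a) 0} =
      ν.real (Iio (Real.exp (-t))) := by
    intro t ht
    have ht0 : (0 : ℝ) < t := ht
    refine measureReal_congr ?_
    filter_upwards [hpos] with x hx
    refine propext ?_
    show t < max (-Real.log x) 0 ↔ x < Real.exp (-t)
    rw [lt_max_iff]
    constructor
    · rintro (h1 | h1)
      · rw [← Real.log_lt_iff_lt_exp hx]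
        linarith
      · linarith
    · intro h1
      left
      have := (Real.log_lt_iff_lt_exp hx).mpr h1
      linarith
  rw [setIntegral_congr_fun measurableSet_Ioi hG, ← Fin_image]
  rw [integral_image_eq_integral_abs_deriv_smul (f' := fun s => dlr s) measurableSet_Ioi
    (fun s hs => by
      have := (lr_deriv (lt_trans Fin_y0_pos hs)).neg
      rw [neg_neg] at this
      exact this.hasDerivWithinAt) Fin_inj]
  -- use `arg_law`
  have hstep : ∫ s in Ioi Fin_y0, |dlr s| • ν.real (Iio (Real.exp (-(-lr s)))) =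
      ∫ s in Ioi Fin_y0, -192 * (dlr s * Fin_H s) := by
    refine integral_congr_ae ?_
    filter_upwards [Fin_atoms ν, ae_restrict_mem measurableSet_Ioi] with s hs hs1
    have hs2 : 16 / 25 < s := lt_trans Fin_y0_gt hs1
    have h3 := arg_law h hs2 hs
    rw [neg_neg, abs_of_pos (dlr_pos hs2), smul_eq_mul]
    have h4 : ν.real (Iio (Real.exp (lr s))) = -192 * Fin_H s := h3
    rw [h4]
    ring
  rw [hstep]
  -- integration by parts
  obtain ⟨C, hC0, hC⟩ := Fin_H_bound
  obtain ⟨D, hD0, hD⟩ := Fin_bound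
  have hneg : -Real.pi < 0 := by linarith [Real.pi_pos]
  have hsub : Ioi Fin_y0 ⊆ Ioi (0 : ℝ) := Ioi_subset_Ioi Fin_y0_pos.le
  have hHc : ContinuousOn Fin_H (Ioi 0) := fun s hs =>
    (Fin_H_deriv hs).continuousAt.continuousWithinAt
  have hlc : ContinuousOn lr (Ioi 0) := fun s hs =>
    (lr_deriv hs).continuousAt.continuousWithinAt
  have hi1 : IntegrableOn (fun s => dlr s * Fin_H s) (Ioi Fin_y0) := by
    refine Integrable.mono' (g := fun s => 20 * (C * Real.exp (-Real.pi * s)))
      (((integrableOn_exp_mul_Ioi hneg Fin_y0).const_mul C).const_mul 20) ?_ ?_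
    · exact ((dlr_cont.mul hHc).mono hsub).aestronglyMeasurable measurableSet_Ioi
    · refine (ae_restrict_mem measurableSet_Ioi).mono fun s hs => ?_
      have hs2 : 16 / 25 < s := lt_trans Fin_y0_gt hs
      rw [norm_mul, Real.norm_eq_abs, Real.norm_eq_abs, abs_of_pos (dlr_pos hs2)]
      exact mul_le_mul (dlr_le hs2) (hC s (le_of_lt hs)) (abs_nonneg _) (by norm_num)
  have hexp : ∀ s : ℝ, 0 < s → s * Real.exp (-Real.pi * s) ≤ Real.exp (-(1:ℝ) * s) := by
    intro s hs
    have h1 : s ≤ Real.exp ((Real.pi - 1) * s) := by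
      have h2 := Real.add_one_le_exp ((Real.pi - 1) * s)
      nlinarith [Real.pi_gt_three]
    calc s * Real.exp (-Real.pi * s) ≤ Real.exp ((Real.pi - 1) * s) * Real.exp (-Real.pi * s) :=
          mul_le_mul_of_nonneg_right h1 (Real.exp_pos _).le
      _ = Real.exp (-(1:ℝ) * s) := by
          rw [← Real.exp_add]
          congr 1
          ring
  have hi2 : IntegrableOn (fun s => s * Ps s * lr s) (Ioi Fin_y0) := by
    refine Integrable.mono' (g := fun s => 20 * D * Real.exp (-(1:ℝ) * s))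
      ((integrableOn_exp_mul_Ioi (by norm_num) Fin_y0).const_mul (20 * D)) ?_ ?_
    · exact ((Fin_cont.mul hlc).mono hsub).aestronglyMeasurable measurableSet_Ioi
    · refine (ae_restrict_mem measurableSet_Ioi).mono fun s hs => ?_
      have hs0 : 0 < s := lt_trans Fin_y0_pos hs
      rw [norm_mul, Real.norm_eq_abs, Real.norm_eq_abs]
      calc |s * Ps s| * |lr s| ≤ (D * Real.exp (-Real.pi * s)) * (20 * s) :=
            mul_le_mul (hD s (le_of_lt hs)) (Fin_lr_bound (le_of_lt hs)) (abs_nonneg _)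
              (by positivity)
        _ = 20 * D * (s * Real.exp (-Real.pi * s)) := by ring
        _ ≤ 20 * D * Real.exp (-(1:ℝ) * s) :=
            mul_le_mul_of_nonneg_left (hexp s hs0) (by positivity)
  have hparts : ∫ s in Ioi Fin_y0, (-(dlr s * Fin_H s) - s * Ps s * lr s) =
      0 - lr Fin_y0 * Fin_H Fin_y0 := by
    refine integral_Ioi_of_hasDerivAt_of_tendsto' (f := fun s => lr s * Fin_H s) ?_ ?_ ?_
    · intro s hs
      have hs0 : 0 < s := lt_of_lt_of_le Fin_y0_pos hs
      have := (lr_deriv hs0).mul (Fin_H_deriv hs0)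
      refine this.congr_deriv ?_
      ring
    · exact hi1.neg.sub hi2
    · refine squeeze_zero_norm' (a := fun s => 20 * C * Real.exp (-(1:ℝ) * s)) ?_ ?_
      · filter_upwards [Filter.eventually_ge_atTop Fin_y0] with s hs
        have hs0 : 0 < s := lt_of_lt_of_le Fin_y0_pos hs
        rw [norm_mul, Real.norm_eq_abs, Real.norm_eq_abs]
        calc |lr s| * |Fin_H s| ≤ (20 * s) * (C * Real.exp (-Real.pi * s)) :=
              mul_le_mul (Fin_lr_bound hs) (hC s hs) (abs_nonneg _) (by positivity)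
          _ = 20 * C * (s * Real.exp (-Real.pi * s)) := by ring
          _ ≤ 20 * C * Real.exp (-(1:ℝ) * s) :=
              mul_le_mul_of_nonneg_left (hexp s hs0) (by positivity)
      · have h1 : Filter.Tendsto (fun s : ℝ => Real.exp (-(1:ℝ) * s)) Filter.atTop (nhds 0) := by
          refine Real.tendsto_exp_atBot.comp ?_
          refine Filter.tendsto_neg_atTop_atBot.congr fun s => ?_
          ring
        simpa using h1.const_mul (20 * C)
  have h0 : lr Fin_y0 = 0 := lr_cm
  rw [h0, zero_mul, sub_zero] at hparts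
  have hsub2 : ∫ s in Ioi Fin_y0, (-(dlr s * Fin_H s) - s * Ps s * lr s) =
      -(∫ s in Ioi Fin_y0, dlr s * Fin_H s) - ∫ s in Ioi Fin_y0, s * Ps s * lr s := by
    have h1 := integral_sub (μ := volume.restrict (Ioi Fin_y0)) hi1.neg hi2
    have h2 : ∫ s in Ioi Fin_y0, (-fun s => dlr s * Fin_H s) s =
        -∫ s in Ioi Fin_y0, dlr s * Fin_H s := integral_neg _
    rw [h2] at h1
    exact h1
  rw [hsub2] at hparts
  rw [integral_const_mul]
  linarith

end RV15W
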