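import Mathlib
import Pool.Agent.RV15W.Defs
import Pool.Agent.RV15W.Mom

/-!
# RV15W/Jen: `m5 = (1/2) ∫ log⁺ x dnu`

* Jensen in `d`: `∫_0^1 log ‖Y + e d‖ dd = log⁺ ‖Y‖ = max (log ‖Y‖) 0` (Mathlib, `circleAverage`).
* For fixed `a, b`: the function `c ↦ log⁺ ‖1 + e a + e b + e c‖` has period 1, so its integral over `(0,1)` equals that of
  `c ↦ log⁺ ‖1 + e a + e b + e (b+c)‖ = log⁺ ‖YY (a,b,c)‖`.
* `log⁺ ‖YY‖` is continuous and bounded; the iterated integral is the integral over the product.
  `log⁺ ‖Y‖ = (1/2) max (log (‖Y‖^2)) 0`; `integral_map`.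
-/

set_option autoImplicit false

open MeasureTheory Set

namespace RV15W

private theorem jen_d (Y : ℂ) :
    ∫ d in (0:ℝ)..1, Real.log ‖Y + e d‖ = Real.posLog ‖Y‖ := by
  have h1 := circleAverage_log_norm_add_const_eq_posLog (a := Y)
  rw [Real.circleAverage_def] at h1
  have h2 : ∀ d : ℝ, Real.log ‖Y + e d‖
      = (fun θ : ℝ => Real.log ‖circleMap 0 1 θ + Y‖) (2 * Real.pi * d) := by
    intro d
    simp only [e, circleMap]
    congr 2
    push_cast
    ring
  have h3 := intervalIntegral.integral_comp_mul_left (a := 0) (b := 1)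
    (fun θ : ℝ => Real.log ‖circleMap 0 1 θ + Y‖) (by positivity : (2 * Real.pi) ≠ 0)
  rw [intervalIntegral.integral_congr (fun d _ => h2 d)]
  rw [h3, ← h1]
  simp

private theorem e_add (a b : ℝ) : e (a + b) = e a * e b := by
  simp only [e]
  rw [← Complex.exp_add]
  congr 1
  push_cast
  ring

private theorem e_one : e 1 = 1 := by
  simp only [e]
  rw [Complex.ofReal_one, mul_one]
  exact Complex.exp_two_pi_mul_I

private theorem jen_shift (A : ℂ) (b : ℝ) :
    ∫ c in (0:ℝ)..1, Real.posLog ‖A + e c‖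
      = ∫ c in (0:ℝ)..1, Real.posLog ‖A + e (b + c)‖ := by
  have hper : Function.Periodic (fun c : ℝ => Real.posLog ‖A + e c‖) 1 := by
    intro c
    simp only
    rw [e_add, e_one, mul_one]
  have h := hper.intervalIntegral_add_eq 0 b
  rw [intervalIntegral.integral_comp_add_left (fun c : ℝ => Real.posLog ‖A + e c‖) b]
  simpa using h

private theorem posLog_sq (Y : ℂ) :
    max (Real.log (‖Y‖ ^ 2)) 0 = 2 * Real.posLog ‖Y‖ := by
  rw [Real.posLog_apply, Real.log_pow, mul_max_of_nonneg _ _ (by norm_num : (0:ℝ) ≤ 2), max_comm]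
  simp

theorem jen : m5 = 1 / 2 * ∫ x, max (Real.log x) 0 ∂nu := by
  have hprob := mu_prob
  have hc : Continuous fun v : ℝ × ℝ × ℝ => Real.posLog ‖YY v‖ :=
    Real.continuous_posLog.comp (continuous_norm.comp YY_cont)
  have hint : Integrable (fun v : ℝ × ℝ × ℝ => Real.posLog ‖YY v‖) mu := by
    refine Integrable.of_bound hc.aestronglyMeasurable (Real.posLog 4) ?_
    filter_upwards with v
    rw [Real.norm_eq_abs, abs_of_nonneg Real.posLog_nonneg]
    exact Real.posLog_le_posLog (norm_nonneg _) (YY_le v)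
  have hmap : ∫ x, max (Real.log x) 0 ∂nu = 2 * ∫ v, Real.posLog ‖YY v‖ ∂mu := by
    unfold nu
    rw [integral_map]
    · simp_rw [posLog_sq]
      rw [integral_const_mul]
    · exact ((continuous_norm.comp YY_cont).pow 2).aemeasurable
    · exact (Real.measurable_log.max measurable_const).aestronglyMeasurable
  have hprod : ∫ v, Real.posLog ‖YY v‖ ∂mu
      = ∫ a in Ioc (0:ℝ) 1, ∫ b in Ioc (0:ℝ) 1, ∫ c in Ioc (0:ℝ) 1,
          Real.posLog ‖YY (a, b, c)‖ := by
    have hmu : mu = (volume.restrict (Ioc (0:ℝ) 1)).prod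
        ((volume.restrict (Ioc (0:ℝ) 1)).prod (volume.restrict (Ioc (0:ℝ) 1))) := by
      unfold mu
      rw [Measure.prod_restrict, Measure.prod_restrict]
      rfl
    rw [hmu] at hint ⊢
    rw [integral_prod _ hint]
    refine integral_congr_ae ?_
    filter_upwards [hint.prod_right_ae] with a ha
    rw [integral_prod _ ha]
  rw [hmap, hprod]
  have hfin : m5 = ∫ a in Ioc (0:ℝ) 1, ∫ b in Ioc (0:ℝ) 1, ∫ c in Ioc (0:ℝ) 1,
          Real.posLog ‖YY (a, b, c)‖ := by
    unfold m5
    rw [intervalIntegral.integral_of_le zero_le_one]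
    refine integral_congr_ae ?_
    filter_upwards with a
    rw [intervalIntegral.integral_of_le zero_le_one]
    refine integral_congr_ae ?_
    filter_upwards with b
    simp_rw [jen_d]
    rw [jen_shift _ b, intervalIntegral.integral_of_le zero_le_one]
    refine integral_congr_ae ?_
    filter_upwards with c
    congr 2
    simp only [YY]
    rw [e_add]
    ring
  rw [hfin]
  ring

end RV15W
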