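import Mathlib
import Pool.Agent.RV15W.Defs
import Pool.Agent.RV15W.Mom

/-!
# RV15W/SmyA: Jensen in `b`, integrability

* `jenb`: `∫_0^1 log ‖A + e b B‖ db = max (log ‖A‖) (log ‖B‖)` for `A, B ≠ 0` (Mathlib: `circleAverage` of
  `log ‖· - c‖`, factor out the larger one).
* `e_norm`: `‖1 + e a‖ = 2 |cos (π a)|`.
* `log_int`: `log⁺` is bounded on the cube; `∫_b (log ‖A + e b B‖)⁻ db = ∫ log⁺ - ∫ log ≤ log 4 - log ‖A‖` and
  `∫ |log (2 |cos πa|)| da < ∞` (`log` singularities are integrable, e.g. `|cos πa| ≥ |1 - 2a|`); Tonelli.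
-/

set_option autoImplicit false

open MeasureTheory Set

namespace RV15W

theorem e_norm (a : ℝ) : ‖1 + e a‖ = 2 * |Real.cos (Real.pi * a)| := by
  have h : 1 + e a = Complex.exp ((Real.pi * a : ℝ) * Complex.I) * (2 * (Real.cos (Real.pi * a) : ℝ)) := by
    unfold e
    rw [Complex.ofReal_cos, Complex.cos]
    have h1 : Complex.exp (2 * Real.pi * a * Complex.I) =
        Complex.exp ((Real.pi * a : ℝ) * Complex.I) * Complex.exp ((Real.pi * a : ℝ) * Complex.I) := by
      rw [← Complex.exp_add]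
      congr 1
      push_cast
      ring
    have h2 : Complex.exp ((Real.pi * a : ℝ) * Complex.I) *
        Complex.exp (-((Real.pi * a : ℝ) : ℂ) * Complex.I) = 1 := by
      rw [← Complex.exp_add]
      rw [show ((Real.pi * a : ℝ) : ℂ) * Complex.I + -((Real.pi * a : ℝ) : ℂ) * Complex.I = 0 by ring,
        Complex.exp_zero]
    rw [h1]
    linear_combination -h2
  rw [h, norm_mul, Complex.norm_exp_ofReal_mul_I, one_mul, norm_mul, Complex.norm_real,
    Real.norm_eq_abs]
  simp

private lemma SmyA_circ (A B : ℂ) (b : ℝ) :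
    A + e b * B = circleMap A ‖B‖ (2 * Real.pi * b + B.arg) := by
  unfold circleMap e
  conv_lhs => rw [← Complex.norm_mul_exp_arg_mul_I B]
  rw [mul_left_comm, ← Complex.exp_add]
  congr 3
  push_cast
  ring

private lemma SmyA_int (A B : ℂ) :
    IntervalIntegrable (fun b : ℝ => Real.log ‖A + e b * B‖) volume 0 1 := by
  have h1 : CircleIntegrable (fun z => Real.log ‖z - 0‖) A ‖B‖ :=
    circleIntegrable_log_norm_sub_const ‖B‖
  have h2 : IntervalIntegrable (fun θ => Real.log ‖circleMap A ‖B‖ θ‖) volume B.arg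
      (2 * Real.pi + B.arg) := by
    have h3 : Function.Periodic (fun θ => Real.log ‖circleMap A ‖B‖ θ‖) (2 * Real.pi) := by
      intro θ
      simp only [periodic_circleMap A ‖B‖ θ]
    refine h3.intervalIntegrable₀ Real.two_pi_pos.ne' ?_ _ _
    simpa [CircleIntegrable] using h1
  have h4 := (h2.comp_add_right B.arg).comp_mul_left (c := 2 * Real.pi)
  have h5 : (2 * Real.pi + B.arg - B.arg) / (2 * Real.pi) = 1 := by
    rw [add_sub_cancel_right, div_self Real.two_pi_pos.ne']
  rw [sub_self, zero_div, h5] at h4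
  refine h4.congr (fun b _ => ?_)
  rw [SmyA_circ]

theorem jenb {A B : ℂ} (hA : A ≠ 0) (hB : B ≠ 0) :
    ∫ b in (0:ℝ)..1, Real.log ‖A + e b * B‖ = max (Real.log ‖A‖) (Real.log ‖B‖) := by
  have h1 : ∀ b : ℝ, Real.log ‖A + e b * B‖ =
      (fun θ => Real.log ‖circleMap A ‖B‖ (θ + B.arg) - 0‖) (2 * Real.pi * b) := by
    intro b
    simp only [sub_zero]
    rw [SmyA_circ]
  simp only [h1]
  rw [intervalIntegral.integral_comp_mul_left (fun θ => Real.log ‖circleMap A ‖B‖ (θ + B.arg) - 0‖)
    Real.two_pi_pos.ne', mul_zero, mul_one]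
  have h2 := Real.circleAverage_eq_integral_add (f := fun z => Real.log ‖z - 0‖) (c := A) (R := ‖B‖) B.arg
  rw [← h2, circleAverage_log_norm_sub_const_eq_log_radius_add_posLog (norm_ne_zero_iff.2 hB),
    sub_zero, show Real.posLog (‖B‖⁻¹ * ‖A‖) = max 0 (Real.log (‖B‖⁻¹ * ‖A‖)) from rfl]
  have hA' := norm_pos_iff.2 hA
  have hB' := norm_pos_iff.2 hB
  rw [Real.log_mul (inv_ne_zero hB'.ne') hA'.ne', Real.log_inv]
  rcases le_total (Real.log ‖A‖) (Real.log ‖B‖) with h | h
  · rw [max_eq_right h, max_eq_left (by linarith), add_zero]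
  · rw [max_eq_left h, max_eq_right (by linarith)]
    ring

private noncomputable def SmyA_rho : Measure ℝ := volume.restrict (Ioc 0 1)

private instance : IsProbabilityMeasure SmyA_rho := by
  refine ⟨?_⟩
  unfold SmyA_rho
  simp

private lemma SmyA_mu : mu = SmyA_rho.prod (SmyA_rho.prod SmyA_rho) := by
  unfold mu SmyA_rho
  rw [Measure.prod_restrict, Measure.prod_restrict]
  rfl

private lemma SmyA_zero : ∀ᵐ a ∂SmyA_rho, 1 + e a ≠ 0 := by
  have h : ∀ᵐ a : ℝ, a ≠ 1 / 2 := by
    rw [ae_iff]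
    simp
  unfold SmyA_rho
  filter_upwards [ae_restrict_of_ae h, ae_restrict_mem measurableSet_Ioc] with a ha ham h0
  have h1 : ‖1 + e a‖ = 0 := by rw [h0, norm_zero]
  rw [e_norm] at h1
  have h2 : Real.cos (Real.pi * a) = 0 := by
    have := mul_eq_zero.1 h1
    simpa using this
  rw [Real.cos_eq_zero_iff] at h2
  obtain ⟨k, hk⟩ := h2
  have h3 : a = k + 1 / 2 := by
    have hp := Real.pi_pos
    field_simp at hk
    linarith
  have h4 : (k : ℝ) < 1 := by linarith [ham.2]
  have h5 : (-1 : ℝ) < k := by linarith [ham.1]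
  have h6 : k < 1 := by exact_mod_cast h4
  have h7 : -1 < k := by exact_mod_cast h5
  have h8 : k = 0 := by omega
  rw [h8] at h3
  apply ha
  rw [h3]
  simp

private lemma SmyA_e_norm (b : ℝ) : ‖e b‖ = 1 := by
  unfold e
  rw [show (2 * Real.pi * b * Complex.I : ℂ) = ((2 * Real.pi * b : ℝ) : ℂ) * Complex.I by push_cast; ring,
    Complex.norm_exp_ofReal_mul_I]

private lemma SmyA_le (A B : ℂ) (hA : ‖A‖ ≤ 2) (hB : ‖B‖ ≤ 2) (hA0 : A ≠ 0) (hB0 : B ≠ 0) :
    ∫⁻ b, ‖Real.log ‖A + e b * B‖‖ₑ ∂SmyA_rho ≤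
      ENNReal.ofReal (2 * Real.log 4 + |Real.log ‖A‖|) := by
  have hint : Integrable (fun b => Real.log ‖A + e b * B‖) SmyA_rho := by
    have := SmyA_int A B
    rwa [intervalIntegrable_iff_integrableOn_Ioc_of_le zero_le_one] at this
  rw [← ofReal_integral_norm_eq_lintegral_enorm hint]
  refine ENNReal.ofReal_le_ofReal ?_
  have h1 : ∀ b, ‖Real.log ‖A + e b * B‖‖ ≤ 2 * Real.log 4 - Real.log ‖A + e b * B‖ := by
    intro b
    have h2 : ‖A + e b * B‖ ≤ 4 := by
      refine (norm_add_le _ _).trans ?_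
      rw [norm_mul, SmyA_e_norm]
      linarith
    have h3 : Real.log ‖A + e b * B‖ ≤ Real.log 4 := by
      rcases (norm_nonneg (A + e b * B)).eq_or_lt with h4 | h4
      · rw [← h4, Real.log_zero]
        exact Real.log_nonneg (by norm_num)
      · exact Real.log_le_log h4 h2
    have h5 : 0 ≤ Real.log 4 := Real.log_nonneg (by norm_num)
    rw [Real.norm_eq_abs, abs_le]
    constructor <;> linarith
  calc ∫ b, ‖Real.log ‖A + e b * B‖‖ ∂SmyA_rho
      ≤ ∫ b, (2 * Real.log 4 - Real.log ‖A + e b * B‖) ∂SmyA_rho :=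
        integral_mono hint.norm ((integrable_const _).sub hint) h1
    _ = 2 * Real.log 4 - max (Real.log ‖A‖) (Real.log ‖B‖) := by
        rw [integral_sub (integrable_const _) hint, integral_const, probReal_univ, one_smul,
          ← jenb hA0 hB0, intervalIntegral.integral_of_le zero_le_one]
        rfl
    _ ≤ 2 * Real.log 4 + |Real.log ‖A‖| := by
        have := le_max_left (Real.log ‖A‖) (Real.log ‖B‖)
        have := neg_abs_le (Real.log ‖A‖)
        linarith

private lemma SmyA_two (a : ℝ) : ‖1 + e a‖ ≤ 2 := by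
  rw [e_norm]
  have := Real.abs_cos_le_one (Real.pi * a)
  linarith

private lemma SmyA_e_cont : Continuous e := by
  unfold e
  fun_prop

private lemma SmyA_meas : Measurable fun v : ℝ × ℝ × ℝ => Real.log ‖YY v‖ := by
  have : Continuous YY := by
    unfold YY
    exact (continuous_const.add (SmyA_e_cont.comp continuous_fst)).add
      ((SmyA_e_cont.comp (continuous_fst.comp continuous_snd)).mul
        (continuous_const.add (SmyA_e_cont.comp (continuous_snd.comp continuous_snd))))
  exact Real.measurable_log.comp this.norm.measurable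

private lemma SmyA_integrable : Integrable (fun v : ℝ × ℝ × ℝ => Real.log ‖YY v‖) mu := by
  refine ⟨SmyA_meas.aestronglyMeasurable, ?_⟩
  unfold HasFiniteIntegral
  rw [SmyA_mu, lintegral_prod _ SmyA_meas.enorm.aemeasurable]
  have h1 : ∀ᵐ a ∂SmyA_rho, ∫⁻ y, ‖Real.log ‖YY (a, y)‖‖ₑ ∂(SmyA_rho.prod SmyA_rho) ≤
      ENNReal.ofReal (2 * Real.log 4 + |Real.log ‖1 + e a‖|) := by
    filter_upwards [SmyA_zero] with a ha
    have hm : Measurable fun y : ℝ × ℝ => ‖Real.log ‖YY (a, y)‖‖ₑ :=
      SmyA_meas.enorm.comp measurable_prodMk_left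
    rw [lintegral_prod_symm _ hm.aemeasurable]
    have h2 : ∀ᵐ c ∂SmyA_rho, ∫⁻ b, ‖Real.log ‖YY (a, b, c)‖‖ₑ ∂SmyA_rho ≤
        ENNReal.ofReal (2 * Real.log 4 + |Real.log ‖1 + e a‖|) := by
      filter_upwards [SmyA_zero] with c hc
      exact SmyA_le (1 + e a) (1 + e c) (SmyA_two a) (SmyA_two c) ha hc
    refine (lintegral_mono_ae h2).trans ?_
    rw [lintegral_const, measure_univ, mul_one]
  refine (lintegral_mono_ae h1).trans_lt ?_
  have h3 : Integrable (fun a => 2 * Real.log 4 + |Real.log ‖1 + e a‖|) SmyA_rho := by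
    refine (integrable_const _).add ?_
    have := SmyA_int 1 1
    rw [intervalIntegrable_iff_integrableOn_Ioc_of_le zero_le_one] at this
    have h4 : Integrable (fun a => Real.log ‖1 + e a‖) SmyA_rho := by
      simp only [mul_one] at this
      exact this
    exact h4.abs
  have h5 := h3.2
  unfold HasFiniteIntegral at h5
  refine lt_of_le_of_lt (lintegral_mono fun a => ?_) h5
  rw [Real.enorm_eq_ofReal_abs]
  exact ENNReal.ofReal_le_ofReal (le_abs_self _)

private lemma SmyA_sq (v : ℝ × ℝ × ℝ) : Real.log (‖YY v‖ ^ 2) = 2 * Real.log ‖YY v‖ := by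
  rw [Real.log_pow]
  norm_num

private lemma SmyA_meas2 : Measurable fun v : ℝ × ℝ × ℝ => ‖YY v‖ ^ 2 := by
  have : Continuous YY := by
    unfold YY
    exact (continuous_const.add (SmyA_e_cont.comp continuous_fst)).add
      ((SmyA_e_cont.comp (continuous_fst.comp continuous_snd)).mul
        (continuous_const.add (SmyA_e_cont.comp (continuous_snd.comp continuous_snd))))
  exact (this.norm.pow 2).measurable

theorem log_int : Integrable Real.log nu := by
  unfold nu
  rw [integrable_map_measure Real.measurable_log.aestronglyMeasurable SmyA_meas2.aemeasurable]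
  have : (Real.log ∘ fun v : ℝ × ℝ × ℝ => ‖YY v‖ ^ 2) = fun v => 2 * Real.log ‖YY v‖ := by
    funext v
    exact SmyA_sq v
  rw [this]
  exact SmyA_integrable.const_mul 2

theorem log_cube : ∫ x, Real.log x ∂nu =
    2 * ∫ a in (0:ℝ)..1, ∫ c in (0:ℝ)..1,
      max (Real.log (2 * |Real.cos (Real.pi * a)|)) (Real.log (2 * |Real.cos (Real.pi * c)|)) := by
  unfold nu
  rw [integral_map SmyA_meas2.aemeasurable Real.measurable_log.aestronglyMeasurable]
  simp only [SmyA_sq]
  rw [integral_const_mul]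
  congr 1
  have hI := SmyA_integrable
  rw [SmyA_mu] at hI ⊢
  rw [integral_prod _ hI, intervalIntegral.integral_of_le zero_le_one]
  change _ = ∫ a, _ ∂SmyA_rho
  refine integral_congr_ae ?_
  filter_upwards [SmyA_zero, hI.prod_right_ae] with a ha hIa
  rw [integral_prod_symm _ hIa, intervalIntegral.integral_of_le zero_le_one]
  change _ = ∫ c, _ ∂SmyA_rho
  refine integral_congr_ae ?_
  filter_upwards [SmyA_zero] with c hc
  rw [← e_norm, ← e_norm, ← jenb ha hc, intervalIntegral.integral_of_le zero_le_one]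
  rfl

end RV15W
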