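import Mathlib
import Pool.Agent.RV15W.Defs

/-!
# RV15W/SmyB: `∫_0^{1/2} (1-2m) log (2 cos πm) dm = 7 ζ(3)/(8π²)`

`log (2 cos πm) = Σ_{k≥1} (-1)^(k-1) cos(2πkm)/k` for `0 ≤ m < 1/2` and
`∫_0^{1/2} (1-2m) cos(2πkm) dm = (1-(-1)^k)/(2π²k²)`: the sum is `Σ_{k odd} 1/(π²k³) = (7/8) ζ(3)/π²`.
For the interchange: Abel summation.  For `0 < r < 1`:
`log ‖1 + r e(m)‖ = Σ_{k≥1} (-1)^(k-1) r^k cos(2πkm)/k` (Taylor series of `Complex.log (1+z)`), converging uniformly, so
`∫_0^{1/2} (1-2m) log ‖1 + r e(m)‖ dm = Σ (-1)^(k-1) r^k/k (1-(-1)^k)/(2π²k²)`; let `r → 1`: right side by dominated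
convergence (`Σ 1/k³`), left side too: `log ‖1+r e(m)‖ ≤ log 2` and
`‖1 + r e(m)‖ ≥ |cos πm|`-type lower bound (`‖1+r e(m)‖² = (1-r)² + 4 r cos²(πm) ≥ 2 cos²(πm)` for `r ≥ 1/2`), and
`log (cos πm)` is integrable on `(0,1/2)` (`cos πm ≥ 1 - 2m`, concavity).
-/

set_option autoImplicit false

open MeasureTheory Set Filter Topology

namespace RV15W

private theorem SmyB_cosint : IntervalIntegrable (fun m : ℝ => Real.log (Real.cos (Real.pi * m))) volume 0 (1 / 2) := by
  have h1 : IntervalIntegrable (fun x => Real.log (Real.cos x)) volume (Real.pi * 0) (Real.pi * (1 / 2)) :=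
    intervalIntegrable_log_cos
  have h2 := h1.comp_mul_left (c := Real.pi)
  simpa [mul_div_cancel_left₀, Real.pi_ne_zero] using h2

private theorem SmyB_pos {m : ℝ} (h0 : 0 < m) (h1 : m < 1 / 2) : 0 < Real.cos (Real.pi * m) := by
  have hp := Real.pi_pos
  apply Real.cos_pos_of_mem_Ioo
  constructor
  · nlinarith
  · nlinarith

theorem cos_int : IntegrableOn (fun m : ℝ => Real.log (2 * Real.cos (Real.pi * m))) (Ioc 0 (1 / 2)) := by
  have h1 : IntervalIntegrable (fun m : ℝ => Real.log 2 + Real.log (Real.cos (Real.pi * m))) volume 0 (1 / 2) :=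
    intervalIntegrable_const.add SmyB_cosint
  have h2 : IntegrableOn (fun m : ℝ => Real.log 2 + Real.log (Real.cos (Real.pi * m))) (Ioc 0 (1 / 2)) :=
    (intervalIntegrable_iff_integrableOn_Ioc_of_le (by norm_num)).1 h1
  refine h2.congr ?_
  have h3 : ∀ᵐ m : ℝ, m ≠ 1 / 2 := by
    rw [ae_iff]
    simp
  refine (ae_restrict_iff' measurableSet_Ioc).2 ?_
  filter_upwards [h3] with m hm hm2
  have hpos := SmyB_pos hm2.1 (lt_of_le_of_ne hm2.2 hm)
  rw [Real.log_mul (by norm_num) hpos.ne']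

private theorem SmyB_norm (r m : ℝ) :
    ‖1 + (r : ℂ) * e m‖ ^ 2 = (1 - r) ^ 2 + 4 * r * Real.cos (Real.pi * m) ^ 2 := by
  have h1 : e m = (Real.cos (2 * (Real.pi * m)) : ℂ) + (Real.sin (2 * (Real.pi * m)) : ℂ) * Complex.I := by
    unfold e
    rw [show (2 * Real.pi * m * Complex.I : ℂ) = ((2 * (Real.pi * m) : ℝ) : ℂ) * Complex.I by push_cast; ring,
      Complex.exp_mul_I, Complex.ofReal_cos, Complex.ofReal_sin]
  rw [← Complex.normSq_eq_norm_sq, Complex.normSq_apply, h1]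
  simp only [Complex.add_re, Complex.one_re, Complex.mul_re, Complex.ofReal_re, Complex.ofReal_im,
    Complex.add_im, Complex.one_im, Complex.mul_im, Complex.I_re, Complex.I_im]
  rw [Real.cos_two_mul, Real.sin_two_mul]
  have h2 := Real.sin_sq_add_cos_sq (Real.pi * m)
  have h3 : Real.sin (Real.pi * m) ^ 2 = 1 - Real.cos (Real.pi * m) ^ 2 := by linarith
  ring_nf
  rw [h3]
  ring

private theorem SmyB_norm_one {m : ℝ} (h0 : 0 < m) (h1 : m < 1 / 2) :
    ‖1 + ((1 : ℝ) : ℂ) * e m‖ = 2 * Real.cos (Real.pi * m) := by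
  have h := SmyB_norm 1 m
  have hc := SmyB_pos h0 h1
  have h2 : ‖1 + ((1 : ℝ) : ℂ) * e m‖ ^ 2 = (2 * Real.cos (Real.pi * m)) ^ 2 := by
    rw [h]
    ring
  exact (pow_left_inj₀ (norm_nonneg _) (by positivity) two_ne_zero).1 h2

/-- the coefficients -/
private noncomputable def SmyBa (n : ℕ) : ℝ :=
  (-1) ^ (n + 1) / n * ((1 - (-1) ^ n) / (2 * Real.pi ^ 2 * n ^ 2))

private theorem SmyB_int (n : ℕ) (hn : n ≠ 0) :
    ∫ m in (0:ℝ)..(1 / 2), (1 - 2 * m) * Real.cos (2 * Real.pi * n * m) =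
      (1 - (-1) ^ n) / (2 * Real.pi ^ 2 * n ^ 2) := by
  have hn0 : (n : ℝ) ≠ 0 := Nat.cast_ne_zero.2 hn
  have hp := Real.pi_ne_zero
  set c : ℝ := 2 * Real.pi * n with hc
  have hc0 : c ≠ 0 := by
    rw [hc]
    positivity
  have hderiv : ∀ x ∈ uIcc (0:ℝ) (1 / 2), HasDerivAt
      (fun m : ℝ => (1 - 2 * m) * (Real.sin (c * m) / c) - 2 * (Real.cos (c * m) / c ^ 2))
      ((1 - 2 * x) * Real.cos (c * x)) x := by
    intro x _
    have h1 : HasDerivAt (fun m : ℝ => c * m) c x := by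
      simpa using (hasDerivAt_id x).const_mul c
    have h2 : HasDerivAt (fun m : ℝ => Real.sin (c * m)) (Real.cos (c * x) * c) x := h1.sin
    have h3 : HasDerivAt (fun m : ℝ => Real.cos (c * m)) (-Real.sin (c * x) * c) x := h1.cos
    have h4 : HasDerivAt (fun m : ℝ => 1 - 2 * m) (-2) x := by
      simpa using ((hasDerivAt_id x).const_mul 2).const_sub 1
    have h5 := (h4.mul (h2.div_const c)).sub ((h3.div_const (c ^ 2)).const_mul 2)
    refine h5.congr_deriv ?_
    field_simp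
    ring
  rw [intervalIntegral.integral_eq_sub_of_hasDerivAt hderiv
    (Continuous.intervalIntegrable (by fun_prop) _ _)]
  have h6 : c * (1 / 2) = n * Real.pi := by
    rw [hc]
    ring
  rw [h6, Real.cos_nat_mul_pi, Real.sin_nat_mul_pi, mul_zero, mul_zero, Real.sin_zero, Real.cos_zero, hc]
  field_simp
  ring

private theorem SmyB_series (r : ℝ) (h0 : 0 ≤ r) (h1 : r < 1) :
    HasSum (fun n : ℕ => SmyBa n * r ^ n)
      (∫ m in (0:ℝ)..(1 / 2), (1 - 2 * m) * Real.log ‖1 + (r : ℂ) * e m‖) := by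
  have hF : ∀ n : ℕ, ∀ m : ℝ, (1 - 2 * m) * ((-1) ^ (n + 1) * ((r : ℂ) * e m) ^ n / n).re =
      (-1) ^ (n + 1) / n * r ^ n * ((1 - 2 * m) * Real.cos (2 * Real.pi * n * m)) := by
    intro n m
    have h2 : (e m) ^ n = Complex.exp (((2 * Real.pi * n * m : ℝ) : ℂ) * Complex.I) := by
      unfold e
      rw [← Complex.exp_nat_mul]
      congr 1
      push_cast
      ring
    have h3 : (-1 : ℂ) ^ (n + 1) * ((r : ℂ) * e m) ^ n / n =
        (((-1) ^ (n + 1) / n * r ^ n : ℝ) : ℂ) * Complex.exp (((2 * Real.pi * n * m : ℝ) : ℂ) * Complex.I) := by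
      rw [mul_pow, h2]
      push_cast
      ring
    rw [h3, Complex.re_ofReal_mul, Complex.exp_ofReal_mul_I_re]
    ring
  have hsum : HasSum (fun n : ℕ => ∫ m in (0:ℝ)..(1 / 2), (1 - 2 * m) *
      ((-1) ^ (n + 1) * ((r : ℂ) * e m) ^ n / n).re)
      (∫ m in (0:ℝ)..(1 / 2), (1 - 2 * m) * Real.log ‖1 + (r : ℂ) * e m‖) := by
    have hen : ∀ m : ℝ, ‖e m‖ = 1 := by
      intro m
      unfold e
      rw [show (2 * Real.pi * m * Complex.I : ℂ) = ((2 * Real.pi * m : ℝ) : ℂ) * Complex.I by push_cast; ring]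
      exact Complex.norm_exp_ofReal_mul_I _
    refine intervalIntegral.hasSum_integral_of_dominated_convergence (fun n _ => r ^ n) ?_ ?_ ?_ ?_ ?_
    · intro n
      have hcont : Continuous fun m : ℝ => (1 - 2 * m) * ((-1) ^ (n + 1) * ((r : ℂ) * e m) ^ n / n).re := by
        unfold e
        fun_prop
      exact hcont.aestronglyMeasurable
    · intro n
      refine Eventually.of_forall fun m hm => ?_
      rw [uIoc_of_le (by norm_num)] at hm
      rw [norm_mul]
      have h2 : ‖1 - 2 * m‖ ≤ 1 := by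
        rw [Real.norm_eq_abs, abs_le]
        constructor <;> linarith [hm.1, hm.2]
      have h3 : ‖((-1) ^ (n + 1) * ((r : ℂ) * e m) ^ n / n).re‖ ≤ r ^ n := by
        refine (Complex.abs_re_le_norm _).trans ?_
        rw [norm_div, norm_mul, norm_pow, norm_neg, norm_one, one_pow, one_mul, norm_pow, norm_mul, hen,
          mul_one, Complex.norm_real, Real.norm_of_nonneg h0, Complex.norm_natCast]
        rcases Nat.eq_zero_or_pos n with hn | hn
        · subst hn
          simp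
        · apply div_le_self (pow_nonneg h0 n)
          exact_mod_cast hn
      calc ‖1 - 2 * m‖ * ‖((-1) ^ (n + 1) * ((r : ℂ) * e m) ^ n / n).re‖ ≤ 1 * r ^ n :=
            mul_le_mul h2 h3 (norm_nonneg _) zero_le_one
        _ = r ^ n := one_mul _
    · exact Eventually.of_forall fun m _ => summable_geometric_of_lt_one h0 h1
    · exact intervalIntegrable_const
    · refine Eventually.of_forall fun m _ => ?_
      have hz : ‖(r : ℂ) * e m‖ < 1 := by
        rw [norm_mul, hen, mul_one, Complex.norm_real, Real.norm_of_nonneg h0]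
        exact h1
      have h4 := Complex.hasSum_re (Complex.hasSum_taylorSeries_log hz)
      rw [Complex.log_re] at h4
      exact h4.mul_left (1 - 2 * m)
  have hfun : (fun n : ℕ => SmyBa n * r ^ n) = fun n : ℕ => ∫ m in (0:ℝ)..(1 / 2), (1 - 2 * m) *
      ((-1) ^ (n + 1) * ((r : ℂ) * e m) ^ n / n).re := by
    funext n
    symm
    simp_rw [hF n]
    rw [intervalIntegral.integral_const_mul]
    unfold SmyBa
    rcases Nat.eq_zero_or_pos n with hn | hn
    · subst hn
      simp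
    · rw [SmyB_int n hn.ne']
      ring
  rw [hfun]
  exact hsum

private theorem SmyB_abs (n : ℕ) : |SmyBa n| ≤ 1 / (n : ℝ) ^ 3 := by
  unfold SmyBa
  rcases Nat.eq_zero_or_pos n with hn | hn
  · subst hn
    simp
  have hn1 : (0 : ℝ) < n := Nat.cast_pos.2 hn
  rw [abs_mul, abs_div, abs_div, abs_pow, abs_neg, abs_one, one_pow, abs_of_pos hn1,
    abs_of_pos (by positivity : 0 < 2 * Real.pi ^ 2 * (n : ℝ) ^ 2)]
  have h1 : |(1 : ℝ) - (-1) ^ n| ≤ 2 := by
    rcases neg_one_pow_eq_or ℝ n with h | h <;> rw [h] <;> norm_num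
  have h2 : (1 : ℝ) ≤ Real.pi ^ 2 := by nlinarith [Real.pi_gt_three]
  have h3 : |(1 : ℝ) - (-1) ^ n| / (2 * Real.pi ^ 2 * (n : ℝ) ^ 2) ≤ 1 / (n : ℝ) ^ 2 := by
    rw [div_le_div_iff₀ (by positivity) (by positivity)]
    nlinarith [sq_nonneg (n : ℝ)]
  calc 1 / (n : ℝ) * (|(1 : ℝ) - (-1) ^ n| / (2 * Real.pi ^ 2 * (n : ℝ) ^ 2))
      ≤ 1 / (n : ℝ) * (1 / (n : ℝ) ^ 2) := mul_le_mul_of_nonneg_left h3 (by positivity)
    _ = 1 / (n : ℝ) ^ 3 := by
        field_simp

private theorem SmyB_summ : Summable fun n : ℕ => 1 / (n : ℝ) ^ 3 :=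
  Real.summable_one_div_nat_pow.2 (by norm_num)

private theorem SmyB_sum : ∑' n, SmyBa n = 7 * z3 / (8 * Real.pi ^ 2) := by
  set f : ℕ → ℝ := fun n => 1 / (n : ℝ) ^ 3 with hf
  have hfs : Summable f := SmyB_summ
  have hz : ∑' n, f n = z3 := by
    rw [hfs.tsum_eq_zero_add]
    unfold z3
    simp [hf]
  have hinj2 : Function.Injective fun k : ℕ => 2 * k := fun a b h => by
    simpa using h
  have hinj1 : Function.Injective fun k : ℕ => 2 * k + 1 := fun a b h => by
    simpa using h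
  have h1 := tsum_even_add_odd (hfs.comp_injective hinj2) (hfs.comp_injective hinj1)
  have h2 : ∑' k : ℕ, f (2 * k) = z3 / 8 := by
    rw [← hz, ← tsum_div_const]
    refine tsum_congr fun k => ?_
    simp only [hf]
    push_cast
    rcases Nat.eq_zero_or_pos k with hk | hk
    · subst hk
      simp
    · have : (0 : ℝ) < k := Nat.cast_pos.2 hk
      field_simp
      norm_num
  have has : Summable SmyBa := by
    refine Summable.of_norm_bounded SmyB_summ fun n => ?_
    rw [Real.norm_eq_abs]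
    exact SmyB_abs n
  have h3 := tsum_even_add_odd (has.comp_injective hinj2) (has.comp_injective hinj1)
  have h4 : ∀ k : ℕ, SmyBa (2 * k) = 0 := by
    intro k
    unfold SmyBa
    simp
  have h5 : ∀ k : ℕ, SmyBa (2 * k + 1) = f (2 * k + 1) / Real.pi ^ 2 := by
    intro k
    unfold SmyBa
    simp only [hf]
    have e1 : (-1 : ℝ) ^ (2 * k + 1 + 1) = 1 := by
      rw [show 2 * k + 1 + 1 = 2 * (k + 1) by ring, pow_mul]
      norm_num
    have e2 : (-1 : ℝ) ^ (2 * k + 1) = -1 := by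
      rw [pow_succ, pow_mul]
      norm_num
    rw [e1, e2]
    have : (0 : ℝ) < ((2 * k + 1 : ℕ) : ℝ) := Nat.cast_pos.2 (by omega)
    have hp := Real.pi_pos
    field_simp
    ring
  rw [← h3]
  simp_rw [h4, h5]
  rw [tsum_zero, zero_add, tsum_div_const]
  have h6 : ∑' k : ℕ, f (2 * k + 1) = 7 / 8 * z3 := by
    rw [h2, hz] at h1
    linarith
  rw [h6]
  have hp := Real.pi_pos
  field_simp

theorem smyB : ∫ m in (0:ℝ)..(1 / 2), (1 - 2 * m) * Real.log (2 * Real.cos (Real.pi * m)) =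
    7 * z3 / (8 * Real.pi ^ 2) := by
  set r : ℕ → ℝ := fun j => 1 - 1 / ((j : ℝ) + 2) with hr
  have hr1 : ∀ j, r j < 1 := fun j => by
    simp only [hr]
    have : (0 : ℝ) < 1 / ((j : ℝ) + 2) := by positivity
    linarith
  have hr0 : ∀ j, 1 / 2 ≤ r j := fun j => by
    simp only [hr]
    have : 1 / ((j : ℝ) + 2) ≤ 1 / 2 := by
      apply one_div_le_one_div_of_le (by norm_num)
      have : (0 : ℝ) ≤ j := Nat.cast_nonneg j
      linarith
    linarith
  have hrt : Tendsto r atTop (𝓝 1) := by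
    have h1 : Tendsto (fun j : ℕ => 1 / ((j : ℝ) + 2)) atTop (𝓝 0) := by
      have h2 : Tendsto (fun j : ℕ => (j : ℝ) + 2) atTop atTop :=
        tendsto_atTop_add_const_right _ _ tendsto_natCast_atTop_atTop
      have h3 := h2.inv_tendsto_atTop
      refine h3.congr fun j => ?_
      simp
    have h2 := h1.const_sub 1
    rwa [sub_zero] at h2
  -- left side
  have hL : Tendsto (fun j => ∫ m in (0:ℝ)..(1 / 2), (1 - 2 * m) * Real.log ‖1 + (r j : ℂ) * e m‖) atTop
      (𝓝 (∫ m in (0:ℝ)..(1 / 2), (1 - 2 * m) * Real.log (2 * Real.cos (Real.pi * m)))) := by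
    have hbi : IntervalIntegrable (fun m : ℝ => Real.log 2 + |Real.log (Real.cos (Real.pi * m))|) volume
        0 (1 / 2) := intervalIntegrable_const.add SmyB_cosint.abs
    refine intervalIntegral.tendsto_integral_filter_of_dominated_convergence
      (fun m : ℝ => Real.log 2 + |Real.log (Real.cos (Real.pi * m))|) ?_ ?_ hbi ?_
    · refine Eventually.of_forall fun j => ?_
      have hm : Measurable fun m : ℝ => (1 - 2 * m) * Real.log ‖1 + (r j : ℂ) * e m‖ := by
        have hc : Continuous fun m : ℝ => ‖1 + (r j : ℂ) * e m‖ := by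
          unfold e
          fun_prop
        have hc2 : Continuous fun m : ℝ => (1 - 2 * m) := by fun_prop
        exact hc2.measurable.mul (Real.measurable_log.comp hc.measurable)
      exact hm.aestronglyMeasurable
    · refine Eventually.of_forall fun j => ?_
      have h3 : ∀ᵐ m : ℝ, m ≠ 1 / 2 := by
        rw [ae_iff]
        simp
      filter_upwards [h3] with m hm hm2
      rw [uIoc_of_le (by norm_num)] at hm2
      have hlt : m < 1 / 2 := lt_of_le_of_ne hm2.2 hm
      have hc := SmyB_pos hm2.1 hlt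
      have hc1 : Real.cos (Real.pi * m) ≤ 1 := Real.cos_le_one _
      rw [norm_mul]
      have h2 : ‖1 - 2 * m‖ ≤ 1 := by
        rw [Real.norm_eq_abs, abs_le]
        constructor <;> linarith [hm2.1]
      have hn := SmyB_norm (r j) m
      have hlow : Real.cos (Real.pi * m) ≤ ‖1 + (r j : ℂ) * e m‖ := by
        apply le_of_sq_le_sq _ (norm_nonneg _)
        rw [hn]
        nlinarith [sq_nonneg (1 - r j), hr0 j, sq_nonneg (Real.cos (Real.pi * m))]
      have hup : ‖1 + (r j : ℂ) * e m‖ ≤ 2 := by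
        apply le_of_sq_le_sq _ (by norm_num)
        rw [hn]
        have : Real.cos (Real.pi * m) ^ 2 ≤ 1 := by nlinarith
        nlinarith [hr0 j, hr1 j]
      have hl1 : Real.log (Real.cos (Real.pi * m)) ≤ Real.log ‖1 + (r j : ℂ) * e m‖ :=
        Real.log_le_log hc hlow
      have hl2 : Real.log ‖1 + (r j : ℂ) * e m‖ ≤ Real.log 2 :=
        Real.log_le_log (lt_of_lt_of_le hc hlow) hup
      have hlog2 : 0 ≤ Real.log 2 := Real.log_nonneg (by norm_num)
      have h4 : ‖Real.log ‖1 + (r j : ℂ) * e m‖‖ ≤ Real.log 2 + |Real.log (Real.cos (Real.pi * m))| := by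
        rw [Real.norm_eq_abs, abs_le]
        constructor
        · have := neg_abs_le (Real.log (Real.cos (Real.pi * m)))
          linarith
        · have := abs_nonneg (Real.log (Real.cos (Real.pi * m)))
          linarith
      calc ‖1 - 2 * m‖ * ‖Real.log ‖1 + (r j : ℂ) * e m‖‖
          ≤ 1 * (Real.log 2 + |Real.log (Real.cos (Real.pi * m))|) :=
            mul_le_mul h2 h4 (norm_nonneg _) zero_le_one
        _ = _ := one_mul _
    · have h3 : ∀ᵐ m : ℝ, m ≠ 1 / 2 := by
        rw [ae_iff]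
        simp
      filter_upwards [h3] with m hm hm2
      rw [uIoc_of_le (by norm_num)] at hm2
      have hlt : m < 1 / 2 := lt_of_le_of_ne hm2.2 hm
      have hc := SmyB_pos hm2.1 hlt
      rw [← SmyB_norm_one hm2.1 hlt]
      have hne : ‖1 + ((1 : ℝ) : ℂ) * e m‖ ≠ 0 := by
        rw [SmyB_norm_one hm2.1 hlt]
        positivity
      have hcont : Continuous fun s : ℝ => ‖1 + (s : ℂ) * e m‖ := by fun_prop
      have h5 : Tendsto (fun j => ‖1 + (r j : ℂ) * e m‖) atTop (𝓝 ‖1 + ((1 : ℝ) : ℂ) * e m‖) :=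
        (hcont.tendsto 1).comp hrt
      exact (h5.log hne).const_mul (1 - 2 * m)
  -- right side
  have hR : Tendsto (fun j => ∑' n, SmyBa n * r j ^ n) atTop (𝓝 (∑' n, SmyBa n)) := by
    have h1 : ∀ n : ℕ, Tendsto (fun j => SmyBa n * r j ^ n) atTop (𝓝 (SmyBa n)) := by
      intro n
      have := (hrt.pow n).const_mul (SmyBa n)
      simpa using this
    refine tendsto_tsum_of_dominated_convergence SmyB_summ h1 (Eventually.of_forall fun j n => ?_)
    rw [Real.norm_eq_abs, abs_mul]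
    have h0 : 0 ≤ r j := by linarith [hr0 j]
    have h2 : |r j ^ n| ≤ 1 := by
      rw [abs_pow, abs_of_nonneg h0]
      exact pow_le_one₀ h0 (hr1 j).le
    calc |SmyBa n| * |r j ^ n| ≤ 1 / (n : ℝ) ^ 3 * 1 :=
          mul_le_mul (SmyB_abs n) h2 (abs_nonneg _) (by positivity)
      _ = _ := mul_one _
  have heq : ∀ j, ∑' n, SmyBa n * r j ^ n =
      ∫ m in (0:ℝ)..(1 / 2), (1 - 2 * m) * Real.log ‖1 + (r j : ℂ) * e m‖ := fun j =>
    (SmyB_series (r j) (by linarith [hr0 j]) (hr1 j)).tsum_eq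
  simp_rw [heq] at hR
  rw [tendsto_nhds_unique hL hR, SmyB_sum]

end RV15W
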