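import Mathlib
import Pool.Agent.RV15W.Defs
import Pool.Agent.RV15W.SmyA
import Pool.Agent.RV15W.SmyB

/-!
# RV15W/Smy: `∫ log x dnu = 7 ζ(3)/π²` (Smyth)

By `log_cube` and the symmetries `a ↔ 1-a`, `c ↔ 1-c` and `a ↔ c`: `= 2 · 4 · 2 ∫_{0<a<c<1/2} log (2 cos πa)`
`= 16 ∫_0^{1/2} (1/2 - a) log (2 cos πa) da = 8 ∫_0^{1/2} (1-2a) log (2 cos πa) da = 7 ζ(3)/π²` (`cos` is decreasing on
`[0, π/2]`; Fubini with `cos_int`).
-/

set_option autoImplicit false

open MeasureTheory Set

namespace RV15W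

private noncomputable def SmyG (a : ℝ) : ℝ := Real.log (2 * |Real.cos (Real.pi * a)|)

private lemma SmyG_symm (a : ℝ) : SmyG (1 - a) = SmyG a := by
  unfold SmyG
  have : Real.cos (Real.pi * (1 - a)) = - Real.cos (Real.pi * a) := by
    rw [mul_sub, mul_one, Real.cos_pi_sub]
  rw [this, abs_neg]

private lemma SmyG_eq {a : ℝ} (h0 : 0 ≤ a) (h1 : a ≤ 1 / 2) :
    SmyG a = Real.log (2 * Real.cos (Real.pi * a)) := by
  unfold SmyG
  rw [abs_of_nonneg]
  apply Real.cos_nonneg_of_neg_pi_div_two_le_of_le <;> nlinarith [Real.pi_pos]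

private lemma SmyG_int : IntervalIntegrable SmyG volume 0 (1 / 2) := by
  rw [intervalIntegrable_iff_integrableOn_Ioc_of_le (by norm_num)]
  exact cos_int.congr_fun (fun a ha => (SmyG_eq ha.1.le ha.2).symm) measurableSet_Ioc

private lemma SmyG_anti {a c : ℝ} (h0 : 0 ≤ c) (h : c ≤ a) (h1 : a < 1 / 2) : SmyG a ≤ SmyG c := by
  rw [SmyG_eq (h0.trans h) h1.le, SmyG_eq h0 (h.trans h1.le)]
  apply Real.log_le_log
  · have : 0 < Real.cos (Real.pi * a) := by
      apply Real.cos_pos_of_mem_Ioo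
      constructor <;> nlinarith [Real.pi_pos]
    linarith
  · have : Real.cos (Real.pi * a) ≤ Real.cos (Real.pi * c) := by
      apply Real.cos_le_cos_of_nonneg_of_le_pi
      · nlinarith [Real.pi_pos]
      · nlinarith [Real.pi_pos]
      · nlinarith [Real.pi_pos]
    linarith

/-- halving a symmetric integral -/
private lemma Smy_half {F : ℝ → ℝ} (hF : IntervalIntegrable F volume 0 (1 / 2))
    (hs : ∀ x, F (1 - x) = F x) : ∫ x in (0:ℝ)..1, F x = 2 * ∫ x in (0:ℝ)..(1 / 2), F x := by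
  have e1 : (1:ℝ) - 1 / 2 = 1 / 2 := by norm_num
  have h2 : IntervalIntegrable F volume (1 / 2) 1 := by
    have := hF.comp_sub_left 1
    simp only [hs, sub_zero, e1] at this
    exact this.symm
  have h3 : ∫ x in (1 / 2 : ℝ)..1, F x = ∫ x in (0:ℝ)..(1 / 2), F x := by
    have := intervalIntegral.integral_comp_sub_left (a := 0) (b := 1 / 2) F 1
    simp only [hs, sub_zero, e1] at this
    exact this.symm
  rw [← intervalIntegral.integral_add_adjacent_intervals hF h2, h3]
  ring

private lemma Smy_max_int (t : ℝ) {u v : ℝ} (hu : 0 ≤ u) (huv : u ≤ v) (hv : v ≤ 1 / 2) :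
    IntervalIntegrable (fun c => max t (SmyG c)) volume u v := by
  have h1 : IntervalIntegrable SmyG volume u v := by
    apply SmyG_int.mono_set
    rw [uIcc_of_le huv, uIcc_of_le (by norm_num)]
    exact Icc_subset_Icc hu hv
  rw [intervalIntegrable_iff_integrableOn_Ioc_of_le huv] at h1 ⊢
  exact (integrable_const t).sup h1

/-- the inner integral -/
private lemma Smy_inner {a : ℝ} (h0 : 0 < a) (h1 : a < 1 / 2) :
    ∫ c in (0:ℝ)..(1 / 2), max (SmyG a) (SmyG c) =
      (∫ c in (0:ℝ)..a, SmyG c) + (1 / 2 - a) * SmyG a := by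
  rw [← intervalIntegral.integral_add_adjacent_intervals
    (Smy_max_int (SmyG a) le_rfl h0.le h1.le) (Smy_max_int (SmyG a) h0.le h1.le le_rfl)]
  have e1 : ∫ c in (0:ℝ)..a, max (SmyG a) (SmyG c) = ∫ c in (0:ℝ)..a, SmyG c := by
    apply intervalIntegral.integral_congr_Ioo_of_le h0.le
    intro c hc
    exact max_eq_right (SmyG_anti hc.1.le hc.2.le h1)
  have e2 : ∫ c in a..(1 / 2), max (SmyG a) (SmyG c) = ∫ c in a..(1 / 2), SmyG a := by
    apply intervalIntegral.integral_congr_Ioo_of_le h1.le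
    intro c hc
    exact max_eq_left (SmyG_anti h0.le hc.1.le hc.2)
  rw [e1, e2, intervalIntegral.integral_const, smul_eq_mul]

private lemma Smy_prim_cont : ContinuousOn (fun a => ∫ c in (0:ℝ)..a, SmyG c) (uIcc 0 (1 / 2)) := by
  apply intervalIntegral.continuousOn_primitive_interval
  rw [← intervalIntegrable_iff']
  exact SmyG_int

private lemma Smy_cont {a : ℝ} (h0 : 0 < a) (h1 : a < 1 / 2) : ContinuousAt SmyG a := by
  unfold SmyG
  apply ContinuousAt.log
  · fun_prop
  · have : 0 < Real.cos (Real.pi * a) := by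
      apply Real.cos_pos_of_mem_Ioo
      constructor <;> nlinarith [Real.pi_pos]
    have := abs_pos.mpr this.ne'
    positivity

private lemma Smy_meas : Measurable SmyG := by
  unfold SmyG
  fun_prop

private lemma Smy_parts : ∫ a in (0:ℝ)..(1 / 2), (∫ c in (0:ℝ)..a, SmyG c) =
    ∫ a in (0:ℝ)..(1 / 2), (1 / 2 - a) * SmyG a := by
  have h := intervalIntegral.integral_mul_deriv_eq_deriv_mul_of_hasDerivAt
    (a := 0) (b := 1 / 2) (u := fun a => ∫ c in (0:ℝ)..a, SmyG c) (u' := SmyG)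
    (v := fun a => a - 1 / 2) (v' := fun _ => (1:ℝ)) Smy_prim_cont (by fun_prop)
    (by
      intro x hx
      rw [min_eq_left (by norm_num), max_eq_right (by norm_num)] at hx
      apply intervalIntegral.integral_hasDerivAt_right
      · apply SmyG_int.mono_set
        rw [uIcc_of_le hx.1.le, uIcc_of_le (by norm_num)]
        exact Icc_subset_Icc le_rfl hx.2.le
      · exact Smy_meas.stronglyMeasurable.stronglyMeasurableAtFilter
      · exact Smy_cont hx.1 hx.2)
    (by
      intro x _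
      exact (hasDerivAt_id x).sub_const _)
    SmyG_int (by simp)
  simp only [mul_one, intervalIntegral.integral_same, zero_mul, sub_self, mul_zero] at h
  rw [h, zero_sub, ← intervalIntegral.integral_neg]
  apply intervalIntegral.integral_congr
  intro x _
  simp only
  ring

theorem smyth : ∫ x, Real.log x ∂nu = 7 * z3 / Real.pi ^ 2 := by
  rw [log_cube]
  change 2 * (∫ a in (0:ℝ)..1, ∫ c in (0:ℝ)..1, max (SmyG a) (SmyG c)) = _
  have i1 : IntervalIntegrable (fun a => ∫ c in (0:ℝ)..a, SmyG c) volume 0 (1 / 2) :=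
    Smy_prim_cont.intervalIntegrable
  have i2 : IntervalIntegrable (fun a => (1 / 2 - a) * SmyG a) volume 0 (1 / 2) :=
    SmyG_int.continuousOn_mul (by fun_prop)
  have e1 : ∀ a, ∫ c in (0:ℝ)..1, max (SmyG a) (SmyG c) =
      2 * ∫ c in (0:ℝ)..(1 / 2), max (SmyG a) (SmyG c) := by
    intro a
    apply Smy_half (Smy_max_int (SmyG a) le_rfl (by norm_num) le_rfl)
    intro x
    rw [SmyG_symm]
  simp only [e1]
  have hc : EqOn (fun a => 2 * ∫ c in (0:ℝ)..(1 / 2), max (SmyG a) (SmyG c))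
      (fun a => 2 * ((∫ c in (0:ℝ)..a, SmyG c) + (1 / 2 - a) * SmyG a)) (Ioo 0 (1 / 2)) := by
    intro a ha
    simp only
    rw [Smy_inner ha.1 ha.2]
  have i3 : IntervalIntegrable (fun a => 2 * ∫ c in (0:ℝ)..(1 / 2), max (SmyG a) (SmyG c))
      volume 0 (1 / 2) := by
    have h := (i1.add i2).const_mul 2
    rw [intervalIntegrable_iff_integrableOn_Ioo_of_le (by norm_num)] at h ⊢
    exact h.congr_fun hc.symm measurableSet_Ioo
  rw [Smy_half i3 (by intro x; simp only [SmyG_symm])]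
  rw [intervalIntegral.integral_congr_Ioo_of_le (by norm_num) hc]
  rw [intervalIntegral.integral_const_mul, intervalIntegral.integral_add i1 i2, Smy_parts]
  have e3 : ∫ m in (0:ℝ)..(1 / 2), (1 - 2 * m) * Real.log (2 * Real.cos (Real.pi * m)) =
      2 * ∫ a in (0:ℝ)..(1 / 2), (1 / 2 - a) * SmyG a := by
    rw [← intervalIntegral.integral_const_mul]
    apply intervalIntegral.integral_congr_Ioo_of_le (by norm_num)
    intro m hm
    simp only
    rw [SmyG_eq hm.1.le hm.2.le]
    ring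
  have e4 := smyB
  rw [e3] at e4
  have hp : (Real.pi : ℝ) ≠ 0 := Real.pi_ne_zero
  have e5 : 7 * z3 / Real.pi ^ 2 = 8 * (7 * z3 / (8 * Real.pi ^ 2)) := by
    field_simp
  rw [e5, ← e4]
  ring

end RV15W
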