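import Mathlib
import Pool.Agent.RV15W.Defs
import Pool.Agent.RV15W.Fin
import Pool.Agent.RV15W.Mom
import Pool.Agent.RV15W.Smy
import Pool.Agent.RV15W.Jen

/-!
# RV15W/Main: the walk part
-/

set_option autoImplicit false

open MeasureTheory Set

namespace RV15W

theorem walk_main : m5 = 7 * z3 / (2 * Real.pi ^ 2) +
    96 * ∫ s in Ioi (Real.sqrt 15 / 6), s * Ps s * lr s := by
  rw [jen, fin_law nu_walk log_int, smyth]
  field_simp
  ring

end RV15W
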